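import Pool.Agent.R485.Mult.Dioph

/-!
# Box norms: exponential sums with coefficients that are products of functions not depending on all
variables
-/

set_option autoImplicit false

namespace Pool.Agent.J6H30.PV

open Finset
open Pool.Agent.H469R2.NK (e norm_e e_add e_zero conj_e)

/-- summation over a product of finite sets, the first variable apart -/
lemma sum_cons {n : ℕ} {G : Type*} [AddCommMonoid G] (I : Fin (n + 1) → Finset ℤ)
    (f : (Fin (n + 1) → ℤ) → G) :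
    ∑ a ∈ Fintype.piFinset I, f a =
      ∑ z ∈ I 0, ∑ a ∈ Fintype.piFinset (fun i : Fin n => I i.succ), f (Fin.cons z a) := by
  rw [← sum_product']
  refine sum_nbij' (fun a => (a 0, fun i => a i.succ)) (fun p => Fin.cons p.1 p.2) ?_ ?_ ?_ ?_ ?_
  · intro a ha
    rw [Fintype.mem_piFinset] at ha
    rw [mem_product, Fintype.mem_piFinset]
    exact ⟨ha 0, fun i => ha i.succ⟩
  · rintro ⟨z, a⟩ h
    rw [mem_product, Fintype.mem_piFinset] at h
    rw [Fintype.mem_piFinset]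
    intro i
    refine Fin.cases ?_ (fun j => ?_) i
    · exact h.1
    · exact h.2 j
  · intro a _
    exact Fin.cons_self_tail a
  · rintro ⟨z, a⟩ _
    rfl
  · intro a _
    simp only
    congr 1
    exact (Fin.cons_self_tail a).symm

/-- summation over functions without arguments -/
lemma sum_elim {G : Type*} [AddCommMonoid G] (I : Fin 0 → Finset ℤ) (f : (Fin 0 → ℤ) → G) :
    ∑ a ∈ Fintype.piFinset I, f a = f Fin.elim0 := by
  rw [Fintype.piFinset_of_isEmpty, univ_unique, sum_singleton]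
  congr 1

/-- the box norm -/
noncomputable def BN : (n : ℕ) → (Fin n → Finset ℤ) → ((Fin n → ℤ) → ℝ) → ℂ
  | 0, _, φ => e (φ Fin.elim0)
  | n + 1, I, φ => ∑ z ∈ I 0, ∑ z' ∈ I 0,
      BN n (fun i => I i.succ) (fun a => φ (Fin.cons z a) - φ (Fin.cons z' a))

lemma BN_zero (I : Fin 0 → Finset ℤ) (φ : (Fin 0 → ℤ) → ℝ) : BN 0 I φ = e (φ Fin.elim0) := rfl

lemma BN_succ (n : ℕ) (I : Fin (n + 1) → Finset ℤ) (φ : (Fin (n + 1) → ℤ) → ℝ) :
    BN (n + 1) I φ = ∑ z ∈ I 0, ∑ z' ∈ I 0,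
      BN n (fun i => I i.succ) (fun a => φ (Fin.cons z a) - φ (Fin.cons z' a)) := rfl

lemma sum_mul_conj {ι : Type*} (S : Finset ι) (f : ι → ℂ) :
    ∑ z ∈ S, ∑ z' ∈ S, f z * (starRingEnd ℂ) (f z') = ((‖∑ z ∈ S, f z‖ ^ 2 : ℝ) : ℂ) := by
  rw [← Complex.normSq_eq_norm_sq, ← Complex.mul_conj, map_sum, sum_mul_sum]

lemma BN_one (I : Fin 1 → Finset ℤ) (φ : (Fin 1 → ℤ) → ℝ) :
    BN 1 I φ = ((‖∑ a ∈ Fintype.piFinset I, e (φ a)‖ ^ 2 : ℝ) : ℂ) := by
  rw [sum_cons]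
  simp only [sum_elim]
  rw [← sum_mul_conj, BN_succ]
  refine sum_congr rfl fun z _ => sum_congr rfl fun z' _ => ?_
  rw [BN_zero, conj_e, ← e_add, ← sub_eq_add_neg]

lemma BN_nonneg (n : ℕ) : ∀ (I : Fin (n + 1) → Finset ℤ) (φ : (Fin (n + 1) → ℤ) → ℝ),
    ∃ r : ℝ, 0 ≤ r ∧ BN (n + 1) I φ = (r : ℂ) := by
  induction n with
  | zero =>
    intro I φ
    exact ⟨_, by positivity, BN_one I φ⟩
  | succ n ih =>
    intro I φ
    choose r hr1 hr2 using fun z z' : ℤ => ih (fun i => I i.succ)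
      (fun a => φ (Fin.cons z a) - φ (Fin.cons z' a))
    refine ⟨∑ z ∈ I 0, ∑ z' ∈ I 0, r z z', sum_nonneg fun z _ => sum_nonneg fun z' _ => hr1 z z', ?_⟩
    rw [BN_succ]
    push_cast
    exact sum_congr rfl fun z _ => sum_congr rfl fun z' _ => hr2 z z'

lemma chain (V c S T U B : ℝ) (m : ℕ) (hm : 2 ≤ m) (hV : 0 ≤ V) (hc : 0 ≤ c) (_hS : 0 ≤ S)
    (hT : 0 ≤ T) (h1 : S ^ 2 ≤ V * T) (h2 : T ^ m ≤ (c ^ 2) ^ (m - 1) * U)
    (h3 : U ≤ V ^ (m - 2) * B) : S ^ (2 * m) ≤ (c * V) ^ (2 * m - 2) * B := by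
  have e6 : V ^ (2 * m - 2) = V ^ m * V ^ (m - 2) := by
    rw [← pow_add]
    congr 1
    omega
  have e7 : c ^ (2 * m - 2) = (c ^ 2) ^ (m - 1) := by
    rw [← pow_mul]
    congr 1
    omega
  calc S ^ (2 * m) = (S ^ 2) ^ m := pow_mul _ _ _
    _ ≤ (V * T) ^ m := pow_le_pow_left₀ (by positivity) h1 _
    _ = V ^ m * T ^ m := mul_pow _ _ _
    _ ≤ V ^ m * ((c ^ 2) ^ (m - 1) * U) := mul_le_mul_of_nonneg_left h2 (by positivity)
    _ ≤ V ^ m * ((c ^ 2) ^ (m - 1) * (V ^ (m - 2) * B)) :=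
        mul_le_mul_of_nonneg_left (mul_le_mul_of_nonneg_left h3 (by positivity)) (by positivity)
    _ = (c * V) ^ (2 * m - 2) * B := by
        rw [mul_pow, e6, e7]
        ring

/-- **The Gowers-Cauchy-Schwarz inequality.** -/
theorem box_norm (n : ℕ) : ∀ (I : Fin (n + 1) → Finset ℤ) (φ : (Fin (n + 1) → ℤ) → ℝ)
    (w : Fin (n + 1) → (Fin (n + 1) → ℤ) → ℂ), (∀ i a, ‖w i a‖ ≤ 1) →
    (∀ i a z, w i (Function.update a i z) = w i a) →
    ‖∑ a ∈ Fintype.piFinset I, (∏ i, w i a) * e (φ a)‖ ^ (2 ^ (n + 1)) ≤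
      (∏ i, ((I i).card : ℝ)) ^ (2 ^ (n + 1) - 2) * ‖BN (n + 1) I φ‖ := by
  induction n with
  | zero =>
    intro I φ w hw hind
    have h0 : ∀ a : Fin 1 → ℤ, w 0 a = w 0 (fun _ => 0) := by
      intro a
      have := hind 0 (fun _ => 0) (a 0)
      rw [← this]
      congr 1
      funext i
      fin_cases i
      simp
    have h1 : ∑ a ∈ Fintype.piFinset I, (∏ i, w i a) * e (φ a) =
        w 0 (fun _ => 0) * ∑ a ∈ Fintype.piFinset I, e (φ a) := by
      rw [mul_sum]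
      refine sum_congr rfl fun a _ => ?_
      rw [Fin.prod_univ_one, h0]
    rw [h1, BN_one, norm_mul, Complex.norm_real, Real.norm_eq_abs, abs_of_nonneg (by positivity)]
    norm_num
    rw [mul_pow]
    have h2 := pow_le_one₀ (norm_nonneg (w 0 (fun _ => 0))) (hw 0 (fun _ => 0)) (n := 2)
    exact mul_le_of_le_one_left (by positivity) h2
  | succ n ih =>
    intro I φ w hw hind
    set I' : Fin (n + 1) → Finset ℤ := fun i => I i.succ with hI'
    set V' : ℝ := ∏ i, ((I' i).card : ℝ) with hV'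
    set c : ℝ := ((I 0).card : ℝ) with hc
    have hc0 : 0 ≤ c := Nat.cast_nonneg _
    have hV'0 : 0 ≤ V' := prod_nonneg fun _ _ => Nat.cast_nonneg _
    have hcard : ((Fintype.piFinset I').card : ℝ) = V' := by
      rw [Fintype.card_piFinset]
      push_cast
      rfl
    set ψ : ℤ → ℤ → (Fin (n + 1) → ℤ) → ℝ := fun z z' a => φ (Fin.cons z a) - φ (Fin.cons z' a)
      with hψ
    set u : ℤ → ℤ → Fin (n + 1) → (Fin (n + 1) → ℤ) → ℂ := fun z z' i a =>
      w i.succ (Fin.cons z a) * (starRingEnd ℂ) (w i.succ (Fin.cons z' a)) with hu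
    -- step 1
    have e1 : ∑ a ∈ Fintype.piFinset I, (∏ i, w i a) * e (φ a) =
        ∑ a ∈ Fintype.piFinset I', w 0 (Fin.cons 0 a) * ∑ z ∈ I 0,
          (∏ i : Fin (n + 1), w i.succ (Fin.cons z a)) * e (φ (Fin.cons z a)) := by
      rw [sum_cons, sum_comm]
      refine sum_congr rfl fun a _ => ?_
      rw [mul_sum]
      refine sum_congr rfl fun z _ => ?_
      rw [Fin.prod_univ_succ]
      have e2 : w 0 (Fin.cons z a) = w 0 (Fin.cons 0 a) := by
        have := hind 0 (Fin.cons 0 a) z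
        rw [← this, Fin.update_cons_zero]
      rw [e2, mul_assoc]
    have h1 : ‖∑ a ∈ Fintype.piFinset I, (∏ i, w i a) * e (φ a)‖ ^ 2 ≤
        V' * ∑ z ∈ I 0, ∑ z' ∈ I 0,
          ‖∑ a ∈ Fintype.piFinset I', (∏ i, u z z' i a) * e (ψ z z' a)‖ := by
      rw [e1]
      have h2 : ‖∑ a ∈ Fintype.piFinset I', w 0 (Fin.cons 0 a) * ∑ z ∈ I 0,
          (∏ i : Fin (n + 1), w i.succ (Fin.cons z a)) * e (φ (Fin.cons z a))‖ ≤
          ∑ a ∈ Fintype.piFinset I', ‖∑ z ∈ I 0,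
          (∏ i : Fin (n + 1), w i.succ (Fin.cons z a)) * e (φ (Fin.cons z a))‖ := by
        refine (norm_sum_le _ _).trans (sum_le_sum fun a _ => ?_)
        rw [norm_mul]
        exact mul_le_of_le_one_left (norm_nonneg _) (hw _ _)
      have h3 := pow_le_pow_left₀ (norm_nonneg _) h2 2
      refine h3.trans ?_
      refine (sq_sum_le_card_mul_sum_sq).trans ?_
      rw [hcard]
      apply mul_le_mul_of_nonneg_left _ hV'0
      have e3 : ((∑ a ∈ Fintype.piFinset I', ‖∑ z ∈ I 0,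
          (∏ i : Fin (n + 1), w i.succ (Fin.cons z a)) * e (φ (Fin.cons z a))‖ ^ 2 : ℝ) : ℂ) =
          ∑ z ∈ I 0, ∑ z' ∈ I 0,
            ∑ a ∈ Fintype.piFinset I', (∏ i, u z z' i a) * e (ψ z z' a) := by
        rw [Complex.ofReal_sum]
        rw [sum_congr rfl fun a _ => (sum_mul_conj (I 0) (fun z =>
          (∏ i : Fin (n + 1), w i.succ (Fin.cons z a)) * e (φ (Fin.cons z a)))).symm]
        rw [sum_comm]
        refine sum_congr rfl fun z _ => ?_
        rw [sum_comm]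
        refine sum_congr rfl fun z' _ => sum_congr rfl fun a _ => ?_
        rw [map_mul, map_prod, conj_e, hψ, hu]
        simp only
        rw [sub_eq_add_neg, e_add, prod_mul_distrib]
        ring
      have e4 : ∑ a ∈ Fintype.piFinset I', ‖∑ z ∈ I 0,
          (∏ i : Fin (n + 1), w i.succ (Fin.cons z a)) * e (φ (Fin.cons z a))‖ ^ 2 =
          ‖∑ z ∈ I 0, ∑ z' ∈ I 0,
            ∑ a ∈ Fintype.piFinset I', (∏ i, u z z' i a) * e (ψ z z' a)‖ := by
        rw [← e3, Complex.norm_real, Real.norm_eq_abs, abs_of_nonneg]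
        exact sum_nonneg fun _ _ => by positivity
      rw [e4]
      refine (norm_sum_le _ _).trans (sum_le_sum fun z _ => norm_sum_le _ _)
    -- step 2
    have h2 : ∀ z z' : ℤ, ‖∑ a ∈ Fintype.piFinset I', (∏ i, u z z' i a) * e (ψ z z' a)‖ ^
        (2 ^ (n + 1)) ≤ V' ^ (2 ^ (n + 1) - 2) * ‖BN (n + 1) I' (ψ z z')‖ := by
      intro z z'
      apply ih I' (ψ z z') (u z z')
      · intro i a
        rw [hu]
        simp only
        rw [norm_mul, RCLike.norm_conj]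
        exact mul_le_one₀ (hw _ _) (norm_nonneg _) (hw _ _)
      · intro i a t
        rw [hu]
        simp only
        rw [Fin.cons_update, Fin.cons_update, hind, hind]
    -- step 3
    have h3 : (∑ z ∈ I 0, ∑ z' ∈ I 0,
        ‖∑ a ∈ Fintype.piFinset I', (∏ i, u z z' i a) * e (ψ z z' a)‖) ^ (2 ^ (n + 1)) ≤
        (c ^ 2) ^ (2 ^ (n + 1) - 1) * ∑ z ∈ I 0, ∑ z' ∈ I 0,
          ‖∑ a ∈ Fintype.piFinset I', (∏ i, u z z' i a) * e (ψ z z' a)‖ ^ (2 ^ (n + 1)) := by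
      rw [← sum_product', ← sum_product']
      obtain ⟨m, hm⟩ : ∃ m, 2 ^ (n + 1) = m + 1 := ⟨2 ^ (n + 1) - 1, by
        have := Nat.one_le_two_pow (n := n + 1)
        omega⟩
      rw [hm, Nat.add_sub_cancel]
      have h4 := pow_sum_le_card_mul_sum_pow (s := I 0 ×ˢ I 0) (f := fun p : ℤ × ℤ =>
        ‖∑ a ∈ Fintype.piFinset I', (∏ i, u p.1 p.2 i a) * e (ψ p.1 p.2 a)‖)
        (fun p _ => norm_nonneg _) m
      refine h4.trans (le_of_eq ?_)
      rw [card_product]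
      push_cast
      rw [← hc, pow_two]
    have h4 : ∑ z ∈ I 0, ∑ z' ∈ I 0, ‖BN (n + 1) I' (ψ z z')‖ = ‖BN (n + 2) I φ‖ := by
      rw [BN_succ]
      choose r hr1 hr2 using fun z z' : ℤ => BN_nonneg n I' (ψ z z')
      have e5 : ∑ z ∈ I 0, ∑ z' ∈ I 0, BN (n + 1) (fun i => I i.succ)
          (fun a => φ (Fin.cons z a) - φ (Fin.cons z' a)) =
          ((∑ z ∈ I 0, ∑ z' ∈ I 0, r z z' : ℝ) : ℂ) := by
        push_cast
        exact sum_congr rfl fun z _ => sum_congr rfl fun z' _ => hr2 z z'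
      rw [e5, Complex.norm_real, Real.norm_eq_abs, abs_of_nonneg
        (sum_nonneg fun z _ => sum_nonneg fun z' _ => hr1 z z')]
      refine sum_congr rfl fun z _ => sum_congr rfl fun z' _ => ?_
      rw [hr2, Complex.norm_real, Real.norm_eq_abs, abs_of_nonneg (hr1 z z')]
    have hp : (2 : ℕ) ^ (n + 1 + 1) = 2 * 2 ^ (n + 1) := by rw [pow_succ]; ring
    have hp2 : 2 ≤ 2 ^ (n + 1) := by
      have := Nat.pow_le_pow_right (n := 2) (by norm_num) (show 1 ≤ n + 1 by omega)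
      simpa using this
    have h5 : ∑ z ∈ I 0, ∑ z' ∈ I 0,
        ‖∑ a ∈ Fintype.piFinset I', (∏ i, u z z' i a) * e (ψ z z' a)‖ ^ (2 ^ (n + 1)) ≤
        V' ^ (2 ^ (n + 1) - 2) * ‖BN (n + 2) I φ‖ := by
      rw [← h4, mul_sum]
      refine sum_le_sum fun z _ => ?_
      rw [mul_sum]
      exact sum_le_sum fun z' _ => h2 z z'
    have h6 := chain V' c _ _ _ _ (2 ^ (n + 1)) hp2 hV'0 hc0 (norm_nonneg _)
      (sum_nonneg fun z _ => sum_nonneg fun z' _ => norm_nonneg _) h1 h3 h5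
    rw [hp, Fin.prod_univ_succ]
    exact h6

end Pool.Agent.J6H30.PV
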