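import Pool.Agent.R485.Mult.Disc

/-!
# A criterion for families of numbers most of which have digits with the discrepancy of a random number
-/

set_option autoImplicit false

namespace Pool.Agent.J6H30.PV

open Finset Filter Topology
open Pool.Agent.H469R2.NK (e norm_e e_add e_zero conj_e)
open Pool.Agent.R485.Mult (sg abs_sg pow_expand count_vanish dev_bound)

/-- the first `n ≤ N` digits of `z` to the base `b` have discrepancy at most `E` -/
def Good (B N : ℕ) (E z : ℝ) : Prop :=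
  ∀ b : ℕ, 2 ≤ b → b ≤ B → ∀ n : ℕ, n ≤ N → ∀ α β : ℝ, 0 ≤ α → α < β → β ≤ 1 →
    |(((Icc 1 n).filter (fun i : ℕ => α ≤ Int.fract (z * (b : ℝ) ^ i) ∧
      Int.fract (z * (b : ℝ) ^ i) < β)).card : ℝ) - (β - α) * n| ≤ E

/-- `Good` depends on `z` modulo one only -/
lemma good_add_int (B N : ℕ) (E z : ℝ) (m : ℤ) : Good B N E (z + m) ↔ Good B N E z := by
  unfold Good
  have h : ∀ b i : ℕ, Int.fract ((z + m) * (b : ℝ) ^ i) = Int.fract (z * (b : ℝ) ^ i) := by
    intro b i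
    have : (z + m) * (b : ℝ) ^ i = z * (b : ℝ) ^ i + ((m * (b : ℤ) ^ i : ℤ) : ℝ) := by
      push_cast
      ring
    rw [this, Int.fract_add_intCast]
  simp_rw [h]

/-- **The criterion.** -/
theorem criterion (B : ℕ) (δ : ℝ) (hδ : 0 < δ) (A : ℕ) : ∃ s N₀ : ℕ, 1 ≤ s ∧ ∀ N : ℕ, N₀ ≤ N →
    ∀ (ι : Type) (Ω : Finset ι) (z : ι → ℝ),
    (∀ b : ℕ, 2 ≤ b → b ≤ B → ∀ h : ℕ, 1 ≤ h → h ≤ N → ∀ p : Fin (2 * s) → ℕ, (∀ j, p j ≤ N) →
      ∑ j : Fin (2 * s), sg j * (b : ℤ) ^ (p j) ≠ 0 →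
      ‖∑ ω ∈ Ω, e (h * z ω * ((∑ j : Fin (2 * s), sg j * (b : ℤ) ^ (p j) : ℤ) : ℝ))‖ * (N : ℝ) ^ s ≤
        Ω.card) →
    ({ω | ω ∈ Ω ∧ ¬ Good B N ((N : ℝ) ^ (1 / 2 + δ)) (z ω)}.ncard : ℝ) * (N : ℝ) ^ A ≤ Ω.card := by
  classical
  set s : ℕ := max 1 ⌈((A : ℝ) + 3) / δ⌉₊ with hs
  have hs1 : 1 ≤ s := le_max_left _ _
  have hsδ : (A : ℝ) + 3 ≤ s * δ := by
    have h0 : ⌈((A : ℝ) + 3) / δ⌉₊ ≤ s := le_max_right _ _
    have h1 : ((A : ℝ) + 3) / δ ≤ s := (Nat.le_ceil _).trans (Nat.cast_le.2 h0)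
    rwa [div_le_iff₀ hδ] at h1
  set C0 : ℕ := s ^ (2 * s) * (2 * (2 * s) + 1) ^ (2 * s) with hC0
  set C : ℕ := C0 + 1 with hC
  have hl2 : ∀ᶠ N : ℕ in atTop, 6 + 2 * Real.log N ≤ (N : ℝ) ^ (δ / 2) := by
    have h1 : (fun u : ℝ => 6 + 2 * Real.log u) =o[atTop] (fun u : ℝ => u ^ (δ / 2)) := by
      apply Asymptotics.IsLittleO.add
      · exact Asymptotics.isLittleO_const_left.2 (Or.inr (by
          refine tendsto_norm_atTop_atTop.comp (tendsto_rpow_atTop (by positivity))))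
      · exact (isLittleO_log_rpow_atTop (by positivity)).const_mul_left 2
    have h2 := (h1.comp_tendsto tendsto_natCast_atTop_atTop).bound (c := 1) one_pos
    filter_upwards [h2, eventually_ge_atTop 1] with N hN hN1
    simp only [Function.comp, Real.norm_eq_abs, one_mul] at hN
    have hN1' : (1 : ℝ) ≤ N := by exact_mod_cast hN1
    rw [abs_of_nonneg (a := (N : ℝ) ^ (δ / 2)) (by positivity)] at hN
    exact (le_abs_self _).trans hN
  obtain ⟨N2, hN2⟩ := eventually_atTop.1 hl2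
  refine ⟨s, max N2 (max 1 (2 * B * C)), hs1, fun N hN ι Ω z hz => ?_⟩
  have hNc := hN2 N ((le_max_left _ _).trans hN)
  have hNd : 1 ≤ N := ((le_max_left _ _).trans (le_max_right _ _)).trans hN
  have hNe : 2 * B * C ≤ N := ((le_max_right _ _).trans (le_max_right _ _)).trans hN
  have hNR : (1 : ℝ) ≤ N := by exact_mod_cast hNd
  have hN0 : (0 : ℝ) < N := by linarith
  set M : ℝ := (Ω.card : ℝ) with hM
  have hM0 : 0 ≤ M := Nat.cast_nonneg _
  set T : ℝ := (N : ℝ) ^ (1 / 2 + δ / 2) with hTd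
  have hT0 : 0 < T := Real.rpow_pos_of_pos hN0 _
  have hTs : T ^ (2 * s) = (N : ℝ) ^ s * (N : ℝ) ^ (s * δ) := by
    rw [hTd, ← Real.rpow_natCast, ← Real.rpow_mul hN0.le, ← Real.rpow_natCast (N : ℝ) s,
      ← Real.rpow_add hN0]
    congr 1
    push_cast
    ring
  have hTs2 : (N : ℝ) ^ s * (N : ℝ) ^ (A + 3) ≤ T ^ (2 * s) := by
    rw [hTs]
    apply mul_le_mul_of_nonneg_left _ (by positivity)
    rw [← Real.rpow_natCast]
    apply Real.rpow_le_rpow_of_exponent_le hNR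
    push_cast
    exact hsδ
  -- the moments
  set S : ℕ → ℕ → ℕ → ι → ℂ := fun b h n ω => ∑ i ∈ Icc 1 n, e (h * z ω * (b : ℝ) ^ i) with hS
  have hmom : ∀ b : ℕ, 2 ≤ b → b ≤ B → ∀ h n : ℕ, 1 ≤ h → h ≤ N → n ≤ N →
      ∑ ω ∈ Ω, ‖S b h n ω‖ ^ (2 * s) ≤ M * C * (N : ℝ) ^ s := by
    intro b hb hbB h n hh1 hh hn
    set K : (Fin (2 * s) → ℕ) → ℤ := fun p => ∑ j : Fin (2 * s), sg j * (b : ℤ) ^ (p j) with hK
    set PP := Fintype.piFinset (fun _ : Fin (2 * s) => Icc 1 n) with hPP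
    have h1 : ((∑ ω ∈ Ω, ‖S b h n ω‖ ^ (2 * s) : ℝ) : ℂ) =
        ∑ p ∈ PP, ∑ ω ∈ Ω, e (h * z ω * (K p : ℝ)) := by
      rw [Complex.ofReal_sum, sum_comm]
      refine sum_congr rfl fun ω _ => ?_
      rw [hS]
      simp only
      rw [pow_expand]
    have h2 : ∑ ω ∈ Ω, ‖S b h n ω‖ ^ (2 * s) = ‖∑ p ∈ PP, ∑ ω ∈ Ω, e (h * z ω * (K p : ℝ))‖ := by
      rw [← h1, Complex.norm_real, Real.norm_eq_abs, abs_of_nonneg]
      exact sum_nonneg fun ω _ => by positivity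
    rw [h2]
    have h3 : ∀ p ∈ PP, ‖∑ ω ∈ Ω, e (h * z ω * (K p : ℝ))‖ ≤
        (if K p = 0 then M else 0) + M / (N : ℝ) ^ s := by
      intro p hp
      split_ifs with hp0
      · have : ‖∑ ω ∈ Ω, e (h * z ω * (K p : ℝ))‖ ≤ M := by
          refine (norm_sum_le _ _).trans ?_
          rw [sum_congr rfl fun ω _ => norm_e _]
          simp [hM]
        have h5 : 0 ≤ M / (N : ℝ) ^ s := by positivity
        linarith
      · rw [zero_add, le_div_iff₀ (by positivity)]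
        refine hz b hb hbB h hh1 hh p (fun j => ?_) hp0
        have := (Fintype.mem_piFinset.1 hp) j
        rw [mem_Icc] at this
        omega
    refine (norm_sum_le _ _).trans ((sum_le_sum h3).trans ?_)
    rw [sum_add_distrib, ← sum_filter, sum_const, sum_const, nsmul_eq_mul, nsmul_eq_mul]
    have h7 := count_vanish b hb s hs1 (fun j => sg j) (fun j => abs_sg j) n
    have h8 : (((PP.filter (fun p => K p = 0)).card : ℕ) : ℝ) ≤ C0 * (N : ℝ) ^ s := by
      refine (Nat.cast_le.2 h7).trans ?_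
      push_cast
      rw [hC0]
      push_cast
      gcongr
    have h9 : ((PP.card : ℕ) : ℝ) ≤ (N : ℝ) ^ s * (N : ℝ) ^ s := by
      rw [hPP, Fintype.card_piFinset]
      simp only [Nat.card_Icc, Nat.add_sub_cancel, prod_const, card_univ, Fintype.card_fin]
      rw [← pow_add, ← two_mul]
      push_cast
      exact pow_le_pow_left₀ (Nat.cast_nonneg _) (by exact_mod_cast hn) _
    calc (((PP.filter (fun p => K p = 0)).card : ℕ) : ℝ) * M + ((PP.card : ℕ) : ℝ) * (M / (N : ℝ) ^ s)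
        ≤ (C0 * (N : ℝ) ^ s) * M + ((N : ℝ) ^ s * (N : ℝ) ^ s) * (M / (N : ℝ) ^ s) := by
          gcongr
      _ = M * C * (N : ℝ) ^ s := by
          rw [hC]
          push_cast
          field_simp
  -- the exceptional sets
  set E : ℕ → ℕ → ℕ → Finset ι := fun b h n => Ω.filter (fun ω => T < ‖S b h n ω‖) with hE
  have hEc : ∀ b ∈ Icc 2 B, ∀ h ∈ Icc 1 N, ∀ n ∈ range (N + 1),
      ((E b h n).card : ℝ) ≤ M * C / N ^ (A + 3) := by
    intro b hb h hh n hn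
    rw [mem_Icc] at hb hh
    rw [mem_range] at hn
    have h1 := hmom b hb.1 hb.2 h n hh.1 hh.2 (by omega)
    have h2 : ((E b h n).card : ℝ) * T ^ (2 * s) ≤ ∑ ω ∈ Ω, ‖S b h n ω‖ ^ (2 * s) := by
      calc ((E b h n).card : ℝ) * T ^ (2 * s) = ∑ ω ∈ E b h n, T ^ (2 * s) := by
            rw [sum_const, nsmul_eq_mul]
        _ ≤ ∑ ω ∈ E b h n, ‖S b h n ω‖ ^ (2 * s) := by
            refine sum_le_sum fun m hm => ?_
            exact pow_le_pow_left₀ hT0.le (mem_filter.1 hm).2.le _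
        _ ≤ ∑ ω ∈ Ω, ‖S b h n ω‖ ^ (2 * s) :=
            sum_le_sum_of_subset_of_nonneg (filter_subset _ _) fun m _ _ => by positivity
    have h4 : ((E b h n).card : ℝ) * ((N : ℝ) ^ s * (N : ℝ) ^ (A + 3)) ≤ M * C * N ^ s :=
      (mul_le_mul_of_nonneg_left hTs2 (Nat.cast_nonneg _)).trans (h2.trans h1)
    rw [le_div_iff₀ (by positivity)]
    have h5 : ((E b h n).card : ℝ) * (N : ℝ) ^ (A + 3) * N ^ s ≤ M * C * N ^ s := by linarith
    exact le_of_mul_le_mul_right h5 (by positivity)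
  set U : Finset ι := (Icc 2 B).biUnion fun b => (Icc 1 N).biUnion fun h =>
    (range (N + 1)).biUnion fun n => E b h n with hU
  have hUc : (U.card : ℝ) ≤ B * (N * ((N + 1) * (M * C / N ^ (A + 3)))) := by
    have hq : 0 ≤ M * C / N ^ (A + 3) := by positivity
    have h1 : ∀ b ∈ Icc 2 B, ∀ h ∈ Icc 1 N,
        ((((range (N + 1)).biUnion fun n => E b h n).card : ℕ) : ℝ) ≤
          (N + 1) * (M * C / N ^ (A + 3)) := by
      intro b hb h hh
      refine (Nat.cast_le.2 card_biUnion_le).trans ?_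
      push_cast
      refine (sum_le_sum (hEc b hb h hh)).trans ?_
      rw [sum_const, card_range, nsmul_eq_mul]
      push_cast
      exact le_rfl
    have h2 : ∀ b ∈ Icc 2 B, ((((Icc 1 N).biUnion fun h =>
        (range (N + 1)).biUnion fun n => E b h n).card : ℕ) : ℝ) ≤
          N * ((N + 1) * (M * C / N ^ (A + 3))) := by
      intro b hb
      refine (Nat.cast_le.2 card_biUnion_le).trans ?_
      push_cast
      refine (sum_le_sum (h1 b hb)).trans ?_
      rw [sum_const, Nat.card_Icc, nsmul_eq_mul, Nat.add_sub_cancel]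
    refine (Nat.cast_le.2 card_biUnion_le).trans ?_
    push_cast
    refine (sum_le_sum h2).trans ?_
    rw [sum_const, Nat.card_Icc, nsmul_eq_mul]
    apply mul_le_mul_of_nonneg_right _ (by positivity)
    exact_mod_cast (by omega : B + 1 - 2 ≤ B)
  have hfin : (U.card : ℝ) * N ^ A ≤ M := by
    have h1 : (B : ℝ) * (N * ((N + 1) * (M * C / N ^ (A + 3)))) * N ^ A =
        M * (B * C * (N + 1) / N ^ 2) := by
      field_simp
      ring
    have h2 : (B : ℝ) * C * (N + 1) / N ^ 2 ≤ 1 := by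
      rw [div_le_one (by positivity)]
      have h3 : 2 * (B : ℝ) * C ≤ N := by exact_mod_cast hNe
      have h4 : (0 : ℝ) ≤ B * C := by positivity
      nlinarith
    calc (U.card : ℝ) * N ^ A ≤ (B : ℝ) * (N * ((N + 1) * (M * C / N ^ (A + 3)))) * N ^ A := by
          exact mul_le_mul_of_nonneg_right hUc (by positivity)
      _ = M * (B * C * (N + 1) / N ^ 2) := h1
      _ ≤ M * 1 := mul_le_mul_of_nonneg_left h2 hM0
      _ = M := mul_one _
  refine le_trans ?_ hfin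
  apply mul_le_mul_of_nonneg_right _ (by positivity)
  rw [← Set.ncard_coe_finset U]
  refine Nat.cast_le.2 (Set.ncard_le_ncard ?_ (finite_toSet U))
  rintro m ⟨hm, hbad⟩
  rw [mem_coe]
  by_contra hmU
  apply hbad
  intro b hb2 hbB n hn α β h0 h1 h2
  have hT : ∀ h : ℕ, 1 ≤ h → h ≤ N → ‖∑ i ∈ Icc 1 n, e (h * (z m * (b : ℝ) ^ i))‖ ≤ T := by
    intro h hh1 hh2
    by_contra hcon
    push Not at hcon
    apply hmU
    rw [hU, mem_biUnion]
    refine ⟨b, mem_Icc.2 ⟨hb2, hbB⟩, ?_⟩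
    rw [mem_biUnion]
    refine ⟨h, mem_Icc.2 ⟨hh1, hh2⟩, ?_⟩
    rw [mem_biUnion]
    refine ⟨n, mem_range.2 (by omega), ?_⟩
    rw [hE]
    simp only [mem_filter]
    refine ⟨hm, ?_⟩
    rw [hS]
    simp only
    have : ∀ i : ℕ, (h : ℝ) * (z m * (b : ℝ) ^ i) = h * z m * (b : ℝ) ^ i := fun i => by ring
    simp_rw [this] at hcon
    exact hcon
  have h5 := dev_bound (fun i => z m * (b : ℝ) ^ i) n N hn hNd T hT α β h0 h1 h2
  refine h5.trans ?_
  have h6 : Real.sqrt N ≤ T := by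
    rw [Real.sqrt_eq_rpow, hTd]
    exact Real.rpow_le_rpow_of_exponent_le hNR (by linarith)
  have h7 : (N : ℝ) ^ (1 / 2 + δ) = T * (N : ℝ) ^ (δ / 2) := by
    rw [hTd, ← Real.rpow_add hN0]
    congr 1
    ring
  rw [h7]
  have h8 := mul_le_mul_of_nonneg_left hNc hT0.le
  nlinarith

end Pool.Agent.J6H30.PV
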