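import Pool.Agent.J6H30.PV.ETK

/-!
# A criterion for families of tuples most of which have digits with the joint discrepancy of random tuples
-/

set_option autoImplicit false

namespace Pool.Agent.J6H30.PV

open Finset Filter Topology
open Pool.Agent.H469R2.NK (e norm_e e_add e_zero conj_e)
open Pool.Agent.R485.Mult (sg abs_sg count_vanish prod_sg e_sum)

/-- for all bases `b j` between `2` and `B`, all shifts `s j ≤ N` and all `n ≤ N` the first `n` digits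
after the place `s j` of the numbers `z j` in the bases `b j` have joint discrepancy at most `E √n` -/
def GoodM {m : ℕ} (B N : ℕ) (E : ℝ) (z : Fin m → ℝ) : Prop :=
  ∀ b s : Fin m → ℕ, (∀ j, 2 ≤ b j) → (∀ j, b j ≤ B) → (∀ j, s j ≤ N) → ∀ n : ℕ, n ≤ N →
    ∀ α β : Fin m → ℝ, (∀ j, 0 ≤ α j) → (∀ j, α j < β j) → (∀ j, β j ≤ 1) →
    |(((Icc 1 n).filter (fun i : ℕ => ∀ j, α j ≤ Int.fract (z j * (b j : ℝ) ^ (s j + i)) ∧
      Int.fract (z j * (b j : ℝ) ^ (s j + i)) < β j)).card : ℝ) - (∏ j, (β j - α j)) * n| ≤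
        E * Real.sqrt n

/-- expansion of the even powers of an exponential sum -/
lemma pow_expand' (s : ℕ) (I : Finset ℕ) (θ : ℕ → ℝ) :
    ((‖∑ i ∈ I, e (θ i)‖ ^ (2 * s) : ℝ) : ℂ) =
      ∑ p ∈ Fintype.piFinset (fun _ : Fin (2 * s) => I), e (∑ t : Fin (2 * s), sg t * θ (p t)) := by
  set S := ∑ i ∈ I, e (θ i) with hS
  have h1 : ((‖S‖ ^ (2 * s) : ℝ) : ℂ) = (S * (starRingEnd ℂ) S) ^ s := by
    rw [Complex.mul_conj, Complex.normSq_eq_norm_sq, pow_mul]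
    push_cast
    rfl
  have h2 : (starRingEnd ℂ) S = ∑ i ∈ I, e (-(θ i)) := by
    rw [hS, map_sum]
    exact sum_congr rfl fun i _ => conj_e _
  rw [h1, ← prod_sg]
  rw [← Fin.prod_univ_eq_prod_range (fun j => if j % 2 = 0 then S else (starRingEnd ℂ) S) (2 * s)]
  have h3 : ∀ j : Fin (2 * s), (if (j : ℕ) % 2 = 0 then S else (starRingEnd ℂ) S) =
      ∑ i ∈ I, e (sg j * θ i) := by
    intro j
    unfold sg
    split_ifs with h
    · rw [hS]
      refine sum_congr rfl fun i _ => ?_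
      push_cast
      rw [one_mul]
    · rw [h2]
      refine sum_congr rfl fun i _ => ?_
      push_cast
      congr 1
      ring
  rw [prod_congr rfl fun j _ => h3 j, prod_univ_sum]
  refine sum_congr rfl fun p _ => ?_
  rw [← e_sum]

/-- the Diophantine weights -/
def wt (σ b : ℕ) (p : Fin (2 * σ) → ℕ) : ℤ := ∑ t : Fin (2 * σ), sg t * (b : ℤ) ^ (p t)

/-- the moments -/
lemma momentM {m : ℕ} (σ : ℕ) (hσ : 1 ≤ σ) (N : ℕ) (hN : 1 ≤ N) (b s : Fin m → ℕ)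
    (hb : ∀ j, 2 ≤ b j) (h : Fin m → ℤ) (h0 : h ≠ 0) (n : ℕ) (hn1 : 1 ≤ n) (hn : n ≤ N) {ι : Type}
    (Ω : Finset ι)
    (z : ι → Fin m → ℝ)
    (hz : ∀ p : Fin (2 * σ) → ℕ, (∀ t, p t ≤ N) → (∃ j, h j * wt σ (b j) p ≠ 0) →
      ‖∑ ω ∈ Ω, e (∑ j, ((h j * (b j : ℤ) ^ (s j) * wt σ (b j) p : ℤ) : ℝ) * z ω j)‖ *
        (N : ℝ) ^ (2 * σ) ≤ Ω.card) :
    ∑ ω ∈ Ω, ‖∑ i ∈ Icc 1 n, e (∑ j, h j * (z ω j * (b j : ℝ) ^ (s j + i)))‖ ^ (2 * σ) ≤
      Ω.card * (σ ^ (2 * σ) * (2 * (2 * σ) + 1) ^ (2 * σ) + 1 : ℕ) * (n : ℝ) ^ σ := by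
  classical
  have hNR : (1 : ℝ) ≤ N := by exact_mod_cast hN
  have hN0 : (0 : ℝ) < N := by linarith
  set M : ℝ := (Ω.card : ℝ) with hM
  have hM0 : 0 ≤ M := Nat.cast_nonneg _
  set C0 : ℕ := σ ^ (2 * σ) * (2 * (2 * σ) + 1) ^ (2 * σ) with hC0
  obtain ⟨j₀, hj₀⟩ : ∃ j, h j ≠ 0 := by
    by_contra hcon
    push Not at hcon
    exact h0 (funext hcon)
  set PP := Fintype.piFinset (fun _ : Fin (2 * σ) => Icc 1 n) with hPP
  have e1 : ∀ ω (p : Fin (2 * σ) → ℕ), ∑ t : Fin (2 * σ), (sg t : ℝ) *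
      (∑ j, h j * (z ω j * (b j : ℝ) ^ (s j + p t))) =
      ∑ j, ((h j * (b j : ℤ) ^ (s j) * wt σ (b j) p : ℤ) : ℝ) * z ω j := by
    intro ω p
    simp_rw [mul_sum]
    rw [sum_comm]
    refine sum_congr rfl fun j _ => ?_
    unfold wt
    push_cast
    rw [mul_sum, sum_mul]
    refine sum_congr rfl fun t _ => ?_
    rw [pow_add]
    ring
  have h1 : ((∑ ω ∈ Ω, ‖∑ i ∈ Icc 1 n, e (∑ j, h j * (z ω j * (b j : ℝ) ^ (s j + i)))‖ ^ (2 * σ) : ℝ) : ℂ)
      = ∑ p ∈ PP, ∑ ω ∈ Ω, e (∑ j, ((h j * (b j : ℤ) ^ (s j) * wt σ (b j) p : ℤ) : ℝ) * z ω j) := by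
    rw [Complex.ofReal_sum, sum_comm]
    refine sum_congr rfl fun ω _ => ?_
    rw [pow_expand']
    exact sum_congr rfl fun p _ => by rw [e1]
  have h2 : ∑ ω ∈ Ω, ‖∑ i ∈ Icc 1 n, e (∑ j, h j * (z ω j * (b j : ℝ) ^ (s j + i)))‖ ^ (2 * σ) =
      ‖∑ p ∈ PP, ∑ ω ∈ Ω, e (∑ j, ((h j * (b j : ℤ) ^ (s j) * wt σ (b j) p : ℤ) : ℝ) * z ω j)‖ := by
    rw [← h1, Complex.norm_real, Real.norm_eq_abs, abs_of_nonneg]
    exact sum_nonneg fun ω _ => by positivity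
  rw [h2]
  have h3 : ∀ p ∈ PP, ‖∑ ω ∈ Ω, e (∑ j, ((h j * (b j : ℤ) ^ (s j) * wt σ (b j) p : ℤ) : ℝ) * z ω j)‖ ≤
      (if wt σ (b j₀) p = 0 then M else 0) + M / (N : ℝ) ^ (2 * σ) := by
    intro p hp
    split_ifs with hp0
    · have : ‖∑ ω ∈ Ω, e (∑ j, ((h j * (b j : ℤ) ^ (s j) * wt σ (b j) p : ℤ) : ℝ) * z ω j)‖ ≤ M := by
        refine (norm_sum_le _ _).trans ?_
        rw [sum_congr rfl fun ω _ => norm_e _]
        simp [hM]
      have h5 : 0 ≤ M / (N : ℝ) ^ (2 * σ) := by positivity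
      linarith
    · rw [zero_add, le_div_iff₀ (by positivity)]
      refine hz p (fun j => ?_) ⟨j₀, mul_ne_zero hj₀ hp0⟩
      have := (Fintype.mem_piFinset.1 hp) j
      rw [mem_Icc] at this
      omega
  refine (norm_sum_le _ _).trans ((sum_le_sum h3).trans ?_)
  rw [sum_add_distrib, ← sum_filter, sum_const, sum_const, nsmul_eq_mul, nsmul_eq_mul]
  have h7 := count_vanish (b j₀) (hb j₀) σ hσ (fun j => sg j) (fun j => abs_sg j) n
  have h8 : (((PP.filter (fun p => wt σ (b j₀) p = 0)).card : ℕ) : ℝ) ≤ C0 * (n : ℝ) ^ σ := by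
    refine (Nat.cast_le.2 h7).trans (le_of_eq ?_)
    rw [hC0]
    push_cast
    ring
  have h9 : ((PP.card : ℕ) : ℝ) ≤ (N : ℝ) ^ (2 * σ) := by
    rw [hPP, Fintype.card_piFinset]
    simp only [Nat.card_Icc, Nat.add_sub_cancel, prod_const, card_univ, Fintype.card_fin]
    push_cast
    exact pow_le_pow_left₀ (Nat.cast_nonneg _) (by exact_mod_cast hn) _
  have hn1R : (1 : ℝ) ≤ (n : ℝ) ^ σ := one_le_pow₀ (by exact_mod_cast hn1)
  calc (((PP.filter (fun p => wt σ (b j₀) p = 0)).card : ℕ) : ℝ) * M +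
      ((PP.card : ℕ) : ℝ) * (M / (N : ℝ) ^ (2 * σ))
      ≤ (C0 * (n : ℝ) ^ σ) * M + (N : ℝ) ^ (2 * σ) * (M / (N : ℝ) ^ (2 * σ)) := by
        gcongr
    _ = (C0 * (n : ℝ) ^ σ) * M + M := by
        congr 1
        field_simp
    _ ≤ (C0 * (n : ℝ) ^ σ) * M + M * (n : ℝ) ^ σ := by
        have := mul_le_mul_of_nonneg_left hn1R hM0
        linarith
    _ = M * (C0 + 1 : ℕ) * (n : ℝ) ^ σ := by
        push_cast
        ring

/-- an unconditional form of Chebyshev's inequality for the moments -/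
lemma cheb {ι : Type} (Ω : Finset ι) (X : ι → ℝ) (hX : ∀ ω, 0 ≤ X ω) (k : ℕ) (T V : ℝ) (hT : 0 < T)
    (h : ∑ ω ∈ Ω, X ω ^ k ≤ V) : (((Ω.filter (fun ω => T < X ω)).card : ℕ) : ℝ) * T ^ k ≤ V := by
  classical
  refine le_trans ?_ h
  calc (((Ω.filter (fun ω => T < X ω)).card : ℕ) : ℝ) * T ^ k = ∑ ω ∈ Ω.filter (fun ω => T < X ω), T ^ k := by
        rw [sum_const, nsmul_eq_mul]
    _ ≤ ∑ ω ∈ Ω.filter (fun ω => T < X ω), X ω ^ k := by
        refine sum_le_sum fun m hm => ?_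
        exact pow_le_pow_left₀ hT.le (mem_filter.1 hm).2.le _
    _ ≤ ∑ ω ∈ Ω, X ω ^ k :=
        sum_le_sum_of_subset_of_nonneg (filter_subset _ _) fun m _ _ => pow_nonneg (hX m) _

/-- powers of logarithms are smaller than powers -/
lemma log_pow_le (C a : ℝ) (m : ℕ) (δ : ℝ) (hδ : 0 < δ) (ha : 0 ≤ a) :
    ∀ᶠ N : ℕ in atTop, C * (a * (1 + Real.log N)) ^ m ≤ (N : ℝ) ^ δ := by
  have hδ' : 0 < δ / (m + 1) := by positivity
  have h1 : (fun u : ℝ => a * (1 + Real.log u)) =o[atTop] (fun u : ℝ => u ^ (δ / (m + 1))) := by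
    apply Asymptotics.IsLittleO.const_mul_left
    apply Asymptotics.IsLittleO.add
    · exact Asymptotics.isLittleO_const_left.2 (Or.inr (by
        refine tendsto_norm_atTop_atTop.comp (tendsto_rpow_atTop (by positivity))))
    · exact isLittleO_log_rpow_atTop (by positivity)
  have h2 := (h1.comp_tendsto tendsto_natCast_atTop_atTop).bound (c := 1) one_pos
  have h3 : Tendsto (fun N : ℕ => (N : ℝ) ^ (δ / (m + 1))) atTop atTop :=
    (tendsto_rpow_atTop hδ').comp tendsto_natCast_atTop_atTop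
  filter_upwards [h2, h3.eventually_ge_atTop |C|, eventually_ge_atTop 1] with N hN hNC hN1
  simp only [Function.comp, Real.norm_eq_abs, one_mul] at hN
  have hN1' : (1 : ℝ) ≤ N := by exact_mod_cast hN1
  have hN0 : (0 : ℝ) < N := by linarith
  rw [abs_of_nonneg (a := (N : ℝ) ^ (δ / (m + 1))) (by positivity)] at hN
  have h4 := (le_abs_self _).trans hN
  have h5 : 0 ≤ a * (1 + Real.log N) := by
    have := Real.log_nonneg hN1'
    positivity
  have h6 : (a * (1 + Real.log N)) ^ m ≤ ((N : ℝ) ^ (δ / (m + 1))) ^ m := pow_le_pow_left₀ h5 h4 m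
  calc C * (a * (1 + Real.log N)) ^ m ≤ |C| * (a * (1 + Real.log N)) ^ m :=
        mul_le_mul_of_nonneg_right (le_abs_self _) (pow_nonneg h5 m)
    _ ≤ (N : ℝ) ^ (δ / (m + 1)) * ((N : ℝ) ^ (δ / (m + 1))) ^ m := by gcongr
    _ = ((N : ℝ) ^ (δ / (m + 1))) ^ (m + 1) := by rw [pow_succ, mul_comm]
    _ = (N : ℝ) ^ δ := by
      rw [← Real.rpow_natCast, ← Real.rpow_mul hN0.le]
      congr 1
      push_cast
      field_simp

/-- **The criterion for tuples.** -/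
theorem criterionM (m B : ℕ) (δ : ℝ) (hδ : 0 < δ) (A : ℕ) : ∃ σ N₀ : ℕ, 1 ≤ σ ∧ ∀ N : ℕ, N₀ ≤ N →
    ∀ (ι : Type) (Ω : Finset ι) (z : ι → Fin m → ℝ),
    (∀ b s : Fin m → ℕ, (∀ j, 2 ≤ b j) → (∀ j, b j ≤ B) → (∀ j, s j ≤ N) →
      ∀ h : Fin m → ℤ, (∀ j, |h j| ≤ N) → ∀ p : Fin (2 * σ) → ℕ, (∀ t, p t ≤ N) →
      (∃ j, h j * wt σ (b j) p ≠ 0) →
      ‖∑ ω ∈ Ω, e (∑ j, ((h j * (b j : ℤ) ^ (s j) * wt σ (b j) p : ℤ) : ℝ) * z ω j)‖ *
        (N : ℝ) ^ (2 * σ) ≤ Ω.card) →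
    ({ω | ω ∈ Ω ∧ ¬ GoodM B N ((N : ℝ) ^ δ) (z ω)}.ncard : ℝ) * (N : ℝ) ^ A ≤ Ω.card := by
  classical
  set σ : ℕ := max 1 ⌈((A : ℝ) + 2 * m + 2) / δ⌉₊ with hs
  have hs1 : 1 ≤ σ := le_max_left _ _
  have hsδ : (A : ℝ) + 2 * m + 2 ≤ σ * δ := by
    have h0 : ⌈((A : ℝ) + 2 * m + 2) / δ⌉₊ ≤ σ := le_max_right _ _
    have h1 : ((A : ℝ) + 2 * m + 2) / δ ≤ σ := (Nat.le_ceil _).trans (Nat.cast_le.2 h0)
    rwa [div_le_iff₀ hδ] at h1
  set C : ℕ := σ ^ (2 * σ) * (2 * (2 * σ) + 1) ^ (2 * σ) + 1 with hC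
  set C' : ℕ := (B + 1) ^ m * (2 ^ m * (3 ^ m * 2)) * C with hC'
  obtain ⟨N2, hN2⟩ := eventually_atTop.1 (log_pow_le ((m + 1) * (1 + 6 * m)) 12 m (δ / 2)
    (by positivity) (by norm_num))
  refine ⟨σ, max N2 (max 1 C'), hs1, fun N hN ι Ω z hz => ?_⟩
  have hNc := hN2 N ((le_max_left _ _).trans hN)
  have hNd : 1 ≤ N := ((le_max_left _ _).trans (le_max_right _ _)).trans hN
  have hNe : C' ≤ N := ((le_max_right _ _).trans (le_max_right _ _)).trans hN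
  have hNR : (1 : ℝ) ≤ N := by exact_mod_cast hNd
  have hN0 : (0 : ℝ) < N := by linarith
  set M : ℝ := (Ω.card : ℝ) with hM
  have hM0 : 0 ≤ M := Nat.cast_nonneg _
  set T : ℕ → ℝ := fun n => Real.sqrt n * (N : ℝ) ^ (δ / 2) with hTd
  have hNδ0 : 0 < (N : ℝ) ^ (δ / 2) := Real.rpow_pos_of_pos hN0 _
  have hT0 : ∀ n : ℕ, 1 ≤ n → 0 < T n := by
    intro n hn
    have : (0 : ℝ) < n := by exact_mod_cast hn
    rw [hTd]
    positivity
  have hTs : ∀ n : ℕ, T n ^ (2 * σ) = (n : ℝ) ^ σ * (N : ℝ) ^ (σ * δ) := by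
    intro n
    rw [hTd]
    simp only
    rw [mul_pow, pow_mul, Real.sq_sqrt (Nat.cast_nonneg _), ← Real.rpow_natCast ((N : ℝ) ^ (δ / 2)),
      ← Real.rpow_mul hN0.le]
    congr 2
    push_cast
    ring
  have hTs2 : ∀ n : ℕ, (n : ℝ) ^ σ * (N : ℝ) ^ (A + 2 * m + 2) ≤ T n ^ (2 * σ) := by
    intro n
    rw [hTs]
    apply mul_le_mul_of_nonneg_left _ (by positivity)
    rw [← Real.rpow_natCast]
    apply Real.rpow_le_rpow_of_exponent_le hNR
    push_cast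
    exact hsδ
  -- the sums
  set S : (Fin m → ℕ) → (Fin m → ℕ) → (Fin m → ℤ) → ℕ → ι → ℝ := fun b s h n ω =>
    ‖∑ i ∈ Icc 1 n, e (∑ j, h j * (z ω j * (b j : ℝ) ^ (s j + i)))‖ with hS
  set E : (Fin m → ℕ) → (Fin m → ℕ) → (Fin m → ℤ) → ℕ → Finset ι := fun b s h n =>
    Ω.filter (fun ω => T n < S b s h n ω) with hE
  have hEc : ∀ b s : Fin m → ℕ, (∀ j, 2 ≤ b j) → (∀ j, b j ≤ B) → (∀ j, s j ≤ N) →
      ∀ h : Fin m → ℤ, h ≠ 0 → (∀ j, |h j| ≤ N) → ∀ n : ℕ, 1 ≤ n → n ≤ N →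
      ((E b s h n).card : ℝ) ≤ M * C / N ^ (A + 2 * m + 2) := by
    intro b s hb hbB hs h h0 hh n hn1 hn
    have hn0 : (0 : ℝ) < n := by exact_mod_cast hn1
    have h1 := momentM σ hs1 N hNd b s hb h h0 n hn1 hn Ω z
      (fun p hp hne => hz b s hb hbB hs h hh p hp hne)
    have h2 := cheb Ω (S b s h n) (fun ω => norm_nonneg _) (2 * σ) (T n) _ (hT0 n hn1) h1
    have h4 : ((E b s h n).card : ℝ) * ((n : ℝ) ^ σ * (N : ℝ) ^ (A + 2 * m + 2)) ≤ M * C * n ^ σ :=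
      (mul_le_mul_of_nonneg_left (hTs2 n) (Nat.cast_nonneg _)).trans h2
    rw [le_div_iff₀ (by positivity)]
    have h5 : ((E b s h n).card : ℝ) * (N : ℝ) ^ (A + 2 * m + 2) * n ^ σ ≤ M * C * n ^ σ := by linarith
    exact le_of_mul_le_mul_right h5 (by positivity)
  set IX : Finset ((Fin m → ℕ) × (Fin m → ℕ) × (Fin m → ℤ) × ℕ) :=
    (Fintype.piFinset (fun _ : Fin m => Icc 2 B)) ×ˢ (Fintype.piFinset (fun _ : Fin m => range (N + 1))) ×ˢ
      ((Fintype.piFinset (fun _ : Fin m => Icc (-(N : ℤ)) N)).erase 0) ×ˢ (Icc 1 N) with hIX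
  set U : Finset ι := IX.biUnion fun x => E x.1 x.2.1 x.2.2.1 x.2.2.2 with hU
  have hIXc : (IX.card : ℝ) * C ≤ C' * N ^ (2 * m + 1) := by
    have h1 : IX.card ≤ (B + 1) ^ m * ((2 * N) ^ m * ((3 * N) ^ m * (2 * N))) := by
      rw [hIX, card_product, card_product, card_product, Fintype.card_piFinset,
        Fintype.card_piFinset]
      refine Nat.mul_le_mul ?_ (Nat.mul_le_mul ?_ (Nat.mul_le_mul ?_ ?_))
      · simp only [Nat.card_Icc, prod_const, card_univ, Fintype.card_fin]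
        exact Nat.pow_le_pow_left (by omega) m
      · simp only [card_range, prod_const, card_univ, Fintype.card_fin]
        exact Nat.pow_le_pow_left (by omega) m
      · refine (card_le_card (erase_subset _ _)).trans ?_
        rw [Fintype.card_piFinset]
        simp only [Int.card_Icc, prod_const, card_univ, Fintype.card_fin]
        exact Nat.pow_le_pow_left (by omega) m
      · rw [Nat.card_Icc]
        omega
    have h2 : ((IX.card : ℕ) : ℝ) ≤ (((B + 1) ^ m * ((2 * N) ^ m * ((3 * N) ^ m * (2 * N))) : ℕ) : ℝ) := by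
      exact_mod_cast h1
    calc (IX.card : ℝ) * C ≤ (((B + 1) ^ m * ((2 * N) ^ m * ((3 * N) ^ m * (2 * N))) : ℕ) : ℝ) * C := by
          gcongr
      _ = C' * N ^ (2 * m + 1) := by
          rw [hC']
          push_cast
          rw [mul_pow, mul_pow]
          ring
  have hUc : (U.card : ℝ) ≤ IX.card * (M * C / N ^ (A + 2 * m + 2)) := by
    refine (Nat.cast_le.2 card_biUnion_le).trans ?_
    push_cast
    have h1 : ∀ x ∈ IX, ((E x.1 x.2.1 x.2.2.1 x.2.2.2).card : ℝ) ≤ M * C / N ^ (A + 2 * m + 2) := by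
      rintro ⟨b, s, h, n⟩ hx
      rw [hIX, mem_product, mem_product, mem_product, Fintype.mem_piFinset, Fintype.mem_piFinset,
        mem_erase, Fintype.mem_piFinset, mem_Icc] at hx
      obtain ⟨h1, h2, ⟨h3, h4⟩, h5, h6⟩ := hx
      refine hEc b s (fun j => (mem_Icc.1 (h1 j)).1) (fun j => (mem_Icc.1 (h1 j)).2)
        (fun j => ?_) h h3 (fun j => ?_) n h5 h6
      · have := mem_range.1 (h2 j)
        simp only at this
        omega
      · have := mem_Icc.1 (h4 j)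
        rw [abs_le]
        exact this
    refine (sum_le_sum h1).trans ?_
    rw [sum_const, nsmul_eq_mul]
  have hfin : (U.card : ℝ) * N ^ A ≤ M := by
    calc (U.card : ℝ) * N ^ A ≤ IX.card * (M * C / N ^ (A + 2 * m + 2)) * N ^ A :=
          mul_le_mul_of_nonneg_right hUc (by positivity)
      _ = (IX.card * C) * (M / N ^ (2 * m + 2)) := by
          rw [show A + 2 * m + 2 = (2 * m + 2) + A by ring, pow_add]
          field_simp
      _ ≤ (C' * N ^ (2 * m + 1)) * (M / N ^ (2 * m + 2)) :=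
          mul_le_mul_of_nonneg_right hIXc (by positivity)
      _ = M * (C' / N) := by
          rw [show 2 * m + 2 = (2 * m + 1) + 1 by ring, pow_succ]
          field_simp
          ring
      _ ≤ M * 1 := by
          apply mul_le_mul_of_nonneg_left _ hM0
          rw [div_le_one hN0]
          exact_mod_cast hNe
      _ = M := mul_one _
  refine le_trans ?_ hfin
  apply mul_le_mul_of_nonneg_right _ (by positivity)
  rw [← Set.ncard_coe_finset U]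
  refine Nat.cast_le.2 (Set.ncard_le_ncard ?_ (finite_toSet U))
  rintro ω ⟨hω, hbad⟩
  rw [mem_coe]
  by_contra hmU
  apply hbad
  intro b s hb hbB hsN n hn α β h0 h1 h2
  rcases Nat.eq_zero_or_pos n with hn0 | hn1
  · subst hn0
    simp
  have hT : ∀ h : Fin m → ℤ, h ≠ 0 → (∀ j, |h j| ≤ N) →
      ‖∑ i ∈ Icc 1 n, e (∑ j, h j * (z ω j * (b j : ℝ) ^ (s j + i)))‖ ≤ T n := by
    intro h hh0 hh
    by_contra hcon
    push Not at hcon
    apply hmU
    rw [hU, mem_biUnion]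
    refine ⟨⟨b, s, h, n⟩, ?_, ?_⟩
    · rw [hIX, mem_product, mem_product, mem_product, Fintype.mem_piFinset, Fintype.mem_piFinset,
        mem_erase, Fintype.mem_piFinset, mem_Icc]
      refine ⟨fun j => mem_Icc.2 ⟨hb j, hbB j⟩, fun j => ?_, ⟨hh0, fun j => ?_⟩, hn1, hn⟩
      · have := hsN j
        simp only [mem_range]
        omega
      · have := abs_le.1 (hh j)
        exact mem_Icc.2 this
    · rw [hE]
      simp only [mem_filter]
      exact ⟨hω, hcon⟩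
  have h5 := etk (Icc 1 n) (fun i j => z ω j * (b j : ℝ) ^ (s j + i)) N hNd (by
    rw [Nat.card_Icc]
    omega) (T n) (hT0 n hn1).le hT α β h0 h1 h2
  rw [Nat.card_Icc, Nat.add_sub_cancel] at h5
  refine h5.trans ?_
  have h6 : Real.sqrt n ≤ T n := by
    rw [hTd]
    simp only
    exact le_mul_of_one_le_right (Real.sqrt_nonneg _) (Real.one_le_rpow hNR (by positivity))
  have h7 : (N : ℝ) ^ δ * Real.sqrt n = T n * (N : ℝ) ^ (δ / 2) := by
    rw [hTd]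
    simp only
    rw [mul_assoc, ← Real.rpow_add hN0, add_halves, mul_comm]
  rw [h7]
  have hlog : 0 ≤ 12 * (1 + Real.log N) := by
    have := Real.log_nonneg hNR
    positivity
  calc (m + 1) * (T n + 6 * m * Real.sqrt n) * (12 * (1 + Real.log N)) ^ m ≤
      (m + 1) * (T n + 6 * m * T n) * (12 * (1 + Real.log N)) ^ m := by gcongr
    _ = T n * ((m + 1) * (1 + 6 * m) * (12 * (1 + Real.log N)) ^ m) := by ring
    _ ≤ T n * (N : ℝ) ^ (δ / 2) := mul_le_mul_of_nonneg_left hNc (hT0 n hn1).le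

end Pool.Agent.J6H30.PV
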