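import Mathlib

/-!
# Restriction of polynomials to lines, and averages over boxes
-/

set_option autoImplicit false

namespace Pool.Agent.J6H30.PV

open Finset

/-- the polynomial `t ↦ f(a + t w)` -/
noncomputable def line {r : ℕ} (a w : Fin r → ℝ) (f : MvPolynomial (Fin r) ℝ) : Polynomial ℝ :=
  ∑ m ∈ f.support, Polynomial.C (f.coeff m) *
    ∏ i, (Polynomial.C (a i) + Polynomial.C (w i) * Polynomial.X) ^ (m i)

lemma line_eval {r : ℕ} (a w : Fin r → ℝ) (f : MvPolynomial (Fin r) ℝ) (t : ℝ) :
    (line a w f).eval t = MvPolynomial.eval (fun i => a i + w i * t) f := by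
  unfold line
  rw [Polynomial.eval_finsetSum, MvPolynomial.eval_eq']
  refine sum_congr rfl fun m _ => ?_
  rw [Polynomial.eval_mul, Polynomial.eval_C, Polynomial.eval_prod]
  congr 1
  refine prod_congr rfl fun i _ => ?_
  simp

lemma prod_coeff {r : ℕ} (a w : Fin r → ℝ) (m : Fin r → ℕ) (S : Finset (Fin r)) :
    (∏ i ∈ S, (Polynomial.C (a i) + Polynomial.C (w i) * Polynomial.X) ^ (m i)).natDegree ≤
      ∑ i ∈ S, m i ∧
    (∏ i ∈ S, (Polynomial.C (a i) + Polynomial.C (w i) * Polynomial.X) ^ (m i)).coeff
      (∑ i ∈ S, m i) = ∏ i ∈ S, w i ^ m i := by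
  classical
  have hlin : ∀ i, (Polynomial.C (a i) + Polynomial.C (w i) * Polynomial.X).natDegree ≤ 1 := by
    intro i
    rw [add_comm]
    exact Polynomial.natDegree_linear_le
  have hc : ∀ i, (Polynomial.C (a i) + Polynomial.C (w i) * Polynomial.X).coeff 1 = w i := by
    intro i
    rw [Polynomial.coeff_add, Polynomial.coeff_C_mul, Polynomial.coeff_X_one,
      Polynomial.coeff_C_of_ne_zero one_ne_zero]
    ring
  have hpow : ∀ i, ((Polynomial.C (a i) + Polynomial.C (w i) * Polynomial.X) ^ (m i)).natDegree ≤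
      m i := by
    intro i
    refine Polynomial.natDegree_pow_le.trans ?_
    have := Nat.mul_le_mul_left (m i) (hlin i)
    simpa using this
  have hpowc : ∀ i, ((Polynomial.C (a i) + Polynomial.C (w i) * Polynomial.X) ^ (m i)).coeff (m i) =
      w i ^ m i := by
    intro i
    have := Polynomial.coeff_pow_of_natDegree_le (m := m i) (hlin i)
    rw [mul_one] at this
    rw [this, hc]
  induction S using Finset.induction_on with
  | empty => simp
  | insert j S hj ih =>
    rw [prod_insert hj, sum_insert hj, prod_insert hj]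
    refine ⟨Polynomial.natDegree_mul_le.trans (add_le_add (hpow j) ih.1), ?_⟩
    rw [Polynomial.coeff_mul_add_eq_of_natDegree_le (hpow j) ih.1, hpowc, ih.2]

lemma degree_eq_sum {r : ℕ} (m : Fin r →₀ ℕ) : m.degree = ∑ i, m i := by
  rw [Finsupp.degree_eq_sum]

lemma line_natDegree {r : ℕ} (a w : Fin r → ℝ) (f : MvPolynomial (Fin r) ℝ) (D : ℕ)
    (hf : f.totalDegree ≤ D) : (line a w f).natDegree ≤ D := by
  unfold line
  refine Polynomial.natDegree_sum_le_of_forall_le _ _ fun m hm => ?_
  refine (Polynomial.natDegree_C_mul_le _ _).trans ((prod_coeff a w m univ).1.trans ?_)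
  have h1 := MvPolynomial.le_totalDegree hm
  rw [Finsupp.sum_fintype _ _ (fun _ => rfl)] at h1
  exact h1.trans hf

lemma line_coeff_of_lt {r : ℕ} (a w : Fin r → ℝ) (f : MvPolynomial (Fin r) ℝ) (D : ℕ)
    (hf : f.totalDegree < D) : (line a w f).coeff D = 0 :=
  Polynomial.coeff_eq_zero_of_natDegree_lt
    (lt_of_le_of_lt (line_natDegree a w f f.totalDegree le_rfl) hf)

lemma line_coeff_of_homogeneous {r : ℕ} (a w : Fin r → ℝ) (f : MvPolynomial (Fin r) ℝ) (D : ℕ)
    (hf : f.IsHomogeneous D) : (line a w f).coeff D = MvPolynomial.eval w f := by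
  unfold line
  rw [Polynomial.finsetSum_coeff, MvPolynomial.eval_eq']
  refine sum_congr rfl fun m hm => ?_
  rw [Polynomial.coeff_C_mul]
  congr 1
  have h1 : ∑ i, m i = D := by
    have h2 := hf (MvPolynomial.mem_support_iff.1 hm)
    rw [← h2]
    have h3 : (Finsupp.weight (1 : Fin r → ℕ)) m = m.degree := by
      rw [Finsupp.degree_eq_weight_one]
      rfl
    rw [h3]
    exact (degree_eq_sum m).symm
  rw [← h1]
  exact (prod_coeff a w m univ).2

/-- a polynomial with an irrational coefficient has an irrational value at an integral point -/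
lemma exists_irrational_value {r : ℕ} (F : MvPolynomial (Fin r) ℝ) (m₀ : Fin r →₀ ℕ)
    (hirr : Irrational (F.coeff m₀)) :
    ∃ v : Fin r → ℤ, Irrational (MvPolynomial.eval (fun i => (v i : ℝ)) F) := by
  classical
  by_contra hcon
  push Not at hcon
  have hmem : F.coeff m₀ ∉ Submodule.span ℚ ({1} : Set ℝ) := by
    intro h
    rw [Submodule.mem_span_singleton] at h
    obtain ⟨q, hq⟩ := h
    apply hirr
    refine ⟨q, ?_⟩
    rw [← hq, Rat.smul_def, mul_one]
  obtain ⟨φ, hφ, hφ1⟩ := Submodule.exists_le_ker_of_notMem hmem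
  have hφ0 : φ 1 = 0 := hφ1 (Submodule.subset_span rfl)
  have hφq : ∀ q : ℚ, φ (q : ℝ) = 0 := by
    intro q
    have : (q : ℝ) = q • (1 : ℝ) := by rw [Rat.smul_def, mul_one]
    rw [this, map_smul, hφ0, smul_zero]
  set G : MvPolynomial (Fin r) ℚ := ∑ m ∈ F.support, MvPolynomial.monomial m (φ (F.coeff m)) with hG
  have hG0 : G = 0 := by
    apply MvPolynomial.funext_set (fun _ => Set.range (fun z : ℤ => (z : ℚ)))
      (fun _ => Set.infinite_range_of_injective Int.cast_injective)
    intro x hx
    have : ∀ i, ∃ z : ℤ, (z : ℚ) = x i := fun i => hx i (Set.mem_univ i)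
    choose v hv using this
    rw [map_zero, hG, map_sum]
    have h1 : ∀ m ∈ F.support, MvPolynomial.eval x (MvPolynomial.monomial m (φ (F.coeff m))) =
        φ (F.coeff m * ∏ i, (v i : ℝ) ^ m i) := by
      intro m _
      rw [MvPolynomial.eval_monomial, Finsupp.prod_fintype _ _ (fun i => pow_zero _)]
      have h2 : F.coeff m * ∏ i, (v i : ℝ) ^ m i = (∏ i, (v i : ℚ) ^ m i) • F.coeff m := by
        rw [Rat.smul_def]
        push_cast
        ring
      rw [h2, map_smul, smul_eq_mul, mul_comm]
      congr 1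
      exact prod_congr rfl fun i _ => by rw [hv]
    rw [sum_congr rfl h1, ← map_sum, ← MvPolynomial.eval_eq' (fun i => (v i : ℝ)) F]
    obtain ⟨q, hq⟩ := Set.mem_range.1 (by
      have := hcon v
      unfold Irrational at this
      push Not at this
      exact this)
    rw [← hq]
    exact hφq q
  have h3 : G.coeff m₀ = φ (F.coeff m₀) := by
    rw [hG, MvPolynomial.coeff_sum]
    simp only [MvPolynomial.coeff_monomial]
    rw [sum_ite_eq']
    split_ifs with h
    · rfl
    · rw [MvPolynomial.notMem_support_iff.1 h, map_zero]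
  rw [hG0, MvPolynomial.coeff_zero] at h3
  apply hφ
  exact h3.symm

/-- the values of a polynomial with integral coefficients are periodic modulo `Q` -/
lemma eval_congr_mod {r : ℕ} (R : MvPolynomial (Fin r) ℤ) (Q : ℕ) (a w : Fin r → ℤ)
    (h : ∀ i, (Q : ℤ) ∣ w i) :
    (Q : ℤ) ∣ MvPolynomial.eval (fun i => a i + w i) R - MvPolynomial.eval a R := by
  rw [MvPolynomial.eval_eq', MvPolynomial.eval_eq', ← sum_sub_distrib]
  refine dvd_sum fun m _ => ?_
  rw [← mul_sub]
  refine dvd_mul_of_dvd_right ?_ _
  have h1 : ∀ S : Finset (Fin r), (Q : ℤ) ∣ ∏ i ∈ S, (a i + w i) ^ m i - ∏ i ∈ S, a i ^ m i := by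
    classical
    intro S
    induction S using Finset.induction_on with
    | empty => simp
    | insert j S hj ih =>
      rw [prod_insert hj, prod_insert hj]
      have h2 : (Q : ℤ) ∣ (a j + w j) ^ m j - a j ^ m j := by
        refine dvd_trans ?_ (sub_dvd_pow_sub_pow _ _ _)
        simpa using h j
      have h3 : (a j + w j) ^ m j * ∏ i ∈ S, (a i + w i) ^ m i - a j ^ m j * ∏ i ∈ S, a i ^ m i =
          ((a j + w j) ^ m j - a j ^ m j) * ∏ i ∈ S, (a i + w i) ^ m i +
            a j ^ m j * (∏ i ∈ S, (a i + w i) ^ m i - ∏ i ∈ S, a i ^ m i) := by ring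
      rw [h3]
      exact dvd_add (dvd_mul_of_dvd_left h2 _) (dvd_mul_of_dvd_right ih _)
  exact h1 univ

/-- the box with corner `J` and sides `M` -/
noncomputable def box {r : ℕ} (J : Fin r → ℤ) (M : Fin r → ℕ) : Finset (Fin r → ℤ) :=
  Fintype.piFinset fun i => Ico (J i) (J i + M i)

lemma card_box {r : ℕ} (J : Fin r → ℤ) (M : Fin r → ℕ) : (box J M).card = ∏ i, M i := by
  unfold box
  rw [Fintype.card_piFinset]
  refine prod_congr rfl fun i _ => ?_
  rw [Int.card_Ico]
  omega

/-- few points of the box leave the box by a translation in one coordinate -/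
lemma card_leave_one {r : ℕ} (J : Fin r → ℤ) (M : Fin r → ℕ) (i : Fin r) (c : ℤ) :
    (((box J M).filter (fun k => k i - c ∉ Ico (J i) (J i + M i))).card : ℝ) * M i ≤
      (∏ l, (M l : ℝ)) * |(c : ℝ)| := by
  classical
  have h1 : (box J M).filter (fun k => k i - c ∉ Ico (J i) (J i + M i)) =
      Fintype.piFinset (Function.update (fun i => Ico (J i) (J i + M i)) i
        ((Ico (J i) (J i + M i)).filter (fun z => z - c ∉ Ico (J i) (J i + M i)))) := by
    ext k
    simp only [box, mem_filter, Fintype.mem_piFinset]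
    constructor
    · rintro ⟨h2, h3⟩ l
      by_cases hl : l = i
      · subst hl
        rw [Function.update_self, mem_filter]
        exact ⟨h2 l, h3⟩
      · rw [Function.update_of_ne hl]
        exact h2 l
    · intro h2
      have h3 := h2 i
      rw [Function.update_self, mem_filter] at h3
      refine ⟨fun l => ?_, h3.2⟩
      by_cases hl : l = i
      · subst hl
        exact h3.1
      · have := h2 l
        rwa [Function.update_of_ne hl] at this
  rw [h1, Fintype.card_piFinset]
  have h2 : ∏ l, (Function.update (fun i => Ico (J i) (J i + M i)) i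
      ((Ico (J i) (J i + M i)).filter (fun z => z - c ∉ Ico (J i) (J i + M i))) l).card =
      ((Ico (J i) (J i + M i)).filter (fun z => z - c ∉ Ico (J i) (J i + M i))).card *
        ∏ l ∈ univ.erase i, M l := by
    rw [← mul_prod_erase univ _ (mem_univ i), Function.update_self]
    congr 1
    refine prod_congr rfl fun l hl => ?_
    rw [Function.update_of_ne (ne_of_mem_erase hl), Int.card_Ico]
    omega
  rw [h2]
  have h3 : (((Ico (J i) (J i + M i)).filter (fun z => z - c ∉ Ico (J i) (J i + M i))).card : ℝ) ≤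
      |(c : ℝ)| := by
    have h4 : ((Ico (J i) (J i + M i)).filter (fun z => z - c ∉ Ico (J i) (J i + M i))).card ≤
        c.natAbs := by
      rcases le_total 0 c with hc | hc
      · refine (card_le_card (t := Ico (J i) (J i + c)) ?_).trans ?_
        · intro z hz
          simp only [mem_filter, mem_Ico] at hz ⊢
          omega
        · rw [Int.card_Ico]
          omega
      · refine (card_le_card (t := Ico (J i + M i + c) (J i + M i)) ?_).trans ?_
        · intro z hz
          simp only [mem_filter, mem_Ico] at hz ⊢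
          omega
        · rw [Int.card_Ico]
          omega
    have h5 : ((c.natAbs : ℕ) : ℝ) = |(c : ℝ)| := by
      rw [Nat.cast_natAbs, Int.cast_abs]
    rw [← h5]
    exact_mod_cast h4
  rw [← mul_prod_erase univ (fun l => (M l : ℝ)) (mem_univ i)]
  push_cast
  have h6 : (0 : ℝ) ≤ ∏ l ∈ univ.erase i, (M l : ℝ) := prod_nonneg fun _ _ => Nat.cast_nonneg _
  calc (((Ico (J i) (J i + M i)).filter (fun z => z - c ∉ Ico (J i) (J i + M i))).card : ℝ) *
        (∏ l ∈ univ.erase i, (M l : ℝ)) * M i
      ≤ |(c : ℝ)| * (∏ l ∈ univ.erase i, (M l : ℝ)) * M i := by gcongr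
    _ = _ := by ring

/-- **Averages along lines.** -/
lemma box_average {r : ℕ} (J : Fin r → ℤ) (M : Fin r → ℕ) (w : Fin r → ℤ) (T : ℕ) (hT : 1 ≤ T)
    (L ρ : ℝ) (hL : 0 < L) (hM : ∀ i, L ≤ M i) (bad : (Fin r → ℤ) → Prop)
    (h : ∀ k : Fin r → ℤ,
      ({t | t ∈ range T ∧ bad (fun i => k i + w i * (t : ℤ))}.ncard : ℝ) ≤ ρ * T) :
    ({k | k ∈ box J M ∧ bad k}.ncard : ℝ) ≤ (∏ i, (M i : ℝ)) * (ρ + (∑ i, |(w i : ℝ)|) * T / L) := by
  classical
  have hTR : (0 : ℝ) < T := by exact_mod_cast hT
  set V : ℝ := ∏ i, (M i : ℝ) with hV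
  have hV0 : 0 ≤ V := prod_nonneg fun _ _ => Nat.cast_nonneg _
  have hset : ∀ (ι : Type) (S : Finset ι) (p : ι → Prop), {k | k ∈ S ∧ p k}.ncard =
      (S.filter p).card := by
    intro ι S p
    rw [← Set.ncard_coe_finset]
    congr 1
    ext k
    simp
  rw [hset]
  simp_rw [hset] at h
  -- for every `t`
  have h1 : ∀ t ∈ range T, (((box J M).filter bad).card : ℝ) ≤
      (((box J M).filter (fun k => bad (fun i => k i + w i * (t : ℤ)))).card : ℝ) +
        V * ((∑ i, |(w i : ℝ)|) * T / L) := by
    intro t ht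
    have h2 : ((box J M).filter bad) ⊆
        (((box J M).filter (fun k => bad (fun i => k i + w i * (t : ℤ)))).image
          (fun k i => k i + w i * (t : ℤ))) ∪
        univ.biUnion (fun i => (box J M).filter
          (fun k => k i - w i * (t : ℤ) ∉ Ico (J i) (J i + M i))) := by
      intro k hk
      rw [mem_filter] at hk
      by_cases hin : (fun i => k i - w i * (t : ℤ)) ∈ box J M
      · rw [mem_union]
        left
        rw [mem_image]
        refine ⟨fun i => k i - w i * (t : ℤ), ?_, ?_⟩
        · rw [mem_filter]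
          refine ⟨hin, ?_⟩
          simp only [sub_add_cancel]
          exact hk.2
        · simp only [sub_add_cancel]
      · rw [mem_union]
        right
        rw [box, Fintype.mem_piFinset] at hin
        push Not at hin
        obtain ⟨i, hi⟩ := hin
        rw [mem_biUnion]
        exact ⟨i, mem_univ _, mem_filter.2 ⟨hk.1, hi⟩⟩
    have h3 := (card_le_card h2).trans (card_union_le _ _)
    have h4 : (((univ.biUnion (fun i => (box J M).filter
        (fun k => k i - w i * (t : ℤ) ∉ Ico (J i) (J i + M i)))).card : ℕ) : ℝ) ≤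
        V * ((∑ i, |(w i : ℝ)|) * T / L) := by
      refine (Nat.cast_le.2 card_biUnion_le).trans ?_
      push_cast
      have h5 : ∀ i ∈ (univ : Finset (Fin r)), (((box J M).filter
          (fun k => k i - w i * (t : ℤ) ∉ Ico (J i) (J i + M i))).card : ℝ) ≤
          V * (|(w i : ℝ)| * T / L) := by
        intro i _
        have h6 := card_leave_one J M i (w i * (t : ℤ))
        have hMi : (0 : ℝ) < M i := lt_of_lt_of_le hL (hM i)
        rw [← le_div_iff₀ hMi] at h6
        refine h6.trans ?_
        rw [mul_div_assoc]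
        apply mul_le_mul_of_nonneg_left _ hV0
        push_cast
        rw [abs_mul, Nat.abs_cast]
        have ht' : (t : ℝ) ≤ T := by exact_mod_cast (mem_range.1 ht).le
        have hMi' := hM i
        gcongr
      refine (sum_le_sum h5).trans (le_of_eq ?_)
      rw [← mul_sum, ← sum_div, ← sum_mul]
    have h7 : (((box J M).filter bad).card : ℝ) ≤
        (((((box J M).filter (fun k => bad (fun i => k i + w i * (t : ℤ)))).image
          (fun k i => k i + w i * (t : ℤ))).card : ℕ) : ℝ) +
          ((univ.biUnion (fun i => (box J M).filter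
            (fun k => k i - w i * (t : ℤ) ∉ Ico (J i) (J i + M i)))).card : ℕ) := by
      exact_mod_cast h3
    refine h7.trans (add_le_add ?_ h4)
    exact_mod_cast card_image_le
  have h2 := sum_le_sum h1
  rw [sum_const, card_range, nsmul_eq_mul, sum_add_distrib, sum_const, card_range,
    nsmul_eq_mul] at h2
  -- the double sum
  have h3 : ∑ t ∈ range T, (((box J M).filter (fun k => bad (fun i => k i + w i * (t : ℤ)))).card : ℝ) =
      ∑ k ∈ box J M, (((range T).filter (fun t : ℕ => bad (fun i => k i + w i * (t : ℤ)))).card : ℝ) := by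
    have e1 : ∀ t : ℕ, (((box J M).filter (fun k => bad (fun i => k i + w i * (t : ℤ)))).card : ℝ) =
        ∑ k ∈ box J M, if bad (fun i => k i + w i * (t : ℤ)) then (1 : ℝ) else 0 := by
      intro t
      rw [card_filter]
      push_cast
      rfl
    have e2 : ∀ k : Fin r → ℤ,
        (((range T).filter (fun t : ℕ => bad (fun i => k i + w i * (t : ℤ)))).card : ℝ) =
        ∑ t ∈ range T, if bad (fun i => k i + w i * (t : ℤ)) then (1 : ℝ) else 0 := by
      intro k
      rw [card_filter]
      push_cast
      rfl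
    simp_rw [e1, e2]
    exact sum_comm
  rw [h3] at h2
  have h4 : ∑ k ∈ box J M, (((range T).filter (fun t : ℕ => bad (fun i => k i + w i * (t : ℤ)))).card : ℝ)
      ≤ V * (ρ * T) := by
    refine (sum_le_sum fun k _ => h k).trans (le_of_eq ?_)
    rw [sum_const, card_box, nsmul_eq_mul, hV]
    push_cast
    rfl
  have h5 : (T : ℝ) * (((box J M).filter bad).card : ℝ) ≤
      T * (V * (ρ + (∑ i, |(w i : ℝ)|) * T / L)) := by
    calc (T : ℝ) * (((box J M).filter bad).card : ℝ) ≤ _ := h2
      _ ≤ V * (ρ * T) + T * (V * ((∑ i, |(w i : ℝ)|) * T / L)) := by linarith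
      _ = _ := by ring
  exact le_of_mul_le_mul_left h5 hTR

end Pool.Agent.J6H30.PV
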