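import Pool.Agent.J6H30.PV.BoxNorm
import Pool.Agent.J6H30.PV.Line

/-!
# The box norm as a sum over pairs of points
-/

set_option autoImplicit false

namespace Pool.Agent.J6H30.PV

open Finset
open Pool.Agent.H469R2.NK (e norm_e e_add e_zero conj_e)

/-- the sign of a vertex of the cube -/
def sgnB {n : ℕ} (ω : Fin n → Bool) : ℤ := ∏ i, if ω i then (-1 : ℤ) else 1

/-- the vertex `ω` of the box with opposite vertices `a` and `a'` -/
def mixB {n : ℕ} {X : Type*} (ω : Fin n → Bool) (a a' : Fin n → X) : Fin n → X :=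
  fun i => if ω i then a' i else a i

lemma abs_sgnB {n : ℕ} (ω : Fin n → Bool) : |sgnB ω| = 1 := by
  unfold sgnB
  rw [abs_prod]
  apply prod_eq_one
  intro i _
  split_ifs <;> simp

/-- the alternating sum over the vertices -/
def cub {n : ℕ} (φ : (Fin n → ℤ) → ℝ) (a a' : Fin n → ℤ) : ℝ :=
  ∑ ω : Fin n → Bool, (sgnB ω : ℝ) * φ (mixB ω a a')

lemma cub_cons {n : ℕ} (φ : (Fin (n + 1) → ℤ) → ℝ) (z z' : ℤ) (a a' : Fin n → ℤ) :
    cub φ (Fin.cons z a) (Fin.cons z' a') =
      cub (fun u => φ (Fin.cons z u) - φ (Fin.cons z' u)) a a' := by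
  unfold cub
  rw [← (Fin.consEquiv (fun _ : Fin (n + 1) => Bool)).sum_comp, Fintype.sum_prod_type,
    Fintype.sum_bool, ← sum_add_distrib]
  refine sum_congr rfl fun ω _ => ?_
  have h1 : mixB (Fin.consEquiv (fun _ : Fin (n + 1) => Bool) (true, ω)) (Fin.cons z a : Fin (n + 1) → ℤ)
      (Fin.cons z' a') = Fin.cons z' (mixB ω a a') := by
    funext i
    refine Fin.cases ?_ (fun j => ?_) i <;> simp [mixB, Fin.consEquiv]
  have h2 : mixB (Fin.consEquiv (fun _ : Fin (n + 1) => Bool) (false, ω)) (Fin.cons z a : Fin (n + 1) → ℤ)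
      (Fin.cons z' a') = Fin.cons z (mixB ω a a') := by
    funext i
    refine Fin.cases ?_ (fun j => ?_) i <;> simp [mixB, Fin.consEquiv]
  have h3 : sgnB (Fin.consEquiv (fun _ : Fin (n + 1) => Bool) (true, ω)) = - sgnB ω := by
    unfold sgnB
    rw [Fin.prod_univ_succ]
    simp [Fin.consEquiv]
  have h4 : sgnB (Fin.consEquiv (fun _ : Fin (n + 1) => Bool) (false, ω)) = sgnB ω := by
    unfold sgnB
    rw [Fin.prod_univ_succ]
    simp [Fin.consEquiv]
  rw [h1, h2, h3, h4]
  push_cast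
  ring

lemma BN_eq (n : ℕ) : ∀ (I : Fin n → Finset ℤ) (φ : (Fin n → ℤ) → ℝ),
    BN n I φ = ∑ a ∈ Fintype.piFinset I, ∑ a' ∈ Fintype.piFinset I, e (cub φ a a') := by
  induction n with
  | zero =>
    intro I φ
    rw [BN_zero, sum_elim, sum_elim]
    congr 1
    unfold cub
    rw [Fintype.sum_unique]
    have h1 : ∀ ω : Fin 0 → Bool, sgnB ω = 1 := by
      intro ω
      unfold sgnB
      simp
    rw [h1]
    simp only [Int.cast_one, one_mul]
    congr 1
    exact Subsingleton.elim _ _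
  | succ n ih =>
    intro I φ
    rw [BN_succ, sum_cons]
    refine sum_congr rfl fun z _ => ?_
    have h1 : ∀ z' : ℤ, BN n (fun i => I i.succ) (fun a => φ (Fin.cons z a) - φ (Fin.cons z' a)) =
        ∑ a ∈ Fintype.piFinset (fun i : Fin n => I i.succ),
          ∑ a' ∈ Fintype.piFinset (fun i : Fin n => I i.succ),
            e (cub φ (Fin.cons z a) (Fin.cons z' a')) := by
      intro z'
      rw [ih]
      refine sum_congr rfl fun a _ => sum_congr rfl fun a' _ => ?_
      rw [cub_cons]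
    simp_rw [h1]
    rw [sum_comm]
    refine sum_congr rfl fun a _ => ?_
    rw [sum_cons]

/-- averages along lines of a bounded function -/
lemma line_average {r : ℕ} (J : Fin r → ℤ) (M : Fin r → ℕ) (w : Fin r → ℤ) (T : ℕ) (hT : 1 ≤ T)
    (L ρ : ℝ) (hL : 0 < L) (hM : ∀ i, L ≤ M i) (G : (Fin r → ℤ) → ℂ) (hG : ∀ a, ‖G a‖ ≤ 1)
    (h : ∀ k : Fin r → ℤ, ‖∑ t ∈ range T, G (fun i => k i + w i * (t : ℤ))‖ ≤ ρ * T) :
    ‖∑ k ∈ box J M, G k‖ ≤ (∏ i, (M i : ℝ)) * (ρ + 2 * ((∑ i, |(w i : ℝ)|) * T / L)) := by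
  classical
  have hTR : (0 : ℝ) < T := by exact_mod_cast hT
  set V : ℝ := ∏ i, (M i : ℝ) with hV
  have hV0 : 0 ≤ V := prod_nonneg fun _ _ => Nat.cast_nonneg _
  -- the number of points leaving the box
  have hleave : ∀ t ∈ range T, ∀ σ : ℤ, |σ| = 1 →
      (((box J M).filter (fun k => (fun i => k i - σ * w i * (t : ℤ)) ∉ box J M)).card : ℝ) ≤
        V * ((∑ i, |(w i : ℝ)|) * T / L) := by
    intro t ht σ hσ
    have h2 : (box J M).filter (fun k => (fun i => k i - σ * w i * (t : ℤ)) ∉ box J M) ⊆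
        univ.biUnion (fun i => (box J M).filter
          (fun k => k i - σ * w i * (t : ℤ) ∉ Ico (J i) (J i + M i))) := by
      intro k hk
      rw [mem_filter] at hk
      obtain ⟨hk1, hin⟩ := hk
      rw [box, Fintype.mem_piFinset] at hin
      push Not at hin
      obtain ⟨i, hi⟩ := hin
      rw [mem_biUnion]
      exact ⟨i, mem_univ _, mem_filter.2 ⟨hk1, hi⟩⟩
    refine (Nat.cast_le.2 ((card_le_card h2).trans card_biUnion_le)).trans ?_
    push_cast
    have h5 : ∀ i ∈ (univ : Finset (Fin r)), (((box J M).filter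
        (fun k => k i - σ * w i * (t : ℤ) ∉ Ico (J i) (J i + M i))).card : ℝ) ≤
        V * (|(w i : ℝ)| * T / L) := by
      intro i _
      have h6 := card_leave_one J M i (σ * w i * (t : ℤ))
      have hMi : (0 : ℝ) < M i := lt_of_lt_of_le hL (hM i)
      rw [← le_div_iff₀ hMi] at h6
      refine h6.trans ?_
      rw [mul_div_assoc]
      apply mul_le_mul_of_nonneg_left _ hV0
      have hσ' : |(σ : ℝ)| = 1 := by
        rw [← Int.cast_abs, hσ]
        simp
      push_cast
      rw [abs_mul, abs_mul, hσ', one_mul, Nat.abs_cast]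
      have ht' : (t : ℝ) ≤ T := by exact_mod_cast (mem_range.1 ht).le
      have hMi' := hM i
      gcongr
    refine (sum_le_sum h5).trans (le_of_eq ?_)
    rw [← mul_sum, ← sum_div, ← sum_mul]
  -- comparison with a translate
  have h1 : ∀ t ∈ range T, ‖∑ k ∈ box J M, G k - ∑ k ∈ box J M, G (fun i => k i + w i * (t : ℤ))‖ ≤
      2 * (V * ((∑ i, |(w i : ℝ)|) * T / L)) := by
    intro t ht
    set A := (box J M).filter (fun k => (fun i => k i - w i * (t : ℤ)) ∈ box J M) with hA
    set B := (box J M).filter (fun k => (fun i => k i + w i * (t : ℤ)) ∈ box J M) with hB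
    have e1 : ∑ k ∈ A, G k = ∑ k ∈ B, G (fun i => k i + w i * (t : ℤ)) := by
      refine sum_nbij' (fun k i => k i - w i * (t : ℤ)) (fun k i => k i + w i * (t : ℤ)) ?_ ?_ ?_ ?_ ?_
      · intro k hk
        rw [hA, mem_filter] at hk
        rw [hB, mem_filter]
        refine ⟨hk.2, ?_⟩
        simp only [sub_add_cancel]
        exact hk.1
      · intro k hk
        rw [hB, mem_filter] at hk
        rw [hA, mem_filter]
        refine ⟨hk.2, ?_⟩
        simp only [add_sub_cancel_right]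
        exact hk.1
      · intro k _
        funext i
        simp
      · intro k _
        funext i
        simp
      · intro k _
        simp
    have e2 : ∑ k ∈ box J M, G k = ∑ k ∈ A, G k +
        ∑ k ∈ (box J M).filter (fun k => (fun i => k i - w i * (t : ℤ)) ∉ box J M), G k :=
      (sum_filter_add_sum_filter_not _ _ _).symm
    have e3 : ∑ k ∈ box J M, G (fun i => k i + w i * (t : ℤ)) =
        ∑ k ∈ B, G (fun i => k i + w i * (t : ℤ)) +
        ∑ k ∈ (box J M).filter (fun k => (fun i => k i + w i * (t : ℤ)) ∉ box J M),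
          G (fun i => k i + w i * (t : ℤ)) :=
      (sum_filter_add_sum_filter_not _ _ _).symm
    rw [e2, e3, e1, add_sub_add_left_eq_sub]
    have hb : ∀ (S : Finset (Fin r → ℤ)) (G' : (Fin r → ℤ) → ℂ), (∀ a, ‖G' a‖ ≤ 1) →
        ‖∑ k ∈ S, G' k‖ ≤ S.card := by
      intro S G' hG'
      refine (norm_sum_le _ _).trans ((sum_le_sum fun k _ => hG' k).trans ?_)
      simp
    refine (norm_sub_le _ _).trans ?_
    have f1 := (hb ((box J M).filter (fun k => (fun i => k i - w i * (t : ℤ)) ∉ box J M)) G hG)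
    have f2 := (hb ((box J M).filter (fun k => (fun i => k i + w i * (t : ℤ)) ∉ box J M))
      (fun k => G (fun i => k i + w i * (t : ℤ))) (fun _ => hG _))
    have f3 := hleave t ht 1 (by simp)
    have f4 := hleave t ht (-1) (by simp)
    simp only [one_mul] at f3
    simp only [neg_mul, one_mul, sub_neg_eq_add] at f4
    linarith
  -- the sum over `t`
  have h2 : (T : ℝ) * ‖∑ k ∈ box J M, G k‖ ≤
      ‖∑ k ∈ box J M, ∑ t ∈ range T, G (fun i => k i + w i * (t : ℤ))‖ +
        T * (2 * (V * ((∑ i, |(w i : ℝ)|) * T / L))) := by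
    have e1 : (T : ℂ) * ∑ k ∈ box J M, G k =
        ∑ k ∈ box J M, ∑ t ∈ range T, G (fun i => k i + w i * (t : ℤ)) +
        ∑ t ∈ range T, (∑ k ∈ box J M, G k - ∑ k ∈ box J M, G (fun i => k i + w i * (t : ℤ))) := by
      rw [sum_sub_distrib, sum_const, card_range, nsmul_eq_mul, sum_comm]
      ring
    have e2 : (T : ℝ) * ‖∑ k ∈ box J M, G k‖ = ‖(T : ℂ) * ∑ k ∈ box J M, G k‖ := by
      rw [norm_mul]
      simp
    rw [e2, e1]
    refine (norm_add_le _ _).trans (add_le_add_right ?_ _)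
    refine (norm_sum_le _ _).trans ((sum_le_sum h1).trans ?_)
    rw [sum_const, card_range, nsmul_eq_mul]
  have h3 : ‖∑ k ∈ box J M, ∑ t ∈ range T, G (fun i => k i + w i * (t : ℤ))‖ ≤ V * (ρ * T) := by
    refine (norm_sum_le _ _).trans ((sum_le_sum fun k _ => h k).trans (le_of_eq ?_))
    rw [sum_const, card_box, nsmul_eq_mul, hV]
    push_cast
    rfl
  have h5 : (T : ℝ) * ‖∑ k ∈ box J M, G k‖ ≤
      T * (V * (ρ + 2 * ((∑ i, |(w i : ℝ)|) * T / L))) := by
    calc (T : ℝ) * ‖∑ k ∈ box J M, G k‖ ≤ _ := h2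
      _ ≤ V * (ρ * T) + T * (2 * (V * ((∑ i, |(w i : ℝ)|) * T / L))) := by linarith
      _ = _ := by ring
  exact le_of_mul_le_mul_left h5 hTR

end Pool.Agent.J6H30.PV
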