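import Pool.Agent.J6H30.PV.Poly
import Pool.Agent.J6H30.PV.Line

/-!
# The values of a polynomial in several variables
-/

set_option autoImplicit false

namespace Pool.Agent.J6H30.PV

open Finset Filter Topology

lemma isAlgebraic_eval {r : ℕ} (F : MvPolynomial (Fin r) ℝ) (h : ∀ m, IsAlgebraic ℚ (F.coeff m))
    (v : Fin r → ℤ) : IsAlgebraic ℚ (MvPolynomial.eval (fun i => (v i : ℝ)) F) := by
  rw [MvPolynomial.eval_eq']
  have hint : ∀ z : ℤ, IsIntegral ℚ (z : ℝ) := by
    intro z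
    have : (z : ℝ) = algebraMap ℚ ℝ (z : ℚ) := by simp
    rw [this]
    exact isIntegral_algebraMap
  have : IsIntegral ℚ (∑ m ∈ F.support, F.coeff m * ∏ i, (v i : ℝ) ^ m i) := by
    apply IsIntegral.sum
    intro m _
    apply (h m).isIntegral.mul
    apply IsIntegral.prod
    intro i _
    exact (hint _).pow _
  exact this.isAlgebraic

/-- **Several variables.** -/
theorem multi (r D : ℕ) (hD : 1 ≤ D) (F : MvPolynomial (Fin r) ℝ) (hF : F.IsHomogeneous D)
    (halg : ∀ m, IsAlgebraic ℚ (F.coeff m)) (hirr : ∃ m, Irrational (F.coeff m)) (Q : ℕ) (hQ : 1 ≤ Q)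
    (B : ℕ) (ε δ : ℝ) (hε : 0 < ε) (hδ : 0 < δ) (A : ℕ) :
    ∃ N₀ : ℕ, ∀ N : ℕ, N₀ ≤ N → ∀ g : MvPolynomial (Fin r) ℝ, g.totalDegree < D →
      ∀ R : MvPolynomial (Fin r) ℤ, ∀ (J : Fin r → ℤ) (M : Fin r → ℕ),
      (∀ i, Real.exp (ε * N) ≤ M i) →
      ({k | k ∈ box J M ∧ ¬ Good B N ((N : ℝ) ^ (1 / 2 + δ))
        (MvPolynomial.eval (fun i => (k i : ℝ)) F + MvPolynomial.eval (fun i => (k i : ℝ)) g +
          (MvPolynomial.eval k R : ℤ) / Q)}.ncard : ℝ) * (N : ℝ) ^ A ≤ ∏ i, (M i : ℝ) := by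
  obtain ⟨m₀, hm₀⟩ := hirr
  obtain ⟨v, hv⟩ := exists_irrational_value F m₀ hm₀
  set x : ℝ := MvPolynomial.eval (fun i => (v i : ℝ)) F with hx
  have hxalg : IsAlgebraic ℚ x := isAlgebraic_eval F halg v
  obtain ⟨κ, hκ, N1, hpoly⟩ := poly1 x hxalg hv D hD B (ε / 2) δ (by positivity) hδ (A + 1)
  set w : Fin r → ℤ := fun i => Q * v i with hw
  set W : ℝ := ∑ i, |(w i : ℝ)| with hW
  have hW0 : 0 ≤ W := sum_nonneg fun _ _ => abs_nonneg _
  obtain ⟨N2, hN2⟩ := eventually_atTop.1 (((pow_le_exp ((Q : ℝ) ^ D) 0 κ hκ).and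
    (pow_le_exp (2 * W) (A + 1) (ε / 2) (by positivity))).and (eventually_ge_atTop 2))
  refine ⟨max N1 N2, fun N hN g hg R J M hM => ?_⟩
  have hNa : N1 ≤ N := (le_max_left _ _).trans hN
  obtain ⟨⟨hNb, hNc⟩, hNd⟩ := hN2 N ((le_max_right _ _).trans hN)
  rw [pow_zero, mul_one] at hNb
  have hNR : (2 : ℝ) ≤ N := by exact_mod_cast hNd
  have hN0 : (0 : ℝ) < N := by linarith
  set T : ℕ := ⌈Real.exp (ε / 2 * N)⌉₊ with hT
  have hT1 : Real.exp (ε / 2 * N) ≤ T := Nat.le_ceil _
  have hexp1 : (1 : ℝ) ≤ Real.exp (ε / 2 * N) := Real.one_le_exp (by positivity)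
  have hT2 : (T : ℝ) ≤ 2 * Real.exp (ε / 2 * N) := by
    have := (Nat.ceil_lt_add_one (Real.exp_pos (ε / 2 * N)).le).le
    rw [← hT] at this
    linarith
  have hTpos : 1 ≤ T := by
    have : (1 : ℝ) ≤ T := hexp1.trans hT1
    exact_mod_cast this
  have hQR : (0 : ℝ) < Q := by exact_mod_cast hQ
  have hb := box_average J M w T hTpos (Real.exp (ε * N)) (1 / (N : ℝ) ^ (A + 1))
    (Real.exp_pos _) hM
    (fun k => ¬ Good B N ((N : ℝ) ^ (1 / 2 + δ))
        (MvPolynomial.eval (fun i => (k i : ℝ)) F + MvPolynomial.eval (fun i => (k i : ℝ)) g +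
          (MvPolynomial.eval k R : ℤ) / Q)) (by
      intro k
      set P : Polynomial ℝ := line (fun i => (k i : ℝ)) (fun i => (w i : ℝ)) F +
        line (fun i => (k i : ℝ)) (fun i => (w i : ℝ)) g +
          Polynomial.C (((MvPolynomial.eval k R : ℤ) : ℝ) / Q) with hP
      have hPd : P.natDegree ≤ D := by
        rw [hP]
        refine (Polynomial.natDegree_add_le _ _).trans (max_le
          ((Polynomial.natDegree_add_le _ _).trans (max_le ?_ ?_)) ?_)
        · exact line_natDegree _ _ _ _ hF.totalDegree_le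
        · exact line_natDegree _ _ _ _ hg.le
        · rw [Polynomial.natDegree_C]
          omega
      have hPc : P.coeff D = (((Q : ℤ) ^ D : ℤ) : ℝ) * x := by
        rw [hP, Polynomial.coeff_add, Polynomial.coeff_add, line_coeff_of_homogeneous _ _ _ _ hF,
          line_coeff_of_lt _ _ _ _ hg, Polynomial.coeff_C_of_ne_zero (by omega), add_zero, add_zero,
          hx, MvPolynomial.eval_eq', MvPolynomial.eval_eq', mul_sum]
        refine sum_congr rfl fun m hm => ?_
        have h1 : ∑ i, m i = D := by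
          have h2 := hF (MvPolynomial.mem_support_iff.1 hm)
          rw [← h2]
          have h3 : (Finsupp.weight (1 : Fin r → ℕ)) m = m.degree := by
            rw [Finsupp.degree_eq_weight_one]
            rfl
          rw [h3]
          exact (degree_eq_sum m).symm
        have h4 : ∏ i, (w i : ℝ) ^ m i = (Q : ℝ) ^ D * ∏ i, (v i : ℝ) ^ m i := by
          rw [hw]
          push_cast
          simp_rw [mul_pow]
          rw [prod_mul_distrib, prod_pow_eq_pow_sum, h1]
        rw [h4]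
        push_cast
        ring
      have h0 := hpoly N hNa ((Q : ℤ) ^ D) (by positivity) (by
        push_cast
        rw [abs_of_nonneg (by positivity)]
        exact hNb) P hPd hPc T hT1
      have hset : {t | t ∈ range T ∧ ¬ Good B N ((N : ℝ) ^ (1 / 2 + δ))
          (MvPolynomial.eval (fun i => ((k i + w i * (t : ℤ) : ℤ) : ℝ)) F +
            MvPolynomial.eval (fun i => ((k i + w i * (t : ℤ) : ℤ) : ℝ)) g +
            (MvPolynomial.eval (fun i => k i + w i * (t : ℤ)) R : ℤ) / Q)} =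
          {t | t ∈ range T ∧ ¬ Good B N ((N : ℝ) ^ (1 / 2 + δ)) (P.eval (t : ℝ))} := by
        ext t
        simp only [Set.mem_setOf_eq]
        refine and_congr_right fun _ => not_congr ?_
        obtain ⟨c, hc⟩ := eval_congr_mod R Q k (fun i => w i * (t : ℤ)) (fun i => by
          rw [hw]
          simp only
          rw [mul_assoc]
          exact dvd_mul_right _ _)
        have h1 : (MvPolynomial.eval (fun i => k i + w i * (t : ℤ)) R : ℤ) =
            MvPolynomial.eval k R + Q * c := by linarith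
        have h2 : MvPolynomial.eval (fun i => ((k i + w i * (t : ℤ) : ℤ) : ℝ)) F +
            MvPolynomial.eval (fun i => ((k i + w i * (t : ℤ) : ℤ) : ℝ)) g +
            ((MvPolynomial.eval (fun i => k i + w i * (t : ℤ)) R : ℤ) : ℝ) / Q =
            P.eval (t : ℝ) + (c : ℤ) := by
          have h3 : ((MvPolynomial.eval k R + Q * c : ℤ) : ℝ) / Q =
              ((MvPolynomial.eval k R : ℤ) : ℝ) / Q + c := by
            push_cast
            field_simp
          rw [h1, h3, hP, Polynomial.eval_add, Polynomial.eval_add, Polynomial.eval_C, line_eval,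
            line_eval]
          push_cast
          ring
        rw [h2, good_add_int]
      rw [hset, one_div_mul_eq_div, le_div_iff₀ (by positivity)]
      exact h0)
  set V : ℝ := ∏ i, (M i : ℝ) with hV
  have hV0 : 0 ≤ V := prod_nonneg fun _ _ => Nat.cast_nonneg _
  refine (mul_le_mul_of_nonneg_right hb (by positivity)).trans ?_
  rw [← hW]
  have h1 : W * T / Real.exp (ε * N) ≤ 1 / (N : ℝ) ^ (A + 1) := by
    rw [div_le_div_iff₀ (Real.exp_pos _) (by positivity), one_mul]
    have e1 : Real.exp (ε * N) = Real.exp (ε / 2 * N) * Real.exp (ε / 2 * N) := by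
      rw [← Real.exp_add]
      congr 1
      ring
    rw [e1]
    calc W * T * (N : ℝ) ^ (A + 1) ≤ W * (2 * Real.exp (ε / 2 * N)) * (N : ℝ) ^ (A + 1) := by
          gcongr
      _ = (2 * W * (N : ℝ) ^ (A + 1)) * Real.exp (ε / 2 * N) := by ring
      _ ≤ _ := mul_le_mul_of_nonneg_right hNc (Real.exp_pos _).le
  have h2 : (1 / (N : ℝ) ^ (A + 1) + W * T / Real.exp (ε * N)) * (N : ℝ) ^ A ≤ 1 := by
    calc (1 / (N : ℝ) ^ (A + 1) + W * T / Real.exp (ε * N)) * (N : ℝ) ^ A ≤
        (1 / (N : ℝ) ^ (A + 1) + 1 / (N : ℝ) ^ (A + 1)) * (N : ℝ) ^ A := by gcongr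
      _ = 2 / N := by
        field_simp
        ring
      _ ≤ 1 := by rw [div_le_one hN0]; exact hNR
  calc V * (1 / (N : ℝ) ^ (A + 1) + W * T / Real.exp (ε * N)) * (N : ℝ) ^ A =
      V * ((1 / (N : ℝ) ^ (A + 1) + W * T / Real.exp (ε * N)) * (N : ℝ) ^ A) := by ring
    _ ≤ V * 1 := mul_le_mul_of_nonneg_left h2 hV0
    _ = V := mul_one _

end Pool.Agent.J6H30.PV
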