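import Pool.Agent.J6H30.PV.Cube
import Pool.Agent.J6H30.PV.Multi

/-!
# Exponential sums over cylinder intersections
-/

set_option autoImplicit false

namespace Pool.Agent.J6H30.PV

open Finset Filter Topology Polynomial
open Pool.Agent.H469R2.NK (e norm_e e_add e_zero conj_e)
open Pool.Agent.R485.Mult (sg abs_sg dioph)

/-- Weyl sums with a power saving -/
theorem weyl_exp (x : ℝ) (hx : IsAlgebraic ℚ x) (hirr : Irrational x) (d : ℕ) (hd : 1 ≤ d) (s : ℕ)
    (B : ℕ) (ε : ℝ) (hε : 0 < ε) :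
    ∃ c κ : ℝ, 0 < c ∧ 0 < κ ∧ ∃ N₀ : ℕ, ∀ N : ℕ, N₀ ≤ N → ∀ q : ℤ, q ≠ 0 →
      |(q : ℝ)| ≤ Real.exp (κ * N) →
      ∀ P : ℝ[X], P.natDegree ≤ d → P.coeff d = q * x → ∀ K : ℕ, Real.exp (ε * N) ≤ K →
      ∀ b : ℕ, 2 ≤ b → b ≤ B → ∀ h : ℕ, 1 ≤ h → h ≤ N → ∀ p : Fin (2 * s) → ℕ, (∀ j, p j ≤ N) →
      ∑ j : Fin (2 * s), sg j * (b : ℤ) ^ (p j) ≠ 0 →
      ‖∑ k ∈ range K, e (h * P.eval (k : ℝ) *
        ((∑ j : Fin (2 * s), sg j * (b : ℤ) ^ (p j) : ℤ) : ℝ))‖ ≤ K * Real.exp (-(c * N)) := by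
  obtain ⟨d, rfl⟩ : ∃ d', d = d' + 1 := ⟨d - 1, by omega⟩
  obtain ⟨κ0, hκ0, N2, hdio⟩ := dioph_all x hx hirr (2 * s) (ε / 2) (by positivity) B
  set κ1 : ℝ := min (κ0 / (4 * (d + 1))) (ε / 4) with hκ1
  have hκ1p : 0 < κ1 := lt_min (by positivity) (by positivity)
  have hκ1a : d * κ1 ≤ κ0 / 4 := by
    have h1 : κ1 ≤ κ0 / (4 * (d + 1)) := min_le_left _ _
    rw [le_div_iff₀ (by positivity)] at h1
    have : 0 ≤ κ1 := hκ1p.le
    nlinarith
  have hκ1b : κ1 ≤ ε / 4 := min_le_right _ _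
  set c : ℝ := (1 / 2 : ℝ) ^ d with hc
  have hc0 : 0 < c := by positivity
  have hc1 : c ≤ 1 := pow_le_one₀ (by norm_num) (by norm_num)
  obtain ⟨N3, hN3⟩ := eventually_atTop.1 (((pow_le_exp ((d + 1).factorial) 1 (κ0 / 4)
    (by positivity)).and (pow_le_exp 16 0 (c * κ1 / 2) (by positivity))).and
      ((pow_le_exp 4 0 κ1 hκ1p).and (eventually_ge_atTop 1)))
  refine ⟨c * κ1 / 2, κ0 / 4, by positivity, by positivity, max N2 N3,
    fun N hN q hq0 hq P hP hPc K hK => ?_⟩
  have hNb : N2 ≤ N := (le_max_left _ _).trans hN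
  obtain ⟨⟨hNc, hNd⟩, hNe, hNf⟩ := hN3 N ((le_max_right _ _).trans hN)
  rw [pow_one] at hNc
  rw [pow_zero, mul_one] at hNe hNd
  have hNR : (1 : ℝ) ≤ N := by exact_mod_cast hNf
  have hN0 : (0 : ℝ) < N := by linarith
  have hK0 : (0 : ℝ) < K := lt_of_lt_of_le (Real.exp_pos _) hK
  have hK1 : 1 ≤ K := by exact_mod_cast hK0
  set H : ℕ := ⌊Real.exp (κ1 * N)⌋₊ with hH
  have hH1 : (H : ℝ) ≤ Real.exp (κ1 * N) := Nat.floor_le (Real.exp_pos _).le
  have hH2 : Real.exp (κ1 * N) / 2 ≤ H := by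
    have h1 := Nat.lt_floor_add_one (Real.exp (κ1 * N))
    rw [← hH] at h1
    linarith
  have hHpos : 1 ≤ H := by
    have : (1 : ℝ) ≤ H := by linarith
    exact_mod_cast this
  have hH0 : (0 : ℝ) < H := by exact_mod_cast hHpos
  set τ : ℝ := 4 * Real.exp (-(κ1 * N)) with hτ
  have hexp : Real.exp (κ1 * N) * Real.exp (-(κ1 * N)) = 1 := by
    rw [← Real.exp_add, add_neg_cancel, Real.exp_zero]
  have hτ0 : 0 < τ := by positivity
  have hτ1 : τ ≤ 1 := by
    rw [hτ, ← hexp]
    exact mul_le_mul_of_nonneg_right hNe (Real.exp_pos _).le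
  have hεN : 0 ≤ ε * N := by positivity
  have hκN : κ1 * N ≤ ε / 4 * N := mul_le_mul_of_nonneg_right hκ1b hN0.le
  have hw1 : 2 / (Real.exp (-(ε / 2 * N)) * K) ≤ τ := by
    rw [div_le_iff₀ (by positivity), hτ]
    have h1 : Real.exp (-(κ1 * N)) * (Real.exp (-(ε / 2 * N)) * Real.exp (ε * N)) ≤
        Real.exp (-(κ1 * N)) * (Real.exp (-(ε / 2 * N)) * K) := by
      gcongr
    have h2 : 1 ≤ Real.exp (-(κ1 * N)) * (Real.exp (-(ε / 2 * N)) * Real.exp (ε * N)) := by
      rw [← Real.exp_add, ← Real.exp_add]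
      apply Real.one_le_exp
      linarith
    linarith
  have hw2 : 2 / (H : ℝ) ≤ τ := by
    rw [div_le_iff₀ hH0, hτ]
    have h1 : Real.exp (-(κ1 * N)) * (Real.exp (κ1 * N) / 2) ≤ Real.exp (-(κ1 * N)) * H := by
      gcongr
    nlinarith
  have hw3 : 2 * (H : ℝ) / K ≤ τ := by
    rw [div_le_iff₀ hK0, hτ]
    have h1 : Real.exp (-(κ1 * N)) * Real.exp (ε * N) ≤ Real.exp (-(κ1 * N)) * K := by
      gcongr
    have h2 : Real.exp (κ1 * N) ≤ Real.exp (-(κ1 * N)) * Real.exp (ε * N) := by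
      rw [← Real.exp_add]
      apply Real.exp_le_exp.2
      linarith
    linarith
  intro b hb hbB h hh1 hh p hp hne
  set Λ : ℤ := ∑ j : Fin (2 * s), sg j * (b : ℤ) ^ (p j) with hΛ
  have e1 : ∀ k : ℕ, h * P.eval (k : ℝ) * (Λ : ℝ) = (C ((h : ℝ) * Λ) * P).eval (k : ℝ) := by
    intro k
    rw [eval_mul, eval_C]
    ring
  simp only [e1]
  have h1 := weyl d (C ((h : ℝ) * Λ) * P) ((natDegree_C_mul_le _ _).trans hP) H K hHpos hK1
    (Real.exp (-(ε / 2 * N))) τ (Real.exp_pos _) hw1 hw2 hw3 hτ1 (by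
      intro q' hq'0 hq' m
      have h2 := hdio N hNb b hb hbB p hp (fun j => q' * q * h * sg j) (by
        intro j
        have e2 : |((q' * q * h * sg j : ℤ) : ℝ)| = |(q' : ℝ)| * |(q : ℝ)| * h := by
          push_cast
          rw [abs_mul, abs_mul, abs_mul]
          have : |((sg j : ℤ) : ℝ)| = 1 := by
            rw [← Int.cast_abs, abs_sg]
            simp
          rw [this, Nat.abs_cast, mul_one]
        rw [e2]
        have e3 : |(q' : ℝ)| ≤ (d + 1).factorial * Real.exp (κ1 * N) ^ d := by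
          have e4 : |(q' : ℝ)| ≤ ((d + 1).factorial : ℝ) * (H : ℝ) ^ d := by
            rw [← Int.cast_abs]
            exact_mod_cast hq'
          exact e4.trans (by gcongr)
        have hhR : (h : ℝ) ≤ N := by exact_mod_cast hh
        have e5 : Real.exp (κ1 * N) ^ d ≤ Real.exp (κ0 / 4 * N) := by
          rw [← Real.exp_nat_mul]
          apply Real.exp_le_exp.2
          calc (d : ℝ) * (κ1 * N) = (d * κ1) * N := by ring
            _ ≤ κ0 / 4 * N := mul_le_mul_of_nonneg_right hκ1a hN0.le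
        calc |(q' : ℝ)| * |(q : ℝ)| * h ≤
            ((d + 1).factorial * Real.exp (κ0 / 4 * N)) * Real.exp (κ0 / 4 * N) * N := by
              gcongr
              exact e3.trans (by gcongr)
          _ = ((d + 1).factorial * N) * (Real.exp (κ0 / 4 * N) * Real.exp (κ0 / 4 * N)) := by ring
          _ ≤ Real.exp (κ0 / 4 * N) * (Real.exp (κ0 / 4 * N) * Real.exp (κ0 / 4 * N)) := by
              gcongr
          _ ≤ Real.exp (κ0 * N) := by
              rw [← Real.exp_add, ← Real.exp_add]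
              apply Real.exp_le_exp.2
              have : 0 < κ0 * N := by positivity
              linarith) (by
        have e6 : ∑ j : Fin (2 * s), q' * q * h * sg j * (b : ℤ) ^ (p j) = q' * q * h * Λ := by
          rw [hΛ, mul_sum]
          exact sum_congr rfl fun j _ => by ring
        rw [e6]
        exact mul_ne_zero (mul_ne_zero (mul_ne_zero hq'0 hq0) (by omega)) hne) m
      refine lt_of_lt_of_eq h2 ?_
      have e7 : ∑ j : Fin (2 * s), ((q' * q * h * sg j : ℤ) : ℝ) * (b : ℝ) ^ (p j) =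
          q' * q * h * Λ := by
        rw [hΛ]
        push_cast
        rw [mul_sum]
        exact sum_congr rfl fun j _ => by ring
      rw [e7, coeff_C_mul, hPc]
      congr 1
      ring)
  refine h1.trans (mul_le_mul_of_nonneg_left ?_ hK0.le)
  have e8 : τ ^ c ≤ 4 * Real.exp (-(c * κ1 * N)) := by
    rw [hτ, Real.mul_rpow (by norm_num) (Real.exp_pos _).le]
    have e9 : (4 : ℝ) ^ c ≤ 4 := by
      nth_rw 2 [← Real.rpow_one 4]
      exact Real.rpow_le_rpow_of_exponent_le (by norm_num) hc1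
    have e10 : Real.exp (-(κ1 * N)) ^ c = Real.exp (-(c * κ1 * N)) := by
      rw [← Real.exp_mul]
      congr 1
      ring
    rw [e10]
    exact mul_le_mul_of_nonneg_right e9 (Real.exp_pos _).le
  calc 4 * τ ^ c ≤ 4 * (4 * Real.exp (-(c * κ1 * N))) := by gcongr
    _ = 16 * Real.exp (-(c * κ1 * N)) := by ring
    _ ≤ Real.exp (c * κ1 / 2 * N) * Real.exp (-(c * κ1 * N)) := by gcongr
    _ = Real.exp (-(c * κ1 / 2 * N)) := by
      rw [← Real.exp_add]
      congr 1
      ring

lemma e_add_int (t : ℝ) (m : ℤ) : e (t + m) = e t := by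
  rw [e_add, Pool.Agent.R485.Mult.e_intCast, mul_one]

/-- the value of the form at the vertices of the cube with a zero coordinate -/
lemma eval_mix_zero {n : ℕ} (F : MvPolynomial (Fin n) ℝ) (hfull : ∀ m ∈ F.support, ∀ i, m i ≠ 0)
    (w : Fin n → ℝ) :
    ∑ ω : Fin n → Bool, (sgnB ω : ℝ) * MvPolynomial.eval (mixB ω w (fun _ => 0)) F =
      MvPolynomial.eval w F := by
  classical
  rw [sum_eq_single (fun _ => false)]
  · have h1 : sgnB (fun _ : Fin n => false) = 1 := by
      unfold sgnB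
      simp
    rw [h1]
    simp only [Int.cast_one, one_mul]
    rfl
  · intro ω _ hω
    obtain ⟨i, hi⟩ : ∃ i, ω i = true := by
      by_contra hcon
      push Not at hcon
      apply hω
      funext i
      simpa using hcon i
    rw [MvPolynomial.eval_eq', sum_eq_zero, mul_zero]
    intro m hm
    rw [prod_eq_zero (mem_univ i), mul_zero]
    unfold mixB
    rw [if_pos hi, zero_pow (hfull m hm i)]
  · intro h
    exact absurd (mem_univ _) h

/-- **Exponential sums with rough coefficients.** -/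
theorem cyl_sum (n D : ℕ) (hD : 1 ≤ D) (F : MvPolynomial (Fin (n + 1)) ℝ) (hF : F.IsHomogeneous D)
    (halg : ∀ m, IsAlgebraic ℚ (F.coeff m)) (hirr : ∃ m, Irrational (F.coeff m))
    (hfull : ∀ m ∈ F.support, ∀ i, m i ≠ 0) (Q : ℕ) (hQ : 1 ≤ Q)
    (B s : ℕ) (ε : ℝ) (hε : 0 < ε) :
    ∃ c : ℝ, 0 < c ∧ ∃ N₀ : ℕ, ∀ N : ℕ, N₀ ≤ N → ∀ g : MvPolynomial (Fin (n + 1)) ℝ,
      g.totalDegree < D →
      ∀ R : MvPolynomial (Fin (n + 1)) ℤ, ∀ (J : Fin (n + 1) → ℤ) (M : Fin (n + 1) → ℕ),
      (∀ i, Real.exp (ε * N) ≤ M i) →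
      ∀ b : ℕ, 2 ≤ b → b ≤ B → ∀ h : ℕ, 1 ≤ h → h ≤ N → ∀ p : Fin (2 * s) → ℕ, (∀ j, p j ≤ N) →
      ∑ j : Fin (2 * s), sg j * (b : ℤ) ^ (p j) ≠ 0 →
      ∀ u : Fin (n + 1) → (Fin (n + 1) → ℤ) → ℂ, (∀ i a, ‖u i a‖ ≤ 1) →
      (∀ i a z, u i (Function.update a i z) = u i a) →
      ‖∑ k ∈ box J M, (∏ i, u i k) * e (h * (MvPolynomial.eval (fun i => (k i : ℝ)) F +
        MvPolynomial.eval (fun i => (k i : ℝ)) g + (MvPolynomial.eval k R : ℤ) / Q) *
          ((∑ j : Fin (2 * s), sg j * (b : ℤ) ^ (p j) : ℤ) : ℝ))‖ ≤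
        (∏ i, (M i : ℝ)) * Real.exp (-(c * N)) := by
  obtain ⟨m₀, hm₀⟩ := hirr
  obtain ⟨v, hv⟩ := exists_irrational_value F m₀ hm₀
  set x : ℝ := MvPolynomial.eval (fun i => (v i : ℝ)) F with hx
  have hxalg : IsAlgebraic ℚ x := isAlgebraic_eval F halg v
  obtain ⟨c, κ, hc, hκ, N1, hweyl⟩ := weyl_exp x hxalg hv D hD s B (ε / 2) (by positivity)
  set w : Fin (n + 1) → ℤ := fun i => Q * v i with hw
  set W : ℝ := ∑ i, |(w i : ℝ)| with hW
  have hW0 : 0 ≤ W := sum_nonneg fun _ _ => abs_nonneg _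
  set c2 : ℝ := min c (ε / 2) / 2 with hc2
  have hc2p : 0 < c2 := by
    have : 0 < min c (ε / 2) := lt_min hc (by positivity)
    positivity
  have hc2a : 2 * c2 ≤ c := by
    have : min c (ε / 2) ≤ c := min_le_left _ _
    rw [hc2]
    linarith
  have hc2b : 2 * c2 ≤ ε / 2 := by
    have : min c (ε / 2) ≤ ε / 2 := min_le_right _ _
    rw [hc2]
    linarith
  obtain ⟨N2, hN2⟩ := eventually_atTop.1 (((pow_le_exp ((Q : ℝ) ^ D) 0 κ hκ).and
    (pow_le_exp (1 + 4 * W) 0 c2 hc2p)).and (eventually_ge_atTop 2))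
  have hm0 : (0 : ℝ) < 2 ^ (n + 1) := by positivity
  refine ⟨c2 / 2 ^ (n + 1), by positivity, max N1 N2, fun N hN g hg R J M hM b hb hbB h hh1 hh p hp
    hne u hu hind => ?_⟩
  have hNa : N1 ≤ N := (le_max_left _ _).trans hN
  obtain ⟨⟨hNb, hNc⟩, hNd⟩ := hN2 N ((le_max_right _ _).trans hN)
  rw [pow_zero, mul_one] at hNb hNc
  have hNR : (2 : ℝ) ≤ N := by exact_mod_cast hNd
  have hN0 : (0 : ℝ) < N := by linarith
  set T : ℕ := ⌈Real.exp (ε / 2 * N)⌉₊ with hT
  have hT1 : Real.exp (ε / 2 * N) ≤ T := Nat.le_ceil _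
  have hexp1 : (1 : ℝ) ≤ Real.exp (ε / 2 * N) := Real.one_le_exp (by positivity)
  have hT2 : (T : ℝ) ≤ 2 * Real.exp (ε / 2 * N) := by
    have := (Nat.ceil_lt_add_one (Real.exp_pos (ε / 2 * N)).le).le
    rw [← hT] at this
    linarith
  have hTpos : 1 ≤ T := by
    have : (1 : ℝ) ≤ T := hexp1.trans hT1
    exact_mod_cast this
  have hQR : (0 : ℝ) < Q := by exact_mod_cast hQ
  set Λ : ℤ := ∑ j : Fin (2 * s), sg j * (b : ℤ) ^ (p j) with hΛ
  set f : (Fin (n + 1) → ℤ) → ℝ := fun k => MvPolynomial.eval (fun i => (k i : ℝ)) F +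
    MvPolynomial.eval (fun i => (k i : ℝ)) g + (MvPolynomial.eval k R : ℤ) / Q with hf
  set V : ℝ := ∏ i, (M i : ℝ) with hV
  have hV0 : 0 ≤ V := prod_nonneg fun _ _ => Nat.cast_nonneg _
  set S : ℂ := ∑ k ∈ box J M, (∏ i, u i k) * e (h * f k * Λ) with hS
  -- the box norm
  have hbox := box_norm n (fun i => Ico (J i) (J i + M i)) (fun k => h * f k * Λ) u hu hind
  have hcard : ∏ i, (((Ico (J i) (J i + (M i : ℤ))).card : ℕ) : ℝ) = V := by
    rw [hV]
    refine prod_congr rfl fun i _ => ?_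
    rw [Int.card_Ico]
    congr 1
    omega
  rw [hcard] at hbox
  have hBN : ‖BN (n + 1) (fun i => Ico (J i) (J i + M i)) (fun k => h * f k * Λ)‖ ≤
      V * (V * (Real.exp (-(c * N)) + 2 * (W * T / Real.exp (ε * N)))) := by
    rw [BN_eq, sum_comm]
    refine (norm_sum_le _ _).trans ?_
    have hone : ∀ a' ∈ Fintype.piFinset (fun i => Ico (J i) (J i + (M i : ℤ))),
        ‖∑ a ∈ Fintype.piFinset (fun i => Ico (J i) (J i + (M i : ℤ))),
          e (cub (fun k => h * f k * Λ) a a')‖ ≤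
        V * (Real.exp (-(c * N)) + 2 * (W * T / Real.exp (ε * N))) := by
      intro a' _
      apply line_average J M w T hTpos (Real.exp (ε * N)) (Real.exp (-(c * N)))
        (Real.exp_pos _) hM (fun a => e (cub (fun k => h * f k * Λ) a a'))
        (fun a => (norm_e _).le)
      intro a
      -- the polynomial on the line
      set P : ℝ[X] := ∑ ω : Fin (n + 1) → Bool, Polynomial.C (sgnB ω : ℝ) *
        (line (fun i => ((mixB ω a a' i : ℤ) : ℝ)) (mixB ω (fun i => (w i : ℝ)) (fun _ => 0)) F +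
          line (fun i => ((mixB ω a a' i : ℤ) : ℝ)) (mixB ω (fun i => (w i : ℝ)) (fun _ => 0)) g +
          Polynomial.C (((MvPolynomial.eval (mixB ω a a') R : ℤ) : ℝ) / Q)) with hP
      have hPd : P.natDegree ≤ D := by
        rw [hP]
        refine Polynomial.natDegree_sum_le_of_forall_le _ _ fun ω _ => ?_
        refine (Polynomial.natDegree_C_mul_le _ _).trans ?_
        refine (Polynomial.natDegree_add_le _ _).trans (max_le
          ((Polynomial.natDegree_add_le _ _).trans (max_le ?_ ?_)) ?_)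
        · exact line_natDegree _ _ _ _ hF.totalDegree_le
        · exact line_natDegree _ _ _ _ hg.le
        · rw [Polynomial.natDegree_C]
          omega
      have hPc : P.coeff D = (((Q : ℤ) ^ D : ℤ) : ℝ) * x := by
        rw [hP, Polynomial.finsetSum_coeff]
        have h1 : ∀ ω : Fin (n + 1) → Bool, (Polynomial.C (sgnB ω : ℝ) *
            (line (fun i => ((mixB ω a a' i : ℤ) : ℝ)) (mixB ω (fun i => (w i : ℝ)) (fun _ => 0)) F +
            line (fun i => ((mixB ω a a' i : ℤ) : ℝ)) (mixB ω (fun i => (w i : ℝ)) (fun _ => 0)) g +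
            Polynomial.C (((MvPolynomial.eval (mixB ω a a') R : ℤ) : ℝ) / Q))).coeff D =
            (sgnB ω : ℝ) * MvPolynomial.eval (mixB ω (fun i => (w i : ℝ)) (fun _ => 0)) F := by
          intro ω
          rw [Polynomial.coeff_C_mul, Polynomial.coeff_add, Polynomial.coeff_add,
            line_coeff_of_homogeneous _ _ _ _ hF, line_coeff_of_lt _ _ _ _ hg,
            Polynomial.coeff_C_of_ne_zero (by omega), add_zero, add_zero]
        rw [sum_congr rfl fun ω _ => h1 ω, eval_mix_zero F hfull, hx, MvPolynomial.eval_eq',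
          MvPolynomial.eval_eq', mul_sum]
        refine sum_congr rfl fun m hm => ?_
        have h1 : ∑ i, m i = D := by
          have h2 := hF (MvPolynomial.mem_support_iff.1 hm)
          rw [← h2]
          have h3 : (Finsupp.weight (1 : Fin (n + 1) → ℕ)) m = m.degree := by
            rw [Finsupp.degree_eq_weight_one]
            rfl
          rw [h3]
          exact (degree_eq_sum m).symm
        have h4 : ∏ i, (w i : ℝ) ^ m i = (Q : ℝ) ^ D * ∏ i, (v i : ℝ) ^ m i := by
          rw [hw]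
          push_cast
          simp_rw [mul_pow]
          rw [prod_mul_distrib, prod_pow_eq_pow_sum, h1]
        rw [h4]
        push_cast
        ring
      have h0 := hweyl N hNa ((Q : ℤ) ^ D) (by positivity) (by
        push_cast
        rw [abs_of_nonneg (by positivity)]
        exact hNb) P hPd hPc T hT1 b hb hbB h hh1 hh p hp hne
      rw [mul_comm (Real.exp (-(c * N))) (T : ℝ)]
      refine le_trans (le_of_eq ?_) h0
      congr 1
      refine sum_congr rfl fun t _ => ?_
      -- the values of the phase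
      have hval : ∃ z : ℤ, cub f (fun i => a i + w i * (t : ℤ)) a' = P.eval (t : ℝ) + z := by
        choose cω hcω using fun ω : Fin (n + 1) → Bool => eval_congr_mod R Q (mixB ω a a')
          (fun i => mixB ω w (fun _ => 0) i * (t : ℤ)) (fun i => by
            unfold mixB
            split_ifs
            · simp
            · rw [hw]
              simp only
              rw [mul_assoc]
              exact dvd_mul_right _ _)
        refine ⟨∑ ω, sgnB ω * cω ω, ?_⟩
        rw [hP, Polynomial.eval_finsetSum]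
        push_cast
        rw [← sum_add_distrib]
        unfold cub
        refine sum_congr rfl fun ω _ => ?_
        have h1 : mixB ω (fun i => a i + w i * (t : ℤ)) a' =
            fun i => mixB ω a a' i + mixB ω w (fun _ => 0) i * (t : ℤ) := by
          funext i
          unfold mixB
          split_ifs <;> simp
        have h2 : (MvPolynomial.eval (fun i => mixB ω a a' i + mixB ω w (fun _ => 0) i * (t : ℤ)) R : ℤ) =
            MvPolynomial.eval (mixB ω a a') R + Q * cω ω := by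
          have := hcω ω
          linarith
        have h3 : ((MvPolynomial.eval (mixB ω a a') R + Q * cω ω : ℤ) : ℝ) / Q =
            ((MvPolynomial.eval (mixB ω a a') R : ℤ) : ℝ) / Q + cω ω := by
          push_cast
          field_simp
        have h4 : (fun i => (((mixB ω a a' i + mixB ω w (fun _ => 0) i * (t : ℤ) : ℤ)) : ℝ)) =
            fun i => ((mixB ω a a' i : ℤ) : ℝ) + mixB ω (fun i => (w i : ℝ)) (fun _ => 0) i * (t : ℝ) := by
          funext i
          unfold mixB
          split_ifs <;> simp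
        rw [hf]
        simp only
        rw [h1]
        simp only
        rw [h2, h3, h4, Polynomial.eval_mul, Polynomial.eval_add, Polynomial.eval_add,
          Polynomial.eval_C, Polynomial.eval_C, line_eval, line_eval]
        ring
      obtain ⟨z, hz⟩ := hval
      have h1 : cub (fun k => h * f k * Λ) (fun i => a i + w i * (t : ℤ)) a' =
          h * P.eval (t : ℝ) * Λ + ((h * z * Λ : ℤ) : ℝ) := by
        have h2 : cub (fun k => h * f k * Λ) (fun i => a i + w i * (t : ℤ)) a' =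
            h * cub f (fun i => a i + w i * (t : ℤ)) a' * Λ := by
          unfold cub
          rw [mul_sum, sum_mul]
          exact sum_congr rfl fun ω _ => by ring
        rw [h2, hz]
        push_cast
        ring
      rw [h1, e_add_int]
    refine (sum_le_sum hone).trans (le_of_eq ?_)
    rw [sum_const, nsmul_eq_mul, Fintype.card_piFinset]
    push_cast
    rw [hcard]
  -- the bound for the average
  have hρ : Real.exp (-(c * N)) + 2 * (W * T / Real.exp (ε * N)) ≤ Real.exp (-(c2 * N)) := by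
    have f1 : Real.exp (-(c * N)) ≤ Real.exp (-(2 * c2 * N)) := by
      apply Real.exp_le_exp.2
      have := mul_le_mul_of_nonneg_right hc2a hN0.le
      linarith
    have f2 : W * T / Real.exp (ε * N) ≤ 2 * W * Real.exp (-(2 * c2 * N)) := by
      rw [div_le_iff₀ (Real.exp_pos _)]
      have f3 : Real.exp (ε / 2 * N) ≤ Real.exp (-(2 * c2 * N)) * Real.exp (ε * N) := by
        rw [← Real.exp_add]
        apply Real.exp_le_exp.2
        have := mul_le_mul_of_nonneg_right hc2b hN0.le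
        linarith
      calc W * T ≤ W * (2 * Real.exp (ε / 2 * N)) := by gcongr
        _ ≤ W * (2 * (Real.exp (-(2 * c2 * N)) * Real.exp (ε * N))) := by gcongr
        _ = _ := by ring
    calc Real.exp (-(c * N)) + 2 * (W * T / Real.exp (ε * N)) ≤
        (1 + 4 * W) * Real.exp (-(2 * c2 * N)) := by linarith
      _ ≤ Real.exp (c2 * N) * Real.exp (-(2 * c2 * N)) :=
          mul_le_mul_of_nonneg_right hNc (Real.exp_pos _).le
      _ = Real.exp (-(c2 * N)) := by
        rw [← Real.exp_add]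
        congr 1
        ring
  have hp2 : 2 ≤ 2 ^ (n + 1) := by
    have := Nat.pow_le_pow_right (n := 2) (by norm_num) (show 1 ≤ n + 1 by omega)
    simpa using this
  have hfin : ‖S‖ ^ (2 ^ (n + 1)) ≤ (V * Real.exp (-(c2 / 2 ^ (n + 1) * N))) ^ (2 ^ (n + 1)) := by
    have f1 : Real.exp (-(c2 / 2 ^ (n + 1) * N)) ^ (2 ^ (n + 1)) = Real.exp (-(c2 * N)) := by
      rw [← Real.exp_nat_mul]
      congr 1
      push_cast
      field_simp
    rw [mul_pow, f1]
    calc ‖S‖ ^ (2 ^ (n + 1)) ≤ V ^ (2 ^ (n + 1) - 2) * _ := hbox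
      _ ≤ V ^ (2 ^ (n + 1) - 2) * (V * (V * (Real.exp (-(c * N)) +
          2 * (W * T / Real.exp (ε * N))))) := by gcongr
      _ ≤ V ^ (2 ^ (n + 1) - 2) * (V * (V * Real.exp (-(c2 * N)))) := by gcongr
      _ = V ^ (2 ^ (n + 1)) * Real.exp (-(c2 * N)) := by
        have : V ^ (2 ^ (n + 1)) = V ^ (2 ^ (n + 1) - 2) * V ^ 2 := by
          rw [← pow_add]
          congr 1
          omega
        rw [this]
        ring
  exact le_of_pow_le_pow_left₀ (by positivity) (by positivity) hfin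

end Pool.Agent.J6H30.PV
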