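import Pool.Agent.J6H30.PV.Slice

/-!
# Values of polynomials at the points of cylinder intersections
-/

set_option autoImplicit false

namespace Pool.Agent.J6H30.PV

open Finset Filter Topology
open Pool.Agent.H469R2.NK (e norm_e e_add e_zero conj_e)
open Pool.Agent.R485.Mult (sg abs_sg e_sum)

/-- exponential sums over boxes with coefficients which are products of functions not depending on the
`i`-th coordinate, `i ∈ T` -/
theorem rough_sum (r D : ℕ) (hD : 1 ≤ D) (T : Finset (Fin r)) (F : MvPolynomial (Fin r) ℝ)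
    (hF : F.IsHomogeneous D) (halg : ∀ m, m.support = T → IsAlgebraic ℚ (F.coeff m))
    (hirr : ∃ m, m.support = T ∧ Irrational (F.coeff m)) (Q : ℕ) (hQ : 1 ≤ Q)
    (B s : ℕ) (ε : ℝ) (hε : 0 < ε) :
    ∃ c : ℝ, 0 < c ∧ ∃ N₀ : ℕ, ∀ N : ℕ, N₀ ≤ N → ∀ g : MvPolynomial (Fin r) ℝ,
      g.totalDegree < D →
      ∀ R : MvPolynomial (Fin r) ℤ, ∀ (J : Fin r → ℤ) (M : Fin r → ℕ),
      (∀ i ∈ T, Real.exp (ε * N) ≤ M i) →
      ∀ b : ℕ, 2 ≤ b → b ≤ B → ∀ h : ℕ, 1 ≤ h → h ≤ N → ∀ p : Fin (2 * s) → ℕ, (∀ j, p j ≤ N) →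
      ∑ j : Fin (2 * s), sg j * (b : ℤ) ^ (p j) ≠ 0 →
      ∀ u : Fin r → (Fin r → ℤ) → ℂ, (∀ i a, ‖u i a‖ ≤ 1) →
      (∀ i ∈ T, ∀ a z, u i (Function.update a i z) = u i a) →
      ‖∑ k ∈ box J M, (∏ i ∈ T, u i k) * e (h * (MvPolynomial.eval (fun i => (k i : ℝ)) F +
        MvPolynomial.eval (fun i => (k i : ℝ)) g + (MvPolynomial.eval k R : ℤ) / Q) *
          ((∑ j : Fin (2 * s), sg j * (b : ℤ) ^ (p j) : ℤ) : ℝ))‖ ≤
        (∏ i, (M i : ℝ)) * Real.exp (-(c * N)) := by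
  classical
  have hTne : T.Nonempty := by
    obtain ⟨m, hmT, hm⟩ := hirr
    rw [nonempty_iff_ne_empty]
    intro h0
    have h1 : F.coeff m ≠ 0 := by
      intro h
      rw [h] at hm
      exact hm ⟨0, by simp⟩
    have h2 := hF h1
    have h3 : m = 0 := by
      rw [← Finsupp.support_eq_empty, hmT, h0]
    rw [h3, map_zero] at h2
    omega
  set n : ℕ := T.card with hn
  have hn1 : 1 ≤ n := card_pos.2 hTne
  set σ : Fin n ≃ T := T.equivFin.symm with hσ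
  obtain ⟨c, hc, N₀, h⟩ := slice_cyl σ D hD hn1 F hF halg hirr Q hQ B s ε hε
  refine ⟨c, hc, N₀, fun N hN g hg R J M hM b hb hbB h' hh1 hh p hp hne u hu hind => ?_⟩
  set Λ : ℤ := ∑ j : Fin (2 * s), sg j * (b : ℤ) ^ (p j) with hΛ
  set G : (Fin r → ℤ) → ℂ := fun k => (∏ i ∈ T, u i k) *
    e (h' * (MvPolynomial.eval (fun i => (k i : ℝ)) F +
        MvPolynomial.eval (fun i => (k i : ℝ)) g + (MvPolynomial.eval k R : ℤ) / Q) * (Λ : ℝ)) with hG
  have hVT : ((box (res σ J) (res σ M)).card : ℝ) = ∏ i, ((res σ M i : ℕ) : ℝ) := by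
    rw [card_box]
    push_cast
    rfl
  have hVTpos : 0 < ((box (res σ J) (res σ M)).card : ℝ) := by
    rw [hVT]
    refine prod_pos fun i _ => ?_
    exact lt_of_lt_of_le (Real.exp_pos _) (hM (σ i) (σ i).2)
  have h1 := slice_sum σ J M G
  have h2 : ∀ k : Fin r → ℤ, ‖∑ a ∈ box (res σ J) (res σ M), G (ext σ k a)‖ ≤
      ((box (res σ J) (res σ M)).card : ℝ) * Real.exp (-(c * N)) := by
    intro k
    have h3 := h N hN g hg R k (res σ J) (res σ M) (fun i => hM (σ i) (σ i).2) b hb hbB h' hh1 hh p hp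
      hne (fun i a => u (σ i) (ext σ k a)) (fun i a => hu _ _) (fun i a z => by
        rw [ext_update]
        exact hind (σ i) (σ i).2 _ _)
    rw [hVT]
    refine le_trans (le_of_eq ?_) h3
    congr 1
    refine sum_congr rfl fun a _ => ?_
    rw [hG]
    simp only
    congr 1
    rw [← prod_attach]
    exact (σ.prod_comp (fun i : T => u (i : Fin r) (ext σ k a))).symm
  have h3 : ((box (res σ J) (res σ M)).card : ℝ) * ‖∑ k ∈ box J M, G k‖ ≤
      ((box (res σ J) (res σ M)).card : ℝ) * ((∏ i, (M i : ℝ)) * Real.exp (-(c * N))) := by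
    have e1 : ((box (res σ J) (res σ M)).card : ℝ) * ‖∑ k ∈ box J M, G k‖ =
        ‖((box (res σ J) (res σ M)).card : ℂ) * ∑ k ∈ box J M, G k‖ := by
      rw [norm_mul]
      simp
    rw [e1, ← h1]
    refine (norm_sum_le _ _).trans ((sum_le_sum fun k _ => h2 k).trans (le_of_eq ?_))
    rw [sum_const, nsmul_eq_mul, card_box]
    push_cast
    ring
  exact le_of_mul_le_mul_left h3 hVTpos

theorem cyl (r D : ℕ) (hD : 1 ≤ D) (T : Finset (Fin r)) (F : MvPolynomial (Fin r) ℝ)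
    (hF : F.IsHomogeneous D) (halg : ∀ m, m.support = T → IsAlgebraic ℚ (F.coeff m))
    (hirr : ∃ m, m.support = T ∧ Irrational (F.coeff m)) (Q : ℕ) (hQ : 1 ≤ Q)
    (B : ℕ) (ε δ : ℝ) (hε : 0 < ε) (hδ : 0 < δ) (A : ℕ) :
    ∃ κ : ℝ, 0 < κ ∧ ∃ N₀ : ℕ, ∀ N : ℕ, N₀ ≤ N → ∀ g : MvPolynomial (Fin r) ℝ, g.totalDegree < D →
      ∀ R : MvPolynomial (Fin r) ℤ, ∀ (J : Fin r → ℤ) (M : Fin r → ℕ),
      (∀ i ∈ T, Real.exp (ε * N) ≤ M i) →
      ∀ Z : Fin r → Set (Fin r → ℤ), (∀ i ∈ T, ∀ a z, Function.update a i z ∈ Z i ↔ a ∈ Z i) →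
      ∀ γ : Fin r → (Fin r → ℤ) → ℝ, (∀ i ∈ T, ∀ a z, γ i (Function.update a i z) = γ i a) →
      ∀ Ω : Finset (Fin r → ℤ), (∀ a, a ∈ Ω ↔ a ∈ box J M ∧ ∀ i ∈ T, a ∈ Z i) →
      Real.exp (-(κ * N)) * ∏ i, (M i : ℝ) ≤ Ω.card →
      ({k | k ∈ Ω ∧ ¬ Good B N ((N : ℝ) ^ (1 / 2 + δ))
        (MvPolynomial.eval (fun i => (k i : ℝ)) F + MvPolynomial.eval (fun i => (k i : ℝ)) g +
          (MvPolynomial.eval k R : ℤ) / Q + ∑ i ∈ T, γ i k)}.ncard : ℝ) * (N : ℝ) ^ A ≤ Ω.card := by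
  classical
  obtain ⟨s, N1, hs1, hcrit⟩ := criterion B δ hδ A
  obtain ⟨c, hc, N2, hsum⟩ := rough_sum r D hD T F hF halg hirr Q hQ B s ε hε
  obtain ⟨N3, hN3⟩ := eventually_atTop.1 ((pow_le_exp 1 s (c / 2) (by positivity)).and
    (eventually_ge_atTop 1))
  refine ⟨c / 2, by positivity, max N1 (max N2 N3), fun N hN g hg R J M hM Z hZ γ hγ Ω hΩ hdens => ?_⟩
  have hNa : N1 ≤ N := (le_max_left _ _).trans hN
  have hNb : N2 ≤ N := ((le_max_left _ _).trans (le_max_right _ _)).trans hN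
  obtain ⟨hNc, hNd⟩ := hN3 N (((le_max_right _ _).trans (le_max_right _ _)).trans hN)
  rw [one_mul] at hNc
  refine hcrit N hNa (Fin r → ℤ) Ω (fun k => MvPolynomial.eval (fun i => (k i : ℝ)) F +
    MvPolynomial.eval (fun i => (k i : ℝ)) g + (MvPolynomial.eval k R : ℤ) / Q +
      ∑ i ∈ T, γ i k) ?_
  intro b hb hbB h hh1 hh p hp hne
  set Λ : ℤ := ∑ j : Fin (2 * s), sg j * (b : ℤ) ^ (p j) with hΛ
  set f : (Fin r → ℤ) → ℝ := fun k => MvPolynomial.eval (fun i => (k i : ℝ)) F +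
    MvPolynomial.eval (fun i => (k i : ℝ)) g + (MvPolynomial.eval k R : ℤ) / Q with hf
  set u : Fin r → (Fin r → ℤ) → ℂ := fun i a =>
    if a ∈ Z i then e (h * γ i a * Λ) else 0 with hu
  have h1 := hsum N hNb g hg R J M hM b hb hbB h hh1 hh p hp hne u (by
    intro i a
    rw [hu]
    simp only
    split_ifs
    · exact (norm_e _).le
    · simp) (by
    intro i hi a z
    rw [hu]
    simp only
    rw [hγ i hi]
    simp only [hZ i hi])
  have h2 : ∑ ω ∈ Ω, e (h * (MvPolynomial.eval (fun i => (ω i : ℝ)) F +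
      MvPolynomial.eval (fun i => (ω i : ℝ)) g + (MvPolynomial.eval ω R : ℤ) / Q +
        ∑ i ∈ T, γ i ω) * Λ) =
      ∑ k ∈ box J M, (∏ i ∈ T, u i k) * e (h * f k * Λ) := by
    have e1 : Ω = (box J M).filter (fun a => ∀ i ∈ T, a ∈ Z i) := by
      ext a
      rw [hΩ, mem_filter]
    rw [e1, sum_filter]
    refine sum_congr rfl fun k _ => ?_
    split_ifs with hk
    · have e2 : ∏ i ∈ T, u i k = e (h * (∑ i ∈ T, γ i k) * Λ) := by
        have e3 : h * (∑ i ∈ T, γ i k) * (Λ : ℝ) = ∑ i ∈ T, h * γ i k * Λ := by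
          rw [mul_sum, sum_mul]
        rw [e3, e_sum]
        refine prod_congr rfl fun i hi => ?_
        rw [hu]
        simp only
        rw [if_pos (hk i hi)]
      rw [e2, ← e_add]
      congr 1
      rw [hf]
      simp only
      ring
    · push Not at hk
      obtain ⟨i, hiT, hi⟩ := hk
      rw [prod_eq_zero hiT, zero_mul]
      rw [hu]
      simp only
      rw [if_neg hi]
  rw [h2]
  set V : ℝ := ∏ i, (M i : ℝ) with hV
  have hV0 : 0 ≤ V := prod_nonneg fun _ _ => Nat.cast_nonneg _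
  calc ‖∑ k ∈ box J M, (∏ i ∈ T, u i k) * e (h * f k * Λ)‖ * (N : ℝ) ^ s ≤
      (V * Real.exp (-(c * N))) * Real.exp (c / 2 * N) := by gcongr
    _ = Real.exp (-(c / 2 * N)) * V := by
      rw [mul_assoc, ← Real.exp_add, mul_comm]
      congr 2
      ring
    _ ≤ Ω.card := hdens

end Pool.Agent.J6H30.PV
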