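import Pool.Agent.R485.Mult.Disc

/-!
# The inequality of Erdős-Turán-Koksma, up to constants
-/

set_option autoImplicit false

namespace Pool.Agent.J6H30.PV

open Finset Filter Topology
open Pool.Agent.H469R2.NK (e norm_e e_add e_zero conj_e)
open Pool.Agent.W565.MOFS (P2 cos_sum saw_upper saw_lower re_e norm_e_sub_one)
open Pool.Agent.R485.Mult (indicator_eq e_sum)

/-- `φ` is approximated up to `η` by a trigonometric polynomial of degree `K` with mean value `m` and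
absolute sum of the coefficients at most `L` -/
def Tr (K : ℕ) (φ : ℝ → ℝ) (m L η : ℝ) : Prop :=
  ∃ c : ℤ → ℂ, c 0 = m ∧ ∑ h ∈ Icc (-(K : ℤ)) K, ‖c h‖ ≤ L ∧
    ∀ x : ℝ, ‖(φ x : ℂ) - ∑ h ∈ Icc (-(K : ℤ)) K, c h * e (h * x)‖ ≤ η

lemma Tr.add {K : ℕ} {φ ψ : ℝ → ℝ} {m L η m' L' η' : ℝ} (h : Tr K φ m L η) (h' : Tr K ψ m' L' η') :
    Tr K (fun x => φ x + ψ x) (m + m') (L + L') (η + η') := by
  obtain ⟨c, h1, h2, h3⟩ := h
  obtain ⟨c', h1', h2', h3'⟩ := h'
  refine ⟨fun h => c h + c' h, ?_, ?_, ?_⟩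
  · beta_reduce
    rw [h1, h1']
    push_cast
    rfl
  · refine (sum_le_sum fun h _ => norm_add_le _ _).trans ?_
    rw [sum_add_distrib]
    exact add_le_add h2 h2'
  · intro x
    have e1 : ((φ x + ψ x : ℝ) : ℂ) - ∑ h ∈ Icc (-(K : ℤ)) K, (c h + c' h) * e (h * x) =
        ((φ x : ℂ) - ∑ h ∈ Icc (-(K : ℤ)) K, c h * e (h * x)) +
        ((ψ x : ℂ) - ∑ h ∈ Icc (-(K : ℤ)) K, c' h * e (h * x)) := by
      simp_rw [add_mul]
      rw [sum_add_distrib]
      push_cast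
      ring
    rw [e1]
    exact (norm_add_le _ _).trans (add_le_add (h3 x) (h3' x))

lemma Tr.smul {K : ℕ} {φ : ℝ → ℝ} {m L η : ℝ} (a : ℝ) (h : Tr K φ m L η) :
    Tr K (fun x => a * φ x) (a * m) (|a| * L) (|a| * η) := by
  obtain ⟨c, h1, h2, h3⟩ := h
  refine ⟨fun h => a * c h, ?_, ?_, ?_⟩
  · beta_reduce
    rw [h1]
    push_cast
    rfl
  · simp_rw [norm_mul]
    rw [← mul_sum, Complex.norm_real, Real.norm_eq_abs]
    exact mul_le_mul_of_nonneg_left h2 (abs_nonneg _)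
  · intro x
    have e1 : ((a * φ x : ℝ) : ℂ) - ∑ h ∈ Icc (-(K : ℤ)) K, (a * c h) * e (h * x) =
        a * ((φ x : ℂ) - ∑ h ∈ Icc (-(K : ℤ)) K, c h * e (h * x)) := by
      rw [mul_sub, mul_sum]
      push_cast
      congr 1
      exact sum_congr rfl fun h _ => by ring
    rw [e1, norm_mul, Complex.norm_real, Real.norm_eq_abs]
    exact mul_le_mul_of_nonneg_left (h3 x) (abs_nonneg _)

lemma Tr.const (K : ℕ) (a : ℝ) : Tr K (fun _ => a) a |a| 0 := by
  classical
  have hmem : (0 : ℤ) ∈ Icc (-(K : ℤ)) K := by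
    rw [mem_Icc]
    constructor <;> omega
  refine ⟨fun h => if h = 0 then (a : ℂ) else 0, ?_, ?_, ?_⟩
  · beta_reduce
    rw [if_pos rfl]
  · rw [sum_eq_single_of_mem 0 hmem]
    · beta_reduce
      rw [if_pos rfl, Complex.norm_real, Real.norm_eq_abs]
    · intro h _ hh
      beta_reduce
      rw [if_neg hh, norm_zero]
  · intro x
    rw [sum_eq_single_of_mem 0 hmem]
    · beta_reduce
      rw [if_pos rfl, Int.cast_zero, zero_mul, e_zero, mul_one, sub_self, norm_zero]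
    · intro h _ hh
      beta_reduce
      rw [if_neg hh, zero_mul]

/-- differences of `P2` -/
lemma Tr.diff (K : ℕ) (hK : 1 ≤ K) (u δ : ℝ) (hδ : 0 < δ) :
    Tr K (fun x => P2 (Int.fract (x - u)) - P2 (Int.fract (x - (u + δ)))) 0
      (2 * δ * (1 + Real.log K)) (2 / K) := by
  classical
  have hpi := Real.pi_gt_three
  have hpi0 : (0 : ℝ) < Real.pi := Real.pi_pos
  have hKR : (0 : ℝ) < K := by exact_mod_cast hK
  set c : ℤ → ℂ := fun h => if h = 0 then 0 else
    ((1 / (2 * Real.pi ^ 2 * (h : ℝ) ^ 2) : ℝ) : ℂ) * (e (-(h * u)) - e (-(h * (u + δ)))) with hc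
  have hcn : ∀ h : ℤ, h ≠ 0 → ‖c h‖ ≤ δ / |(h : ℝ)| := by
    intro h hh
    have hh0 : (0 : ℝ) < |(h : ℝ)| := abs_pos.2 (by exact_mod_cast hh)
    have e1 : c h = ((1 / (2 * Real.pi ^ 2 * (h : ℝ) ^ 2) : ℝ) : ℂ) *
        (e (-(h * (u + δ))) * (e (h * δ) - 1)) := by
      have e2 : e (-(h * u)) = e (-(h * (u + δ))) * e (h * δ) := by
        rw [← e_add]
        congr 1
        ring
      rw [hc]
      simp only
      rw [if_neg hh, e2]
      ring
    rw [e1, norm_mul, norm_mul, norm_e, one_mul, Complex.norm_real, Real.norm_eq_abs]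
    have h2 := norm_e_sub_one (h * δ)
    rw [abs_mul, abs_of_pos hδ] at h2
    have h3 : |1 / (2 * Real.pi ^ 2 * (h : ℝ) ^ 2)| = 1 / (2 * Real.pi ^ 2 * |(h : ℝ)| ^ 2) := by
      rw [sq_abs, abs_of_nonneg (by positivity)]
    rw [h3]
    calc 1 / (2 * Real.pi ^ 2 * |(h : ℝ)| ^ 2) * ‖e (h * δ) - 1‖ ≤
        1 / (2 * Real.pi ^ 2 * |(h : ℝ)| ^ 2) * (2 * Real.pi * (|(h : ℝ)| * δ)) := by gcongr
      _ = (1 / Real.pi) * (δ / |(h : ℝ)|) := by field_simp
      _ ≤ 1 * (δ / |(h : ℝ)|) := by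
        gcongr
        rw [div_le_one hpi0]
        linarith
      _ = _ := one_mul _
  have hsplit : ∀ (G : Type) [AddCommMonoid G] (f : ℤ → G), ∑ h ∈ Icc (-(K : ℤ)) K, f h =
      f 0 + ∑ h ∈ Icc 1 K, (f (h : ℤ) + f (-(h : ℤ))) := by
    intro G _ f
    have h1 : Icc (-(K : ℤ)) K = insert 0 (((Icc 1 K).image (fun h : ℕ => (h : ℤ))) ∪
        ((Icc 1 K).image (fun h : ℕ => -(h : ℤ)))) := by
      ext h
      simp only [mem_Icc, mem_insert, mem_union, mem_image]
      constructor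
      · intro hh
        rcases lt_trichotomy h 0 with h2 | h2 | h2
        · right; right
          exact ⟨h.natAbs, by omega, by omega⟩
        · left; exact h2
        · right; left
          exact ⟨h.natAbs, by omega, by omega⟩
      · rintro (h2 | ⟨a, ha, h2⟩ | ⟨a, ha, h2⟩) <;> omega
    have h2 : (0 : ℤ) ∉ ((Icc 1 K).image (fun h : ℕ => (h : ℤ))) ∪
        ((Icc 1 K).image (fun h : ℕ => -(h : ℤ))) := by
      simp only [mem_union, mem_image, mem_Icc, not_or, not_exists, not_and]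
      constructor <;> intro a ha <;> omega
    have h3 : Disjoint ((Icc 1 K).image (fun h : ℕ => (h : ℤ)))
        ((Icc 1 K).image (fun h : ℕ => -(h : ℤ))) := by
      rw [disjoint_left]
      intro a ha ha'
      simp only [mem_image, mem_Icc] at ha ha'
      obtain ⟨p, hp, rfl⟩ := ha
      obtain ⟨q, hq, hqp⟩ := ha'
      omega
    rw [h1, sum_insert h2, sum_union h3, sum_image (fun a _ b _ hab => by simpa using hab),
      sum_image (fun a _ b _ hab => by simpa using hab), ← sum_add_distrib]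
  refine ⟨c, ?_, ?_, ?_⟩
  · rw [hc]
    simp
  · rw [hsplit ℝ (fun h => ‖c h‖)]
    have h0 : ‖c 0‖ = 0 := by
      rw [hc]
      simp
    rw [h0, zero_add]
    have h1 : ∀ h ∈ Icc 1 K, ‖c (h : ℤ)‖ + ‖c (-(h : ℤ))‖ ≤ 2 * δ * (1 / (h : ℝ)) := by
      intro h hh
      rw [mem_Icc] at hh
      have hh0 : (0 : ℝ) < h := by exact_mod_cast hh.1
      have f1 := hcn h (by omega)
      have f2 := hcn (-(h : ℤ)) (by omega)
      push_cast at f1 f2
      rw [abs_neg, abs_of_pos hh0] at f2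
      rw [abs_of_pos hh0] at f1
      calc ‖c (h : ℤ)‖ + ‖c (-(h : ℤ))‖ ≤ δ / h + δ / h := add_le_add f1 f2
        _ = _ := by ring
    refine (sum_le_sum h1).trans ?_
    rw [← mul_sum]
    apply mul_le_mul_of_nonneg_left _ (by positivity)
    have h3 := harmonic_le_one_add_log K
    rw [harmonic_eq_sum_Icc] at h3
    push_cast at h3
    refine le_trans (le_of_eq ?_) h3
    exact sum_congr rfl fun h _ => by rw [one_div]
  · intro x
    rw [hsplit ℂ (fun h => c h * e (h * x))]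
    have h0 : c 0 * e ((0 : ℤ) * x) = 0 := by
      rw [hc]
      simp
    rw [h0, zero_add]
    -- the terms of the series
    set f : ℕ → ℝ := fun h => 1 / (h : ℝ) ^ 2 * Real.cos (2 * Real.pi * h * (x - u)) -
      1 / (h : ℝ) ^ 2 * Real.cos (2 * Real.pi * h * (x - (u + δ))) with hf
    have hsum : HasSum f (Real.pi ^ 2 * P2 (Int.fract (x - u)) -
        Real.pi ^ 2 * P2 (Int.fract (x - (u + δ)))) := (cos_sum _).sub (cos_sum _)
    have hf0 : f 0 = 0 := by simp [hf]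
    have hfb : ∀ h : ℕ, |f h| ≤ ((h : ℝ) ^ 2)⁻¹ * 2 := by
      intro h
      rw [hf]
      simp only
      rw [← mul_sub, abs_mul, abs_of_nonneg (by positivity : (0 : ℝ) ≤ 1 / (h : ℝ) ^ 2), one_div]
      refine mul_le_mul_of_nonneg_left ?_ (by positivity)
      have h3 := Real.abs_cos_le_one (2 * Real.pi * h * (x - u))
      have h4 := Real.abs_cos_le_one (2 * Real.pi * h * (x - (u + δ)))
      have := abs_sub (Real.cos (2 * Real.pi * h * (x - u))) (Real.cos (2 * Real.pi * h * (x - (u + δ))))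
      linarith
    have hterm : ∀ h ∈ Icc 1 K, c (h : ℤ) * e (((h : ℤ) : ℝ) * x) +
        c (-(h : ℤ)) * e (((-(h : ℤ) : ℤ) : ℝ) * x) = ((1 / Real.pi ^ 2 * f h : ℝ) : ℂ) := by
      intro h hh
      rw [mem_Icc] at hh
      have hh0 : (0 : ℝ) < h := by exact_mod_cast hh.1
      have hcos : ∀ y : ℝ, ((Real.cos (2 * Real.pi * y) : ℝ) : ℂ) = (e y + e (-y)) / 2 := by
        intro y
        have h5 : e (-y) = (starRingEnd ℂ) (e y) := (conj_e y).symm
        rw [h5, Complex.add_conj, re_e]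
        push_cast
        ring
      have e1 : c (h : ℤ) * e (((h : ℤ) : ℝ) * x) =
          ((1 / (2 * Real.pi ^ 2 * (h : ℝ) ^ 2) : ℝ) : ℂ) *
            (e (h * (x - u)) - e (h * (x - (u + δ)))) := by
        rw [hc]
        simp only
        rw [if_neg (by omega), mul_assoc, sub_mul, ← e_add, ← e_add]
        push_cast
        congr 3 <;> ring_nf
      have e2 : c (-(h : ℤ)) * e (((-(h : ℤ) : ℤ) : ℝ) * x) =
          ((1 / (2 * Real.pi ^ 2 * (h : ℝ) ^ 2) : ℝ) : ℂ) *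
            (e (-(h * (x - u))) - e (-(h * (x - (u + δ))))) := by
        rw [hc]
        simp only
        rw [if_neg (by omega), mul_assoc, sub_mul, ← e_add, ← e_add]
        push_cast
        rw [neg_sq]
        congr 3 <;> ring_nf
      rw [e1, e2, hf]
      simp only
      have g1 : 2 * Real.pi * (h : ℝ) * (x - u) = 2 * Real.pi * (h * (x - u)) := by ring
      have g2 : 2 * Real.pi * (h : ℝ) * (x - (u + δ)) = 2 * Real.pi * (h * (x - (u + δ))) := by ring
      rw [g1, g2]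
      push_cast
      have hcos1 := hcos (h * (x - u))
      have hcos2 := hcos (h * (x - (u + δ)))
      push_cast at hcos1 hcos2
      rw [hcos1, hcos2]
      have hpc : (Real.pi : ℂ) ≠ 0 := by exact_mod_cast hpi0.ne'
      have hhc : ((h : ℕ) : ℂ) ≠ 0 := by
        have : h ≠ 0 := by omega
        exact_mod_cast this
      field_simp
      ring
    rw [sum_congr rfl hterm]
    -- the tail
    have htail : |(Real.pi ^ 2 * P2 (Int.fract (x - u)) -
        Real.pi ^ 2 * P2 (Int.fract (x - (u + δ)))) - ∑ h ∈ Icc 1 K, f h| ≤ 2 / K := by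
      have hlim : Tendsto (fun M : ℕ => |∑ h ∈ range M, f h - ∑ h ∈ Icc 1 K, f h|) atTop
          (𝓝 |(Real.pi ^ 2 * P2 (Int.fract (x - u)) -
            Real.pi ^ 2 * P2 (Int.fract (x - (u + δ)))) - ∑ h ∈ Icc 1 K, f h|) :=
        ((hsum.tendsto_sum_nat).sub_const _).abs
      refine le_of_tendsto hlim ?_
      filter_upwards [eventually_ge_atTop (K + 1)] with M hM
      have e3 : range M = insert 0 (Icc 1 K ∪ Ioc K (M - 1)) := by
        ext h
        rw [mem_range, mem_insert, mem_union, mem_Icc, mem_Ioc]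
        omega
      have e4 : 0 ∉ Icc 1 K ∪ Ioc K (M - 1) := by
        rw [mem_union, mem_Icc, mem_Ioc]
        omega
      have e5 : Disjoint (Icc 1 K) (Ioc K (M - 1)) := by
        rw [disjoint_left]
        intro a ha ha'
        rw [mem_Icc] at ha
        rw [mem_Ioc] at ha'
        omega
      rw [e3, sum_insert e4, hf0, zero_add, sum_union e5, add_sub_cancel_left]
      refine (abs_sum_le_sum_abs _ _).trans ((sum_le_sum fun h _ => hfb h).trans ?_)
      rw [← sum_mul]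
      have h5 := sum_Ioc_inv_sq_le_sub (α := ℝ) (k := K) (n := M - 1) (by omega) (by omega)
      have h6 : (0 : ℝ) ≤ (((M - 1 : ℕ)) : ℝ)⁻¹ := by positivity
      calc (∑ h ∈ Ioc K (M - 1), ((h : ℝ) ^ 2)⁻¹) * 2 ≤ (K : ℝ)⁻¹ * 2 := by
            refine mul_le_mul_of_nonneg_right ?_ (by norm_num)
            linarith
        _ = 2 / K := by rw [div_eq_mul_inv]; ring
    have e6 : ((P2 (Int.fract (x - u)) - P2 (Int.fract (x - (u + δ))) : ℝ) : ℂ) -
        ∑ h ∈ Icc 1 K, ((1 / Real.pi ^ 2 * f h : ℝ) : ℂ) =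
        ((1 / Real.pi ^ 2 * ((Real.pi ^ 2 * P2 (Int.fract (x - u)) -
        Real.pi ^ 2 * P2 (Int.fract (x - (u + δ)))) - ∑ h ∈ Icc 1 K, f h) : ℝ) : ℂ) := by
      rw [← Complex.ofReal_sum, ← Complex.ofReal_sub]
      congr 1
      rw [← mul_sum]
      field_simp
    rw [e6, Complex.norm_real, Real.norm_eq_abs, abs_mul,
      abs_of_pos (by positivity : (0 : ℝ) < 1 / Real.pi ^ 2)]
    calc 1 / Real.pi ^ 2 * |(Real.pi ^ 2 * P2 (Int.fract (x - u)) -
        Real.pi ^ 2 * P2 (Int.fract (x - (u + δ)))) - ∑ h ∈ Icc 1 K, f h| ≤ 1 * (2 / K) := by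
          gcongr
          rw [div_le_one (by positivity)]
          nlinarith
      _ = 2 / K := one_mul _

lemma Tr.mono {K : ℕ} {φ : ℝ → ℝ} {m L η L' η' : ℝ} (h : Tr K φ m L η) (hL : L ≤ L')
    (hη : η ≤ η') : Tr K φ m L' η' := by
  obtain ⟨c, h1, h2, h3⟩ := h
  exact ⟨c, h1, h2.trans hL, fun x => (h3 x).trans hη⟩

lemma prod_sub_le {ι : Type*} (S : Finset ι) (a b : ι → ℂ) (M η : ℝ) (hM : 1 ≤ M) (hη : 0 ≤ η)
    (ha : ∀ i, ‖a i‖ ≤ M) (hb : ∀ i, ‖b i‖ ≤ M) (hab : ∀ i, ‖a i - b i‖ ≤ η) :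
    ‖∏ i ∈ S, a i - ∏ i ∈ S, b i‖ ≤ S.card * η * M ^ S.card := by
  classical
  induction S using Finset.induction_on with
  | empty => simp
  | insert j S hj ih =>
    rw [prod_insert hj, prod_insert hj, card_insert_of_notMem hj]
    have e1 : a j * ∏ i ∈ S, a i - b j * ∏ i ∈ S, b i =
        a j * (∏ i ∈ S, a i - ∏ i ∈ S, b i) + (a j - b j) * ∏ i ∈ S, b i := by ring
    rw [e1]
    have h1 : ‖∏ i ∈ S, b i‖ ≤ M ^ S.card := by
      rw [norm_prod]
      exact (prod_le_prod (fun i _ => norm_nonneg _) fun i _ => hb i).trans (by simp)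
    calc ‖a j * (∏ i ∈ S, a i - ∏ i ∈ S, b i) + (a j - b j) * ∏ i ∈ S, b i‖ ≤
        ‖a j‖ * ‖∏ i ∈ S, a i - ∏ i ∈ S, b i‖ + ‖a j - b j‖ * ‖∏ i ∈ S, b i‖ := by
          refine (norm_add_le _ _).trans ?_
          rw [norm_mul, norm_mul]
      _ ≤ M * (S.card * η * M ^ S.card) + η * M ^ S.card := by
          gcongr
          · exact ha j
          · exact hab j
      _ ≤ M * (S.card * η * M ^ S.card) + η * (M * M ^ S.card) := by
          have : M ^ S.card ≤ M * M ^ S.card := le_mul_of_one_le_left (by positivity) hM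
          gcongr
      _ = _ := by
          push_cast
          ring

/-- averages of products -/
theorem avg_prod {ι : Type} (S : Finset ι) {m : ℕ} (t : ι → Fin m → ℝ) (K : ℕ) (φ : Fin m → ℝ → ℝ)
    (μ : Fin m → ℝ) (L η T : ℝ) (hT0 : 0 ≤ T) (hφ : ∀ j, Tr K (φ j) (μ j) L η) (hL : 1 ≤ L)
    (hη : 0 ≤ η)
    (hexp : ∀ h : Fin m → ℤ, h ≠ 0 → (∀ j, |h j| ≤ K) → ‖∑ i ∈ S, e (∑ j, h j * t i j)‖ ≤ T) :
    |∑ i ∈ S, ∏ j, φ j (t i j) - S.card * ∏ j, μ j| ≤ T * L ^ m + S.card * (m * η * (L + η) ^ m) := by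
  classical
  choose c hc1 hc2 hc3 using hφ
  set I : Finset ℤ := Icc (-(K : ℤ)) K with hI
  set τ : Fin m → ℝ → ℂ := fun j x => ∑ h ∈ I, c j h * e (h * x) with hτ
  have hτn : ∀ j x, ‖τ j x‖ ≤ L := by
    intro j x
    refine (norm_sum_le _ _).trans (le_trans (le_of_eq ?_) (hc2 j))
    refine sum_congr rfl fun h _ => ?_
    rw [norm_mul, norm_e, mul_one]
  have hφn : ∀ j x, ‖(φ j x : ℂ)‖ ≤ L + η := by
    intro j x
    have h1 := hc3 j x
    have h2 := hτn j x
    calc ‖(φ j x : ℂ)‖ = ‖((φ j x : ℂ) - τ j x) + τ j x‖ := by rw [sub_add_cancel]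
      _ ≤ ‖(φ j x : ℂ) - τ j x‖ + ‖τ j x‖ := norm_add_le _ _
      _ ≤ _ := by linarith
  have h1 : ∀ i ∈ S, ‖∏ j, (φ j (t i j) : ℂ) - ∏ j, τ j (t i j)‖ ≤ m * η * (L + η) ^ m := by
    intro i _
    have := prod_sub_le (univ : Finset (Fin m)) (fun j => (φ j (t i j) : ℂ)) (fun j => τ j (t i j))
      (L + η) η (by linarith) hη (fun j => hφn j _) (fun j => (hτn j _).trans (by linarith))
      (fun j => hc3 j _)
    rwa [card_univ, Fintype.card_fin] at this
  have h2 : ∑ i ∈ S, ∏ j, τ j (t i j) = ∑ h ∈ Fintype.piFinset (fun _ : Fin m => I),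
      (∏ j, c j (h j)) * ∑ i ∈ S, e (∑ j, h j * t i j) := by
    have e1 : ∀ i, ∏ j, τ j (t i j) = ∑ h ∈ Fintype.piFinset (fun _ : Fin m => I),
        (∏ j, c j (h j)) * e (∑ j, h j * t i j) := by
      intro i
      rw [hτ]
      simp only
      rw [prod_univ_sum]
      refine sum_congr rfl fun h _ => ?_
      rw [prod_mul_distrib, e_sum]
    rw [sum_congr rfl fun i _ => e1 i, sum_comm]
    refine sum_congr rfl fun h _ => ?_
    rw [mul_sum]
  have hmem0 : (0 : Fin m → ℤ) ∈ Fintype.piFinset (fun _ : Fin m => I) := by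
    rw [Fintype.mem_piFinset]
    intro j
    rw [hI, mem_Icc]
    simp
  have h3 : ‖∑ i ∈ S, ∏ j, τ j (t i j) - S.card * ∏ j, (μ j : ℂ)‖ ≤ T * L ^ m := by
    rw [h2, ← add_sum_erase _ _ hmem0]
    have e1 : (∏ j, c j ((0 : Fin m → ℤ) j)) * ∑ i ∈ S, e (∑ j, (((0 : Fin m → ℤ) j : ℤ) : ℝ) * t i j) =
        S.card * ∏ j, (μ j : ℂ) := by
      have e2 : ∀ i, e (∑ j, (((0 : Fin m → ℤ) j : ℤ) : ℝ) * t i j) = 1 := by
        intro i
        simp [e_zero]
      rw [sum_congr rfl fun i _ => e2 i, sum_const, nsmul_eq_mul, mul_one, mul_comm]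
      congr 1
      refine prod_congr rfl fun j _ => ?_
      exact hc1 j
    rw [e1, add_sub_cancel_left]
    have e3 : ∀ h ∈ (Fintype.piFinset (fun _ : Fin m => I)).erase 0,
        ‖(∏ j, c j (h j)) * ∑ i ∈ S, e (∑ j, h j * t i j)‖ ≤ (∏ j, ‖c j (h j)‖) * T := by
      intro h hh
      rw [mem_erase] at hh
      rw [norm_mul, norm_prod]
      apply mul_le_mul_of_nonneg_left _ (prod_nonneg fun _ _ => norm_nonneg _)
      refine hexp h hh.1 fun j => ?_
      have := (Fintype.mem_piFinset.1 hh.2) j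
      rw [hI, mem_Icc] at this
      rw [abs_le]
      exact this
    refine (norm_sum_le _ _).trans ((sum_le_sum e3).trans ?_)
    rw [← sum_mul, mul_comm]
    apply mul_le_mul_of_nonneg_left _ hT0
    refine (sum_le_sum_of_subset_of_nonneg (erase_subset _ _)
      fun _ _ _ => prod_nonneg fun _ _ => norm_nonneg _).trans ?_
    have e4 : ∑ h ∈ Fintype.piFinset (fun _ : Fin m => I), ∏ j, ‖c j (h j)‖ =
        ∏ j, ∑ h ∈ I, ‖c j h‖ := (prod_univ_sum (fun _ => I) (fun j h => ‖c j h‖)).symm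
    rw [e4]
    refine (prod_le_prod (fun j _ => sum_nonneg fun _ _ => norm_nonneg _) fun j _ => hc2 j).trans ?_
    simp
  have h4 : ‖∑ i ∈ S, ∏ j, (φ j (t i j) : ℂ) - S.card * ∏ j, (μ j : ℂ)‖ ≤
      T * L ^ m + S.card * (m * η * (L + η) ^ m) := by
    have e1 : ∑ i ∈ S, ∏ j, (φ j (t i j) : ℂ) - S.card * ∏ j, (μ j : ℂ) =
        (∑ i ∈ S, ∏ j, τ j (t i j) - S.card * ∏ j, (μ j : ℂ)) +
        ∑ i ∈ S, (∏ j, (φ j (t i j) : ℂ) - ∏ j, τ j (t i j)) := by
      rw [sum_sub_distrib]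
      ring
    rw [e1]
    refine (norm_add_le _ _).trans (add_le_add h3 ?_)
    refine (norm_sum_le _ _).trans ((sum_le_sum h1).trans ?_)
    rw [sum_const, nsmul_eq_mul]
  have h5 : ((∑ i ∈ S, ∏ j, φ j (t i j) - S.card * ∏ j, μ j : ℝ) : ℂ) =
      ∑ i ∈ S, ∏ j, (φ j (t i j) : ℂ) - S.card * ∏ j, (μ j : ℂ) := by
    push_cast
    rfl
  rw [← h5, Complex.norm_real, Real.norm_eq_abs] at h4
  exact h4

/-- a majorant of an interval -/
noncomputable def Up (α β δ : ℝ) (x : ℝ) : ℝ :=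
  ((β - α) + δ) + ((1 / (2 * δ)) * (P2 (Int.fract (x - β)) - P2 (Int.fract (x - (β + δ)))) +
    (-(1 / (2 * δ))) * (P2 (Int.fract (x - (α - δ))) - P2 (Int.fract (x - (α - δ + δ)))))

/-- a minorant of an interval -/
noncomputable def Lo (α β δ : ℝ) (x : ℝ) : ℝ :=
  ((β - α) - δ) + ((1 / (2 * δ)) * (P2 (Int.fract (x - (β - δ))) - P2 (Int.fract (x - (β - δ + δ)))) +
    (-(1 / (2 * δ))) * (P2 (Int.fract (x - α)) - P2 (Int.fract (x - (α + δ)))))

lemma Up_Tr (α β δ : ℝ) (hδ : 0 < δ) (K : ℕ) (hK : 1 ≤ K) :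
    Tr K (Up α β δ) ((β - α) + δ) (|(β - α) + δ| + 2 * (1 + Real.log K)) (2 / (δ * K)) := by
  have hKR : (0 : ℝ) < K := by exact_mod_cast hK
  have h := (Tr.const K ((β - α) + δ)).add (((Tr.diff K hK β δ hδ).smul (1 / (2 * δ))).add
    ((Tr.diff K hK (α - δ) δ hδ).smul (-(1 / (2 * δ)))))
  have e1 : (β - α) + δ + (1 / (2 * δ) * 0 + -(1 / (2 * δ)) * 0) = (β - α) + δ := by ring
  rw [e1] at h
  refine Tr.mono h (le_of_eq ?_) (le_of_eq ?_)
  · rw [abs_neg, abs_of_pos (by positivity : (0 : ℝ) < 1 / (2 * δ))]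
    field_simp
    ring
  · rw [abs_neg, abs_of_pos (by positivity : (0 : ℝ) < 1 / (2 * δ))]
    field_simp
    ring

lemma Lo_Tr (α β δ : ℝ) (hδ : 0 < δ) (K : ℕ) (hK : 1 ≤ K) :
    Tr K (Lo α β δ) ((β - α) - δ) (|(β - α) - δ| + 2 * (1 + Real.log K)) (2 / (δ * K)) := by
  have hKR : (0 : ℝ) < K := by exact_mod_cast hK
  have h := (Tr.const K ((β - α) - δ)).add (((Tr.diff K hK (β - δ) δ hδ).smul (1 / (2 * δ))).add
    ((Tr.diff K hK α δ hδ).smul (-(1 / (2 * δ)))))
  have e1 : (β - α) - δ + (1 / (2 * δ) * 0 + -(1 / (2 * δ)) * 0) = (β - α) - δ := by ring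
  rw [e1] at h
  refine Tr.mono h (le_of_eq ?_) (le_of_eq ?_)
  · rw [abs_neg, abs_of_pos (by positivity : (0 : ℝ) < 1 / (2 * δ))]
    field_simp
    ring
  · rw [abs_neg, abs_of_pos (by positivity : (0 : ℝ) < 1 / (2 * δ))]
    field_simp
    ring

/-- the characteristic function of an interval -/
noncomputable def chi (α β : ℝ) (x : ℝ) : ℝ :=
  if α ≤ Int.fract x ∧ Int.fract x < β then 1 else 0

lemma chi_le_Up (α β δ x : ℝ) (h0 : 0 ≤ α) (h1 : α < β) (h2 : β ≤ 1) (hδ : 0 < δ) (hδ1 : δ ≤ 1) :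
    chi α β x ≤ Up α β δ x := by
  have h3 := indicator_eq x α β h0 h1 h2
  have h4 := saw_upper (x - β) δ hδ hδ1
  have h5 := saw_lower (x - α) δ hδ hδ1
  unfold chi Up
  have e1 : x - (β + δ) = x - β - δ := by ring
  have e2 : x - (α - δ) = x - α + δ := by ring
  have e3 : x - (α - δ + δ) = x - α := by ring
  rw [e1, e2, e3]
  have e4 : (P2 (Int.fract (x - β)) - P2 (Int.fract (x - β - δ))) / (2 * δ) =
      1 / (2 * δ) * (P2 (Int.fract (x - β)) - P2 (Int.fract (x - β - δ))) := by ring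
  have e5 : (P2 (Int.fract (x - α + δ)) - P2 (Int.fract (x - α))) / (2 * δ) =
      1 / (2 * δ) * (P2 (Int.fract (x - α + δ)) - P2 (Int.fract (x - α))) := by ring
  rw [e4] at h4
  rw [e5] at h5
  linarith

lemma Lo_le_chi (α β δ x : ℝ) (h0 : 0 ≤ α) (h1 : α < β) (h2 : β ≤ 1) (hδ : 0 < δ) (hδ1 : δ ≤ 1) :
    Lo α β δ x ≤ chi α β x := by
  have h3 := indicator_eq x α β h0 h1 h2
  have h4 := saw_lower (x - β) δ hδ hδ1
  have h5 := saw_upper (x - α) δ hδ hδ1
  unfold chi Lo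
  have e1 : x - (β - δ) = x - β + δ := by ring
  have e2 : x - (α + δ) = x - α - δ := by ring
  have e3 : x - (β - δ + δ) = x - β := by ring
  rw [e1, e2, e3]
  have e4 : (P2 (Int.fract (x - β + δ)) - P2 (Int.fract (x - β))) / (2 * δ) =
      1 / (2 * δ) * (P2 (Int.fract (x - β + δ)) - P2 (Int.fract (x - β))) := by ring
  have e5 : (P2 (Int.fract (x - α)) - P2 (Int.fract (x - α - δ))) / (2 * δ) =
      1 / (2 * δ) * (P2 (Int.fract (x - α)) - P2 (Int.fract (x - α - δ))) := by ring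
  rw [e4] at h4
  rw [e5] at h5
  linarith

lemma prod_tele {ι : Type*} [DecidableEq ι] (S : Finset ι) (U χ : ι → ℝ) (h0 : ∀ i, 0 ≤ χ i)
    (h1 : ∀ i, χ i ≤ U i) : ∏ i ∈ S, χ i ≤ ∏ i ∈ S, U i ∧
    ∏ i ∈ S, U i - ∏ i ∈ S, χ i ≤ ∑ j ∈ S, (U j - χ j) * ∏ i ∈ S.erase j, U i := by
  have hU : ∀ i, 0 ≤ U i := fun i => (h0 i).trans (h1 i)
  refine ⟨prod_le_prod (fun i _ => h0 i) fun i _ => h1 i, ?_⟩
  induction S using Finset.induction_on with
  | empty => simp
  | insert a S ha ih =>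
    rw [prod_insert ha, prod_insert ha, sum_insert ha, erase_insert ha]
    have e1 : ∀ j ∈ S, (U j - χ j) * ∏ i ∈ (insert a S).erase j, U i =
        U a * ((U j - χ j) * ∏ i ∈ S.erase j, U i) := by
      intro j hj
      have hja : a ≠ j := by
        rintro rfl
        exact ha hj
      rw [erase_insert_of_ne hja, prod_insert (fun h => ha (mem_of_mem_erase h))]
      ring
    rw [sum_congr rfl e1, ← mul_sum]
    have h3 : ∏ i ∈ S, χ i ≤ ∏ i ∈ S, U i := prod_le_prod (fun i _ => h0 i) fun i _ => h1 i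
    have h4 : χ a * (∏ i ∈ S, U i - ∏ i ∈ S, χ i) ≤
        U a * ∑ j ∈ S, (U j - χ j) * ∏ i ∈ S.erase j, U i := by
      calc χ a * (∏ i ∈ S, U i - ∏ i ∈ S, χ i) ≤ U a * (∏ i ∈ S, U i - ∏ i ∈ S, χ i) :=
            mul_le_mul_of_nonneg_right (h1 a) (by linarith)
        _ ≤ _ := mul_le_mul_of_nonneg_left ih (hU a)
    nlinarith

lemma etk_num (m : ℕ) (X U M V E q T ℓ : ℝ) (hT : 0 ≤ T) (hq0 : 0 ≤ q) (hℓ1 : 1 ≤ ℓ)
    (hE : E = (T + 4 * m * q) * (12 * ℓ) ^ m)
    (g1 : -E ≤ U - M) (g2 : U - M ≤ E) (hup : X ≤ U) (hlo : U - X ≤ m * (E + 2 * q * 2 ^ m))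
    (g3 : -(m * q * 2 ^ m) ≤ M - V) (g4 : M - V ≤ m * q * 2 ^ m) :
    |X - V| ≤ (m + 1) * (T + 6 * m * q) * (12 * ℓ) ^ m := by
  have hpow : (2 : ℝ) ^ m ≤ (12 * ℓ) ^ m := pow_le_pow_left₀ (by norm_num) (by linarith) m
  have hpow1 : (1 : ℝ) ≤ (12 * ℓ) ^ m := one_le_pow₀ (by linarith)
  have hm0 : (0 : ℝ) ≤ m := Nat.cast_nonneg _
  have hE0 : 0 ≤ E := by rw [hE]; positivity
  have hfin : (m * E + E) + m * (2 * q * 2 ^ m) + m * q * 2 ^ m ≤
      (m + 1) * (T + 6 * m * q) * (12 * ℓ) ^ m := by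
    rcases Nat.eq_zero_or_pos m with hm | hm
    · subst hm
      rw [hE]
      simp
    · have hm1 : (1 : ℝ) ≤ m := by exact_mod_cast hm
      have f1 : (m : ℝ) * (2 * q * 2 ^ m) + m * q * 2 ^ m ≤ 3 * m * q * (12 * ℓ) ^ m := by
        have := mul_le_mul_of_nonneg_left hpow (by positivity : (0 : ℝ) ≤ 3 * m * q)
        linarith
      have f2 : 3 * (m : ℝ) * q * (12 * ℓ) ^ m ≤ (m + 1) * (2 * m * q) * (12 * ℓ) ^ m := by
        apply mul_le_mul_of_nonneg_right _ (by positivity)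
        have : 0 ≤ ((m : ℝ) - 1) * (m * q) := mul_nonneg (by linarith) (by positivity)
        have h' : 0 ≤ (m : ℝ) * q := by positivity
        linarith
      rw [hE]
      have e1 : (m + 1 : ℝ) * (T + 6 * m * q) * (12 * ℓ) ^ m =
          (m * ((T + 4 * m * q) * (12 * ℓ) ^ m) + (T + 4 * m * q) * (12 * ℓ) ^ m) +
          (m + 1) * (2 * m * q) * (12 * ℓ) ^ m := by ring
      rw [e1]
      linarith
  refine le_trans ?_ hfin
  have hlo' : U - X ≤ m * E + m * (2 * q * 2 ^ m) := by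
    rw [mul_add] at hlo
    exact hlo
  have f1 : 0 ≤ m * (2 * q * 2 ^ m) := by positivity
  have f2 : 0 ≤ (m : ℝ) * E := by positivity
  rw [abs_le]
  constructor <;> linarith

/-- **The inequality of Erdős, Turán and Koksma**, up to constants. -/
theorem etk {ι : Type} (S : Finset ι) {m : ℕ} (t : ι → Fin m → ℝ) (N : ℕ) (hN : 1 ≤ N)
    (hS : S.card ≤ N) (T : ℝ) (hT : 0 ≤ T)
    (hexp : ∀ h : Fin m → ℤ, h ≠ 0 → (∀ j, |h j| ≤ N) → ‖∑ i ∈ S, e (∑ j, h j * t i j)‖ ≤ T)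
    (α β : Fin m → ℝ) (h0 : ∀ j, 0 ≤ α j) (h1 : ∀ j, α j < β j) (h2 : ∀ j, β j ≤ 1) :
    |((S.filter (fun i => ∀ j, α j ≤ Int.fract (t i j) ∧ Int.fract (t i j) < β j)).card : ℝ) -
      (∏ j, (β j - α j)) * S.card| ≤
      (m + 1) * (T + 6 * m * Real.sqrt S.card) * (12 * (1 + Real.log N)) ^ m := by
  classical
  have hNR : (1 : ℝ) ≤ N := by exact_mod_cast hN
  have hN0 : (0 : ℝ) < N := by linarith
  have hSR : (S.card : ℝ) ≤ N := by exact_mod_cast hS
  have hSR0 : (0 : ℝ) ≤ S.card := Nat.cast_nonneg _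
  set q : ℝ := Real.sqrt N with hq
  have hq1 : (1 : ℝ) ≤ q := by
    rw [show (1 : ℝ) = Real.sqrt 1 by simp, hq]
    exact Real.sqrt_le_sqrt hNR
  have hq0 : 0 < q := by linarith
  have hqq : q * q = N := Real.mul_self_sqrt hN0.le
  set δ : ℝ := 1 / q with hδd
  have hδ : 0 < δ := by positivity
  have hδ1 : δ ≤ 1 := by
    rw [hδd, div_le_one hq0]
    exact hq1
  have hNδ : (N : ℝ) * δ = q := by
    rw [hδd, ← hqq]
    field_simp
  set w : ℝ := Real.sqrt S.card with hw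
  have hw0 : 0 ≤ w := Real.sqrt_nonneg _
  have hww : w * w = S.card := Real.mul_self_sqrt hSR0
  have hwq : w ≤ q := Real.sqrt_le_sqrt hSR
  have hSδ : (S.card : ℝ) * δ ≤ w := by
    rw [hδd, ← hww, mul_one_div, div_le_iff₀ hq0]
    exact mul_le_mul_of_nonneg_left hwq hw0
  set ℓ : ℝ := 1 + Real.log N with hℓ
  have hℓ1 : 1 ≤ ℓ := by
    have := Real.log_nonneg hNR
    linarith
  set L : ℝ := 8 * ℓ with hLd
  have hL1 : 1 ≤ L := by linarith
  set η : ℝ := 4 * δ with hηd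
  have hη0 : 0 ≤ η := by positivity
  have hη2 : 2 / (δ * N) = 2 * δ := by
    rw [mul_comm δ, hNδ, hδd]
    ring
  have hUTr : ∀ j, Tr N (Up (α j) (β j) δ) ((β j - α j) + δ) (4 * ℓ) (2 * δ) := by
    intro j
    refine (Up_Tr (α j) (β j) δ hδ N hN).mono ?_ (le_of_eq hη2)
    have f1 := h0 j
    have f2 := h1 j
    have f3 := h2 j
    rw [abs_of_nonneg (by linarith)]
    linarith
  have hLTr : ∀ j, Tr N (Lo (α j) (β j) δ) ((β j - α j) - δ) (4 * ℓ) (2 * δ) := by
    intro j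
    refine (Lo_Tr (α j) (β j) δ hδ N hN).mono ?_ (le_of_eq hη2)
    have f1 := h0 j
    have f2 := h1 j
    have f3 := h2 j
    have : |(β j - α j) - δ| ≤ 2 := by
      rw [abs_le]
      constructor <;> linarith
    linarith
  have hDTr : ∀ j, Tr N (fun x => Up (α j) (β j) δ x - Lo (α j) (β j) δ x) (2 * δ) L η := by
    intro j
    have h3 := (hUTr j).add ((hLTr j).smul (-1))
    have e1 : (fun x => Up (α j) (β j) δ x + -1 * Lo (α j) (β j) δ x) =
        fun x => Up (α j) (β j) δ x - Lo (α j) (β j) δ x := by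
      funext x
      ring
    have e2 : (β j - α j) + δ + -1 * ((β j - α j) - δ) = 2 * δ := by ring
    rw [e1, e2, abs_neg, abs_one, one_mul, one_mul] at h3
    refine h3.mono (le_of_eq ?_) (le_of_eq ?_)
    · rw [hLd]; ring
    · rw [hηd]; ring
  -- the error for products
  set E : ℝ := (T + 4 * m * w) * (12 * ℓ) ^ m with hE
  have hE0 : 0 ≤ E := by positivity
  have herr : T * L ^ m + S.card * (m * η * (L + η) ^ m) ≤ E := by
    have f1 : L ^ m ≤ (12 * ℓ) ^ m := pow_le_pow_left₀ (by linarith) (by rw [hLd]; linarith) m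
    have f2 : (L + η) ^ m ≤ (12 * ℓ) ^ m := by
      apply pow_le_pow_left₀ (by linarith)
      rw [hLd, hηd]
      linarith
    have f3 : (S.card : ℝ) * (m * η * (L + η) ^ m) ≤ 4 * m * w * (12 * ℓ) ^ m := by
      calc (S.card : ℝ) * (m * η * (L + η) ^ m) = 4 * m * (S.card * δ) * (L + η) ^ m := by
            rw [hηd]; ring
        _ ≤ 4 * m * w * (12 * ℓ) ^ m := by gcongr
    have f5 := mul_le_mul_of_nonneg_left f1 hT
    rw [hE]
    nlinarith
  set μ : Fin m → ℝ := fun j => (β j - α j) + δ with hμ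
  have hμb : ∀ j, 0 ≤ μ j ∧ μ j ≤ 2 := by
    intro j
    have f1 := h0 j
    have f2 := h1 j
    have f3 := h2 j
    rw [hμ]
    constructor <;> simp only <;> linarith
  have hUU := avg_prod S t N (fun j => Up (α j) (β j) δ) μ L η T hT
    (fun j => (hUTr j).mono (by rw [hLd]; linarith) (by rw [hηd]; linarith)) hL1 hη0 hexp
  have hDD : ∀ j₀ : Fin m, |∑ i ∈ S, ∏ j, (if j = j₀ then
      (Up (α j) (β j) δ (t i j) - Lo (α j) (β j) δ (t i j)) else Up (α j) (β j) δ (t i j)) -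
      S.card * ∏ j, (if j = j₀ then 2 * δ else μ j)| ≤ E := by
    intro j₀
    have h3 := avg_prod S t N (fun j x => if j = j₀ then
      (Up (α j) (β j) δ x - Lo (α j) (β j) δ x) else Up (α j) (β j) δ x)
      (fun j => if j = j₀ then 2 * δ else μ j) L η T hT (fun j => by
        by_cases hj : j = j₀
        · simp only [if_pos hj]
          exact hDTr j
        · simp only [if_neg hj]
          exact (hUTr j).mono (by rw [hLd]; linarith) (by rw [hηd]; linarith)) hL1 hη0 hexp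
    exact h3.trans herr
  -- comparison of the main terms
  have hmain : |∏ j, μ j - ∏ j, (β j - α j)| ≤ m * δ * 2 ^ m := by
    have h3 := prod_sub_le (univ : Finset (Fin m)) (fun j => (μ j : ℂ))
      (fun j => ((β j - α j : ℝ) : ℂ)) 2 δ (by norm_num) hδ.le (fun j => by
        rw [Complex.norm_real, Real.norm_eq_abs, abs_of_nonneg (hμb j).1]
        exact (hμb j).2) (fun j => by
        rw [Complex.norm_real, Real.norm_eq_abs]
        have f1 := h0 j
        have f2 := h1 j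
        have f3 := h2 j
        rw [abs_of_nonneg (by linarith)]
        linarith) (fun j => by
        rw [← Complex.ofReal_sub, Complex.norm_real, Real.norm_eq_abs, hμ]
        simp only
        rw [add_sub_cancel_left, abs_of_pos hδ])
    rw [card_univ, Fintype.card_fin, ← Complex.ofReal_prod, ← Complex.ofReal_prod,
      ← Complex.ofReal_sub, Complex.norm_real, Real.norm_eq_abs] at h3
    exact h3
  have hDmain : ∀ j₀ : Fin m, (S.card : ℝ) * ∏ j, (if j = j₀ then 2 * δ else μ j) ≤ 2 * w * 2 ^ m := by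
    intro j₀
    have h3 : ∏ j, (if j = j₀ then 2 * δ else μ j) ≤ 2 * δ * 2 ^ m := by
      rw [← mul_prod_erase univ _ (mem_univ j₀), if_pos rfl]
      apply mul_le_mul_of_nonneg_left _ (by positivity)
      calc ∏ j ∈ univ.erase j₀, (if j = j₀ then 2 * δ else μ j) ≤ ∏ j ∈ univ.erase j₀, (2 : ℝ) := by
            refine prod_le_prod (fun j _ => ?_) fun j hj => ?_
            · split_ifs
              · positivity
              · exact (hμb j).1
            · rw [if_neg (ne_of_mem_erase hj)]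
              exact (hμb j).2
        _ = 2 ^ (univ.erase j₀).card := by rw [prod_const]
        _ ≤ 2 ^ m := by
            apply pow_le_pow_right₀ (by norm_num)
            exact (card_le_card (erase_subset _ _)).trans (by simp)
    calc (S.card : ℝ) * ∏ j, (if j = j₀ then 2 * δ else μ j) ≤ S.card * (2 * δ * 2 ^ m) :=
          mul_le_mul_of_nonneg_left h3 hSR0
      _ = 2 * (S.card * δ) * 2 ^ m := by ring
      _ ≤ _ := by gcongr
  -- the count
  set X : ℝ := ((S.filter (fun i => ∀ j, α j ≤ Int.fract (t i j) ∧ Int.fract (t i j) < β j)).card : ℝ)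
    with hX
  have hXsum : X = ∑ i ∈ S, ∏ j, chi (α j) (β j) (t i j) := by
    rw [hX, card_filter]
    push_cast
    refine sum_congr rfl fun i _ => ?_
    split_ifs with hi
    · symm
      apply prod_eq_one
      intro j _
      unfold chi
      rw [if_pos (hi j)]
    · push Not at hi
      obtain ⟨j, hj⟩ := hi
      symm
      apply prod_eq_zero (mem_univ j)
      unfold chi
      rw [if_neg]
      rintro ⟨h3, h4⟩
      exact absurd h4 (not_lt.2 (hj h3))
  have hchi0 : ∀ j x, 0 ≤ chi (α j) (β j) x := by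
    intro j x
    unfold chi
    split_ifs <;> norm_num
  have htele : ∀ i, ∏ j, chi (α j) (β j) (t i j) ≤ ∏ j, Up (α j) (β j) δ (t i j) ∧
      ∏ j, Up (α j) (β j) δ (t i j) - ∏ j, chi (α j) (β j) (t i j) ≤
        ∑ j₀, ∏ j, (if j = j₀ then
          (Up (α j) (β j) δ (t i j) - Lo (α j) (β j) δ (t i j)) else Up (α j) (β j) δ (t i j)) := by
    intro i
    obtain ⟨h3, h4⟩ := prod_tele univ (fun j => Up (α j) (β j) δ (t i j))
      (fun j => chi (α j) (β j) (t i j)) (fun j => hchi0 j _)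
      (fun j => chi_le_Up _ _ _ _ (h0 j) (h1 j) (h2 j) hδ hδ1)
    refine ⟨h3, h4.trans (sum_le_sum fun j₀ _ => ?_)⟩
    rw [← mul_prod_erase univ (fun j => if j = j₀ then
      (Up (α j) (β j) δ (t i j) - Lo (α j) (β j) δ (t i j)) else Up (α j) (β j) δ (t i j))
      (mem_univ j₀), if_pos rfl]
    have h5 : ∏ j ∈ univ.erase j₀, (if j = j₀ then
        (Up (α j) (β j) δ (t i j) - Lo (α j) (β j) δ (t i j)) else Up (α j) (β j) δ (t i j)) =
        ∏ j ∈ univ.erase j₀, Up (α j) (β j) δ (t i j) :=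
      prod_congr rfl fun j hj => by rw [if_neg (ne_of_mem_erase hj)]
    rw [h5]
    apply mul_le_mul_of_nonneg_right
    · have := Lo_le_chi (α j₀) (β j₀) δ (t i j₀) (h0 j₀) (h1 j₀) (h2 j₀) hδ hδ1
      linarith
    · exact prod_nonneg fun j _ => (hchi0 j _).trans
        (chi_le_Up _ _ _ _ (h0 j) (h1 j) (h2 j) hδ hδ1)
  have hup : X ≤ ∑ i ∈ S, ∏ j, Up (α j) (β j) δ (t i j) := by
    rw [hXsum]
    exact sum_le_sum fun i _ => (htele i).1
  have hlo : ∑ i ∈ S, ∏ j, Up (α j) (β j) δ (t i j) - X ≤ m * (E + 2 * w * 2 ^ m) := by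
    rw [hXsum, ← sum_sub_distrib]
    refine (sum_le_sum fun i _ => (htele i).2).trans ?_
    rw [sum_comm]
    have h3 : ∀ j₀ ∈ (univ : Finset (Fin m)), ∑ i ∈ S, ∏ j, (if j = j₀ then
        (Up (α j) (β j) δ (t i j) - Lo (α j) (β j) δ (t i j)) else Up (α j) (β j) δ (t i j)) ≤
        E + 2 * w * 2 ^ m := by
      intro j₀ _
      have f1 := (abs_le.1 (hDD j₀)).2
      have f2 := hDmain j₀
      linarith
    refine (sum_le_sum h3).trans (le_of_eq ?_)
    rw [sum_const, card_univ, Fintype.card_fin, nsmul_eq_mul]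
  have hUU' := hUU.trans herr
  obtain ⟨g1, g2⟩ := abs_le.1 hUU'
  have hm' : |(S.card : ℝ) * ∏ j, μ j - (∏ j, (β j - α j)) * S.card| ≤ m * w * 2 ^ m := by
    have e1 : (S.card : ℝ) * ∏ j, μ j - (∏ j, (β j - α j)) * S.card =
        S.card * (∏ j, μ j - ∏ j, (β j - α j)) := by ring
    rw [e1, abs_mul, abs_of_nonneg hSR0]
    calc (S.card : ℝ) * |∏ j, μ j - ∏ j, (β j - α j)| ≤ S.card * (m * δ * 2 ^ m) := by gcongr
      _ = m * (S.card * δ) * 2 ^ m := by ring
      _ ≤ _ := by gcongr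
  obtain ⟨g3, g4⟩ := abs_le.1 hm'
  exact etk_num m X _ _ _ E w T ℓ hT hw0 hℓ1 hE g1 g2 hup hlo g3 g4

end Pool.Agent.J6H30.PV
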