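import Pool.Agent.J6H30.PV.Weyl
import Pool.Agent.J6H30.PV.Crit

/-!
# The values of a polynomial with an algebraic irrational leading coefficient
-/

set_option autoImplicit false

namespace Pool.Agent.J6H30.PV

open Finset Filter Topology Polynomial
open Pool.Agent.H469R2.NK (e norm_e e_add e_zero conj_e)
open Pool.Agent.R485.Mult (sg abs_sg dioph)

/-- the subspace theorem, for all bases up to `B` -/
theorem dioph_all (x : ℝ) (hx : IsAlgebraic ℚ x) (hirr : Irrational x) (D : ℕ) (ε : ℝ) (hε : 0 < ε)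
    (B : ℕ) :
    ∃ κ : ℝ, 0 < κ ∧ ∃ N0 : ℕ, ∀ N : ℕ, N0 ≤ N → ∀ b : ℕ, 2 ≤ b → b ≤ B → ∀ k : Fin D → ℕ,
      (∀ i, k i ≤ N) → ∀ lam : Fin D → ℤ, (∀ j, |(lam j : ℝ)| ≤ Real.exp (κ * N)) →
      ∑ j, lam j * (b : ℤ) ^ (k j) ≠ 0 →
      ∀ P : ℤ, Real.exp (-(ε * N)) < |x * ∑ j, (lam j : ℝ) * (b : ℝ) ^ (k j) - P| := by
  induction B with
  | zero => exact ⟨1, one_pos, 0, fun N _ b hb hB => by omega⟩
  | succ B ih =>
    obtain ⟨κ, hκ, N0, h⟩ := ih
    by_cases hB : 2 ≤ B + 1
    · obtain ⟨κ', hκ', N0', h'⟩ := dioph (B + 1) hB x hx hirr D ε hε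
      refine ⟨min κ κ', lt_min hκ hκ', max N0 N0', fun N hN b hb hbB k hk lam hlam hne P => ?_⟩
      rcases Nat.lt_or_ge b (B + 1) with hlt | hge
      · refine h N ((le_max_left _ _).trans hN) b hb (by omega) k hk lam (fun j => ?_) hne P
        refine (hlam j).trans (Real.exp_le_exp.2 ?_)
        exact mul_le_mul_of_nonneg_right (min_le_left _ _) (Nat.cast_nonneg _)
      · have hbB' : b = B + 1 := by omega
        subst hbB'
        refine h' N ((le_max_right _ _).trans hN) k hk lam (fun j => ?_) hne P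
        refine (hlam j).trans (Real.exp_le_exp.2 ?_)
        exact mul_le_mul_of_nonneg_right (min_le_right _ _) (Nat.cast_nonneg _)
    · exact ⟨1, one_pos, 0, fun N _ b hb hB => by omega⟩

/-- powers are smaller than exponentials -/
lemma pow_le_exp (C : ℝ) (s : ℕ) (κ : ℝ) (hκ : 0 < κ) :
    ∀ᶠ N : ℕ in atTop, C * (N : ℝ) ^ s ≤ Real.exp (κ * N) := by
  have h1 : Tendsto (fun u : ℝ => Real.exp u / u ^ s) atTop atTop := Real.tendsto_exp_div_pow_atTop s
  have h2 : Tendsto (fun N : ℕ => κ * (N : ℝ)) atTop atTop :=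
    tendsto_natCast_atTop_atTop.const_mul_atTop hκ
  filter_upwards [(h1.comp h2).eventually_ge_atTop (C / κ ^ s), eventually_gt_atTop 0]
    with N hN hN0
  have hN0' : (0 : ℝ) < N := by exact_mod_cast hN0
  simp only [Function.comp] at hN
  rw [le_div_iff₀ (by positivity), mul_pow] at hN
  have : C / κ ^ s * (κ ^ s * (N : ℝ) ^ s) = C * (N : ℝ) ^ s := by
    have : κ ^ s ≠ 0 := by positivity
    field_simp
  linarith

/-- **One variable.** The leading coefficient is an integral multiple of a given algebraic irrational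
number; the other coefficients are arbitrary. -/
theorem poly1 (x : ℝ) (hx : IsAlgebraic ℚ x) (hirr : Irrational x) (d : ℕ) (hd : 1 ≤ d) (B : ℕ)
    (ε δ : ℝ) (hε : 0 < ε) (hδ : 0 < δ) (A : ℕ) :
    ∃ κ : ℝ, 0 < κ ∧ ∃ N₀ : ℕ, ∀ N : ℕ, N₀ ≤ N → ∀ q : ℤ, q ≠ 0 → |(q : ℝ)| ≤ Real.exp (κ * N) →
      ∀ P : ℝ[X], P.natDegree ≤ d → P.coeff d = q * x → ∀ K : ℕ, Real.exp (ε * N) ≤ K →
      ({k | k ∈ range K ∧ ¬ Good B N ((N : ℝ) ^ (1 / 2 + δ)) (P.eval (k : ℝ))}.ncard : ℝ) *
        (N : ℝ) ^ A ≤ K := by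
  obtain ⟨d, rfl⟩ : ∃ d', d = d' + 1 := ⟨d - 1, by omega⟩
  obtain ⟨s, N1, hs1, hcrit⟩ := criterion B δ hδ A
  obtain ⟨κ0, hκ0, N2, hdio⟩ := dioph_all x hx hirr (2 * s) (ε / 2) (by positivity) B
  set κ1 : ℝ := min (κ0 / (4 * (d + 1))) (ε / 4) with hκ1
  have hκ1p : 0 < κ1 := lt_min (by positivity) (by positivity)
  have hκ1a : d * κ1 ≤ κ0 / 4 := by
    have h1 : κ1 ≤ κ0 / (4 * (d + 1)) := min_le_left _ _
    rw [le_div_iff₀ (by positivity)] at h1
    have : 0 ≤ κ1 := hκ1p.le
    nlinarith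
  have hκ1b : κ1 ≤ ε / 4 := min_le_right _ _
  set c : ℝ := (1 / 2 : ℝ) ^ d with hc
  have hc0 : 0 < c := by positivity
  have hc1 : c ≤ 1 := pow_le_one₀ (by norm_num) (by norm_num)
  obtain ⟨N3, hN3⟩ := eventually_atTop.1 (((pow_le_exp ((d + 1).factorial) 1 (κ0 / 4)
    (by positivity)).and (pow_le_exp 16 s (c * κ1) (by positivity))).and
      ((pow_le_exp 4 0 κ1 hκ1p).and (eventually_ge_atTop 1)))
  refine ⟨κ0 / 4, by positivity, max N1 (max N2 N3), fun N hN q hq0 hq P hP hPc K hK => ?_⟩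
  have hNa : N1 ≤ N := (le_max_left _ _).trans hN
  have hNb : N2 ≤ N := ((le_max_left _ _).trans (le_max_right _ _)).trans hN
  obtain ⟨⟨hNc, hNd⟩, hNe, hNf⟩ := hN3 N (((le_max_right _ _).trans (le_max_right _ _)).trans hN)
  rw [pow_one] at hNc
  rw [pow_zero, mul_one] at hNe
  have hNR : (1 : ℝ) ≤ N := by exact_mod_cast hNf
  have hN0 : (0 : ℝ) < N := by linarith
  have hK0 : (0 : ℝ) < K := lt_of_lt_of_le (Real.exp_pos _) hK
  have hK1 : 1 ≤ K := by exact_mod_cast hK0
  set H : ℕ := ⌊Real.exp (κ1 * N)⌋₊ with hH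
  have hH1 : (H : ℝ) ≤ Real.exp (κ1 * N) := Nat.floor_le (Real.exp_pos _).le
  have hH2 : Real.exp (κ1 * N) / 2 ≤ H := by
    have h1 := Nat.lt_floor_add_one (Real.exp (κ1 * N))
    rw [← hH] at h1
    linarith
  have hHpos : 1 ≤ H := by
    have : (1 : ℝ) ≤ H := by linarith
    exact_mod_cast this
  have hH0 : (0 : ℝ) < H := by exact_mod_cast hHpos
  set τ : ℝ := 4 * Real.exp (-(κ1 * N)) with hτ
  have hexp : Real.exp (κ1 * N) * Real.exp (-(κ1 * N)) = 1 := by
    rw [← Real.exp_add, add_neg_cancel, Real.exp_zero]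
  have hτ0 : 0 < τ := by positivity
  have hτ1 : τ ≤ 1 := by
    rw [hτ, ← hexp]
    exact mul_le_mul_of_nonneg_right hNe (Real.exp_pos _).le
  have hεN : 0 ≤ ε * N := by positivity
  have hκN : κ1 * N ≤ ε / 4 * N := mul_le_mul_of_nonneg_right hκ1b hN0.le
  have hw1 : 2 / (Real.exp (-(ε / 2 * N)) * K) ≤ τ := by
    rw [div_le_iff₀ (by positivity), hτ]
    have h1 : Real.exp (-(κ1 * N)) * (Real.exp (-(ε / 2 * N)) * Real.exp (ε * N)) ≤
        Real.exp (-(κ1 * N)) * (Real.exp (-(ε / 2 * N)) * K) := by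
      gcongr
    have h2 : 1 ≤ Real.exp (-(κ1 * N)) * (Real.exp (-(ε / 2 * N)) * Real.exp (ε * N)) := by
      rw [← Real.exp_add, ← Real.exp_add]
      apply Real.one_le_exp
      linarith
    linarith
  have hw2 : 2 / (H : ℝ) ≤ τ := by
    rw [div_le_iff₀ hH0, hτ]
    have h1 : Real.exp (-(κ1 * N)) * (Real.exp (κ1 * N) / 2) ≤ Real.exp (-(κ1 * N)) * H := by
      gcongr
    nlinarith
  have hw3 : 2 * (H : ℝ) / K ≤ τ := by
    rw [div_le_iff₀ hK0, hτ]
    have h1 : Real.exp (-(κ1 * N)) * Real.exp (ε * N) ≤ Real.exp (-(κ1 * N)) * K := by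
      gcongr
    have h2 : Real.exp (κ1 * N) ≤ Real.exp (-(κ1 * N)) * Real.exp (ε * N) := by
      rw [← Real.exp_add]
      apply Real.exp_le_exp.2
      linarith
    linarith
  have h0 := hcrit N hNa ℕ (range K) (fun k => P.eval (k : ℝ)) (by
    intro b hb hbB h hh1 hh p hp hne
    set Λ : ℤ := ∑ j : Fin (2 * s), sg j * (b : ℤ) ^ (p j) with hΛ
    have e1 : ∀ k : ℕ, h * P.eval (k : ℝ) * (Λ : ℝ) = (C ((h : ℝ) * Λ) * P).eval (k : ℝ) := by
      intro k
      rw [eval_mul, eval_C]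
      ring
    simp only [e1]
    have h1 := weyl d (C ((h : ℝ) * Λ) * P) ((natDegree_C_mul_le _ _).trans hP) H K hHpos hK1
      (Real.exp (-(ε / 2 * N))) τ (Real.exp_pos _) hw1 hw2 hw3 hτ1 (by
        intro q' hq'0 hq' m
        have h2 := hdio N hNb b hb hbB p hp (fun j => q' * q * h * sg j) (by
          intro j
          have e2 : |((q' * q * h * sg j : ℤ) : ℝ)| = |(q' : ℝ)| * |(q : ℝ)| * h := by
            push_cast
            rw [abs_mul, abs_mul, abs_mul]
            have : |((sg j : ℤ) : ℝ)| = 1 := by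
              rw [← Int.cast_abs, abs_sg]
              simp
            rw [this, Nat.abs_cast, mul_one]
          rw [e2]
          have e3 : |(q' : ℝ)| ≤ (d + 1).factorial * Real.exp (κ1 * N) ^ d := by
            have e4 : |(q' : ℝ)| ≤ ((d + 1).factorial : ℝ) * (H : ℝ) ^ d := by
              rw [← Int.cast_abs]
              exact_mod_cast hq'
            exact e4.trans (by gcongr)
          have hhR : (h : ℝ) ≤ N := by exact_mod_cast hh
          have e5 : Real.exp (κ1 * N) ^ d ≤ Real.exp (κ0 / 4 * N) := by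
            rw [← Real.exp_nat_mul]
            apply Real.exp_le_exp.2
            calc (d : ℝ) * (κ1 * N) = (d * κ1) * N := by ring
              _ ≤ κ0 / 4 * N := mul_le_mul_of_nonneg_right hκ1a hN0.le
          calc |(q' : ℝ)| * |(q : ℝ)| * h ≤
              ((d + 1).factorial * Real.exp (κ0 / 4 * N)) * Real.exp (κ0 / 4 * N) * N := by
                gcongr
                exact e3.trans (by gcongr)
            _ = ((d + 1).factorial * N) * (Real.exp (κ0 / 4 * N) * Real.exp (κ0 / 4 * N)) := by ring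
            _ ≤ Real.exp (κ0 / 4 * N) * (Real.exp (κ0 / 4 * N) * Real.exp (κ0 / 4 * N)) := by
                gcongr
            _ ≤ Real.exp (κ0 * N) := by
                rw [← Real.exp_add, ← Real.exp_add]
                apply Real.exp_le_exp.2
                have : 0 < κ0 * N := by positivity
                linarith) (by
          have e6 : ∑ j : Fin (2 * s), q' * q * h * sg j * (b : ℤ) ^ (p j) = q' * q * h * Λ := by
            rw [hΛ, mul_sum]
            exact sum_congr rfl fun j _ => by ring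
          rw [e6]
          exact mul_ne_zero (mul_ne_zero (mul_ne_zero hq'0 hq0) (by omega)) hne) m
        refine lt_of_lt_of_eq h2 ?_
        have e7 : ∑ j : Fin (2 * s), ((q' * q * h * sg j : ℤ) : ℝ) * (b : ℝ) ^ (p j) =
            q' * q * h * Λ := by
          rw [hΛ]
          push_cast
          rw [mul_sum]
          exact sum_congr rfl fun j _ => by ring
        rw [e7, coeff_C_mul, hPc]
        congr 1
        ring)
    rw [card_range]
    refine (mul_le_mul_of_nonneg_right h1 (by positivity)).trans ?_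
    have e8 : τ ^ c ≤ 4 * Real.exp (-(c * κ1 * N)) := by
      rw [hτ, Real.mul_rpow (by norm_num) (Real.exp_pos _).le]
      have e9 : (4 : ℝ) ^ c ≤ 4 := by
        nth_rw 2 [← Real.rpow_one 4]
        exact Real.rpow_le_rpow_of_exponent_le (by norm_num) hc1
      have e10 : Real.exp (-(κ1 * N)) ^ c = Real.exp (-(c * κ1 * N)) := by
        rw [← Real.exp_mul]
        congr 1
        ring
      rw [e10]
      exact mul_le_mul_of_nonneg_right e9 (Real.exp_pos _).le
    calc (K : ℝ) * (4 * τ ^ c) * (N : ℝ) ^ s ≤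
        K * (4 * (4 * Real.exp (-(c * κ1 * N)))) * (N : ℝ) ^ s := by gcongr
      _ = K * (16 * (N : ℝ) ^ s * Real.exp (-(c * κ1 * N))) := by ring
      _ ≤ K * (Real.exp (c * κ1 * N) * Real.exp (-(c * κ1 * N))) := by gcongr
      _ = K := by rw [← Real.exp_add, add_neg_cancel, Real.exp_zero, mul_one])
  rw [card_range] at h0
  exact h0

end Pool.Agent.J6H30.PV
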