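import Pool.Agent.J6H30.PV.GChern
import Pool.Agent.J6H30.PV.Poly

/-!
# Uniform blocks of digits and large deviations
-/

set_option autoImplicit false

namespace Pool.Agent.J6H30.PV

open Finset Filter Topology
open Pool.Agent.H469R2.NK (e norm_e e_add e_zero conj_e)
open Pool.Agent.R485.Mult (indicator_eq saw_bound)

/-- families of numbers with small exponential sums have nearly uniform blocks -/
theorem block_unif (κ : ℝ) (hκ : 0 < κ) : ∃ N₀ : ℕ, ∀ N : ℕ, N₀ ≤ N →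
    ∀ (ι : Type) (Ω : Finset ι) (x : ι → ℝ),
    (∀ h : ℕ, 1 ≤ h → (h : ℝ) ≤ Real.exp (κ * N) →
      ‖∑ ω ∈ Ω, e (h * x ω)‖ ≤ Real.exp (-(κ * N)) * Ω.card) →
    ∀ L : ℕ, 1 ≤ L → (L : ℝ) ≤ Real.exp (κ / 4 * N) → ∀ a : ℕ, a < L →
      ((Ω.filter (fun ω => ⌊(L : ℝ) * Int.fract (x ω)⌋₊ = a)).card : ℝ) ≤ 2 * Ω.card / L := by
  classical
  obtain ⟨N1, hN1⟩ := eventually_atTop.1 (((pow_le_exp 8 0 (κ / 4) (by positivity)).and
    (pow_le_exp (1 + κ) 1 (κ / 2) (by positivity))).and (eventually_ge_atTop 1))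
  refine ⟨N1, fun N hN ι Ω x hx L hL1 hL a ha => ?_⟩
  obtain ⟨⟨h8, hlog⟩, hN1'⟩ := hN1 N hN
  rw [pow_zero, mul_one] at h8
  rw [pow_one] at hlog
  have hNR : (1 : ℝ) ≤ N := by exact_mod_cast hN1'
  have hN0 : (0 : ℝ) < N := by linarith
  set M : ℝ := (Ω.card : ℝ) with hM
  have hM0 : 0 ≤ M := Nat.cast_nonneg _
  have hLR : (0 : ℝ) < L := by exact_mod_cast hL1
  set K : ℕ := ⌊Real.exp (κ * N)⌋₊ with hK
  have hexp1 : (1 : ℝ) ≤ Real.exp (κ * N) := Real.one_le_exp (by positivity)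
  have hK1 : 1 ≤ K := by
    rw [hK]
    exact Nat.le_floor (by simpa using hexp1)
  have hKle : (K : ℝ) ≤ Real.exp (κ * N) := Nat.floor_le (Real.exp_pos _).le
  have hKge : Real.exp (κ * N) / 2 ≤ K := by
    have h1 := Nat.lt_floor_add_one (Real.exp (κ * N))
    rw [← hK] at h1
    have h2 : (1 : ℝ) ≤ K := by exact_mod_cast hK1
    linarith
  have hK0 : (0 : ℝ) < K := by exact_mod_cast hK1
  set δ : ℝ := Real.exp (-(κ / 2 * N)) with hδ
  have hδ0 : 0 < δ := Real.exp_pos _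
  have hδ1 : δ ≤ 1 := by
    rw [hδ]
    apply Real.exp_le_one_iff.2
    have : 0 < κ / 2 * N := by positivity
    linarith
  have hδδ : δ * δ = Real.exp (-(κ * N)) := by
    rw [hδ, ← Real.exp_add]
    congr 1
    ring
  have hKδ : M / (K * δ) ≤ 2 * δ * M := by
    have h1 : 1 ≤ 2 * δ * (K * δ) := by
      have h2 : Real.exp (κ * N) / 2 * (δ * δ) ≤ K * (δ * δ) := by gcongr
      have h3 : Real.exp (κ * N) * (δ * δ) = 1 := by
        rw [hδδ, ← Real.exp_add, add_neg_cancel, Real.exp_zero]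
      nlinarith
    rw [div_le_iff₀ (by positivity)]
    nlinarith
  have hone : ∀ γ : ℝ, |∑ ω ∈ Ω, (Int.fract (x ω - γ) - 1 / 2)| ≤ 4 * δ * M := by
    intro γ
    have h1 := saw_bound Ω (fun ω => x ω - γ) K hK1 δ hδ0 hδ1
    have h2 : ∑ h ∈ Icc 1 K, ‖∑ ω ∈ Ω, e (h * (x ω - γ))‖ / h ≤ δ * M := by
      have h3 : ∀ h ∈ Icc 1 K, ‖∑ ω ∈ Ω, e (h * (x ω - γ))‖ / h ≤
          (Real.exp (-(κ * N)) * M) * (1 / h) := by
        intro h hh
        rw [mem_Icc] at hh
        have e1 : ∑ ω ∈ Ω, e (h * (x ω - γ)) = e (-(h * γ)) * ∑ ω ∈ Ω, e (h * x ω) := by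
          rw [mul_sum]
          refine sum_congr rfl fun ω _ => ?_
          rw [← e_add]
          congr 1
          ring
        rw [e1, norm_mul, norm_e, one_mul, mul_one_div]
        gcongr
        refine hx h hh.1 ?_
        exact le_trans (by exact_mod_cast hh.2) hKle
      refine (sum_le_sum h3).trans ?_
      rw [← mul_sum]
      have h4 : ∑ h ∈ Icc 1 K, (1 : ℝ) / h ≤ 1 + Real.log K := by
        have h5 := harmonic_le_one_add_log K
        rw [harmonic_eq_sum_Icc] at h5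
        push_cast at h5
        refine le_trans (le_of_eq ?_) h5
        exact sum_congr rfl fun h _ => by rw [one_div]
      have h5 : 1 + Real.log K ≤ Real.exp (κ / 2 * N) := by
        have h6 : Real.log K ≤ κ * N := by
          rw [Real.log_le_iff_le_exp hK0]
          exact hKle
        nlinarith
      calc Real.exp (-(κ * N)) * M * ∑ h ∈ Icc 1 K, (1 : ℝ) / h ≤
          Real.exp (-(κ * N)) * M * Real.exp (κ / 2 * N) := by
            gcongr
            exact h4.trans h5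
        _ = δ * M := by
          rw [hδ, mul_right_comm, ← Real.exp_add]
          congr 2
          ring
    have h3 : (Ω.card : ℝ) * δ = δ * M := by rw [mul_comm]
    calc |∑ ω ∈ Ω, (Int.fract (x ω - γ) - 1 / 2)| ≤ _ := h1
      _ ≤ δ * M + 2 * δ * M + δ * M := by
        rw [h3]
        gcongr
      _ = 4 * δ * M := by ring
  -- the deviation
  have hset : Ω.filter (fun ω => ⌊(L : ℝ) * Int.fract (x ω)⌋₊ = a) =
      Ω.filter (fun ω => (a : ℝ) / L ≤ Int.fract (x ω) ∧ Int.fract (x ω) < (a + 1) / L) := by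
    apply filter_congr
    intro ω _
    have h0 : 0 ≤ (L : ℝ) * Int.fract (x ω) := mul_nonneg hLR.le (Int.fract_nonneg _)
    rw [Nat.floor_eq_iff h0, div_le_iff₀ hLR, lt_div_iff₀ hLR, mul_comm (L : ℝ)]
  rw [hset]
  have haR : (a : ℝ) + 1 ≤ L := by exact_mod_cast ha
  have hdev : ((Ω.filter (fun ω => (a : ℝ) / L ≤ Int.fract (x ω) ∧
      Int.fract (x ω) < (a + 1) / L)).card : ℝ) - 1 / L * M =
      ∑ ω ∈ Ω, (Int.fract (x ω - (a + 1) / L) - 1 / 2) - ∑ ω ∈ Ω, (Int.fract (x ω - a / L) - 1 / 2) := by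
    rw [← sum_sub_distrib]
    rw [← sum_congr rfl fun ω _ => indicator_eq (x ω) (a / L) ((a + 1) / L) (by positivity)
      (by gcongr; linarith) (by rw [div_le_one hLR]; exact haR)]
    rw [sum_sub_distrib, sum_const, card_filter]
    push_cast
    rw [nsmul_eq_mul]
    have : (a + 1 : ℝ) / L - a / L = 1 / L := by ring
    rw [this]
    ring
  have h1 := hone ((a + 1) / L)
  have h2 := hone (a / L)
  have h3 := abs_sub (∑ ω ∈ Ω, (Int.fract (x ω - (a + 1) / L) - 1 / 2))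
    (∑ ω ∈ Ω, (Int.fract (x ω - a / L) - 1 / 2))
  rw [← hdev] at h3
  have h4 := (le_abs_self _).trans h3
  have h5 : 8 * δ * M ≤ 1 / L * M := by
    apply mul_le_mul_of_nonneg_right _ hM0
    rw [le_div_iff₀ hLR]
    calc 8 * δ * L ≤ Real.exp (κ / 4 * N) * δ * Real.exp (κ / 4 * N) := by gcongr
      _ = 1 := by
        rw [hδ, ← Real.exp_add, ← Real.exp_add]
        have : κ / 4 * N + -(κ / 2 * N) + κ / 4 * N = 0 := by ring
        rw [this, Real.exp_zero]
  have h6 : 2 * M / L = 1 / L * M + 1 / L * M := by ring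
  rw [h6]
  linarith

/-- large deviations in uniform blocks -/
theorem block_dev {ι : Type} (Ω : Finset ι) (x : ι → ℝ) (β : ℕ) (hβ : 1 ≤ β) (q : ℕ) (hq : 1 ≤ q)
    (hu : ∀ a : ℕ, a < β ^ q → ((Ω.filter
      (fun ω => ⌊((β ^ q : ℕ) : ℝ) * Int.fract (x ω)⌋₊ = a)).card : ℝ) ≤ 2 * Ω.card / (β ^ q : ℕ))
    (R : ℕ → Prop) [DecidablePred R] (ρ : ℝ) (hρ : ρ = ((range β).filter R).card / β) (t : ℝ)
    (ht : 0 ≤ t) :
    ((Ω.filter (fun ω => t ≤ |(((range q).filter
      (fun j => R ⌊(β : ℝ) * Int.fract ((β : ℝ) ^ j * x ω)⌋₊)).card : ℝ) - ρ * q|)).card : ℝ) ≤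
      4 * Ω.card * Real.exp (-(t ^ 2 / (2 * q))) := by
  classical
  have hβR : (0 : ℝ) < β := by exact_mod_cast hβ
  have hfr : ∀ (j : ℕ) (y : ℝ), Int.fract ((β : ℝ) ^ j * Int.fract y) = Int.fract ((β : ℝ) ^ j * y) := by
    intro j y
    have e1 : (β : ℝ) ^ j * y = (β : ℝ) ^ j * Int.fract y + (((β : ℤ) ^ j * ⌊y⌋ : ℤ) : ℝ) := by
      push_cast
      rw [← mul_add]
      congr 1
      have := Int.floor_add_fract y
      linarith
    rw [e1, Int.fract_add_intCast]
  set bad : Finset ℕ := (range (β ^ q)).filter (fun a => t ≤ |(cntR β R q a : ℝ) - ρ * q|) with hbad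
  have hsub : Ω.filter (fun ω => t ≤ |(((range q).filter
      (fun j => R ⌊(β : ℝ) * Int.fract ((β : ℝ) ^ j * x ω)⌋₊)).card : ℝ) - ρ * q|) ⊆
      bad.biUnion (fun a => Ω.filter (fun ω => ⌊((β ^ q : ℕ) : ℝ) * Int.fract (x ω)⌋₊ = a)) := by
    intro ω hω
    obtain ⟨h1, h2⟩ := mem_filter.1 hω
    have h3 := cnt_real β hβ R q (Int.fract (x ω)) (Int.fract_nonneg _) (Int.fract_lt_one _)
    simp_rw [hfr] at h3
    rw [h3] at h2
    rw [mem_biUnion]
    refine ⟨⌊(β : ℝ) ^ q * Int.fract (x ω)⌋₊, ?_, ?_⟩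
    · rw [hbad, mem_filter, mem_range]
      refine ⟨?_, h2⟩
      rw [Nat.floor_lt (by have := Int.fract_nonneg (x ω); positivity)]
      push_cast
      calc (β : ℝ) ^ q * Int.fract (x ω) < (β : ℝ) ^ q * 1 := by
            gcongr
            exact Int.fract_lt_one _
        _ = _ := mul_one _
    · rw [mem_filter]
      push_cast
      exact ⟨h1, rfl⟩
  have h1 : ((Ω.filter (fun ω => t ≤ |(((range q).filter
      (fun j => R ⌊(β : ℝ) * Int.fract ((β : ℝ) ^ j * x ω)⌋₊)).card : ℝ) - ρ * q|)).card : ℝ) ≤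
      ∑ a ∈ bad, ((Ω.filter (fun ω => ⌊((β ^ q : ℕ) : ℝ) * Int.fract (x ω)⌋₊ = a)).card : ℝ) := by
    exact_mod_cast (card_le_card hsub).trans card_biUnion_le
  refine h1.trans ?_
  have h2 : ∀ a ∈ bad, ((Ω.filter
      (fun ω => ⌊((β ^ q : ℕ) : ℝ) * Int.fract (x ω)⌋₊ = a)).card : ℝ) ≤ 2 * Ω.card / (β ^ q : ℕ) := by
    intro a ha
    exact hu a (mem_range.1 (mem_filter.1 ha).1)
  refine (sum_le_sum h2).trans ?_
  rw [sum_const, nsmul_eq_mul]
  have h3 := tails β hβ R ρ hρ t ht q hq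
  have hβq : (0 : ℝ) < ((β ^ q : ℕ) : ℝ) := by push_cast; positivity
  calc (bad.card : ℝ) * (2 * Ω.card / (β ^ q : ℕ)) ≤
      (2 * (β : ℝ) ^ q * Real.exp (-(t ^ 2 / (2 * q)))) * (2 * Ω.card / (β ^ q : ℕ)) := by gcongr
    _ = 4 * Ω.card * Real.exp (-(t ^ 2 / (2 * q))) := by
      push_cast
      field_simp
      ring

/-- sums over residue classes -/
lemma sum_classes (n w : ℕ) (hw : 1 ≤ w) (g : ℕ → ℝ) :
    ∑ i ∈ range n, g i = ∑ r ∈ range w, ∑ j ∈ range ((n + w - 1 - r) / w), g (r + w * j) := by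
  classical
  rw [← sum_fiberwise_of_maps_to (s := range n) (t := range w) (g := fun i => i % w)
    (fun i _ => mem_range.2 (Nat.mod_lt _ (by omega)))]
  refine sum_congr rfl fun r hr => ?_
  rw [mem_range] at hr
  have h1 : (range n).filter (fun i => i % w = r) =
      (range ((n + w - 1 - r) / w)).image (fun j => r + w * j) := by
    ext i
    rw [mem_filter, mem_range, mem_image]
    constructor
    · rintro ⟨h2, h3⟩
      refine ⟨i / w, ?_, ?_⟩
      · rw [mem_range]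
        have h4 : (i / w + 1) ≤ (n + w - 1 - r) / w := by
          rw [Nat.le_div_iff_mul_le (by omega)]
          have h5 := Nat.div_add_mod i w
          have h6 : (i / w + 1) * w = w * (i / w) + w := by ring
          omega
        omega
      · have h5 := Nat.div_add_mod i w
        omega
    · rintro ⟨j, hj, rfl⟩
      rw [mem_range] at hj
      have h4 : (j + 1) * w ≤ n + w - 1 - r := by
        have h5 : j + 1 ≤ (n + w - 1 - r) / w := hj
        rwa [Nat.le_div_iff_mul_le (by omega)] at h5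
      have h6 : (j + 1) * w = w * j + w := by ring
      constructor
      · omega
      · rw [Nat.add_mul_mod_self_left, Nat.mod_eq_of_lt hr]
  rw [h1, sum_image]
  intro j _ j' _ h
  simp only [add_right_inj] at h
  exact Nat.eq_of_mul_eq_mul_left (by omega) h

/-- long progressions -/
lemma chunks (G : ℕ → ℝ) (w q₀ P : ℕ) (E : ℝ) (hE : 0 ≤ E)
    (h : ∀ p q : ℕ, p ≤ P → 1 ≤ q → q ≤ q₀ → |∑ j ∈ range q, G (p + w * j)| ≤ E * Real.sqrt q)
    (k : ℕ) : ∀ Q p : ℕ, Q ≤ k * q₀ → p + w * Q ≤ P →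
      |∑ j ∈ range Q, G (p + w * j)| ≤ k * E * Real.sqrt Q := by
  induction k with
  | zero =>
    intro Q p hQ _
    have : Q = 0 := by omega
    subst this
    simp
  | succ k ih =>
    intro Q p hQ hp
    rcases Nat.eq_zero_or_pos Q with h0 | h0
    · subst h0
      simp
    by_cases hQq : Q ≤ q₀
    · refine (h p Q (by omega) h0 hQq).trans ?_
      apply mul_le_mul_of_nonneg_right _ (Real.sqrt_nonneg _)
      push_cast
      have : 0 ≤ (k : ℝ) * E := by positivity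
      linarith
    · push Not at hQq
      obtain ⟨Q', rfl⟩ : ∃ Q', Q = q₀ + Q' := ⟨Q - q₀, by omega⟩
      have hq₀ : 1 ≤ q₀ := by
        by_contra hcon
        have : q₀ = 0 := by omega
        rw [this] at hQ
        omega
      rw [sum_range_add]
      have h1 := h p q₀ (by have : w * (q₀ + Q') = w * q₀ + w * Q' := by ring
                            omega) hq₀ le_rfl
      have h2 := ih Q' (p + w * q₀) (by
        have : (k + 1) * q₀ = k * q₀ + q₀ := by ring
        omega) (by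
        have : w * (q₀ + Q') = w * q₀ + w * Q' := by ring
        omega)
      have e1 : ∀ j, p + w * (q₀ + j) = p + w * q₀ + w * j := fun j => by ring
      simp_rw [e1]
      refine (abs_add_le _ _).trans ?_
      have h3 : Real.sqrt (q₀ : ℕ) ≤ Real.sqrt ((q₀ + Q' : ℕ) : ℝ) :=
        Real.sqrt_le_sqrt (by push_cast; linarith [(Nat.cast_nonneg Q' : (0 : ℝ) ≤ Q')])
      have h4 : Real.sqrt (Q' : ℕ) ≤ Real.sqrt ((q₀ + Q' : ℕ) : ℝ) :=
        Real.sqrt_le_sqrt (by push_cast; linarith [(Nat.cast_nonneg q₀ : (0 : ℝ) ≤ q₀)])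
      calc |∑ j ∈ range q₀, G (p + w * j)| + |∑ j ∈ range Q', G (p + w * q₀ + w * j)| ≤
          E * Real.sqrt q₀ + k * E * Real.sqrt Q' := add_le_add h1 h2
        _ ≤ E * Real.sqrt ((q₀ + Q' : ℕ) : ℝ) + k * E * Real.sqrt ((q₀ + Q' : ℕ) : ℝ) := by gcongr
        _ = ((k + 1 : ℕ) : ℝ) * E * Real.sqrt ((q₀ + Q' : ℕ) : ℝ) := by
          push_cast
          ring

end Pool.Agent.J6H30.PV
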