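import Pool.Agent.J6H30.PV.CritM

/-!
# Large deviations for the digits of integers, and for the digits of numbers with uniform blocks
-/

set_option autoImplicit false

namespace Pool.Agent.J6H30.PV

open Finset Filter Topology
open Pool.Agent.H469R2.NK (e norm_e e_add e_zero conj_e)

/-- the number of the `q` digits of `a` in base `β` with the property `R` -/
def cntR (β : ℕ) (R : ℕ → Prop) [DecidablePred R] : ℕ → ℕ → ℕ
  | 0, _ => 0
  | q + 1, a => (if R (a / β ^ q) then 1 else 0) + cntR β R q (a % β ^ q)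

lemma sum_range_mul' (β L : ℕ) (hL : 1 ≤ L) (F : ℕ → ℕ → ℝ) :
    ∑ a ∈ range (β * L), F (a / L) (a % L) = ∑ D ∈ range β, ∑ a ∈ range L, F D a := by
  rw [← sum_product']
  apply sum_nbij' (fun a => (a / L, a % L)) (fun x => x.1 * L + x.2)
  · intro a ha
    rw [mem_range] at ha
    rw [mem_product, mem_range, mem_range]
    exact ⟨Nat.div_lt_of_lt_mul (by rwa [mul_comm]), Nat.mod_lt _ (by omega)⟩
  · rintro ⟨D, a⟩ hx
    rw [mem_product, mem_range, mem_range] at hx
    rw [mem_range]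
    simp only at hx ⊢
    calc D * L + a < D * L + L := by omega
      _ = (D + 1) * L := by ring
      _ ≤ β * L := Nat.mul_le_mul_right _ hx.1
  · intro a _
    exact Nat.div_add_mod' a L
  · rintro ⟨D, a⟩ hx
    rw [mem_product, mem_range, mem_range] at hx
    simp only at hx ⊢
    have h1 : (D * L + a) / L = D := by
      rw [mul_comm, Nat.mul_add_div (by omega), Nat.div_eq_of_lt hx.2, add_zero]
    have h2 : (D * L + a) % L = a := by
      rw [mul_comm, Nat.mul_add_mod, Nat.mod_eq_of_lt hx.2]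
    rw [h1, h2]
  · intro a _
    rfl

/-- one digit -/
lemma one_digit (β : ℕ) (hβ : 1 ≤ β) (R : ℕ → Prop) [DecidablePred R] (ρ : ℝ)
    (hρ : ρ = ((range β).filter R).card / β) (θ : ℝ) :
    ∑ D ∈ range β, Real.exp (θ * ((if R D then 1 else 0) - ρ)) ≤ β * Real.exp (θ ^ 2 / 2) := by
  have hβR : (0 : ℝ) < β := by exact_mod_cast hβ
  have hcard : (((range β).filter R).card : ℝ) ≤ β := by
    have := card_filter_le (range β) R
    rw [card_range] at this
    exact_mod_cast this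
  have hρ0 : 0 ≤ ρ := by rw [hρ]; positivity
  have hρ1 : ρ ≤ 1 := by
    rw [hρ, div_le_one hβR]
    exact hcard
  have h1 : ∀ D ∈ range β, Real.exp (θ * ((if R D then 1 else 0) - ρ)) ≤
      (1 + ((if R D then 1 else 0) - ρ)) / 2 * Real.exp θ +
        (1 - ((if R D then 1 else 0) - ρ)) / 2 * Real.exp (-θ) := by
    intro D _
    set x : ℝ := (if R D then 1 else 0) - ρ with hx
    have hx1 : -1 ≤ x ∧ x ≤ 1 := by
      rw [hx]
      split_ifs
      · constructor <;> linarith
      · constructor <;> linarith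
    have h2 := convexOn_exp.2 (Set.mem_univ θ) (Set.mem_univ (-θ))
      (by linarith [hx1.1] : 0 ≤ (1 + x) / 2) (by linarith [hx1.2] : 0 ≤ (1 - x) / 2) (by ring)
    simp only [smul_eq_mul] at h2
    have e1 : (1 + x) / 2 * θ + (1 - x) / 2 * -θ = θ * x := by ring
    rw [e1] at h2
    exact h2
  refine (sum_le_sum h1).trans ?_
  have h2 : ∑ D ∈ range β, (((if R D then 1 else 0) : ℝ) - ρ) = 0 := by
    rw [sum_sub_distrib, sum_const, card_range, nsmul_eq_mul, hρ, sum_ite, sum_const_zero, add_zero,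
      sum_const, nsmul_eq_mul, mul_one]
    field_simp
    ring
  have h3 : ∑ D ∈ range β, ((1 + (((if R D then 1 else 0) : ℝ) - ρ)) / 2 * Real.exp θ +
        (1 - ((if R D then 1 else 0) - ρ)) / 2 * Real.exp (-θ)) = β * Real.cosh θ := by
    have e2 : ∀ D, ((1 + (((if R D then 1 else 0) : ℝ) - ρ)) / 2 * Real.exp θ +
        (1 - ((if R D then 1 else 0) - ρ)) / 2 * Real.exp (-θ)) =
        Real.cosh θ + (((if R D then 1 else 0) : ℝ) - ρ) * Real.sinh θ := by
      intro D
      rw [Real.cosh_eq, Real.sinh_eq]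
      ring
    simp_rw [e2]
    rw [sum_add_distrib, ← sum_mul, h2, sum_const, card_range, nsmul_eq_mul]
    ring
  rw [h3]
  exact mul_le_mul_of_nonneg_left (Real.cosh_le_exp_half_sq θ) hβR.le

/-- the exponential moments -/
lemma mgf (β : ℕ) (hβ : 1 ≤ β) (R : ℕ → Prop) [DecidablePred R] (ρ : ℝ)
    (hρ : ρ = ((range β).filter R).card / β) (θ : ℝ) (q : ℕ) :
    ∑ a ∈ range (β ^ q), Real.exp (θ * (cntR β R q a - ρ * q)) ≤
      (β : ℝ) ^ q * Real.exp (q * (θ ^ 2 / 2)) := by
  induction q with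
  | zero => simp [cntR]
  | succ q ih =>
    have h1 := sum_range_mul' β (β ^ q) (Nat.one_le_pow _ _ hβ)
      (fun D a => Real.exp (θ * ((if R D then 1 else 0) - ρ)) *
        Real.exp (θ * (cntR β R q a - ρ * q)))
    have h2 : ∑ a ∈ range (β ^ (q + 1)), Real.exp (θ * (cntR β R (q + 1) a - ρ * (q + 1 : ℕ))) =
        ∑ a ∈ range (β * β ^ q), Real.exp (θ * ((if R (a / β ^ q) then 1 else 0) - ρ)) *
        Real.exp (θ * (cntR β R q (a % β ^ q) - ρ * q)) := by
      rw [pow_succ, mul_comm (β ^ q)]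
      refine sum_congr rfl fun a _ => ?_
      rw [← Real.exp_add]
      congr 1
      simp only [cntR]
      push_cast
      ring
    rw [h2, h1]
    simp_rw [← mul_sum]
    rw [← sum_mul]
    have h3 := one_digit β hβ R ρ hρ θ
    have h4 : (0 : ℝ) ≤ ∑ a ∈ range (β ^ q), Real.exp (θ * (cntR β R q a - ρ * q)) :=
      sum_nonneg fun _ _ => (Real.exp_pos _).le
    calc (∑ D ∈ range β, Real.exp (θ * ((if R D then 1 else 0) - ρ))) *
        ∑ a ∈ range (β ^ q), Real.exp (θ * (cntR β R q a - ρ * q)) ≤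
        (β * Real.exp (θ ^ 2 / 2)) * ((β : ℝ) ^ q * Real.exp (q * (θ ^ 2 / 2))) := by
          gcongr
      _ = (β : ℝ) ^ (q + 1) * Real.exp ((q + 1 : ℕ) * (θ ^ 2 / 2)) := by
          have : Real.exp (((q + 1 : ℕ) : ℝ) * (θ ^ 2 / 2)) =
              Real.exp (θ ^ 2 / 2) * Real.exp (q * (θ ^ 2 / 2)) := by
            rw [← Real.exp_add]
            congr 1
            push_cast
            ring
          rw [this]
          ring

/-- the tails -/
lemma tails (β : ℕ) (hβ : 1 ≤ β) (R : ℕ → Prop) [DecidablePred R] (ρ : ℝ)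
    (hρ : ρ = ((range β).filter R).card / β) (t : ℝ) (ht : 0 ≤ t) (q : ℕ) (hq : 1 ≤ q) :
    (((range (β ^ q)).filter (fun a => t ≤ |(cntR β R q a : ℝ) - ρ * q|)).card : ℝ) ≤
      2 * (β : ℝ) ^ q * Real.exp (-(t ^ 2 / (2 * q))) := by
  classical
  have hqR : (0 : ℝ) < q := by exact_mod_cast hq
  have key : ∀ θ' : ℝ, (((range (β ^ q)).filter
      (fun a => t ^ 2 / q ≤ θ' * t / q * ((cntR β R q a : ℝ) - ρ * q))).card : ℝ) ≤
      (β : ℝ) ^ q * Real.exp (q * ((θ' * t / q) ^ 2 / 2) - t ^ 2 / q) := by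
    intro θ'
    have h1 := mgf β hβ R ρ hρ (θ' * t / q) q
    have h2 : (((range (β ^ q)).filter
        (fun a => t ^ 2 / q ≤ θ' * t / q * ((cntR β R q a : ℝ) - ρ * q))).card : ℝ) *
        Real.exp (t ^ 2 / q) ≤ (β : ℝ) ^ q * Real.exp (q * ((θ' * t / q) ^ 2 / 2)) := by
      refine le_trans ?_ h1
      rw [← nsmul_eq_mul, ← sum_const]
      refine (sum_le_sum (f := fun _ => Real.exp (t ^ 2 / q))
        (g := fun a => Real.exp (θ' * t / q * (cntR β R q a - ρ * q))) fun a ha => ?_).trans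
        (sum_le_sum_of_subset_of_nonneg (filter_subset _ _) fun _ _ _ => (Real.exp_pos _).le)
      exact Real.exp_le_exp.2 (mem_filter.1 ha).2
    rw [Real.exp_sub, mul_div_assoc', le_div_iff₀ (Real.exp_pos _)]
    exact h2
  have h1 := key 1
  have h2 := key (-1)
  have hsub : (range (β ^ q)).filter (fun a => t ≤ |(cntR β R q a : ℝ) - ρ * q|) ⊆
      (range (β ^ q)).filter (fun a => t ^ 2 / q ≤ 1 * t / q * ((cntR β R q a : ℝ) - ρ * q)) ∪
      (range (β ^ q)).filter (fun a => t ^ 2 / q ≤ -1 * t / q * ((cntR β R q a : ℝ) - ρ * q)) := by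
    intro a ha
    obtain ⟨h3, h4⟩ := mem_filter.1 ha
    rw [mem_union, mem_filter, mem_filter]
    rcases le_abs.1 h4 with h5 | h5
    · left
      refine ⟨h3, ?_⟩
      have : t ^ 2 / q = 1 * t / q * t := by ring
      rw [this]
      exact mul_le_mul_of_nonneg_left h5 (by positivity)
    · right
      refine ⟨h3, ?_⟩
      have e1 : -1 * t / q * ((cntR β R q a : ℝ) - ρ * q) =
          t / q * (-((cntR β R q a : ℝ) - ρ * q)) := by ring
      have e2 : t ^ 2 / q = t / q * t := by ring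
      rw [e1, e2]
      exact mul_le_mul_of_nonneg_left h5 (by positivity)
  have h3 : (((range (β ^ q)).filter (fun a => t ≤ |(cntR β R q a : ℝ) - ρ * q|)).card : ℝ) ≤
      (((range (β ^ q)).filter
        (fun a => t ^ 2 / q ≤ 1 * t / q * ((cntR β R q a : ℝ) - ρ * q))).card : ℝ) +
      (((range (β ^ q)).filter
        (fun a => t ^ 2 / q ≤ -1 * t / q * ((cntR β R q a : ℝ) - ρ * q))).card : ℝ) := by
    exact_mod_cast (card_le_card hsub).trans (card_union_le _ _)
  have e1 : (q : ℝ) * ((1 * t / q) ^ 2 / 2) - t ^ 2 / q = -(t ^ 2 / (2 * q)) := by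
    field_simp
    ring
  have e2 : (q : ℝ) * ((-1 * t / q) ^ 2 / 2) - t ^ 2 / q = -(t ^ 2 / (2 * q)) := by
    field_simp
    ring
  rw [e1] at h1
  rw [e2] at h2
  linarith

/-- the digits of the integral part -/
lemma cnt_real (β : ℕ) (hβ : 1 ≤ β) (R : ℕ → Prop) [DecidablePred R] (q : ℕ) : ∀ y : ℝ, 0 ≤ y → y < 1 →
    ((range q).filter (fun j => R ⌊(β : ℝ) * Int.fract ((β : ℝ) ^ j * y)⌋₊)).card =
      cntR β R q ⌊(β : ℝ) ^ q * y⌋₊ := by
  have hβR : (0 : ℝ) < β := by exact_mod_cast hβ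
  induction q with
  | zero => intro y _ _; simp [cntR]
  | succ q ih =>
    intro y hy0 hy1
    set T : ℝ := Int.fract ((β : ℝ) * y) with hT
    have hT0 : 0 ≤ T := Int.fract_nonneg _
    have hT1 : T < 1 := Int.fract_lt_one _
    set D : ℕ := ⌊(β : ℝ) * y⌋₊ with hD
    have hDT : (β : ℝ) * y = D + T := by
      have h1 := Int.floor_add_fract ((β : ℝ) * y)
      have h2 := natCast_floor_eq_intCast_floor (a := (β : ℝ) * y) (by positivity)
      rw [hD, hT, h2, h1]
    have hfl : ⌊(β : ℝ) ^ (q + 1) * y⌋₊ = β ^ q * D + ⌊(β : ℝ) ^ q * T⌋₊ := by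
      have e1 : (β : ℝ) ^ (q + 1) * y = ((β ^ q * D : ℕ) : ℝ) + (β : ℝ) ^ q * T := by
        push_cast
        rw [pow_succ, mul_assoc, hDT]
        ring
      rw [e1, add_comm, Nat.floor_add_natCast (by positivity), add_comm]
    have hlt : ⌊(β : ℝ) ^ q * T⌋₊ < β ^ q := by
      rw [Nat.floor_lt (by positivity)]
      push_cast
      calc (β : ℝ) ^ q * T < (β : ℝ) ^ q * 1 := by gcongr
        _ = _ := mul_one _
    have hβq : 0 < β ^ q := Nat.pow_pos (by omega)
    have h1 : ⌊(β : ℝ) ^ (q + 1) * y⌋₊ / β ^ q = D := by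
      rw [hfl, Nat.mul_add_div hβq, Nat.div_eq_of_lt hlt, add_zero]
    have h2 : ⌊(β : ℝ) ^ (q + 1) * y⌋₊ % β ^ q = ⌊(β : ℝ) ^ q * T⌋₊ := by
      rw [hfl, Nat.mul_add_mod, Nat.mod_eq_of_lt hlt]
    simp only [cntR]
    rw [h1, h2, ← ih T hT0 hT1, range_add_one', filter_insert, ]
    have h3 : Int.fract ((β : ℝ) ^ 0 * y) = y := by
      rw [pow_zero, one_mul, Int.fract_eq_self]
      exact ⟨hy0, hy1⟩
    have h4 : ∀ j : ℕ, Int.fract ((β : ℝ) ^ (j + 1) * y) = Int.fract ((β : ℝ) ^ j * T) := by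
      intro j
      have e2 : (β : ℝ) ^ (j + 1) * y = (β : ℝ) ^ j * T + ((β ^ j * D : ℕ) : ℤ) := by
        push_cast
        rw [pow_succ, mul_assoc, hDT]
        ring
      rw [e2, Int.fract_add_intCast]
    rw [h3, ← hD]
    have h5 : ((map ⟨fun i => i + 1, fun i j => by simp⟩ (range q)).filter
        (fun j => R ⌊(β : ℝ) * Int.fract ((β : ℝ) ^ j * y)⌋₊)).card =
        ((range q).filter (fun j => R ⌊(β : ℝ) * Int.fract ((β : ℝ) ^ j * T)⌋₊)).card := by
      rw [filter_map, card_map]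
      congr 1
      apply filter_congr
      intro j _
      change R ⌊(β : ℝ) * Int.fract ((β : ℝ) ^ (j + 1) * y)⌋₊ ↔ _
      rw [h4]
    split_ifs with h
    · rw [card_insert_of_notMem, h5, add_comm]
      intro hmem
      have := (mem_filter.1 hmem).1
      simp at this
    · rw [h5, zero_add]

end Pool.Agent.J6H30.PV
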