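import Pool.Agent.J6H30.PV.GBlock

/-!
# The criterion with sub-Gaussian exceptional sets
-/

set_option autoImplicit false

namespace Pool.Agent.J6H30.PV

open Finset Filter Topology
open Pool.Agent.H469R2.NK (e norm_e e_add e_zero conj_e)

/-- discrepancy at most `E √n` in all windows -/
def GoodG (B N : ℕ) (E z : ℝ) : Prop :=
  ∀ b : ℕ, 2 ≤ b → b ≤ B → ∀ s : ℕ, s ≤ N → ∀ n : ℕ, n ≤ N → ∀ α β : ℝ, 0 ≤ α → α < β → β ≤ 1 →
    |(((Icc 1 n).filter (fun i : ℕ => α ≤ Int.fract (z * (b : ℝ) ^ (s + i)) ∧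
      Int.fract (z * (b : ℝ) ^ (s + i)) < β)).card : ℝ) - (β - α) * n| ≤ E * Real.sqrt n

/-- the density of an interval of words -/
noncomputable def dens (β A A' : ℕ) : ℝ := (((range β).filter (fun D => A ≤ D ∧ D < A')).card : ℝ) / β

lemma dens_eq (β A A' : ℕ) (h : A' ≤ β) : dens β A A' = ((A' - A : ℕ) : ℝ) / β := by
  unfold dens
  congr 2
  have : (range β).filter (fun D => A ≤ D ∧ D < A') = Ico A A' := by
    ext D
    rw [mem_filter, mem_range, mem_Ico]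
    constructor
    · exact fun h => h.2
    · intro h'
      exact ⟨by omega, h'⟩
  rw [this, Nat.card_Ico]

lemma cast_card_filter {ι : Type*} (S : Finset ι) (P : ι → Prop) [DecidablePred P] :
    ((S.filter P).card : ℝ) = ∑ i ∈ S, (if P i then (1 : ℝ) else 0) := by
  rw [card_filter, Nat.cast_sum]
  refine sum_congr rfl fun i _ => ?_
  split_ifs <;> simp

/-- windows of words -/
lemma window_words (z : ℝ) (b w q₀ k₀ N : ℕ) (hw : 1 ≤ w) (μ : ℝ) (hμ : 0 ≤ μ)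
    (A A' : ℕ)
    (h : ∀ p q : ℕ, p ≤ 4 * N → 1 ≤ q → q ≤ q₀ → |(((range q).filter
      (fun j => A ≤ ⌊((b ^ w : ℕ) : ℝ) * Int.fract (((b ^ w : ℕ) : ℝ) ^ j * (z * (b : ℝ) ^ p))⌋₊ ∧
        ⌊((b ^ w : ℕ) : ℝ) * Int.fract (((b ^ w : ℕ) : ℝ) ^ j * (z * (b : ℝ) ^ p))⌋₊ < A')).card : ℝ) -
          dens (b ^ w) A A' * q| ≤ μ * Real.sqrt q)
    (hk : N + w ≤ w * (k₀ * q₀)) (hN : 2 * N + 2 * w + 1 ≤ 4 * N)
    (s n : ℕ) (hs : s ≤ N) (hn : n ≤ N) :
    |(((Icc 1 n).filter (fun i => A ≤ ⌊((b ^ w : ℕ) : ℝ) * Int.fract (z * (b : ℝ) ^ (s + i))⌋₊ ∧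
      ⌊((b ^ w : ℕ) : ℝ) * Int.fract (z * (b : ℝ) ^ (s + i))⌋₊ < A')).card : ℝ) -
        dens (b ^ w) A A' * n| ≤ w * (k₀ * μ * Real.sqrt n) := by
  classical
  rcases Nat.eq_zero_or_pos n with h0 | h0
  · subst h0
    simp
  set ρ : ℝ := dens (b ^ w) A A' with hρ
  set R : ℕ → Prop := fun i => A ≤ ⌊((b ^ w : ℕ) : ℝ) * Int.fract (z * (b : ℝ) ^ i)⌋₊ ∧
    ⌊((b ^ w : ℕ) : ℝ) * Int.fract (z * (b : ℝ) ^ i)⌋₊ < A' with hR
  set G : ℕ → ℝ := fun i => (if R i then 1 else 0) - ρ with hG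
  have hch : ∀ p q : ℕ, p ≤ 4 * N → 1 ≤ q → q ≤ q₀ →
      |∑ j ∈ range q, G (p + w * j)| ≤ μ * Real.sqrt q := by
    intro p q hp hq hqq
    have h1 := h p q hp hq hqq
    have e1 : ∀ j : ℕ, ((b ^ w : ℕ) : ℝ) ^ j * (z * (b : ℝ) ^ p) = z * (b : ℝ) ^ (p + w * j) := by
      intro j
      push_cast
      rw [← pow_mul, pow_add]
      ring
    simp_rw [e1] at h1
    refine le_trans (le_of_eq ?_) h1
    congr 1
    rw [hG]
    simp only
    rw [sum_sub_distrib, sum_const, card_range, nsmul_eq_mul, cast_card_filter]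
    rw [mul_comm (q : ℝ)]
  have hlong := chunks G w q₀ (4 * N) μ hμ hch k₀
  have h1 : (((Icc 1 n).filter (fun i => A ≤ ⌊((b ^ w : ℕ) : ℝ) * Int.fract (z * (b : ℝ) ^ (s + i))⌋₊ ∧
      ⌊((b ^ w : ℕ) : ℝ) * Int.fract (z * (b : ℝ) ^ (s + i))⌋₊ < A')).card : ℝ) - ρ * n =
      ∑ i ∈ range n, G (s + 1 + i) := by
    rw [hG]
    simp only
    rw [sum_sub_distrib, sum_const, card_range, nsmul_eq_mul, cast_card_filter]
    rw [mul_comm (n : ℝ)]
    congr 1
    have e2 : Icc 1 n = (range n).image (fun i => 1 + i) := by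
      ext i
      rw [mem_Icc, mem_image]
      constructor
      · intro hi
        exact ⟨i - 1, mem_range.2 (by omega), by omega⟩
      · rintro ⟨j, hj, rfl⟩
        rw [mem_range] at hj
        omega
    rw [e2, sum_image (fun i _ j _ hij => by simpa using hij)]
    refine sum_congr rfl fun i _ => ?_
    have e3 : s + (1 + i) = s + 1 + i := by ring
    rw [e3]
  rw [h1, sum_classes n w hw (fun i => G (s + 1 + i))]
  have h2 : ∀ r ∈ range w, |∑ j ∈ range ((n + w - 1 - r) / w), G (s + 1 + (r + w * j))| ≤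
      k₀ * μ * Real.sqrt n := by
    intro r hr
    rw [mem_range] at hr
    set Q := (n + w - 1 - r) / w with hQ
    have hwQ : w * Q ≤ n + w - 1 - r := Nat.mul_div_le _ _
    have hQ1 : Q ≤ k₀ * q₀ := by
      by_contra hcon
      push Not at hcon
      have h3 : w * (k₀ * q₀) + w ≤ w * Q := by
        have : w * (k₀ * q₀) + w = w * (k₀ * q₀ + 1) := by ring
        rw [this]
        exact Nat.mul_le_mul_left _ hcon
      omega
    have h3 := hlong Q (s + 1 + r) hQ1 (by omega)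
    have e3 : ∀ j, s + 1 + (r + w * j) = s + 1 + r + w * j := fun j => by ring
    simp_rw [e3]
    refine h3.trans ?_
    apply mul_le_mul_of_nonneg_left _ (by positivity)
    apply Real.sqrt_le_sqrt
    have h4 : Q ≤ n := by
      by_contra hcon
      push Not at hcon
      have h5 : w * (n + 1) ≤ w * Q := Nat.mul_le_mul_left _ hcon
      have h6 : w * (n + 1) = w * n + w := by ring
      have h7 : n ≤ w * n := Nat.le_mul_of_pos_left n hw
      omega
    exact_mod_cast h4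
  refine (abs_sum_le_sum_abs _ _).trans ((sum_le_sum h2).trans (le_of_eq ?_))
  rw [sum_const, card_range, nsmul_eq_mul]

/-- from words to intervals -/
lemma words_to_interval (z : ℝ) (b w N : ℕ) (β : ℕ) (hβ : β = b ^ w) (hβN : N ≤ β) (hN : 1 ≤ N)
    (s n : ℕ) (hn : n ≤ N) (V : ℝ)
    (h : ∀ A A' : ℕ, A' ≤ β → |(((Icc 1 n).filter
      (fun i => A ≤ ⌊(β : ℝ) * Int.fract (z * (b : ℝ) ^ (s + i))⌋₊ ∧
        ⌊(β : ℝ) * Int.fract (z * (b : ℝ) ^ (s + i))⌋₊ < A')).card : ℝ) - dens β A A' * n| ≤ V)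
    (α α' : ℝ) (h0 : 0 ≤ α) (h1 : α < α') (h2 : α' ≤ 1) :
    |(((Icc 1 n).filter (fun i : ℕ => α ≤ Int.fract (z * (b : ℝ) ^ (s + i)) ∧
      Int.fract (z * (b : ℝ) ^ (s + i)) < α')).card : ℝ) - (α' - α) * n| ≤ V + 2 := by
  have hβR : (0 : ℝ) < β := by
    have : 0 < β := by omega
    exact_mod_cast this
  have hnβ : (n : ℝ) / β ≤ 1 := by
    rw [div_le_one hβR]
    exact_mod_cast hn.trans hβN
  have hn0 : (0 : ℝ) ≤ n := Nat.cast_nonneg _
  have hα'0 : 0 ≤ α' := by linarith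
  rw [abs_le]
  constructor
  · -- lower bound by the inner interval
    set A := ⌈α * β⌉₊ with hA
    set A' := ⌊α' * β⌋₊ with hA'
    have hA'β : A' ≤ β := by
      have : (A' : ℝ) ≤ β := (Nat.floor_le (by positivity)).trans (by nlinarith)
      exact_mod_cast this
    have h3 := (abs_le.1 (h A A' hA'β)).1
    have h4 : (((Icc 1 n).filter (fun i => A ≤ ⌊(β : ℝ) * Int.fract (z * (b : ℝ) ^ (s + i))⌋₊ ∧
        ⌊(β : ℝ) * Int.fract (z * (b : ℝ) ^ (s + i))⌋₊ < A')).card : ℝ) ≤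
        (((Icc 1 n).filter (fun i : ℕ => α ≤ Int.fract (z * (b : ℝ) ^ (s + i)) ∧
          Int.fract (z * (b : ℝ) ^ (s + i)) < α')).card : ℝ) := by
      refine Nat.cast_le.2 (card_le_card ?_)
      intro i hi
      obtain ⟨h5, h6, h7⟩ := mem_filter.1 hi
      rw [mem_filter]
      set y := Int.fract (z * (b : ℝ) ^ (s + i)) with hy
      have hy0 : 0 ≤ y := Int.fract_nonneg _
      refine ⟨h5, ?_, ?_⟩
      · have h8 : (A : ℝ) ≤ β * y := (Nat.cast_le.2 h6).trans (Nat.floor_le (by positivity))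
        have h9 : α * β ≤ β * y := (Nat.le_ceil _).trans h8
        rw [mul_comm] at h9
        exact le_of_mul_le_mul_left h9 hβR
      · have h8 : (β : ℝ) * y < ⌊(β : ℝ) * y⌋₊ + 1 := Nat.lt_floor_add_one _
        have h9 : ((⌊(β : ℝ) * y⌋₊ : ℕ) : ℝ) + 1 ≤ A' := by exact_mod_cast h7
        have h10 : (A' : ℝ) ≤ α' * β := Nat.floor_le (by positivity)
        have h11 : (β : ℝ) * y < β * α' := by linarith
        exact lt_of_mul_lt_mul_left h11 hβR.le
    have h5 : (α' - α) - 2 / β ≤ dens β A A' := by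
      rw [dens_eq β A A' hA'β, le_div_iff₀ hβR]
      have h6 : ((A' : ℝ) - A) ≤ ((A' - A : ℕ) : ℝ) := by
        have h7 : A' ≤ (A' - A) + A := by omega
        have h8 : (A' : ℝ) ≤ ((A' - A : ℕ) : ℝ) + A := by exact_mod_cast h7
        linarith
      have h7 : (A : ℝ) ≤ α * β + 1 := (Nat.ceil_lt_add_one (by positivity)).le
      have h8 : α' * β - 1 ≤ A' := (Nat.sub_one_lt_floor _).le
      have e1 : ((α' - α) - 2 / β) * β = α' * β - α * β - 2 := by field_simp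
      rw [e1]
      linarith
    have h6 : ((α' - α) - 2 / β) * n ≤ dens β A A' * n := mul_le_mul_of_nonneg_right h5 hn0
    have e2 : ((α' - α) - 2 / β) * n = (α' - α) * n - 2 * (n / β) := by ring
    rw [e2] at h6
    linarith
  · -- upper bound by the outer interval
    set A := ⌊α * β⌋₊ with hA
    set A' := ⌈α' * β⌉₊ with hA'
    have hA'β : A' ≤ β := by
      rw [hA']
      apply Nat.ceil_le.2
      nlinarith
    have h3 := (abs_le.1 (h A A' hA'β)).2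
    have h4 : (((Icc 1 n).filter (fun i : ℕ => α ≤ Int.fract (z * (b : ℝ) ^ (s + i)) ∧
          Int.fract (z * (b : ℝ) ^ (s + i)) < α')).card : ℝ) ≤
        (((Icc 1 n).filter (fun i => A ≤ ⌊(β : ℝ) * Int.fract (z * (b : ℝ) ^ (s + i))⌋₊ ∧
        ⌊(β : ℝ) * Int.fract (z * (b : ℝ) ^ (s + i))⌋₊ < A')).card : ℝ) := by
      refine Nat.cast_le.2 (card_le_card ?_)
      intro i hi
      obtain ⟨h5, h6, h7⟩ := mem_filter.1 hi
      rw [mem_filter]
      set y := Int.fract (z * (b : ℝ) ^ (s + i)) with hy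
      have hy0 : 0 ≤ y := Int.fract_nonneg _
      refine ⟨h5, ?_, ?_⟩
      · apply Nat.floor_le_floor
        rw [mul_comm]
        exact mul_le_mul_of_nonneg_left h6 hβR.le
      · rw [Nat.floor_lt (by positivity)]
        refine lt_of_lt_of_le ?_ (Nat.le_ceil _)
        rw [mul_comm]
        exact mul_lt_mul_of_pos_right h7 hβR
    have h5 : dens β A A' ≤ (α' - α) + 2 / β := by
      rw [dens_eq β A A' hA'β, div_le_iff₀ hβR]
      have hAA' : A ≤ A' := by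
        have h6 : (A : ℝ) ≤ A' := by
          calc (A : ℝ) ≤ α * β := Nat.floor_le (by positivity)
            _ ≤ α' * β := by gcongr
            _ ≤ A' := Nat.le_ceil _
        exact_mod_cast h6
      rw [Nat.cast_sub hAA']
      have h7 : (A' : ℝ) ≤ α' * β + 1 := (Nat.ceil_lt_add_one (by positivity)).le
      have h8 : α * β - 1 ≤ A := (Nat.sub_one_lt_floor _).le
      have e1 : ((α' - α) + 2 / β) * β = α' * β - α * β + 2 := by field_simp
      rw [e1]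
      linarith
    have h6 : dens β A A' * n ≤ ((α' - α) + 2 / β) * n := mul_le_mul_of_nonneg_right h5 hn0
    have e2 : ((α' - α) + 2 / β) * n = (α' - α) * n + 2 * (n / β) := by ring
    rw [e2] at h6
    linarith

/-- a large deviation in a block -/
def Dev (z : ℝ) (b w p q A A' : ℕ) (μ : ℝ) : Prop :=
  μ * Real.sqrt q ≤ |(((range q).filter
      (fun j => A ≤ ⌊((b ^ w : ℕ) : ℝ) * Int.fract (((b ^ w : ℕ) : ℝ) ^ j * (z * (b : ℝ) ^ p))⌋₊ ∧
        ⌊((b ^ w : ℕ) : ℝ) * Int.fract (((b ^ w : ℕ) : ℝ) ^ j * (z * (b : ℝ) ^ p))⌋₊ < A')).card : ℝ) -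
          dens (b ^ w) A A' * q|

/-- **The criterion**: small exponential sums give sub-Gaussian tails for the discrepancy -/
theorem criterionG (B : ℕ) (κ : ℝ) (hκ : 0 < κ) : ∃ N₀ : ℕ, ∀ N : ℕ, N₀ ≤ N →
    ∀ (ι : Type) (Ω : Finset ι) (z : ι → ℝ),
    (∀ b : ℕ, 2 ≤ b → b ≤ B → ∀ p : ℕ, p ≤ 4 * N → ∀ h : ℕ, 1 ≤ h → (h : ℝ) ≤ Real.exp (κ * N) →
      ‖∑ ω ∈ Ω, e (h * (z ω * (b : ℝ) ^ p))‖ ≤ Real.exp (-(κ * N)) * Ω.card) →
    ∀ lam : ℝ, 1 ≤ lam →
      ({ω | ω ∈ Ω ∧ ¬ GoodG B N (lam * (Real.log N) ^ 3) (z ω)}.ncard : ℝ) ≤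
        Real.exp (-(lam ^ 2)) * Ω.card := by
  classical
  obtain ⟨N1, hblock⟩ := block_unif κ hκ
  have hB0 : (0 : ℝ) ≤ B := Nat.cast_nonneg _
  set LB : ℝ := Real.log (B + 2) with hLB
  have hLB0 : 0 < LB := Real.log_pos (by linarith)
  set κ₁ : ℝ := min 1 (κ / (4 * LB)) with hκ₁
  have hκ₁0 : 0 < κ₁ := lt_min one_pos (by positivity)
  have hκ₁1 : κ₁ ≤ 1 := min_le_left _ _
  have hκ₁2 : κ₁ * LB ≤ κ / 4 := by
    have : κ₁ ≤ κ / (4 * LB) := min_le_right _ _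
    rw [le_div_iff₀ (by positivity)] at this
    linarith
  set k₀ : ℕ := ⌈4 / κ₁⌉₊ with hk₀
  have hk₀1 : 4 ≤ k₀ * κ₁ := by
    have := Nat.le_ceil (4 / κ₁)
    rw [div_le_iff₀ hκ₁0] at this
    exact this
  have hlogt : Tendsto (fun N : ℕ => Real.log N) atTop atTop :=
    Real.tendsto_log_atTop.comp tendsto_natCast_atTop_atTop
  obtain ⟨N2, hN2⟩ := eventually_atTop.1 (((hlogt.eventually_ge_atTop 16).and
    (hlogt.eventually_ge_atTop (2 * k₀ + 1))).and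
      ((hlogt.eventually_ge_atTop (Real.log (20 * (B + 1) ^ 3) + 1)).and
        ((pow_le_exp 1 1 (κ₁ / 8) (by positivity)).and (eventually_ge_atTop 2))))
  refine ⟨max N1 N2, fun N hN ι Ω z hsum lam hlam => ?_⟩
  have hNa : N1 ≤ N := (le_max_left _ _).trans hN
  obtain ⟨⟨hℓ16, hℓk⟩, hℓB, hexp, hN2'⟩ := hN2 N ((le_max_right _ _).trans hN)
  rw [one_mul, pow_one] at hexp
  have hNR : (2 : ℝ) ≤ N := by exact_mod_cast hN2'
  have hN0 : (0 : ℝ) < N := by linarith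
  set ℓ : ℝ := Real.log N with hℓ
  have hexpℓ : Real.exp ℓ = N := Real.exp_log hN0
  have hℓN : ℓ ≤ κ₁ / 8 * N := by
    rw [hℓ, Real.log_le_iff_le_exp hN0]
    exact hexp
  have hℓ0 : 0 < ℓ := by linarith
  set μ : ℝ := lam * ℓ with hμ
  have hμ0 : 0 ≤ μ := by positivity
  set M : ℝ := (Ω.card : ℝ) with hM
  have hM0 : 0 ≤ M := Nat.cast_nonneg _
  set Q1 : ℕ := ⌊κ₁ * N⌋₊ with hQ1
  have hQ1le : (Q1 : ℝ) ≤ κ₁ * N := Nat.floor_le (by positivity)
  have hQ1gt : κ₁ * N < Q1 + 1 := Nat.lt_floor_add_one _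
  have hQ1N : Q1 ≤ N := by
    have : (Q1 : ℝ) ≤ N := hQ1le.trans (by nlinarith)
    exact_mod_cast this
  -- the word lengths
  have hw : ∀ b : ℕ, 2 ≤ b → b ≤ B → 1 ≤ Nat.clog b N ∧ N ≤ b ^ Nat.clog b N ∧
      ((Nat.clog b N : ℕ) : ℝ) ≤ 2 * ℓ ∧ b ^ Nat.clog b N ≤ B * N := by
    intro b hb hbB
    have h1 : 1 ≤ Nat.clog b N := Nat.clog_pos (by omega) hN2'
    have h2 : b ^ (Nat.clog b N - 1) < N := Nat.pow_pred_clog_lt_self (by omega) (by omega)
    obtain ⟨w', hw'⟩ : ∃ w', Nat.clog b N = w' + 1 := ⟨Nat.clog b N - 1, by omega⟩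
    refine ⟨h1, Nat.le_pow_clog (by omega) N, ?_, ?_⟩
    · rw [hw'] at h2 ⊢
      rw [Nat.add_sub_cancel] at h2
      have h3 : 2 ^ w' < N := lt_of_le_of_lt (Nat.pow_le_pow_left hb w') h2
      have h4 : (2 : ℝ) ^ w' < N := by exact_mod_cast h3
      have h5 : w' * Real.log 2 < ℓ := by
        rw [hℓ, ← Real.log_pow]
        exact Real.log_lt_log (by positivity) h4
      have h6 := Real.log_two_gt_d9
      push_cast
      nlinarith [(Nat.cast_nonneg w' : (0 : ℝ) ≤ w')]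
    · rw [hw'] at h2 ⊢
      rw [Nat.add_sub_cancel] at h2
      rw [pow_succ, mul_comm]
      exact Nat.mul_le_mul hbB h2.le
  -- the exceptional sets
  set P : ℕ × ℕ × ℕ × ℕ × ℕ → ι → Prop := fun y ω =>
    Dev (z ω) y.1 (Nat.clog y.1 N) y.2.1 y.2.2.1 y.2.2.2.1 y.2.2.2.2 μ with hP
  set I : Finset (ℕ × ℕ × ℕ × ℕ × ℕ) := ((Icc 2 B) ×ˢ (range (4 * N + 1)) ×ˢ (Icc 1 N) ×ˢ
    (range (B * N + 1)) ×ˢ (range (B * N + 1))).filter
      (fun y => Nat.clog y.1 N * y.2.2.1 ≤ Q1) with hI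
  have hE : ∀ y ∈ I, ((Ω.filter (P y)).card : ℝ) ≤ 4 * M * Real.exp (-(μ ^ 2 / 2)) := by
    rintro ⟨b, p, q, A, A'⟩ hy
    rw [hI, mem_filter] at hy
    simp only [mem_product, mem_Icc, mem_range] at hy
    obtain ⟨⟨⟨hb, hbB⟩, hp, ⟨hq1, hq⟩, hA, hA'⟩, hwq⟩ := hy
    obtain ⟨hw1, hw2, hw3, hw4⟩ := hw b hb hbB
    set w := Nat.clog b N with hwdef
    have hβ1 : 1 ≤ b ^ w := Nat.one_le_pow _ _ (by omega)
    have hL : (((b ^ w) ^ q : ℕ) : ℝ) ≤ Real.exp (κ / 4 * N) := by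
      rw [← pow_mul]
      push_cast
      have hb2 : (b : ℝ) ≤ (B : ℝ) + 2 := by
        have : (b : ℝ) ≤ B := by exact_mod_cast hbB
        linarith
      calc (b : ℝ) ^ (w * q) ≤ ((B : ℝ) + 2) ^ (w * q) := by gcongr
        _ ≤ ((B : ℝ) + 2) ^ Q1 := pow_le_pow_right₀ (by linarith) hwq
        _ = Real.exp (Q1 * LB) := by
          rw [Real.exp_nat_mul, hLB, Real.exp_log (by linarith)]
        _ ≤ Real.exp (κ / 4 * N) := by
          apply Real.exp_le_exp.2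
          calc (Q1 : ℝ) * LB ≤ (κ₁ * N) * LB := by gcongr
            _ = κ₁ * LB * N := by ring
            _ ≤ κ / 4 * N := by gcongr
    have hu := hblock N hNa ι Ω (fun ω => z ω * (b : ℝ) ^ p) (hsum b hb hbB p (by omega))
      ((b ^ w) ^ q) (Nat.one_le_pow _ _ hβ1) hL
    have h1 := block_dev Ω (fun ω => z ω * (b : ℝ) ^ p) (b ^ w) hβ1 q hq1 hu
      (fun D => A ≤ D ∧ D < A') (dens (b ^ w) A A') rfl (μ * Real.sqrt q) (by positivity)
    have hqR : (0 : ℝ) < q := by exact_mod_cast hq1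
    have h2 : (μ * Real.sqrt q) ^ 2 / (2 * q) = μ ^ 2 / 2 := by
      rw [mul_pow, Real.sq_sqrt hqR.le]
      field_simp
    rw [h2] at h1
    exact h1
  have hIcard : (I.card : ℝ) ≤ 5 * (B + 1) ^ 3 * N ^ 4 := by
    have h1 : I.card ≤ B * ((4 * N + 1) * (N * ((B * N + 1) * (B * N + 1)))) := by
      refine (card_filter_le _ _).trans ?_
      rw [card_product, card_product, card_product, card_product, card_range, card_range,
        Nat.card_Icc, Nat.card_Icc]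
      apply Nat.mul_le_mul (by omega)
      apply Nat.mul_le_mul_left
      apply Nat.mul_le_mul (by omega) le_rfl
    have h2 : (I.card : ℝ) ≤ B * ((4 * N + 1) * (N * ((B * N + 1) * (B * N + 1)))) := by
      exact_mod_cast h1
    refine h2.trans ?_
    have h3 : (B : ℝ) * N + 1 ≤ (B + 1) * N := by nlinarith
    have h4 : 4 * (N : ℝ) + 1 ≤ 5 * N := by linarith
    calc (B : ℝ) * ((4 * N + 1) * (N * ((B * N + 1) * (B * N + 1)))) ≤
        (B + 1) * ((5 * N) * (N * (((B + 1) * N) * ((B + 1) * N)))) := by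
          gcongr
          linarith
      _ = _ := by ring
  -- the points outside
  have hgood : ∀ ω ∈ Ω, (∀ y ∈ I, ¬ P y ω) → GoodG B N (lam * ℓ ^ 3) (z ω) := by
    intro ω _ hω b hb hbB s hs n hn α α' hα hαα' hα'
    obtain ⟨hw1, hw2, hw3, hw4⟩ := hw b hb hbB
    set w := Nat.clog b N with hwdef
    rcases Nat.eq_zero_or_pos n with h0 | h0
    · subst h0
      simp
    have hn1 : 1 ≤ Real.sqrt n := by
      rw [Real.one_le_sqrt]
      exact_mod_cast h0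
    have hwR : (w : ℝ) ≤ κ₁ / 4 * N := by linarith
    have hwR' : (1 : ℝ) ≤ w := by exact_mod_cast hw1
    have hq₀ : N + w ≤ w * (k₀ * (Q1 / w)) := by
      have h1 : Q1 < w * (Q1 / w) + w := by
        have h2 := Nat.div_add_mod Q1 w
        have h3 := Nat.mod_lt Q1 (show 0 < w by omega)
        omega
      have h2 : (Q1 : ℝ) + 1 ≤ w * ((Q1 / w : ℕ) : ℝ) + w := by exact_mod_cast h1
      have h3 : κ₁ * N / 2 ≤ w * ((Q1 / w : ℕ) : ℝ) := by nlinarith
      have h4 : (N : ℝ) + w ≤ w * (k₀ * ((Q1 / w : ℕ) : ℝ)) := by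
        have h5 : 2 * (N : ℝ) ≤ k₀ * (κ₁ * N / 2) := by nlinarith
        have h6 : (w : ℝ) ≤ N := by nlinarith
        calc (N : ℝ) + w ≤ 2 * N := by linarith
          _ ≤ k₀ * (κ₁ * N / 2) := h5
          _ ≤ k₀ * (w * ((Q1 / w : ℕ) : ℝ)) := by gcongr
          _ = _ := by ring
      exact_mod_cast h4
    have hN4 : 2 * N + 2 * w + 1 ≤ 4 * N := by
      have h6 : (w : ℝ) ≤ N / 4 := by nlinarith
      have h7 : 2 * (N : ℝ) + 2 * w + 1 ≤ 4 * N := by linarith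
      exact_mod_cast h7
    have hQ1w : Q1 / w ≤ N := (Nat.div_le_self _ _).trans hQ1N
    have hwords : ∀ A A' : ℕ, A' ≤ b ^ w → |(((Icc 1 n).filter
        (fun i => A ≤ ⌊((b ^ w : ℕ) : ℝ) * Int.fract (z ω * (b : ℝ) ^ (s + i))⌋₊ ∧
        ⌊((b ^ w : ℕ) : ℝ) * Int.fract (z ω * (b : ℝ) ^ (s + i))⌋₊ < A')).card : ℝ) -
          dens (b ^ w) A A' * n| ≤ w * (k₀ * μ * Real.sqrt n) := by
      intro A A' hA'
      rcases le_or_gt A (B * N) with hA | hA
      · refine window_words (z ω) b w (Q1 / w) k₀ N hw1 μ hμ0 A A' ?_ hq₀ hN4 s n hs hn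
        intro p q hp hq1 hq
        have h1 := hω (b, p, q, A, A') (by
          rw [hI, mem_filter]
          simp only [mem_product, mem_Icc, mem_range]
          refine ⟨⟨⟨hb, hbB⟩, by omega, ⟨hq1, by omega⟩, by omega, by omega⟩, ?_⟩
          rw [← hwdef]
          exact (Nat.mul_le_mul_left _ hq).trans (Nat.mul_div_le _ _))
        rw [hP] at h1
        simp only [Dev] at h1
        push Not at h1
        exact h1.le
      · -- empty range
        have h1 : dens (b ^ w) A A' = 0 := by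
          rw [dens_eq _ _ _ hA', Nat.sub_eq_zero_of_le (by omega)]
          simp
        have h2 : (Icc 1 n).filter
          (fun i => A ≤ ⌊((b ^ w : ℕ) : ℝ) * Int.fract (z ω * (b : ℝ) ^ (s + i))⌋₊ ∧
          ⌊((b ^ w : ℕ) : ℝ) * Int.fract (z ω * (b : ℝ) ^ (s + i))⌋₊ < A') = ∅ := by
          apply filter_eq_empty_iff.2
          intro i _
          omega
        rw [h1, h2]
        simp only [card_empty, Nat.cast_zero, zero_mul, sub_zero, abs_zero]
        positivity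
    have h1 := words_to_interval (z ω) b w N (b ^ w) rfl hw2 (by omega) s n hn
      (w * (k₀ * μ * Real.sqrt n)) hwords α α' hα hαα' hα'
    refine h1.trans ?_
    have h2 : (w : ℝ) * (k₀ * μ * Real.sqrt n) ≤ (2 * ℓ) * (k₀ * μ * Real.sqrt n) := by gcongr
    have h3 : 2 * (k₀ : ℝ) * ℓ ^ 2 + 2 ≤ ℓ ^ 3 := by
      have h4 : (2 * (k₀ : ℝ) + 1) * ℓ ^ 2 ≤ ℓ * ℓ ^ 2 := by gcongr
      nlinarith
    have h4 : (w : ℝ) * (k₀ * μ * Real.sqrt n) + 2 ≤ lam * (2 * k₀ * ℓ ^ 2 + 2) * Real.sqrt n := by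
      have h5 : 2 ≤ 2 * lam * Real.sqrt n := by nlinarith
      have e1 : lam * (2 * k₀ * ℓ ^ 2 + 2) * Real.sqrt n =
          (2 * ℓ) * (k₀ * μ * Real.sqrt n) + 2 * lam * Real.sqrt n := by
        rw [hμ]
        ring
      rw [e1]
      linarith
    refine h4.trans ?_
    gcongr
  have hsub : {ω | ω ∈ Ω ∧ ¬ GoodG B N (lam * ℓ ^ 3) (z ω)} ⊆
      ((I.biUnion (fun y => Ω.filter (P y)) : Finset ι) : Set ι) := by
    rintro ω ⟨h1, h2⟩
    rw [mem_coe, mem_biUnion]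
    by_contra hcon
    push Not at hcon
    exact h2 (hgood ω h1 fun y hy hPy => hcon y hy (mem_filter.2 ⟨h1, hPy⟩))
  have h1 : ({ω | ω ∈ Ω ∧ ¬ GoodG B N (lam * ℓ ^ 3) (z ω)}.ncard : ℝ) ≤
      ∑ y ∈ I, ((Ω.filter (P y)).card : ℝ) := by
    have h2 := Set.ncard_le_ncard hsub (finite_toSet _)
    rw [Set.ncard_coe_finset] at h2
    exact_mod_cast h2.trans card_biUnion_le
  refine h1.trans ((sum_le_sum hE).trans ?_)
  rw [sum_const, nsmul_eq_mul]
  have h2 : 20 * ((B : ℝ) + 1) ^ 3 * N ^ 4 * Real.exp (-(μ ^ 2 / 2)) ≤ Real.exp (-(lam ^ 2)) := by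
    have h3 : 20 * ((B : ℝ) + 1) ^ 3 = Real.exp (Real.log (20 * (B + 1) ^ 3)) := by
      rw [Real.exp_log (by positivity)]
    have h4 : (N : ℝ) ^ 4 = Real.exp (4 * ℓ) := by
      rw [← hexpℓ, ← Real.exp_nat_mul]
      norm_num
    rw [h3, h4, ← Real.exp_add, ← Real.exp_add]
    apply Real.exp_le_exp.2
    have h5 : lam ^ 2 * (ℓ ^ 2 / 2 - 1) ≥ 1 * (ℓ ^ 2 / 2 - 1) := by
      apply mul_le_mul_of_nonneg_right _ (by nlinarith)
      nlinarith
    have h6 : μ ^ 2 / 2 = lam ^ 2 * (ℓ ^ 2 / 2 - 1) + lam ^ 2 := by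
      rw [hμ]
      ring
    rw [h6]
    nlinarith
  calc (I.card : ℝ) * (4 * M * Real.exp (-(μ ^ 2 / 2))) ≤
      (5 * (B + 1) ^ 3 * N ^ 4) * (4 * M * Real.exp (-(μ ^ 2 / 2))) := by gcongr
    _ = 20 * ((B : ℝ) + 1) ^ 3 * N ^ 4 * Real.exp (-(μ ^ 2 / 2)) * M := by ring
    _ ≤ Real.exp (-(lam ^ 2)) * M := by gcongr

end Pool.Agent.J6H30.PV
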