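import Pool.Agent.J6H30.PV.Rough

/-!
# Exponential sums with rough coefficients: the numerical form
-/

set_option autoImplicit false

namespace Pool.Agent.J6H30.PV

open Finset Filter Topology Polynomial
open Pool.Agent.H469R2.NK (e norm_e e_add e_zero conj_e)

/-- Weyl's inequality for sums of exponential length -/
theorem weyl_num (D : ℕ) (hD : 1 ≤ D) (ε κ0 : ℝ) (hε : 0 < ε) (hκ0 : 0 < κ0) :
    ∃ c : ℝ, 0 < c ∧ ∃ N₀ : ℕ, ∀ N : ℕ, N₀ ≤ N → ∀ P : ℝ[X], P.natDegree ≤ D →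
      (∀ q : ℤ, q ≠ 0 → |(q : ℝ)| ≤ Real.exp (κ0 * N) → ∀ m : ℤ,
        Real.exp (-(ε / 2 * N)) < |q * P.coeff D - m|) →
      ∀ K : ℕ, Real.exp (ε * N) ≤ K →
      ‖∑ k ∈ range K, e (P.eval (k : ℝ))‖ ≤ Real.exp (-(c * N)) * K := by
  obtain ⟨d, rfl⟩ : ∃ d', D = d' + 1 := ⟨D - 1, by omega⟩
  set κ1 : ℝ := min (κ0 / (4 * (d + 1))) (ε / 4) with hκ1
  have hκ1p : 0 < κ1 := lt_min (by positivity) (by positivity)
  have hκ1a : d * κ1 ≤ κ0 / 4 := by
    have h1 : κ1 ≤ κ0 / (4 * (d + 1)) := min_le_left _ _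
    rw [le_div_iff₀ (by positivity)] at h1
    have : 0 ≤ κ1 := hκ1p.le
    nlinarith
  have hκ1b : κ1 ≤ ε / 4 := min_le_right _ _
  set c : ℝ := (1 / 2 : ℝ) ^ d with hc
  have hc0 : 0 < c := by positivity
  have hc1 : c ≤ 1 := pow_le_one₀ (by norm_num) (by norm_num)
  obtain ⟨N3, hN3⟩ := eventually_atTop.1 (((pow_le_exp ((d + 1).factorial) 0 (κ0 / 4)
    (by positivity)).and (pow_le_exp 16 0 (c * κ1 / 2) (by positivity))).and
      ((pow_le_exp 4 0 κ1 hκ1p).and (eventually_ge_atTop 1)))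
  refine ⟨c * κ1 / 2, by positivity, N3, fun N hN P hP hdio K hK => ?_⟩
  obtain ⟨⟨hNc, hNd⟩, hNe, hNf⟩ := hN3 N hN
  rw [pow_zero, mul_one] at hNc hNd hNe
  have hNR : (1 : ℝ) ≤ N := by exact_mod_cast hNf
  have hN0 : (0 : ℝ) < N := by linarith
  have hK0 : (0 : ℝ) < K := lt_of_lt_of_le (Real.exp_pos _) hK
  have hK1 : 1 ≤ K := by exact_mod_cast hK0
  set H : ℕ := ⌊Real.exp (κ1 * N)⌋₊ with hH
  have hH1 : (H : ℝ) ≤ Real.exp (κ1 * N) := Nat.floor_le (Real.exp_pos _).le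
  have hH2 : Real.exp (κ1 * N) / 2 ≤ H := by
    have h1 := Nat.lt_floor_add_one (Real.exp (κ1 * N))
    rw [← hH] at h1
    linarith
  have hHpos : 1 ≤ H := by
    have : (1 : ℝ) ≤ H := by linarith
    exact_mod_cast this
  have hH0 : (0 : ℝ) < H := by exact_mod_cast hHpos
  set τ : ℝ := 4 * Real.exp (-(κ1 * N)) with hτ
  have hexp : Real.exp (κ1 * N) * Real.exp (-(κ1 * N)) = 1 := by
    rw [← Real.exp_add, add_neg_cancel, Real.exp_zero]
  have hτ0 : 0 < τ := by positivity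
  have hτ1 : τ ≤ 1 := by
    rw [hτ, ← hexp]
    exact mul_le_mul_of_nonneg_right hNe (Real.exp_pos _).le
  have hεN : 0 ≤ ε * N := by positivity
  have hκN : κ1 * N ≤ ε / 4 * N := mul_le_mul_of_nonneg_right hκ1b hN0.le
  have hw1 : 2 / (Real.exp (-(ε / 2 * N)) * K) ≤ τ := by
    rw [div_le_iff₀ (by positivity), hτ]
    have h1 : Real.exp (-(κ1 * N)) * (Real.exp (-(ε / 2 * N)) * Real.exp (ε * N)) ≤
        Real.exp (-(κ1 * N)) * (Real.exp (-(ε / 2 * N)) * K) := by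
      gcongr
    have h2 : 1 ≤ Real.exp (-(κ1 * N)) * (Real.exp (-(ε / 2 * N)) * Real.exp (ε * N)) := by
      rw [← Real.exp_add, ← Real.exp_add]
      apply Real.one_le_exp
      linarith
    linarith
  have hw2 : 2 / (H : ℝ) ≤ τ := by
    rw [div_le_iff₀ hH0, hτ]
    have h1 : Real.exp (-(κ1 * N)) * (Real.exp (κ1 * N) / 2) ≤ Real.exp (-(κ1 * N)) * H := by
      gcongr
    nlinarith
  have hw3 : 2 * (H : ℝ) / K ≤ τ := by
    rw [div_le_iff₀ hK0, hτ]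
    have h1 : Real.exp (-(κ1 * N)) * Real.exp (ε * N) ≤ Real.exp (-(κ1 * N)) * K := by
      gcongr
    have h2 : Real.exp (κ1 * N) ≤ Real.exp (-(κ1 * N)) * Real.exp (ε * N) := by
      rw [← Real.exp_add]
      apply Real.exp_le_exp.2
      linarith
    linarith
  have h1 := weyl d P hP H K hHpos hK1 (Real.exp (-(ε / 2 * N))) τ (Real.exp_pos _) hw1 hw2 hw3 hτ1 (by
    intro q hq0 hq m
    refine hdio q hq0 ?_ m
    have e4 : |(q : ℝ)| ≤ ((d + 1).factorial : ℝ) * (H : ℝ) ^ d := by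
      rw [← Int.cast_abs]
      exact_mod_cast hq
    have e5 : Real.exp (κ1 * N) ^ d ≤ Real.exp (κ0 / 4 * N) := by
      rw [← Real.exp_nat_mul]
      apply Real.exp_le_exp.2
      calc (d : ℝ) * (κ1 * N) = (d * κ1) * N := by ring
        _ ≤ κ0 / 4 * N := mul_le_mul_of_nonneg_right hκ1a hN0.le
    calc |(q : ℝ)| ≤ ((d + 1).factorial : ℝ) * (H : ℝ) ^ d := e4
      _ ≤ Real.exp (κ0 / 4 * N) * Real.exp (κ1 * N) ^ d := by gcongr
      _ ≤ Real.exp (κ0 / 4 * N) * Real.exp (κ0 / 4 * N) := by gcongr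
      _ ≤ Real.exp (κ0 * N) := by
        rw [← Real.exp_add]
        apply Real.exp_le_exp.2
        have : 0 < κ0 * N := by positivity
        linarith)
  refine h1.trans ?_
  have e8 : τ ^ c ≤ 4 * Real.exp (-(c * κ1 * N)) := by
    rw [hτ, Real.mul_rpow (by norm_num) (Real.exp_pos _).le]
    have e9 : (4 : ℝ) ^ c ≤ 4 := by
      nth_rw 2 [← Real.rpow_one 4]
      exact Real.rpow_le_rpow_of_exponent_le (by norm_num) hc1
    have e10 : Real.exp (-(κ1 * N)) ^ c = Real.exp (-(c * κ1 * N)) := by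
      rw [← Real.exp_mul]
      congr 1
      ring
    rw [e10]
    exact mul_le_mul_of_nonneg_right e9 (Real.exp_pos _).le
  calc (K : ℝ) * (4 * τ ^ c) ≤ K * (4 * (4 * Real.exp (-(c * κ1 * N)))) := by gcongr
    _ = K * (16 * Real.exp (-(c * κ1 * N))) := by ring
    _ ≤ K * (Real.exp (c * κ1 / 2 * N) * Real.exp (-(c * κ1 * N))) := by gcongr
    _ = Real.exp (-(c * κ1 / 2 * N)) * K := by
      rw [← Real.exp_add, mul_comm]
      congr 2
      ring

/-- **Exponential sums with rough coefficients over large boxes.** -/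
theorem rough_num (r D : ℕ) (hD : 1 ≤ D) (ε κ0 W : ℝ) (hε : 0 < ε) (hκ0 : 0 < κ0) (hW : 0 ≤ W) :
    ∃ c : ℝ, 0 < c ∧ ∃ N₀ : ℕ, ∀ N : ℕ, N₀ ≤ N → ∀ T : Finset (Fin r), T.Nonempty →
      ∀ F g : MvPolynomial (Fin r) ℝ, F.IsHomogeneous D → g.totalDegree < D →
      ∀ (R : MvPolynomial (Fin r) ℤ) (Q : ℕ), 1 ≤ Q → ∀ v : Fin r → ℤ,
      ∑ i, |((Q : ℝ) * v i)| ≤ W →
      (∀ q : ℤ, q ≠ 0 → |(q : ℝ)| ≤ Real.exp (κ0 * N) → ∀ m : ℤ, Real.exp (-(ε / 4 * N)) <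
        |q * ((Q : ℝ) ^ D * MvPolynomial.eval (fun i => (v i : ℝ)) (full T F)) - m|) →
      ∀ (J : Fin r → ℤ) (M : Fin r → ℕ), (∀ i ∈ T, Real.exp (ε * N) ≤ M i) →
      ∀ u : Fin r → (Fin r → ℤ) → ℂ, (∀ i a, ‖u i a‖ ≤ 1) →
      (∀ i ∈ T, ∀ a z, u i (Function.update a i z) = u i a) →
      ‖∑ k ∈ box J M, (∏ i ∈ T, u i k) * e (MvPolynomial.eval (fun i => (k i : ℝ)) F +
        MvPolynomial.eval (fun i => (k i : ℝ)) g + (MvPolynomial.eval k R : ℤ) / Q)‖ ≤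
      (∏ i, (M i : ℝ)) * Real.exp (-(c * N)) := by
  obtain ⟨c1, hc1, N1, hweyl⟩ := weyl_num D hD (ε / 2) κ0 (by positivity) hκ0
  set c2 : ℝ := min c1 (ε / 2) / 2 with hc2
  have hc2p : 0 < c2 := by
    have : 0 < min c1 (ε / 2) := lt_min hc1 (by positivity)
    positivity
  have hc2a : 2 * c2 ≤ c1 := by
    have : min c1 (ε / 2) ≤ c1 := min_le_left _ _
    rw [hc2]
    linarith
  have hc2b : 2 * c2 ≤ ε / 2 := by
    have : min c1 (ε / 2) ≤ ε / 2 := min_le_right _ _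
    rw [hc2]
    linarith
  obtain ⟨N2, hN2⟩ := eventually_atTop.1 ((pow_le_exp (1 + 4 * W) 0 c2 hc2p).and
    (eventually_ge_atTop 2))
  have hm0 : (0 : ℝ) < 2 ^ r := by positivity
  refine ⟨c2 / 2 ^ r, by positivity, max N1 N2, fun N hN T hT F g hF hg R Q hQ v hv hdio J M hM u hu
    hind => ?_⟩
  have hNa : N1 ≤ N := (le_max_left _ _).trans hN
  obtain ⟨hNc, hNd⟩ := hN2 N ((le_max_right _ _).trans hN)
  rw [pow_zero, mul_one] at hNc
  have hNR : (2 : ℝ) ≤ N := by exact_mod_cast hNd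
  have hN0 : (0 : ℝ) < N := by linarith
  set Tt : ℕ := ⌈Real.exp (ε / 2 * N)⌉₊ with hTt
  have hT1 : Real.exp (ε / 2 * N) ≤ Tt := Nat.le_ceil _
  have hexp1 : (1 : ℝ) ≤ Real.exp (ε / 2 * N) := Real.one_le_exp (by positivity)
  have hT2 : (Tt : ℝ) ≤ 2 * Real.exp (ε / 2 * N) := by
    have := (Nat.ceil_lt_add_one (Real.exp_pos (ε / 2 * N)).le).le
    rw [← hTt] at this
    linarith
  have hTpos : 1 ≤ Tt := by
    have : (1 : ℝ) ≤ Tt := hexp1.trans hT1
    exact_mod_cast this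
  apply rough_abs T hT D hD F g hF hg R Q hQ v Tt hTpos (Real.exp (-(c1 * N))) (Real.exp (ε * N))
    (Real.exp (-(c2 / 2 ^ r * N))) (Real.exp_pos _) (Real.exp_pos _).le ?_ ?_ J M hM u hu hind
  · intro P hP hPc
    refine hweyl N hNa P hP (fun q hq0 hq m => ?_) Tt hT1
    rw [hPc]
    refine lt_of_eq_of_lt ?_ (hdio q hq0 hq m)
    congr 1
    ring
  · set W' : ℝ := ∑ i, |((Q : ℝ) * v i)| with hW'
    have hW0 : 0 ≤ W' := sum_nonneg fun _ _ => abs_nonneg _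
    have f1 : Real.exp (-(c1 * N)) ≤ Real.exp (-(2 * c2 * N)) := by
      apply Real.exp_le_exp.2
      have := mul_le_mul_of_nonneg_right hc2a hN0.le
      linarith
    have f2 : W' * Tt / Real.exp (ε * N) ≤ 2 * W * Real.exp (-(2 * c2 * N)) := by
      rw [div_le_iff₀ (Real.exp_pos _)]
      have f3 : Real.exp (ε / 2 * N) ≤ Real.exp (-(2 * c2 * N)) * Real.exp (ε * N) := by
        rw [← Real.exp_add]
        apply Real.exp_le_exp.2
        have := mul_le_mul_of_nonneg_right hc2b hN0.le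
        linarith
      calc W' * Tt ≤ W * (2 * Real.exp (ε / 2 * N)) := by gcongr
        _ ≤ W * (2 * (Real.exp (-(2 * c2 * N)) * Real.exp (ε * N))) := by gcongr
        _ = _ := by ring
    have f4 : Real.exp (-(c1 * N)) + 2 * (W' * Tt / Real.exp (ε * N)) ≤ Real.exp (-(c2 * N)) := by
      calc Real.exp (-(c1 * N)) + 2 * (W' * Tt / Real.exp (ε * N)) ≤
          (1 + 4 * W) * Real.exp (-(2 * c2 * N)) := by linarith
        _ ≤ Real.exp (c2 * N) * Real.exp (-(2 * c2 * N)) :=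
            mul_le_mul_of_nonneg_right hNc (Real.exp_pos _).le
        _ = Real.exp (-(c2 * N)) := by
          rw [← Real.exp_add]
          congr 1
          ring
    refine f4.trans ?_
    rw [← Real.exp_nat_mul]
    apply Real.exp_le_exp.2
    have f5 : (2 : ℝ) ^ T.card ≤ 2 ^ r := by
      apply pow_le_pow_right₀ (by norm_num)
      have := card_le_univ T
      simpa using this
    have f6 : (2 : ℝ) ^ T.card * (c2 / 2 ^ r * N) ≤ c2 * N := by
      calc (2 : ℝ) ^ T.card * (c2 / 2 ^ r * N) ≤ 2 ^ r * (c2 / 2 ^ r * N) := by gcongr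
        _ = c2 * N := by field_simp
    push_cast
    linarith

end Pool.Agent.J6H30.PV
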