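import Pool.Agent.Y951.TU.Dioph
import Pool.Agent.J6H30.PV.CritM
import Pool.Agent.J6H30.PV.RoughNum
import Mathlib.Combinatorics.Nullstellensatz

/-!
# The Diophantine input for tuples of polynomials
-/

set_option autoImplicit false

namespace Pool.Agent.J6H30.PV

open Finset Filter Topology
open Pool.Agent.H469R2.NK (e norm_e e_add e_zero conj_e)

/-- constants which are uniform in finitely many cases -/
lemma unif {X : Type} [Fintype X] (P : X → ℝ → ℕ → Prop)
    (hmono : ∀ x c c' N N', 0 < c' → c' ≤ c → N ≤ N' → P x c N → P x c' N')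
    (h : ∀ x, ∃ c : ℝ, 0 < c ∧ ∃ N : ℕ, P x c N) : ∃ c : ℝ, 0 < c ∧ ∃ N : ℕ, ∀ x, P x c N := by
  classical
  choose c hc N hN using h
  have hs : ∀ x, 1 / c x ≤ 1 + ∑ x, 1 / c x := by
    intro x
    have h1 : 1 / c x ≤ ∑ x, 1 / c x :=
      single_le_sum (f := fun x => 1 / c x) (fun x _ => by have := hc x; positivity) (mem_univ x)
    linarith
  have hpos : 0 < 1 + ∑ x, 1 / c x := by
    have : 0 ≤ ∑ x, 1 / c x := sum_nonneg fun x _ => by have := hc x; positivity
    linarith
  refine ⟨1 / (1 + ∑ x, 1 / c x), by positivity, univ.sup N, fun x => ?_⟩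
  refine hmono x (c x) _ (N x) _ (by positivity) ?_ (le_sup (f := N) (mem_univ x)) (hN x)
  rw [div_le_iff₀ hpos]
  have h1 := hs x
  have h2 := hc x
  rw [div_le_iff₀ h2] at h1
  linarith

/-- the subspace theorem for tuples of algebraic numbers and bases -/
theorem diophM {m : ℕ} (α : Fin m → ℝ) (halg : ∀ j, IsAlgebraic ℚ (α j)) (B k : ℕ) (ε : ℝ)
    (hε : 0 < ε) :
    ∃ κ : ℝ, 0 < κ ∧ ∃ N₀ : ℕ, ∀ N : ℕ, N₀ ≤ N → ∀ b : Fin m → ℕ, (∀ j, 2 ≤ b j) → (∀ j, b j ≤ B) →
      ∀ p : Fin m → Fin k → ℕ, (∀ j t, p j t ≤ 2 * N) → ∀ lam : Fin m → Fin k → ℤ,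
      (∀ j t, |(lam j t : ℝ)| ≤ Real.exp (κ * N)) →
      Irrational (∑ j, ((∑ t, lam j t * (b j : ℤ) ^ (p j t) : ℤ) : ℝ) * α j) → ∀ P : ℤ,
      Real.exp (-(ε * N)) <
        |∑ j, ((∑ t, lam j t * (b j : ℤ) ^ (p j t) : ℤ) : ℝ) * α j - P| := by
  classical
  set S : Finset ℕ := (range (B + 1)).filter Nat.Prime with hS
  obtain ⟨η, hη, L0, h⟩ := Pool.Agent.Y951.TU.dioph α halg S
    (fun p hp => (mem_filter.1 hp).2.pos) (m * k) (2 * Real.log (B + 1)) ε (by
      have : 0 ≤ Real.log ((B : ℝ) + 1) := Real.log_nonneg (by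
        have : (0 : ℝ) ≤ B := Nat.cast_nonneg _
        linarith)
      positivity) hε
  refine ⟨η, hη, ⌈L0⌉₊, fun N hN b hb hbB p hp lam hlam hirr P => ?_⟩
  have hNL : L0 ≤ (N : ℝ) := (Nat.le_ceil _).trans (by exact_mod_cast hN)
  have hN0 : (0 : ℝ) ≤ N := Nat.cast_nonneg _
  set s : Fin (m * k) → ℕ := fun i => b (finProdFinEquiv.symm i).1 ^
    p (finProdFinEquiv.symm i).1 (finProdFinEquiv.symm i).2 with hs
  set c : Fin (m * k) → Fin m → ℤ := fun i j => if (finProdFinEquiv.symm i).1 = j then 1 else 0 with hc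
  set hh : Fin (m * k) → ℤ := fun i => lam (finProdFinEquiv.symm i).1 (finProdFinEquiv.symm i).2 with hhh
  have key : ∀ j, ∑ i, hh i * (s i * c i j) = ∑ t, lam j t * (b j : ℤ) ^ (p j t) := by
    intro j
    have e1 := Equiv.sum_comp (finProdFinEquiv (m := m) (n := k)).symm
      (fun q : Fin m × Fin k => lam q.1 q.2 * (((b q.1 ^ p q.1 q.2 : ℕ) : ℤ) * (if q.1 = j then 1 else 0)))
    rw [hhh, hs, hc]
    simp only
    rw [e1, Fintype.sum_prod_type, sum_eq_single j]
    · refine sum_congr rfl fun t _ => ?_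
      simp only [if_true, mul_one]
      push_cast
      rfl
    · intro j' _ hj'
      refine sum_eq_zero fun t _ => ?_
      simp only [if_neg hj', mul_zero]
    · intro hj
      exact absurd (mem_univ j) hj
  have h1 := h N hNL s c hh P (by
    intro i
    refine ⟨?_, ?_⟩
    · rw [hs]
      simp only
      have := hb (finProdFinEquiv.symm i).1
      positivity
    · rw [hs]
      simp only
      intro q hq
      rw [hS, mem_filter, mem_range]
      have hqp := Nat.prime_of_mem_primeFactors hq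
      have hdvd := hqp.dvd_of_dvd_pow (Nat.dvd_of_mem_primeFactors hq)
      have h2 := Nat.le_of_dvd (by have := hb (finProdFinEquiv.symm i).1; omega) hdvd
      have h3 := hbB (finProdFinEquiv.symm i).1
      exact ⟨by omega, hqp⟩) (by
    intro i
    rw [hs]
    simp only
    push_cast
    have h2 : (b (finProdFinEquiv.symm i).1 : ℝ) ≤ (B : ℝ) + 1 := by
      have : (b (finProdFinEquiv.symm i).1 : ℝ) ≤ B := by exact_mod_cast hbB _
      linarith
    have h3 : (1 : ℝ) ≤ (B : ℝ) + 1 := by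
      have : (0 : ℝ) ≤ B := Nat.cast_nonneg _
      linarith
    calc (b (finProdFinEquiv.symm i).1 : ℝ) ^ p (finProdFinEquiv.symm i).1 (finProdFinEquiv.symm i).2 ≤
        ((B : ℝ) + 1) ^ p (finProdFinEquiv.symm i).1 (finProdFinEquiv.symm i).2 := by gcongr
      _ ≤ ((B : ℝ) + 1) ^ (2 * N) := pow_le_pow_right₀ h3 (hp _ _)
      _ = Real.exp (2 * Real.log (B + 1) * N) := by
        rw [show 2 * Real.log ((B : ℝ) + 1) * N = ((2 * N : ℕ) : ℝ) * Real.log ((B : ℝ) + 1) by
          push_cast; ring, Real.exp_nat_mul, Real.exp_log (by linarith)]) (fun i => hlam _ _) (by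
    intro i j
    rw [hc]
    simp only
    have h2 : (1 : ℝ) ≤ Real.exp (η * N) := Real.one_le_exp (by positivity)
    split_ifs
    · simpa using h2
    · simp
      positivity) (by
    simp_rw [key]
    exact hirr)
  simp_rw [key] at h1
  exact h1

/-- an irrational value on a finite grid -/
lemma exists_irrational_value_grid {r : ℕ} (F : MvPolynomial (Fin r) ℝ) (m₀ : Fin r →₀ ℕ)
    (hirr : Irrational (F.coeff m₀)) (D : ℕ) (hD : F.totalDegree ≤ D) :
    ∃ v : Fin r → ℕ, (∀ i, v i ≤ D) ∧ Irrational (MvPolynomial.eval (fun i => (v i : ℝ)) F) := by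
  classical
  by_contra hcon
  push Not at hcon
  have hmem : F.coeff m₀ ∉ Submodule.span ℚ ({1} : Set ℝ) := by
    intro h
    rw [Submodule.mem_span_singleton] at h
    obtain ⟨q, hq⟩ := h
    apply hirr
    refine ⟨q, ?_⟩
    rw [← hq, Rat.smul_def, mul_one]
  obtain ⟨φ, hφ, hφ1⟩ := Submodule.exists_le_ker_of_notMem hmem
  have hφ0 : φ 1 = 0 := hφ1 (Submodule.subset_span rfl)
  have hφq : ∀ q : ℚ, φ (q : ℝ) = 0 := by
    intro q
    have : (q : ℝ) = q • (1 : ℝ) := by rw [Rat.smul_def, mul_one]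
    rw [this, map_smul, hφ0, smul_zero]
  set G : MvPolynomial (Fin r) ℚ := ∑ m ∈ F.support, MvPolynomial.monomial m (φ (F.coeff m)) with hG
  have hGd : G.totalDegree ≤ D := by
    rw [hG]
    refine MvPolynomial.totalDegree_finsetSum_le fun m hm => ?_
    refine (MvPolynomial.totalDegree_monomial_le _ _).trans ?_
    exact (MvPolynomial.le_totalDegree hm).trans hD
  have hG0 : G = 0 := by
    apply MvPolynomial.eq_zero_of_eval_zero_at_prod_finset G
      (fun _ => (range (D + 1)).image (fun z : ℕ => (z : ℚ)))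
    · intro i
      rw [card_image_of_injective _ Nat.cast_injective, card_range]
      exact Nat.lt_succ_of_le ((MvPolynomial.degreeOf_le_totalDegree _ _).trans hGd)
    · intro x hx
      have : ∀ i, ∃ z : ℕ, z ≤ D ∧ (z : ℚ) = x i := by
        intro i
        obtain ⟨z, hz, hz'⟩ := mem_image.1 (hx i)
        exact ⟨z, Nat.lt_succ_iff.1 (mem_range.1 hz), hz'⟩
      choose v hvD hv using this
      rw [hG, map_sum]
      have h1 : ∀ m ∈ F.support, MvPolynomial.eval x (MvPolynomial.monomial m (φ (F.coeff m))) =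
          φ (F.coeff m * ∏ i, (v i : ℝ) ^ m i) := by
        intro m _
        rw [MvPolynomial.eval_monomial, Finsupp.prod_fintype _ _ (fun i => pow_zero _)]
        have h2 : F.coeff m * ∏ i, (v i : ℝ) ^ m i = (∏ i, (v i : ℚ) ^ m i) • F.coeff m := by
          rw [Rat.smul_def]
          push_cast
          ring
        rw [h2, map_smul, smul_eq_mul, mul_comm]
        congr 1
        exact prod_congr rfl fun i _ => by rw [hv]
      rw [sum_congr rfl h1, ← map_sum, ← MvPolynomial.eval_eq' (fun i => (v i : ℝ)) F]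
      obtain ⟨q, hq⟩ := Set.mem_range.1 (by
        have := hcon v hvD
        unfold Irrational at this
        push Not at this
        exact this)
      rw [← hq]
      exact hφq q
  have h3 : G.coeff m₀ = φ (F.coeff m₀) := by
    rw [hG, MvPolynomial.coeff_sum]
    simp only [MvPolynomial.coeff_monomial]
    rw [sum_ite_eq']
    split_ifs with h
    · rfl
    · rw [MvPolynomial.notMem_support_iff.1 h, map_zero]
  rw [hG0, MvPolynomial.coeff_zero] at h3
  exact hφ h3.symm

/-- a projection of the reals onto the rationals -/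
lemma exists_proj : ∃ φ : ℝ →ₗ[ℚ] ℚ, ∀ q : ℚ, φ (q : ℝ) = q := by
  obtain ⟨g, hg⟩ := (Algebra.linearMap ℚ ℝ).exists_leftInverse_of_injective (by
    rw [LinearMap.ker_eq_bot]
    exact Rat.cast_injective)
  refine ⟨g, fun q => ?_⟩
  have := LinearMap.congr_fun hg q
  simpa using this

end Pool.Agent.J6H30.PV
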