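import Pool.Agent.J6H30.PV.JCrit
import Pool.Agent.J6H30.PV.TupleDioph

/-!
# Values of polynomials: the joint distribution of the digits in several bases
-/

set_option autoImplicit false

namespace Pool.Agent.J6H30.PV

open Finset Filter Topology
open Pool.Agent.H469R2.NK (e norm_e e_add e_zero conj_e)
open Pool.Agent.R485.Mult (sg abs_sg e_sum)

/-- the subspace theorem for one number and several bases -/
theorem dioph1 (α : ℝ) (halg : IsAlgebraic ℚ α) (hirr : Irrational α) (B k : ℕ) (ε : ℝ)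
    (hε : 0 < ε) :
    ∃ κ : ℝ, 0 < κ ∧ ∃ N₀ : ℕ, ∀ N : ℕ, N₀ ≤ N → ∀ b p : Fin k → ℕ, (∀ t, 2 ≤ b t) →
      (∀ t, b t ≤ B) → (∀ t, p t ≤ 2 * N) → ∀ lam : Fin k → ℤ,
      (∀ t, |(lam t : ℝ)| ≤ Real.exp (κ * N)) →
      ∑ t, lam t * (b t : ℤ) ^ (p t) ≠ 0 → ∀ P : ℤ,
      Real.exp (-(ε * N)) < |((∑ t, lam t * (b t : ℤ) ^ (p t) : ℤ) : ℝ) * α - P| := by
  classical
  set S : Finset ℕ := (range (B + 1)).filter Nat.Prime with hS
  obtain ⟨η, hη, L0, h⟩ := Pool.Agent.Y951.TU.dioph (fun _ : Fin 1 => α) (fun _ => halg) S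
    (fun p hp => (mem_filter.1 hp).2.pos) k (2 * Real.log (B + 1)) ε (by
      have : 0 ≤ Real.log ((B : ℝ) + 1) := Real.log_nonneg (by
        have : (0 : ℝ) ≤ B := Nat.cast_nonneg _
        linarith)
      positivity) hε
  refine ⟨η, hη, ⌈L0⌉₊, fun N hN b p hb hbB hp lam hlam hne P => ?_⟩
  have hNL : L0 ≤ (N : ℝ) := (Nat.le_ceil _).trans (by exact_mod_cast hN)
  have hN0 : (0 : ℝ) ≤ N := Nat.cast_nonneg _
  have key : ∀ j : Fin 1, ∑ i, lam i * (((b i ^ p i : ℕ) : ℤ) * (1 : ℤ)) =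
      ∑ t, lam t * (b t : ℤ) ^ (p t) := by
    intro j
    refine sum_congr rfl fun t _ => ?_
    push_cast
    ring
  have h1 := h N hNL (fun i => b i ^ p i) (fun _ _ => 1) lam P (by
    intro i
    refine ⟨?_, ?_⟩
    · have := hb i
      positivity
    · intro q hq
      rw [hS, mem_filter, mem_range]
      have hqp := Nat.prime_of_mem_primeFactors hq
      have hdvd := hqp.dvd_of_dvd_pow (Nat.dvd_of_mem_primeFactors hq)
      have h2 := Nat.le_of_dvd (by have := hb i; omega) hdvd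
      have h3 := hbB i
      exact ⟨by omega, hqp⟩) (by
    intro i
    push_cast
    have h2 : (b i : ℝ) ≤ (B : ℝ) + 1 := by
      have : (b i : ℝ) ≤ B := by exact_mod_cast hbB _
      linarith
    have h3 : (1 : ℝ) ≤ (B : ℝ) + 1 := by
      have : (0 : ℝ) ≤ B := Nat.cast_nonneg _
      linarith
    calc (b i : ℝ) ^ p i ≤ ((B : ℝ) + 1) ^ p i := by gcongr
      _ ≤ ((B : ℝ) + 1) ^ (2 * N) := pow_le_pow_right₀ h3 (hp _)
      _ = Real.exp (2 * Real.log (B + 1) * N) := by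
        rw [show 2 * Real.log ((B : ℝ) + 1) * N = ((2 * N : ℕ) : ℝ) * Real.log ((B : ℝ) + 1) by
          push_cast; ring, Real.exp_nat_mul, Real.exp_log (by linarith)]) hlam (by
    intro i j
    have h2 : (1 : ℝ) ≤ Real.exp (η * N) := Real.one_le_exp (by positivity)
    simpa using h2) (by
    rw [Fin.sum_univ_one, key 0]
    exact hirr.intCast_mul hne)
  rw [Fin.sum_univ_one, key 0] at h1
  exact h1

/-- the exponential sums -/
theorem rough_J (r D : ℕ) (hD : 1 ≤ D) (T : Finset (Fin r)) (F : MvPolynomial (Fin r) ℝ)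
    (hF : F.IsHomogeneous D) (halg : ∀ μ, μ.support = T → IsAlgebraic ℚ (F.coeff μ))
    (hirr : ∃ μ, μ.support = T ∧ Irrational (F.coeff μ)) (Q : ℕ) (hQ : 1 ≤ Q)
    {m : ℕ} (b : Fin m → ℕ) (hb : ∀ l, 2 ≤ b l) (σ : ℕ) (ε : ℝ) (hε : 0 < ε) :
    ∃ c : ℝ, 0 < c ∧ ∃ N₀ : ℕ, ∀ N : ℕ, N₀ ≤ N → ∀ g : MvPolynomial (Fin r) ℝ,
      g.totalDegree < D →
      ∀ R : MvPolynomial (Fin r) ℤ, ∀ (J : Fin r → ℤ) (M : Fin r → ℕ),
      (∀ i ∈ T, Real.exp (ε * N) ≤ M i) →
      ∀ s : Fin m → ℕ, (∀ l, s l ≤ N) → ∀ h : Fin m → ℤ, (∀ l, |h l| ≤ N) →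
      ∀ p : Fin (2 * σ) → ℕ, (∀ t, p t ≤ N) → ∑ t : Fin (2 * σ), sg t * asum b s h (p t) ≠ 0 →
      ∀ u : Fin r → (Fin r → ℤ) → ℂ, (∀ i a, ‖u i a‖ ≤ 1) →
      (∀ i ∈ T, ∀ a z, u i (Function.update a i z) = u i a) →
      ‖∑ k ∈ box J M, (∏ i ∈ T, u i k) *
        e (((∑ t : Fin (2 * σ), sg t * asum b s h (p t) : ℤ) : ℝ) *
          (MvPolynomial.eval (fun i => (k i : ℝ)) F +
            MvPolynomial.eval (fun i => (k i : ℝ)) g + (MvPolynomial.eval k R : ℤ) / Q))‖ ≤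
        (∏ i, (M i : ℝ)) * Real.exp (-(c * N)) := by
  classical
  obtain ⟨m₀, hm₀T, hm₀⟩ := hirr
  have hTne : T.Nonempty := by
    rw [nonempty_iff_ne_empty]
    intro h0
    have h1 : F.coeff m₀ ≠ 0 := by
      intro h
      rw [h] at hm₀
      exact hm₀ ⟨0, by simp⟩
    have h2 := hF h1
    have h3 : m₀ = 0 := by
      rw [← Finsupp.support_eq_empty, hm₀T, h0]
    rw [h3, map_zero] at h2
    omega
  obtain ⟨v, hv⟩ := exists_irrational_value (full T F) m₀ (by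
    rw [full_coeff, if_pos hm₀T]
    exact hm₀)
  set x : ℝ := MvPolynomial.eval (fun i => (v i : ℝ)) (full T F) with hx
  have hxalg : IsAlgebraic ℚ x := by
    apply isAlgebraic_eval
    intro μ
    rw [full_coeff]
    split_ifs with h
    · exact halg μ h
    · exact isAlgebraic_zero
  set B : ℕ := univ.sup b with hB
  have hbB : ∀ l, b l ≤ B := fun l => le_sup (f := b) (mem_univ l)
  obtain ⟨κ, hκ, N1, hdio⟩ := dioph1 x hxalg hv B (2 * σ * m) (ε / 4) (by positivity)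
  set W : ℝ := ∑ i, |((Q : ℝ) * v i)| with hW
  have hW0 : 0 ≤ W := sum_nonneg fun _ _ => abs_nonneg _
  obtain ⟨c, hc, N2, hrough⟩ := rough_num r D hD ε (κ / 2) W hε (by positivity) hW0
  obtain ⟨N3, hN3⟩ := eventually_atTop.1 ((pow_le_exp ((Q : ℝ) ^ D) 1 (κ / 2) (by positivity)).and
    (eventually_ge_atTop 1))
  refine ⟨c, hc, max N1 (max N2 N3), fun N hN g hg R J M hM s hs h hh p hp hne u hu hind => ?_⟩
  have hNa : N1 ≤ N := (le_max_left _ _).trans hN
  have hNb : N2 ≤ N := ((le_max_left _ _).trans (le_max_right _ _)).trans hN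
  obtain ⟨hNc, hNd⟩ := hN3 N (((le_max_right _ _).trans (le_max_right _ _)).trans hN)
  rw [pow_one] at hNc
  have hNR : (1 : ℝ) ≤ N := by exact_mod_cast hNd
  have hQR : (0 : ℝ) < Q := by exact_mod_cast hQ
  set V : ℤ := ∑ t : Fin (2 * σ), sg t * asum b s h (p t) with hV
  have hfullV : full T (MvPolynomial.C (V : ℝ) * F) = MvPolynomial.C (V : ℝ) * full T F := by
    ext μ
    rw [full_coeff, MvPolynomial.coeff_C_mul, MvPolynomial.coeff_C_mul, full_coeff]
    split_ifs <;> simp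
  have h1 := hrough N hNb T hTne (MvPolynomial.C (V : ℝ) * F) (MvPolynomial.C (V : ℝ) * g) (by
    have := (MvPolynomial.isHomogeneous_C (Fin r) (V : ℝ)).mul hF
    rwa [zero_add] at this) (by
    refine lt_of_le_of_lt (MvPolynomial.totalDegree_mul _ _) ?_
    rw [MvPolynomial.totalDegree_C, zero_add]
    exact hg) (MvPolynomial.C V * R) Q hQ v le_rfl (by
    intro q hq0 hq z
    have e1 : ∑ y : Fin (2 * σ * m), (q * (Q : ℤ) ^ D * (sg (finProdFinEquiv.symm y).1 *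
        h (finProdFinEquiv.symm y).2)) * (b (finProdFinEquiv.symm y).2 : ℤ) ^
          (s (finProdFinEquiv.symm y).2 + p (finProdFinEquiv.symm y).1) = q * (Q : ℤ) ^ D * V := by
      have e2 := Equiv.sum_comp (finProdFinEquiv (m := 2 * σ) (n := m)).symm
        (fun y : Fin (2 * σ) × Fin m => (q * (Q : ℤ) ^ D * (sg y.1 * h y.2)) *
          (b y.2 : ℤ) ^ (s y.2 + p y.1))
      rw [e2, Fintype.sum_prod_type, hV, mul_sum]
      refine sum_congr rfl fun t _ => ?_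
      unfold asum
      rw [mul_sum, mul_sum]
      exact sum_congr rfl fun l _ => by ring
    have h2 := hdio N hNa (fun y => b (finProdFinEquiv.symm y).2)
      (fun y => s (finProdFinEquiv.symm y).2 + p (finProdFinEquiv.symm y).1) (fun _ => hb _)
      (fun _ => hbB _) (fun y => by
        have := hs (finProdFinEquiv.symm y).2
        have := hp (finProdFinEquiv.symm y).1
        omega) (fun y => q * (Q : ℤ) ^ D * (sg (finProdFinEquiv.symm y).1 *
        h (finProdFinEquiv.symm y).2)) (fun y => by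
        push_cast
        rw [abs_mul, abs_mul, abs_mul]
        have h3 : |((sg ((finProdFinEquiv.symm y).1 : Fin (2 * σ)) : ℤ) : ℝ)| = 1 := by
          rw [← Int.cast_abs, abs_sg]
          simp
        have h4 : |((h (finProdFinEquiv.symm y).2 : ℤ) : ℝ)| ≤ N := by
          rw [← Int.cast_abs]
          exact_mod_cast hh _
        rw [h3, one_mul, abs_of_nonneg (by positivity : (0 : ℝ) ≤ (Q : ℝ) ^ D)]
        calc |(q : ℝ)| * (Q : ℝ) ^ D * |((h (finProdFinEquiv.symm y).2 : ℤ) : ℝ)| ≤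
            Real.exp (κ / 2 * N) * (Q : ℝ) ^ D * N := by gcongr
          _ = Real.exp (κ / 2 * N) * ((Q : ℝ) ^ D * N) := by ring
          _ ≤ Real.exp (κ / 2 * N) * Real.exp (κ / 2 * N) := by gcongr
          _ = Real.exp (κ * N) := by
            rw [← Real.exp_add]
            congr 1
            ring) (by
        rw [e1]
        exact mul_ne_zero (mul_ne_zero hq0 (by positivity)) hne) z
    rw [e1] at h2
    rw [hfullV, map_mul, MvPolynomial.eval_C]
    refine lt_of_lt_of_eq h2 ?_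
    congr 1
    push_cast
    ring) J M hM u hu hind
  refine le_trans (le_of_eq ?_) h1
  congr 1
  refine sum_congr rfl fun k _ => ?_
  congr 2
  rw [map_mul, map_mul, map_mul, MvPolynomial.eval_C, MvPolynomial.eval_C]
  push_cast
  field_simp

/-- **Joint digits of the values of a polynomial in several bases.** -/
theorem cylJ (r D : ℕ) (hD : 1 ≤ D) (T : Finset (Fin r)) (F : MvPolynomial (Fin r) ℝ)
    (hF : F.IsHomogeneous D) (halg : ∀ μ, μ.support = T → IsAlgebraic ℚ (F.coeff μ))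
    (hirr : ∃ μ, μ.support = T ∧ Irrational (F.coeff μ)) (Q : ℕ) (hQ : 1 ≤ Q)
    {m : ℕ} (b : Fin m → ℕ) (hb : ∀ l, 2 ≤ b l) (hinj : Function.Injective b)
    (ε δ : ℝ) (hε : 0 < ε) (hδ : 0 < δ) (A : ℕ) :
    ∃ κ : ℝ, 0 < κ ∧ ∃ N₀ : ℕ, ∀ N : ℕ, N₀ ≤ N → ∀ g : MvPolynomial (Fin r) ℝ, g.totalDegree < D →
      ∀ R : MvPolynomial (Fin r) ℤ, ∀ (J : Fin r → ℤ) (M : Fin r → ℕ),
      (∀ i ∈ T, Real.exp (ε * N) ≤ M i) →
      ∀ Z : Fin r → Set (Fin r → ℤ), (∀ i ∈ T, ∀ a z, Function.update a i z ∈ Z i ↔ a ∈ Z i) →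
      ∀ γ : Fin r → (Fin r → ℤ) → ℝ, (∀ i ∈ T, ∀ a z, γ i (Function.update a i z) = γ i a) →
      ∀ Ω : Finset (Fin r → ℤ), (∀ a, a ∈ Ω ↔ a ∈ box J M ∧ ∀ i ∈ T, a ∈ Z i) →
      Real.exp (-(κ * N)) * ∏ i, (M i : ℝ) ≤ Ω.card →
      ({k | k ∈ Ω ∧ ¬ GoodJ b N ((N : ℝ) ^ δ)
        (MvPolynomial.eval (fun i => (k i : ℝ)) F + MvPolynomial.eval (fun i => (k i : ℝ)) g +
          (MvPolynomial.eval k R : ℤ) / Q + ∑ i ∈ T, γ i k)}.ncard : ℝ) * (N : ℝ) ^ A ≤ Ω.card := by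
  classical
  obtain ⟨σ, N1, hσ1, hcrit⟩ := criterionJ b hb hinj δ hδ A
  obtain ⟨c, hc, N2, hsum⟩ := rough_J r D hD T F hF halg hirr Q hQ b hb σ ε hε
  obtain ⟨N3, hN3⟩ := eventually_atTop.1 ((pow_le_exp 1 (2 * σ) (c / 2) (by positivity)).and
    (eventually_ge_atTop 1))
  refine ⟨c / 2, by positivity, max N1 (max N2 N3), fun N hN g hg R J M hM Z hZ γ hγ Ω hΩ hdens => ?_⟩
  have hNa : N1 ≤ N := (le_max_left _ _).trans hN
  have hNb : N2 ≤ N := ((le_max_left _ _).trans (le_max_right _ _)).trans hN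
  obtain ⟨hNc, hNd⟩ := hN3 N (((le_max_right _ _).trans (le_max_right _ _)).trans hN)
  rw [one_mul] at hNc
  refine hcrit N hNa (Fin r → ℤ) Ω (fun k => MvPolynomial.eval (fun i => (k i : ℝ)) F +
    MvPolynomial.eval (fun i => (k i : ℝ)) g + (MvPolynomial.eval k R : ℤ) / Q +
      ∑ i ∈ T, γ i k) ?_
  intro s hs h hh p hp hne
  set Λ : ℤ := ∑ t : Fin (2 * σ), sg t * asum b s h (p t) with hΛ
  set f : (Fin r → ℤ) → ℝ := fun k => MvPolynomial.eval (fun i => (k i : ℝ)) F +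
    MvPolynomial.eval (fun i => (k i : ℝ)) g + (MvPolynomial.eval k R : ℤ) / Q with hf
  set u : Fin r → (Fin r → ℤ) → ℂ := fun i a =>
    if a ∈ Z i then e (Λ * γ i a) else 0 with hu
  have h1 := hsum N hNb g hg R J M hM s hs h hh p hp hne u (by
    intro i a
    rw [hu]
    simp only
    split_ifs
    · exact (norm_e _).le
    · simp) (by
    intro i hi a z
    rw [hu]
    simp only
    rw [hγ i hi]
    simp only [hZ i hi])
  have h2 : ∑ ω ∈ Ω, e (Λ * (MvPolynomial.eval (fun i => (ω i : ℝ)) F +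
      MvPolynomial.eval (fun i => (ω i : ℝ)) g + (MvPolynomial.eval ω R : ℤ) / Q +
        ∑ i ∈ T, γ i ω)) =
      ∑ k ∈ box J M, (∏ i ∈ T, u i k) * e (Λ * f k) := by
    have e1 : Ω = (box J M).filter (fun a => ∀ i ∈ T, a ∈ Z i) := by
      ext a
      rw [hΩ, mem_filter]
    rw [e1, sum_filter]
    refine sum_congr rfl fun k _ => ?_
    split_ifs with hk
    · have e2 : ∏ i ∈ T, u i k = e (Λ * (∑ i ∈ T, γ i k)) := by
        rw [mul_sum, e_sum]
        refine prod_congr rfl fun i hi => ?_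
        rw [hu]
        simp only
        rw [if_pos (hk i hi)]
      rw [e2, ← e_add]
      congr 1
      rw [hf]
      simp only
      ring
    · push Not at hk
      obtain ⟨i, hiT, hi⟩ := hk
      rw [prod_eq_zero hiT, zero_mul]
      rw [hu]
      simp only
      rw [if_neg hi]
  rw [h2]
  set V : ℝ := ∏ i, (M i : ℝ) with hV
  have hV0 : 0 ≤ V := prod_nonneg fun _ _ => Nat.cast_nonneg _
  calc ‖∑ k ∈ box J M, (∏ i ∈ T, u i k) * e (Λ * f k)‖ * (N : ℝ) ^ (2 * σ) ≤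
      (V * Real.exp (-(c * N))) * Real.exp (c / 2 * N) := by gcongr
    _ = Real.exp (-(c / 2 * N)) * V := by
      rw [mul_assoc, ← Real.exp_add, mul_comm]
      congr 2
      ring
    _ ≤ Ω.card := hdens

end Pool.Agent.J6H30.PV
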