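import Pool.Agent.J6H30.PV.GCrit
import Pool.Agent.J6H30.PV.JFinal

/-!
# Values of polynomials: sub-Gaussian tails for the discrepancy of the digits
-/

set_option autoImplicit false

namespace Pool.Agent.J6H30.PV

open Finset Filter Topology
open Pool.Agent.H469R2.NK (e norm_e e_add e_zero conj_e)
open Pool.Agent.R485.Mult (sg abs_sg e_sum)

/-- the exponential sums with frequencies of exponential size -/
theorem rough_G (r D : ℕ) (hD : 1 ≤ D) (T : Finset (Fin r)) (F : MvPolynomial (Fin r) ℝ)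
    (hF : F.IsHomogeneous D) (halg : ∀ μ, μ.support = T → IsAlgebraic ℚ (F.coeff μ))
    (hirr : ∃ μ, μ.support = T ∧ Irrational (F.coeff μ)) (Q : ℕ) (hQ : 1 ≤ Q)
    (B : ℕ) (ε : ℝ) (hε : 0 < ε) :
    ∃ c : ℝ, 0 < c ∧ ∃ N₀ : ℕ, ∀ N : ℕ, N₀ ≤ N → ∀ g : MvPolynomial (Fin r) ℝ,
      g.totalDegree < D →
      ∀ R : MvPolynomial (Fin r) ℤ, ∀ (J : Fin r → ℤ) (M : Fin r → ℕ),
      (∀ i ∈ T, Real.exp (ε * N) ≤ M i) →
      ∀ b : ℕ, 2 ≤ b → b ≤ B → ∀ p : ℕ, p ≤ 4 * N → ∀ h : ℕ, 1 ≤ h → (h : ℝ) ≤ Real.exp (c * N) →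
      ∀ u : Fin r → (Fin r → ℤ) → ℂ, (∀ i a, ‖u i a‖ ≤ 1) →
      (∀ i ∈ T, ∀ a z, u i (Function.update a i z) = u i a) →
      ‖∑ k ∈ box J M, (∏ i ∈ T, u i k) *
        e (((h * b ^ p : ℕ) : ℝ) *
          (MvPolynomial.eval (fun i => (k i : ℝ)) F +
            MvPolynomial.eval (fun i => (k i : ℝ)) g + (MvPolynomial.eval k R : ℤ) / Q))‖ ≤
        (∏ i, (M i : ℝ)) * Real.exp (-(c * N)) := by
  classical
  obtain ⟨m₀, hm₀T, hm₀⟩ := hirr
  have hTne : T.Nonempty := by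
    rw [nonempty_iff_ne_empty]
    intro h0
    have h1 : F.coeff m₀ ≠ 0 := by
      intro h
      rw [h] at hm₀
      exact hm₀ ⟨0, by simp⟩
    have h2 := hF h1
    have h3 : m₀ = 0 := by
      rw [← Finsupp.support_eq_empty, hm₀T, h0]
    rw [h3, map_zero] at h2
    omega
  obtain ⟨v, hv⟩ := exists_irrational_value (full T F) m₀ (by
    rw [full_coeff, if_pos hm₀T]
    exact hm₀)
  set x : ℝ := MvPolynomial.eval (fun i => (v i : ℝ)) (full T F) with hx
  have hxalg : IsAlgebraic ℚ x := by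
    apply isAlgebraic_eval
    intro μ
    rw [full_coeff]
    split_ifs with h
    · exact halg μ h
    · exact isAlgebraic_zero
  obtain ⟨κ, hκ, N1, hdio⟩ := dioph1 x hxalg hv B 1 (ε / 8) (by positivity)
  set W : ℝ := ∑ i, |((Q : ℝ) * v i)| with hW
  have hW0 : 0 ≤ W := sum_nonneg fun _ _ => abs_nonneg _
  obtain ⟨c', hc', N2, hrough⟩ := rough_num r D hD ε κ W hε hκ hW0
  obtain ⟨N3, hN3⟩ := eventually_atTop.1 ((pow_le_exp ((Q : ℝ) ^ D) 0 (κ / 2) (by positivity)).and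
    (eventually_ge_atTop 1))
  set c : ℝ := min c' (κ / 2) with hc
  have hc0 : 0 < c := lt_min hc' (by positivity)
  have hcc' : c ≤ c' := min_le_left _ _
  have hcκ : c ≤ κ / 2 := min_le_right _ _
  refine ⟨c, hc0, max N1 (max N2 N3), fun N hN g hg R J M hM b hb hbB p hp h hh1 hh u hu hind => ?_⟩
  have hNa : N1 ≤ N := (le_max_left _ _).trans hN
  have hNb : N2 ≤ N := ((le_max_left _ _).trans (le_max_right _ _)).trans hN
  obtain ⟨hNc, hNd⟩ := hN3 N (((le_max_right _ _).trans (le_max_right _ _)).trans hN)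
  rw [pow_zero, mul_one] at hNc
  have hNR : (1 : ℝ) ≤ N := by exact_mod_cast hNd
  have hQR : (0 : ℝ) < Q := by exact_mod_cast hQ
  set V : ℕ := h * b ^ p with hV
  have hfullV : full T (MvPolynomial.C (V : ℝ) * F) = MvPolynomial.C (V : ℝ) * full T F := by
    ext μ
    rw [full_coeff, MvPolynomial.coeff_C_mul, MvPolynomial.coeff_C_mul, full_coeff]
    split_ifs <;> simp
  have h1 := hrough N hNb T hTne (MvPolynomial.C (V : ℝ) * F) (MvPolynomial.C (V : ℝ) * g) (by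
    have := (MvPolynomial.isHomogeneous_C (Fin r) (V : ℝ)).mul hF
    rwa [zero_add] at this) (by
    refine lt_of_le_of_lt (MvPolynomial.totalDegree_mul _ _) ?_
    rw [MvPolynomial.totalDegree_C, zero_add]
    exact hg) (MvPolynomial.C (V : ℤ) * R) Q hQ v le_rfl (by
    intro q hq0 hq z
    have e1 : ∑ y : Fin 1, ((fun _ : Fin 1 => q * (Q : ℤ) ^ D * (h : ℤ)) y) *
        (((fun _ : Fin 1 => b) y : ℕ) : ℤ) ^ ((fun _ : Fin 1 => p) y) =
          q * (Q : ℤ) ^ D * V := by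
      rw [Fin.sum_univ_one, hV]
      push_cast
      ring
    have h2 := hdio (2 * N) (by omega) (fun _ => b) (fun _ => p) (fun _ => hb)
      (fun _ => hbB) (fun _ => by omega) (fun _ => q * (Q : ℤ) ^ D * (h : ℤ)) (fun _ => by
        push_cast
        rw [abs_mul, abs_mul]
        rw [abs_of_nonneg (by positivity : (0 : ℝ) ≤ (Q : ℝ) ^ D),
          abs_of_nonneg (by positivity : (0 : ℝ) ≤ (h : ℝ))]
        calc |(q : ℝ)| * (Q : ℝ) ^ D * h ≤
            Real.exp (κ * N) * Real.exp (κ / 2 * N) * Real.exp (c * N) := by gcongr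
          _ ≤ Real.exp (κ * N) * Real.exp (κ / 2 * N) * Real.exp (κ / 2 * N) := by gcongr
          _ = Real.exp (κ * (2 * N)) := by
            rw [← Real.exp_add, ← Real.exp_add]
            congr 1
            ring) (by
        rw [e1]
        refine mul_ne_zero (mul_ne_zero hq0 (by positivity)) ?_
        have : 0 < V := by
          rw [hV]
          positivity
        exact_mod_cast this.ne') z
    rw [e1] at h2
    rw [hfullV, map_mul, MvPolynomial.eval_C]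
    have e2 : -(ε / 8 * ((2 * N : ℕ) : ℝ)) = -(ε / 4 * N) := by
      push_cast
      ring
    rw [e2] at h2
    refine lt_of_lt_of_eq h2 ?_
    congr 1
    push_cast
    ring) J M hM u hu hind
  have h3 : Real.exp (-(c' * N)) ≤ Real.exp (-(c * N)) := by
    apply Real.exp_le_exp.2
    have : c * N ≤ c' * N := by gcongr
    linarith
  have hV0 : 0 ≤ ∏ i, (M i : ℝ) := prod_nonneg fun _ _ => Nat.cast_nonneg _
  refine le_trans (le_of_eq ?_) (h1.trans (by gcongr))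
  congr 1
  refine sum_congr rfl fun k _ => ?_
  congr 2
  rw [map_mul, map_mul, map_mul, MvPolynomial.eval_C, MvPolynomial.eval_C]
  push_cast
  field_simp

/-- **Digits of the values of a polynomial: sub-Gaussian tails.** -/
theorem cylG (r D : ℕ) (hD : 1 ≤ D) (T : Finset (Fin r)) (F : MvPolynomial (Fin r) ℝ)
    (hF : F.IsHomogeneous D) (halg : ∀ μ, μ.support = T → IsAlgebraic ℚ (F.coeff μ))
    (hirr : ∃ μ, μ.support = T ∧ Irrational (F.coeff μ)) (Q : ℕ) (hQ : 1 ≤ Q)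
    (B : ℕ) (ε : ℝ) (hε : 0 < ε) :
    ∃ κ : ℝ, 0 < κ ∧ ∃ N₀ : ℕ, ∀ N : ℕ, N₀ ≤ N → ∀ g : MvPolynomial (Fin r) ℝ, g.totalDegree < D →
      ∀ R : MvPolynomial (Fin r) ℤ, ∀ (J : Fin r → ℤ) (M : Fin r → ℕ),
      (∀ i ∈ T, Real.exp (ε * N) ≤ M i) →
      ∀ Z : Fin r → Set (Fin r → ℤ), (∀ i ∈ T, ∀ a z, Function.update a i z ∈ Z i ↔ a ∈ Z i) →
      ∀ γ : Fin r → (Fin r → ℤ) → ℝ, (∀ i ∈ T, ∀ a z, γ i (Function.update a i z) = γ i a) →
      ∀ Ω : Finset (Fin r → ℤ), (∀ a, a ∈ Ω ↔ a ∈ box J M ∧ ∀ i ∈ T, a ∈ Z i) →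
      Real.exp (-(κ * N)) * ∏ i, (M i : ℝ) ≤ Ω.card → ∀ lam : ℝ, 1 ≤ lam →
      ({k | k ∈ Ω ∧ ¬ GoodG B N (lam * (Real.log N) ^ 3)
        (MvPolynomial.eval (fun i => (k i : ℝ)) F + MvPolynomial.eval (fun i => (k i : ℝ)) g +
          (MvPolynomial.eval k R : ℤ) / Q + ∑ i ∈ T, γ i k)}.ncard : ℝ) ≤
        Real.exp (-(lam ^ 2)) * Ω.card := by
  classical
  obtain ⟨c, hc, N2, hsum⟩ := rough_G r D hD T F hF halg hirr Q hQ B ε hε
  obtain ⟨N1, hcrit⟩ := criterionG B (c / 2) (by positivity)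
  refine ⟨c / 2, by positivity, max N1 N2, fun N hN g hg R J M hM Z hZ γ hγ Ω hΩ hdens => ?_⟩
  have hNa : N1 ≤ N := (le_max_left _ _).trans hN
  have hNb : N2 ≤ N := (le_max_right _ _).trans hN
  have hN0 : (0 : ℝ) ≤ N := Nat.cast_nonneg _
  refine hcrit N hNa (Fin r → ℤ) Ω (fun k => MvPolynomial.eval (fun i => (k i : ℝ)) F +
    MvPolynomial.eval (fun i => (k i : ℝ)) g + (MvPolynomial.eval k R : ℤ) / Q +
      ∑ i ∈ T, γ i k) ?_
  intro b hb hbB p hp h hh1 hh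
  set Λ : ℕ := h * b ^ p with hΛ
  set f : (Fin r → ℤ) → ℝ := fun k => MvPolynomial.eval (fun i => (k i : ℝ)) F +
    MvPolynomial.eval (fun i => (k i : ℝ)) g + (MvPolynomial.eval k R : ℤ) / Q with hf
  set u : Fin r → (Fin r → ℤ) → ℂ := fun i a =>
    if a ∈ Z i then e (Λ * γ i a) else 0 with hu
  have h1 := hsum N hNb g hg R J M hM b hb hbB p hp h hh1 (hh.trans (by
    apply Real.exp_le_exp.2
    nlinarith)) u (by
    intro i a
    rw [hu]
    simp only
    split_ifs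
    · exact (norm_e _).le
    · simp) (by
    intro i hi a z
    rw [hu]
    simp only
    rw [hγ i hi]
    simp only [hZ i hi])
  have h2 : ∑ ω ∈ Ω, e (h * ((MvPolynomial.eval (fun i => (ω i : ℝ)) F +
      MvPolynomial.eval (fun i => (ω i : ℝ)) g + (MvPolynomial.eval ω R : ℤ) / Q +
        ∑ i ∈ T, γ i ω) * (b : ℝ) ^ p)) =
      ∑ k ∈ box J M, (∏ i ∈ T, u i k) * e (Λ * f k) := by
    have e1 : Ω = (box J M).filter (fun a => ∀ i ∈ T, a ∈ Z i) := by
      ext a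
      rw [hΩ, mem_filter]
    rw [e1, sum_filter]
    refine sum_congr rfl fun k _ => ?_
    split_ifs with hk
    · have e2 : ∏ i ∈ T, u i k = e (Λ * (∑ i ∈ T, γ i k)) := by
        rw [mul_sum, e_sum]
        refine prod_congr rfl fun i hi => ?_
        rw [hu]
        simp only
        rw [if_pos (hk i hi)]
      rw [e2, ← e_add]
      congr 1
      rw [hf, hΛ]
      push_cast
      ring
    · push Not at hk
      obtain ⟨i, hiT, hi⟩ := hk
      rw [prod_eq_zero hiT, zero_mul]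
      rw [hu]
      simp only
      rw [if_neg hi]
  rw [h2]
  set V : ℝ := ∏ i, (M i : ℝ) with hV
  have hV0 : 0 ≤ V := prod_nonneg fun _ _ => Nat.cast_nonneg _
  calc ‖∑ k ∈ box J M, (∏ i ∈ T, u i k) * e (Λ * f k)‖ ≤ V * Real.exp (-(c * N)) := h1
    _ = Real.exp (-(c / 2 * N)) * (Real.exp (-(c / 2 * N)) * V) := by
      rw [← mul_assoc, ← Real.exp_add, mul_comm]
      congr 2
      ring
    _ ≤ Real.exp (-(c / 2 * N)) * Ω.card := by gcongr

end Pool.Agent.J6H30.PV
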