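import Pool.Agent.J6H30.PV.Lac

/-!
# A criterion for the joint distribution of the digits of a number in several bases
-/

set_option autoImplicit false

namespace Pool.Agent.J6H30.PV

open Finset Filter Topology
open Pool.Agent.H469R2.NK (e norm_e e_add e_zero conj_e)
open Pool.Agent.R485.Mult (sg abs_sg)

/-- a set of natural numbers with small differences is small -/
lemma card_le_of_diff (S : Finset ℕ) (D : ℕ) (hD : ∀ i d, i ∈ S → i + d ∈ S → d < D) :
    S.card ≤ D := by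
  rcases S.eq_empty_or_nonempty with h | h
  · rw [h]
    simp
  · have h1 : S ⊆ Ico (S.min' h) (S.min' h + D) := by
      intro i hi
      have h2 := min'_le S i hi
      have h3 := hD (S.min' h) (i - S.min' h) (min'_mem S h) (by
        rw [Nat.add_sub_cancel' h2]
        exact hi)
      rw [mem_Ico]
      omega
    refine (card_le_card h1).trans ?_
    rw [Nat.card_Ico]
    omega

/-- there are few irregular indices -/
lemma card_irregular {m : ℕ} (b s : Fin m → ℕ) (h : Fin m → ℤ) (h0 : h ≠ 0) (B : ℕ)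
    (hb : ∀ l, 2 ≤ b l) (hbB : ∀ l, b l ≤ B) (hinj : Function.Injective b) (I : Finset ℕ)
    (hI : ∀ i ∈ I, ¬ Reg b s h i) : I.card ≤ m * m * (4 * m * B) := by
  classical
  obtain ⟨l0, hl0⟩ : ∃ l, h l ≠ 0 := by
    by_contra hcon
    push Not at hcon
    exact h0 (funext hcon)
  set S : Fin m × Fin m → Finset ℕ := fun x => if x.1 = x.2 then ∅ else I.filter (fun i =>
    term b s h x.2 i ≤ term b s h x.1 i ∧
      term b s h x.1 i < 4 * (m : ℤ) * term b s h x.2 i) with hS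
  have hsub : I ⊆ (univ : Finset (Fin m × Fin m)).biUnion S := by
    intro i hi
    obtain ⟨l, _, hl⟩ := exists_max_image univ (fun l => term b s h l i) ⟨l0, mem_univ l0⟩
    have hpos : 0 < term b s h l i := by
      refine lt_of_lt_of_le ?_ (hl l0 (mem_univ _))
      unfold term
      have := hb l0
      have := abs_pos.2 hl0
      positivity
    have hnr := hI i hi
    unfold Reg at hnr
    push Not at hnr
    obtain ⟨l', hne, hlt⟩ := hnr l hpos
    rw [mem_biUnion]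
    refine ⟨(l, l'), mem_univ _, ?_⟩
    rw [hS]
    simp only
    rw [if_neg (Ne.symm hne), mem_filter]
    exact ⟨hi, hl l' (mem_univ _), hlt⟩
  refine (card_le_card hsub).trans (card_biUnion_le.trans ?_)
  have h1 : ∀ x ∈ (univ : Finset (Fin m × Fin m)), (S x).card ≤ 4 * m * B := by
    intro x _
    rw [hS]
    simp only
    split_ifs with hx
    · simp
    · apply card_le_of_diff
      intro i d hi hid
      obtain ⟨_, h2, h3⟩ := mem_filter.1 hi
      obtain ⟨_, h4, h5⟩ := mem_filter.1 hid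
      exact comparable b s h B hb hbB x.1 x.2 (fun hh => hx (hinj hh)) i d h2 h3 h4 h5
  refine (sum_le_sum h1).trans (le_of_eq ?_)
  rw [sum_const, card_univ, Fintype.card_prod, Fintype.card_fin, smul_eq_mul]

/-- the moments over lacunary sets of indices -/
lemma momentJ (σ : ℕ) (hσ : 1 ≤ σ) (N : ℕ) (hN : 1 ≤ N) (a : ℕ → ℤ) (n : ℕ) (hn1 : 1 ≤ n)
    (hn : n ≤ N) (I : Finset ℕ) (hIn : I ⊆ Icc 1 n) (ha : ∀ i ∈ I, a i ≠ 0)
    (hlac : ∀ i ∈ I, ∀ i' ∈ I, i < i' → 2 * (σ : ℤ) * |a i| < |a i'|) {ι : Type} (Ω : Finset ι)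
    (z : ι → ℝ)
    (hz : ∀ p : Fin (2 * σ) → ℕ, (∀ t, p t ≤ N) → ∑ t : Fin (2 * σ), sg t * a (p t) ≠ 0 →
      ‖∑ ω ∈ Ω, e (((∑ t : Fin (2 * σ), sg t * a (p t) : ℤ) : ℝ) * z ω)‖ * (N : ℝ) ^ (2 * σ) ≤
        Ω.card) :
    ∑ ω ∈ Ω, ‖∑ i ∈ I, e ((a i : ℝ) * z ω)‖ ^ (2 * σ) ≤
      Ω.card * (σ ^ (2 * σ) + 1 : ℕ) * (n : ℝ) ^ σ := by
  classical
  have hNR : (1 : ℝ) ≤ N := by exact_mod_cast hN
  have hN0 : (0 : ℝ) < N := by linarith
  set M : ℝ := (Ω.card : ℝ) with hM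
  have hM0 : 0 ≤ M := Nat.cast_nonneg _
  set V : (Fin (2 * σ) → ℕ) → ℤ := fun p => ∑ t : Fin (2 * σ), sg t * a (p t) with hV
  set PP := Fintype.piFinset (fun _ : Fin (2 * σ) => I) with hPP
  have hIc : I.card ≤ n := by
    have := card_le_card hIn
    rw [Nat.card_Icc] at this
    omega
  have e1 : ∀ ω (p : Fin (2 * σ) → ℕ), ∑ t : Fin (2 * σ), (sg t : ℝ) * ((a (p t) : ℝ) * z ω) =
      ((V p : ℤ) : ℝ) * z ω := by
    intro ω p
    rw [hV]
    push_cast
    rw [sum_mul]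
    exact sum_congr rfl fun t _ => by ring
  have h1 : ((∑ ω ∈ Ω, ‖∑ i ∈ I, e ((a i : ℝ) * z ω)‖ ^ (2 * σ) : ℝ) : ℂ) =
      ∑ p ∈ PP, ∑ ω ∈ Ω, e (((V p : ℤ) : ℝ) * z ω) := by
    rw [Complex.ofReal_sum, sum_comm]
    refine sum_congr rfl fun ω _ => ?_
    rw [pow_expand']
    exact sum_congr rfl fun p _ => by rw [e1]
  have h2 : ∑ ω ∈ Ω, ‖∑ i ∈ I, e ((a i : ℝ) * z ω)‖ ^ (2 * σ) =
      ‖∑ p ∈ PP, ∑ ω ∈ Ω, e (((V p : ℤ) : ℝ) * z ω)‖ := by
    rw [← h1, Complex.norm_real, Real.norm_eq_abs, abs_of_nonneg]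
    exact sum_nonneg fun ω _ => by positivity
  rw [h2]
  have h3 : ∀ p ∈ PP, ‖∑ ω ∈ Ω, e (((V p : ℤ) : ℝ) * z ω)‖ ≤
      (if V p = 0 then M else 0) + M / (N : ℝ) ^ (2 * σ) := by
    intro p hp
    split_ifs with hp0
    · have : ‖∑ ω ∈ Ω, e (((V p : ℤ) : ℝ) * z ω)‖ ≤ M := by
        refine (norm_sum_le _ _).trans ?_
        rw [sum_congr rfl fun ω _ => norm_e _]
        simp [hM]
      have h5 : 0 ≤ M / (N : ℝ) ^ (2 * σ) := by positivity
      linarith
    · rw [zero_add, le_div_iff₀ (by positivity)]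
      refine hz p (fun j => ?_) hp0
      have := hIn ((Fintype.mem_piFinset.1 hp) j)
      rw [mem_Icc] at this
      omega
  refine (norm_sum_le _ _).trans ((sum_le_sum h3).trans ?_)
  rw [sum_add_distrib, ← sum_filter, sum_const, sum_const, nsmul_eq_mul, nsmul_eq_mul]
  have h7 := count_lac σ hσ a I ha hlac
  have h8 : (((PP.filter (fun p => V p = 0)).card : ℕ) : ℝ) ≤ (σ : ℝ) ^ (2 * σ) * (n : ℝ) ^ σ := by
    have h9 : σ ^ (2 * σ) * I.card ^ σ ≤ σ ^ (2 * σ) * n ^ σ :=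
      Nat.mul_le_mul_left _ (Nat.pow_le_pow_left hIc _)
    have h10 := h7.trans h9
    have h11 : (((PP.filter (fun p => V p = 0)).card : ℕ) : ℝ) ≤ ((σ ^ (2 * σ) * n ^ σ : ℕ) : ℝ) := by
      exact_mod_cast h10
    push_cast at h11
    exact h11
  have h9 : ((PP.card : ℕ) : ℝ) ≤ (N : ℝ) ^ (2 * σ) := by
    rw [hPP, Fintype.card_piFinset]
    simp only [prod_const, card_univ, Fintype.card_fin]
    push_cast
    exact pow_le_pow_left₀ (Nat.cast_nonneg _) (by exact_mod_cast hIc.trans hn) _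
  have hn1R : (1 : ℝ) ≤ (n : ℝ) ^ σ := one_le_pow₀ (by exact_mod_cast hn1)
  calc (((PP.filter (fun p => V p = 0)).card : ℕ) : ℝ) * M +
      ((PP.card : ℕ) : ℝ) * (M / (N : ℝ) ^ (2 * σ))
      ≤ ((σ : ℝ) ^ (2 * σ) * (n : ℝ) ^ σ) * M + (N : ℝ) ^ (2 * σ) * (M / (N : ℝ) ^ (2 * σ)) := by
        gcongr
    _ = ((σ : ℝ) ^ (2 * σ) * (n : ℝ) ^ σ) * M + M := by
        congr 1
        field_simp
    _ ≤ ((σ : ℝ) ^ (2 * σ) * (n : ℝ) ^ σ) * M + M * (n : ℝ) ^ σ := by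
        have := mul_le_mul_of_nonneg_left hn1R hM0
        linarith
    _ = M * (σ ^ (2 * σ) + 1 : ℕ) * (n : ℝ) ^ σ := by
        push_cast
        ring

/-- the digits of `z` in the bases `b l` at the places `s l + i` have the joint discrepancy `E √n` -/
def GoodJ {m : ℕ} (b : Fin m → ℕ) (N : ℕ) (E z : ℝ) : Prop :=
  ∀ s : Fin m → ℕ, (∀ l, s l ≤ N) → ∀ n : ℕ, n ≤ N →
    ∀ α β : Fin m → ℝ, (∀ l, 0 ≤ α l) → (∀ l, α l < β l) → (∀ l, β l ≤ 1) →
    |(((Icc 1 n).filter (fun i : ℕ => ∀ l, α l ≤ Int.fract (z * (b l : ℝ) ^ (s l + i)) ∧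
      Int.fract (z * (b l : ℝ) ^ (s l + i)) < β l)).card : ℝ) - (∏ l, (β l - α l)) * n| ≤
        E * Real.sqrt n

/-- **The criterion for several bases.** -/
theorem criterionJ {m : ℕ} (b : Fin m → ℕ) (hb : ∀ l, 2 ≤ b l) (hinj : Function.Injective b) (δ : ℝ)
    (hδ : 0 < δ) (A : ℕ) : ∃ σ N₀ : ℕ, 1 ≤ σ ∧ ∀ N : ℕ, N₀ ≤ N →
    ∀ (ι : Type) (Ω : Finset ι) (z : ι → ℝ),
    (∀ s : Fin m → ℕ, (∀ l, s l ≤ N) → ∀ h : Fin m → ℤ, (∀ l, |h l| ≤ N) →
      ∀ p : Fin (2 * σ) → ℕ, (∀ t, p t ≤ N) → ∑ t : Fin (2 * σ), sg t * asum b s h (p t) ≠ 0 →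
      ‖∑ ω ∈ Ω, e (((∑ t : Fin (2 * σ), sg t * asum b s h (p t) : ℤ) : ℝ) * z ω)‖ *
        (N : ℝ) ^ (2 * σ) ≤ Ω.card) →
    ({ω | ω ∈ Ω ∧ ¬ GoodJ b N ((N : ℝ) ^ δ) (z ω)}.ncard : ℝ) * (N : ℝ) ^ A ≤ Ω.card := by
  classical
  set B : ℕ := univ.sup b with hB
  have hbB : ∀ l, b l ≤ B := fun l => le_sup (f := b) (mem_univ l)
  set σ : ℕ := max 1 ⌈((A : ℝ) + 2 * m + 2) / δ⌉₊ with hs
  have hs1 : 1 ≤ σ := le_max_left _ _
  have hsδ : (A : ℝ) + 2 * m + 2 ≤ σ * δ := by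
    have h0 : ⌈((A : ℝ) + 2 * m + 2) / δ⌉₊ ≤ σ := le_max_right _ _
    have h1 : ((A : ℝ) + 2 * m + 2) / δ ≤ σ := (Nat.le_ceil _).trans (Nat.cast_le.2 h0)
    rwa [div_le_iff₀ hδ] at h1
  set K : ℕ := 4 * σ with hK
  have hK1 : 1 ≤ K := by omega
  have hK2 : 4 * σ ≤ 2 ^ K := (Nat.lt_two_pow_self (n := K)).le
  have hKR : (0 : ℝ) < K := by exact_mod_cast hK1
  set Ci : ℕ := m * m * (4 * m * B) with hCi
  set C : ℕ := (σ ^ (2 * σ) + 1) * (2 * K) ^ (2 * σ) with hC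
  set C' : ℕ := (2 ^ m * (3 ^ m * K)) * C with hC'
  obtain ⟨N2, hN2⟩ := eventually_atTop.1 ((log_pow_le ((m + 1) * (1 + 6 * m)) 12 m (δ / 2)
    (by positivity) (by norm_num)).and (((tendsto_rpow_atTop (by positivity : 0 < δ / 2)).comp
      tendsto_natCast_atTop_atTop).eventually_ge_atTop (2 * (Ci : ℝ))))
  refine ⟨σ, max N2 (max 1 C'), hs1, fun N hN ι Ω z hz => ?_⟩
  obtain ⟨hNc, hNi⟩ := hN2 N ((le_max_left _ _).trans hN)
  simp only [Function.comp] at hNi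
  have hNd : 1 ≤ N := ((le_max_left _ _).trans (le_max_right _ _)).trans hN
  have hNe : C' ≤ N := ((le_max_right _ _).trans (le_max_right _ _)).trans hN
  have hNR : (1 : ℝ) ≤ N := by exact_mod_cast hNd
  have hN0 : (0 : ℝ) < N := by linarith
  set M : ℝ := (Ω.card : ℝ) with hM
  have hM0 : 0 ≤ M := Nat.cast_nonneg _
  have hNδ0 : 0 < (N : ℝ) ^ (δ / 2) := Real.rpow_pos_of_pos hN0 _
  set T : ℕ → ℝ := fun n => Real.sqrt n * (N : ℝ) ^ (δ / 2) with hTd
  have hT0 : ∀ n : ℕ, 1 ≤ n → 0 < T n := by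
    intro n hn
    have : (0 : ℝ) < n := by exact_mod_cast hn
    rw [hTd]
    positivity
  have hTs : ∀ n : ℕ, (T n / (2 * K)) ^ (2 * σ) = (n : ℝ) ^ σ * (N : ℝ) ^ (σ * δ) / (2 * K) ^ (2 * σ) := by
    intro n
    rw [div_pow, hTd]
    simp only
    rw [mul_pow, pow_mul (Real.sqrt n), Real.sq_sqrt (Nat.cast_nonneg _),
      ← Real.rpow_natCast ((N : ℝ) ^ (δ / 2)), ← Real.rpow_mul hN0.le]
    congr 3
    push_cast
    ring
  have hTs2 : ∀ n : ℕ, (n : ℝ) ^ σ * (N : ℝ) ^ (A + 2 * m + 2) / (2 * K) ^ (2 * σ) ≤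
      (T n / (2 * K)) ^ (2 * σ) := by
    intro n
    rw [hTs]
    gcongr
    rw [← Real.rpow_natCast]
    apply Real.rpow_le_rpow_of_exponent_le hNR
    push_cast
    exact hsδ
  -- the sums
  set Ix : (Fin m → ℕ) → (Fin m → ℤ) → ℕ → ℕ → Finset ℕ := fun s h n ρ =>
    ((Icc 1 n).filter (fun i => Reg b s h i)).filter (fun i => i % K = ρ) with hIx
  set S : (Fin m → ℕ) → (Fin m → ℤ) → ℕ → ℕ → ι → ℝ := fun s h n ρ ω =>
    ‖∑ i ∈ Ix s h n ρ, e ((asum b s h i : ℝ) * z ω)‖ with hS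
  set E : (Fin m → ℕ) → (Fin m → ℤ) → ℕ → ℕ → Finset ι := fun s h n ρ =>
    Ω.filter (fun ω => T n / (2 * K) < S s h n ρ ω) with hE
  have hEc : ∀ s : Fin m → ℕ, (∀ j, s j ≤ N) →
      ∀ h : Fin m → ℤ, (∀ j, |h j| ≤ N) → ∀ n : ℕ, 1 ≤ n → n ≤ N → ∀ ρ : ℕ,
      ((E s h n ρ).card : ℝ) ≤ M * C / N ^ (A + 2 * m + 2) := by
    intro s hs h hh n hn1 hn ρ
    have hn0 : (0 : ℝ) < n := by exact_mod_cast hn1
    have h1 := momentJ σ hs1 N hNd (asum b s h) n hn1 hn (Ix s h n ρ)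
      ((filter_subset _ _).trans (filter_subset _ _)) (by
        intro i hi
        exact reg_ne_zero b s h i (mem_filter.1 (mem_filter.1 hi).1).2) (by
        intro i hi i' hi' hlt
        obtain ⟨h2, h3⟩ := mem_filter.1 hi
        obtain ⟨h4, h5⟩ := mem_filter.1 hi'
        refine reg_lac b s h hb σ K hK2 i i' (mem_filter.1 h2).2 (mem_filter.1 h4).2 ?_
        have h6 : i % K = i' % K := h3.trans h5.symm
        have h7 : K ∣ i' - i := (Nat.modEq_iff_dvd' hlt.le).1 h6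
        have h8 := Nat.le_of_dvd (by omega) h7
        omega) Ω z (fun p hp hne => hz s hs h hh p hp hne)
    have h2 := cheb Ω (S s h n ρ) (fun ω => norm_nonneg _) (2 * σ) (T n / (2 * K)) _
      (by have := hT0 n hn1; positivity) h1
    have h4 : ((E s h n ρ).card : ℝ) * ((n : ℝ) ^ σ * (N : ℝ) ^ (A + 2 * m + 2) / (2 * K) ^ (2 * σ)) ≤
        M * (σ ^ (2 * σ) + 1 : ℕ) * n ^ σ :=
      (mul_le_mul_of_nonneg_left (hTs2 n) (Nat.cast_nonneg _)).trans h2
    rw [le_div_iff₀ (by positivity)]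
    have hnσ : (0 : ℝ) < (n : ℝ) ^ σ := by positivity
    have hKσ : (0 : ℝ) < (2 * (K : ℝ)) ^ (2 * σ) := by positivity
    have h5 : ((E s h n ρ).card : ℝ) * (N : ℝ) ^ (A + 2 * m + 2) * n ^ σ ≤ M * C * n ^ σ := by
      calc ((E s h n ρ).card : ℝ) * (N : ℝ) ^ (A + 2 * m + 2) * n ^ σ =
          ((E s h n ρ).card : ℝ) * ((n : ℝ) ^ σ * (N : ℝ) ^ (A + 2 * m + 2) / (2 * K) ^ (2 * σ)) *
            (2 * K) ^ (2 * σ) := by
            field_simp
        _ ≤ (M * (σ ^ (2 * σ) + 1 : ℕ) * n ^ σ) * (2 * K) ^ (2 * σ) :=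
            mul_le_mul_of_nonneg_right h4 hKσ.le
        _ = M * C * n ^ σ := by
            rw [hC]
            push_cast
            ring
    exact le_of_mul_le_mul_right h5 hnσ
  set IX : Finset ((Fin m → ℕ) × (Fin m → ℤ) × ℕ × ℕ) :=
    (Fintype.piFinset (fun _ : Fin m => range (N + 1))) ×ˢ
      (Fintype.piFinset (fun _ : Fin m => Icc (-(N : ℤ)) N)) ×ˢ (Icc 1 N) ×ˢ (range K) with hIX
  set U : Finset ι := IX.biUnion fun x => E x.1 x.2.1 x.2.2.1 x.2.2.2 with hU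
  have hIXc : (IX.card : ℝ) * C ≤ C' * N ^ (2 * m + 1) := by
    have h1 : IX.card ≤ (2 * N) ^ m * ((3 * N) ^ m * (N * K)) := by
      rw [hIX, card_product, card_product, card_product, Fintype.card_piFinset,
        Fintype.card_piFinset]
      refine Nat.mul_le_mul ?_ (Nat.mul_le_mul ?_ (Nat.mul_le_mul ?_ ?_))
      · simp only [card_range, prod_const, card_univ, Fintype.card_fin]
        exact Nat.pow_le_pow_left (by omega) m
      · simp only [Int.card_Icc, prod_const, card_univ, Fintype.card_fin]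
        exact Nat.pow_le_pow_left (by omega) m
      · rw [Nat.card_Icc]
        omega
      · rw [card_range]
    have h2 : ((IX.card : ℕ) : ℝ) ≤ (((2 * N) ^ m * ((3 * N) ^ m * (N * K)) : ℕ) : ℝ) := by
      exact_mod_cast h1
    calc (IX.card : ℝ) * C ≤ (((2 * N) ^ m * ((3 * N) ^ m * (N * K)) : ℕ) : ℝ) * C := by
          gcongr
      _ = C' * N ^ (2 * m + 1) := by
          rw [hC']
          push_cast
          rw [mul_pow, mul_pow]
          ring
  have hUc : (U.card : ℝ) ≤ IX.card * (M * C / N ^ (A + 2 * m + 2)) := by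
    refine (Nat.cast_le.2 card_biUnion_le).trans ?_
    push_cast
    have h1 : ∀ x ∈ IX, ((E x.1 x.2.1 x.2.2.1 x.2.2.2).card : ℝ) ≤ M * C / N ^ (A + 2 * m + 2) := by
      rintro ⟨s, h, n, ρ⟩ hx
      rw [hIX, mem_product, mem_product, mem_product, Fintype.mem_piFinset,
        Fintype.mem_piFinset, mem_Icc, mem_range] at hx
      obtain ⟨h2, h4, ⟨h5, h6⟩, h7⟩ := hx
      refine hEc s (fun j => ?_) h (fun j => ?_) n h5 h6 ρ
      · have := mem_range.1 (h2 j)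
        simp only at this
        omega
      · have := mem_Icc.1 (h4 j)
        rw [abs_le]
        exact this
    refine (sum_le_sum h1).trans ?_
    rw [sum_const, nsmul_eq_mul]
  have hfin : (U.card : ℝ) * N ^ A ≤ M := by
    calc (U.card : ℝ) * N ^ A ≤ IX.card * (M * C / N ^ (A + 2 * m + 2)) * N ^ A :=
          mul_le_mul_of_nonneg_right hUc (by positivity)
      _ = (IX.card * C) * (M / N ^ (2 * m + 2)) := by
          rw [show A + 2 * m + 2 = (2 * m + 2) + A by ring, pow_add]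
          field_simp
      _ ≤ (C' * N ^ (2 * m + 1)) * (M / N ^ (2 * m + 2)) :=
          mul_le_mul_of_nonneg_right hIXc (by positivity)
      _ = M * (C' / N) := by
          rw [show 2 * m + 2 = (2 * m + 1) + 1 by ring, pow_succ]
          field_simp
          ring
      _ ≤ M * 1 := by
          apply mul_le_mul_of_nonneg_left _ hM0
          rw [div_le_one hN0]
          exact_mod_cast hNe
      _ = M := mul_one _
  refine le_trans ?_ hfin
  apply mul_le_mul_of_nonneg_right _ (by positivity)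
  rw [← Set.ncard_coe_finset U]
  refine Nat.cast_le.2 (Set.ncard_le_ncard ?_ (finite_toSet U))
  rintro ω ⟨hω, hbad⟩
  rw [mem_coe]
  by_contra hmU
  apply hbad
  intro s hsN n hn α β h0 h1 h2
  rcases Nat.eq_zero_or_pos n with hn0 | hn1
  · subst hn0
    simp
  have hsqrt : (1 : ℝ) ≤ Real.sqrt n := by
    rw [show (1 : ℝ) = Real.sqrt 1 by simp]
    exact Real.sqrt_le_sqrt (by exact_mod_cast hn1)
  have hT : ∀ h : Fin m → ℤ, h ≠ 0 → (∀ j, |h j| ≤ N) →
      ‖∑ i ∈ Icc 1 n, e (∑ j, h j * (z ω * (b j : ℝ) ^ (s j + i)))‖ ≤ T n := by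
    intro h hh0 hh
    have e1 : ∀ i, ∑ j, (h j : ℝ) * (z ω * (b j : ℝ) ^ (s j + i)) = (asum b s h i : ℝ) * z ω := by
      intro i
      unfold asum
      push_cast
      rw [sum_mul]
      exact sum_congr rfl fun j _ => by ring
    simp_rw [e1]
    have e2 : ∑ i ∈ Icc 1 n, e ((asum b s h i : ℝ) * z ω) =
        ∑ ρ ∈ range K, ∑ i ∈ Ix s h n ρ, e ((asum b s h i : ℝ) * z ω) +
          ∑ i ∈ (Icc 1 n).filter (fun i => ¬ Reg b s h i), e ((asum b s h i : ℝ) * z ω) := by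
      rw [← sum_filter_add_sum_filter_not (Icc 1 n) (fun i => Reg b s h i)]
      congr 1
      rw [sum_fiberwise_of_maps_to]
      intro i _
      rw [mem_range]
      exact Nat.mod_lt _ (by omega)
    rw [e2]
    have h3 : ∀ ρ ∈ range K, ‖∑ i ∈ Ix s h n ρ, e ((asum b s h i : ℝ) * z ω)‖ ≤ T n / (2 * K) := by
      intro ρ hρ
      by_contra hcon
      push Not at hcon
      apply hmU
      rw [hU, mem_biUnion]
      refine ⟨⟨s, h, n, ρ⟩, ?_, ?_⟩
      · rw [hIX, mem_product, mem_product, mem_product, Fintype.mem_piFinset,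
          Fintype.mem_piFinset, mem_Icc]
        refine ⟨fun j => ?_, fun j => ?_, ⟨hn1, hn⟩, hρ⟩
        · have := hsN j
          simp only [mem_range]
          omega
        · have := abs_le.1 (hh j)
          exact mem_Icc.2 this
      · rw [hE]
        simp only [mem_filter]
        exact ⟨hω, hcon⟩
    have h4 : ‖∑ i ∈ (Icc 1 n).filter (fun i => ¬ Reg b s h i), e ((asum b s h i : ℝ) * z ω)‖ ≤ Ci := by
      refine (norm_sum_le _ _).trans ?_
      rw [sum_congr rfl fun i _ => norm_e _, sum_const, nsmul_eq_mul, mul_one]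
      have := card_irregular b s h hh0 B hb hbB hinj ((Icc 1 n).filter (fun i => ¬ Reg b s h i))
        (fun i hi => (mem_filter.1 hi).2)
      exact_mod_cast this
    have h5 : ‖∑ ρ ∈ range K, ∑ i ∈ Ix s h n ρ, e ((asum b s h i : ℝ) * z ω)‖ ≤ T n / 2 := by
      refine (norm_sum_le _ _).trans ((sum_le_sum h3).trans (le_of_eq ?_))
      rw [sum_const, card_range, nsmul_eq_mul]
      field_simp
    have h6 : (Ci : ℝ) ≤ T n / 2 := by
      have : (N : ℝ) ^ (δ / 2) ≤ T n := by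
        rw [hTd]
        simp only
        exact le_mul_of_one_le_left hNδ0.le hsqrt
      linarith
    refine (norm_add_le _ _).trans ?_
    linarith
  have h5 := etk (Icc 1 n) (fun i j => z ω * (b j : ℝ) ^ (s j + i)) N hNd (by
    rw [Nat.card_Icc]
    omega) (T n) (hT0 n hn1).le hT α β h0 h1 h2
  rw [Nat.card_Icc, Nat.add_sub_cancel] at h5
  refine h5.trans ?_
  have h6 : Real.sqrt n ≤ T n := by
    rw [hTd]
    simp only
    exact le_mul_of_one_le_right (Real.sqrt_nonneg _) (Real.one_le_rpow hNR (by positivity))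
  have h7 : (N : ℝ) ^ δ * Real.sqrt n = T n * (N : ℝ) ^ (δ / 2) := by
    rw [hTd]
    simp only
    rw [mul_assoc, ← Real.rpow_add hN0, add_halves, mul_comm]
  rw [h7]
  have hlog : 0 ≤ 12 * (1 + Real.log N) := by
    have := Real.log_nonneg hNR
    positivity
  calc (m + 1) * (T n + 6 * m * Real.sqrt n) * (12 * (1 + Real.log N)) ^ m ≤
      (m + 1) * (T n + 6 * m * T n) * (12 * (1 + Real.log N)) ^ m := by gcongr
    _ = T n * ((m + 1) * (1 + 6 * m) * (12 * (1 + Real.log N)) ^ m) := by ring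
    _ ≤ T n * (N : ℝ) ^ (δ / 2) := mul_le_mul_of_nonneg_left hNc (hT0 n hn1).le

end Pool.Agent.J6H30.PV
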