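import Pool.Agent.J6H30.PV.CritM

/-!
# Sums of powers of several bases: regular indices and vanishing sums
-/

set_option autoImplicit false

namespace Pool.Agent.J6H30.PV

open Finset
open Pool.Agent.R485.Mult (sg abs_sg)

/-- net multiplicities vanish -/
lemma net_zero (σ : ℕ) (hσ : 1 ≤ σ) (a : ℕ → ℤ) (I : Finset ℕ) (ha : ∀ i ∈ I, a i ≠ 0)
    (hlac : ∀ i ∈ I, ∀ i' ∈ I, i < i' → 2 * (σ : ℤ) * |a i| < |a i'|) (p : Fin (2 * σ) → ℕ)
    (hp : ∀ t, p t ∈ I) (hsum : ∑ t : Fin (2 * σ), sg t * a (p t) = 0) (v : ℕ) (hv : v ∈ I) :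
    ∑ t ∈ univ.filter (fun t => p t = v), sg (t : Fin (2 * σ)) = 0 := by
  classical
  set m : ℕ → ℤ := fun v => ∑ t ∈ univ.filter (fun t => p t = v), sg (t : Fin (2 * σ)) with hm
  have h1 : ∑ v ∈ I, m v * a v = 0 := by
    rw [← hsum, ← sum_fiberwise_of_maps_to (s := univ) (t := I) (g := p) (fun t _ => hp t)]
    refine sum_congr rfl fun v _ => ?_
    rw [hm]
    simp only
    rw [sum_mul]
    refine sum_congr rfl fun t ht => ?_
    rw [(mem_filter.1 ht).2]
  have h2 : ∑ v ∈ I, |m v| ≤ 2 * σ := by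
    have h3 : ∀ v ∈ I, |m v| ≤ ((univ.filter (fun t => p t = v)).card : ℤ) := by
      intro v _
      rw [hm]
      refine (abs_sum_le_sum_abs _ _).trans (le_of_eq ?_)
      rw [sum_congr rfl fun t _ => abs_sg _]
      simp
    refine (sum_le_sum h3).trans (le_of_eq ?_)
    have h4 := card_eq_sum_card_fiberwise (s := (univ : Finset (Fin (2 * σ)))) (t := I) (f := p)
      (fun t _ => hp t)
    rw [card_univ, Fintype.card_fin] at h4
    exact_mod_cast h4.symm
  by_contra hcon
  set Z : Finset ℕ := I.filter (fun v => m v ≠ 0) with hZ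
  have hZne : Z.Nonempty := ⟨v, mem_filter.2 ⟨hv, hcon⟩⟩
  set v0 := Z.max' hZne with hv0
  have hv0Z : v0 ∈ Z := max'_mem _ _
  obtain ⟨hv0I, hv0m⟩ := mem_filter.1 hv0Z
  have hv0' : m v0 ≠ 0 := hv0m
  have hbig : ∀ w ∈ I, v0 < w → m w = 0 := by
    intro w hw hlt
    by_contra h
    have := le_max' Z w (mem_filter.2 ⟨hw, h⟩)
    omega
  have h3 : m v0 * a v0 = -∑ w ∈ I.erase v0, m w * a w := by
    rw [← add_sum_erase I _ hv0I] at h1
    linarith
  have ha0 : 0 < |a v0| := abs_pos.2 (ha v0 hv0I)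
  have hm0 : 1 ≤ |m v0| := Int.one_le_abs hv0'
  have h4 : 2 * (σ : ℤ) * |m v0 * a v0| ≤ (∑ w ∈ I.erase v0, |m w|) * |a v0| := by
    rw [h3, abs_neg]
    calc 2 * (σ : ℤ) * |∑ w ∈ I.erase v0, m w * a w| ≤
        2 * (σ : ℤ) * ∑ w ∈ I.erase v0, |m w * a w| :=
          mul_le_mul_of_nonneg_left (abs_sum_le_sum_abs _ _) (by positivity)
      _ = ∑ w ∈ I.erase v0, |m w| * (2 * (σ : ℤ) * |a w|) := by
          rw [mul_sum]
          refine sum_congr rfl fun w _ => ?_
          rw [abs_mul]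
          ring
      _ ≤ ∑ w ∈ I.erase v0, |m w| * |a v0| := by
          refine sum_le_sum fun w hw => ?_
          obtain ⟨hw1, hw2⟩ := mem_erase.1 hw
          rcases lt_or_gt_of_ne hw1 with hlt | hgt
          · exact mul_le_mul_of_nonneg_left (hlac w hw2 v0 hv0I hlt).le (abs_nonneg _)
          · rw [hbig w hw2 hgt]
            simp
      _ = _ := by rw [sum_mul]
  have h5 : |m v0| + ∑ w ∈ I.erase v0, |m w| ≤ 2 * σ := by
    rw [add_sum_erase I (fun w => |m w|) hv0I]
    exact h2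
  have h6 : 2 * (σ : ℤ) * |m v0 * a v0| = (2 * σ * |m v0|) * |a v0| := by
    rw [abs_mul]
    ring
  rw [h6] at h4
  have h7 := le_of_mul_le_mul_right h4 ha0
  have hσ' : (1 : ℤ) ≤ σ := by exact_mod_cast hσ
  nlinarith

/-- the number of vanishing sums of a lacunary sequence -/
theorem count_lac (σ : ℕ) (hσ : 1 ≤ σ) (a : ℕ → ℤ) (I : Finset ℕ) (ha : ∀ i ∈ I, a i ≠ 0)
    (hlac : ∀ i ∈ I, ∀ i' ∈ I, i < i' → 2 * (σ : ℤ) * |a i| < |a i'|) :
    ((Fintype.piFinset (fun _ : Fin (2 * σ) => I)).filter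
      (fun p => ∑ t : Fin (2 * σ), sg t * a (p t) = 0)).card ≤ σ ^ (2 * σ) * I.card ^ σ := by
  classical
  set Φ : (Fin σ → ℕ) × (Fin (2 * σ) → Fin σ) → (Fin (2 * σ) → ℕ) := fun x t => x.1 (x.2 t) with hΦ
  have hsub : ((Fintype.piFinset (fun _ : Fin (2 * σ) => I)).filter
      (fun p => ∑ t : Fin (2 * σ), sg t * a (p t) = 0)) ⊆
      ((Fintype.piFinset (fun _ : Fin σ => I)) ×ˢ (univ : Finset (Fin (2 * σ) → Fin σ))).image Φ := by
    intro p hp
    obtain ⟨hpI, hsum⟩ := mem_filter.1 hp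
    rw [Fintype.mem_piFinset] at hpI
    have hnet := net_zero σ hσ a I ha hlac p hpI hsum
    -- every value is taken twice
    have h2 : ∀ v ∈ univ.image p, 2 ≤ (univ.filter (fun t => p t = v)).card := by
      intro v hv
      obtain ⟨t, _, htv⟩ := mem_image.1 hv
      have hvI : v ∈ I := by rw [← htv]; exact hpI t
      by_contra hcon
      have hpos : 0 < (univ.filter (fun t => p t = v)).card :=
        card_pos.2 ⟨t, mem_filter.2 ⟨mem_univ _, htv⟩⟩
      have hone : (univ.filter (fun t => p t = v)).card = 1 := by omega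
      obtain ⟨t', ht'⟩ := card_eq_one.1 hone
      have h3 := hnet v hvI
      rw [ht', sum_singleton] at h3
      have := abs_sg (t' : ℕ)
      rw [h3] at this
      simp at this
    have h3 : (univ.image p).card ≤ σ := by
      have h4 := card_eq_sum_card_image p (univ : Finset (Fin (2 * σ)))
      rw [card_univ, Fintype.card_fin] at h4
      have h5 := sum_le_sum h2
      rw [sum_const, smul_eq_mul] at h5
      omega
    -- the factorisation
    have hne : (univ.image p).Nonempty := by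
      refine ⟨p ⟨0, by omega⟩, mem_image_of_mem _ (mem_univ _)⟩
    obtain ⟨q, hq⟩ : ∃ q : Fin σ → ℕ, ∀ v, v ∈ univ.image p ↔ ∃ i, q i = v := by
      obtain ⟨v₀, hv₀⟩ := hne
      set e := (univ.image p).equivFin with he
      refine ⟨fun i => if h : (i : ℕ) < (univ.image p).card then ((e.symm ⟨i, h⟩ : univ.image p) : ℕ)
        else v₀, fun v => ⟨fun hv => ?_, ?_⟩⟩
      · refine ⟨⟨e ⟨v, hv⟩, lt_of_lt_of_le (e ⟨v, hv⟩).2 h3⟩, ?_⟩
        simp only
        rw [dif_pos (e ⟨v, hv⟩).2]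
        simp
      · rintro ⟨i, rfl⟩
        beta_reduce
        split_ifs with h
        · exact (e.symm ⟨i, h⟩).2
        · exact hv₀
    have hex : ∀ t, ∃ i, q i = p t := fun t => (hq (p t)).1 (mem_image_of_mem _ (mem_univ _))
    choose π hπ using hex
    rw [mem_image]
    refine ⟨(q, π), ?_, ?_⟩
    · rw [mem_product, Fintype.mem_piFinset]
      refine ⟨fun i => ?_, mem_univ _⟩
      obtain ⟨t, _, ht⟩ := mem_image.1 ((hq (q i)).2 ⟨i, rfl⟩)
      have := hpI t
      rw [ht] at this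
      exact this
    · funext t
      exact hπ t
  refine (card_le_card hsub).trans (card_image_le.trans ?_)
  rw [card_product, Fintype.card_piFinset, card_univ]
  simp only [prod_const, card_univ, Fintype.card_fin, Fintype.card_fun]
  rw [mul_comm]

/-- the terms -/
def term {m : ℕ} (b s : Fin m → ℕ) (h : Fin m → ℤ) (l : Fin m) (i : ℕ) : ℤ :=
  |h l| * (b l : ℤ) ^ (s l + i)

/-- the sum -/
def asum {m : ℕ} (b s : Fin m → ℕ) (h : Fin m → ℤ) (i : ℕ) : ℤ :=
  ∑ l, h l * (b l : ℤ) ^ (s l + i)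

/-- one term is much larger than the others -/
def Reg {m : ℕ} (b s : Fin m → ℕ) (h : Fin m → ℤ) (i : ℕ) : Prop :=
  ∃ l, 0 < term b s h l i ∧ ∀ l', l' ≠ l → 4 * (m : ℤ) * term b s h l' i ≤ term b s h l i

section
variable {m : ℕ} (b s : Fin m → ℕ) (h : Fin m → ℤ)

lemma term_nonneg (l : Fin m) (i : ℕ) : 0 ≤ term b s h l i := by
  unfold term
  positivity

lemma term_add (l : Fin m) (i d : ℕ) : term b s h l (i + d) = term b s h l i * (b l : ℤ) ^ d := by
  unfold term
  rw [← add_assoc, pow_add]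
  ring

/-- the size of the sum at regular indices -/
lemma asum_bounds (l : Fin m) (i : ℕ)
    (hl : ∀ l', l' ≠ l → 4 * (m : ℤ) * term b s h l' i ≤ term b s h l i) :
    3 * term b s h l i ≤ 4 * |asum b s h i| ∧ 4 * |asum b s h i| ≤ 5 * term b s h l i := by
  classical
  have hm : 0 < m := l.pos
  have hmZ : (0 : ℤ) < m := by exact_mod_cast hm
  have h1 : asum b s h i = h l * (b l : ℤ) ^ (s l + i) +
      ∑ l' ∈ univ.erase l, h l' * (b l' : ℤ) ^ (s l' + i) := by
    exact (add_sum_erase univ (fun l => h l * (b l : ℤ) ^ (s l + i)) (mem_univ l)).symm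
  have h2 : |h l * (b l : ℤ) ^ (s l + i)| = term b s h l i := by
    unfold term
    rw [abs_mul, abs_of_nonneg (by positivity : (0 : ℤ) ≤ (b l : ℤ) ^ (s l + i))]
  have h3 : 4 * |∑ l' ∈ univ.erase l, h l' * (b l' : ℤ) ^ (s l' + i)| ≤ term b s h l i := by
    have h4 : (m : ℤ) * (4 * |∑ l' ∈ univ.erase l, h l' * (b l' : ℤ) ^ (s l' + i)|) ≤
        m * term b s h l i := by
      calc (m : ℤ) * (4 * |∑ l' ∈ univ.erase l, h l' * (b l' : ℤ) ^ (s l' + i)|) ≤
          m * (4 * ∑ l' ∈ univ.erase l, |h l' * (b l' : ℤ) ^ (s l' + i)|) := by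
            gcongr
            exact abs_sum_le_sum_abs _ _
        _ = ∑ l' ∈ univ.erase l, 4 * (m : ℤ) * term b s h l' i := by
            rw [mul_sum, mul_sum]
            refine sum_congr rfl fun l' _ => ?_
            unfold term
            rw [abs_mul, abs_of_nonneg (by positivity : (0 : ℤ) ≤ (b l' : ℤ) ^ (s l' + i))]
            ring
        _ ≤ ∑ l' ∈ univ.erase l, term b s h l i :=
            sum_le_sum fun l' hl' => hl l' (ne_of_mem_erase hl')
        _ ≤ ∑ l' : Fin m, term b s h l i :=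
            sum_le_sum_of_subset_of_nonneg (erase_subset _ _) fun _ _ _ => term_nonneg b s h l i
        _ = m * term b s h l i := by
            rw [sum_const, card_univ, Fintype.card_fin, nsmul_eq_mul]
    exact le_of_mul_le_mul_left h4 hmZ
  have h5 := abs_add_le (h l * (b l : ℤ) ^ (s l + i))
    (∑ l' ∈ univ.erase l, h l' * (b l' : ℤ) ^ (s l' + i))
  have h6 := abs_sub_abs_le_abs_sub (h l * (b l : ℤ) ^ (s l + i))
    (-∑ l' ∈ univ.erase l, h l' * (b l' : ℤ) ^ (s l' + i))
  rw [abs_neg, sub_neg_eq_add] at h6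
  rw [← h1, h2] at h5 h6
  constructor <;> linarith

/-- regular indices which are far apart -/
lemma reg_lac (hb : ∀ l, 2 ≤ b l) (σ K : ℕ) (hK : 4 * σ ≤ 2 ^ K) (i i' : ℕ) (hi : Reg b s h i)
    (hi' : Reg b s h i') (hii : i + K ≤ i') : 2 * (σ : ℤ) * |asum b s h i| < |asum b s h i'| := by
  obtain ⟨l, hl0, hl⟩ := hi
  obtain ⟨l', hl'0, hl'⟩ := hi'
  have h1 := (asum_bounds b s h l i hl).2
  have h2 := (asum_bounds b s h l' i' hl').1
  obtain ⟨d, rfl⟩ : ∃ d, i' = i + d := ⟨i' - i, by omega⟩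
  have hm : (1 : ℤ) ≤ m := by exact_mod_cast l.pos
  have h3 : term b s h l (i + d) ≤ term b s h l' (i + d) := by
    by_cases hll : l = l'
    · rw [hll]
    · have := hl' l hll
      have h4 := term_nonneg b s h l (i + d)
      nlinarith
  have h4 : (4 * σ : ℤ) * term b s h l i ≤ term b s h l (i + d) := by
    rw [term_add, mul_comm]
    apply mul_le_mul_of_nonneg_left _ (term_nonneg b s h l i)
    have h5 : (2 : ℤ) ^ K ≤ (b l : ℤ) ^ d := by
      calc (2 : ℤ) ^ K ≤ 2 ^ d := pow_le_pow_right₀ (by norm_num) (by omega)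
        _ ≤ (b l : ℤ) ^ d := pow_le_pow_left₀ (by norm_num) (by exact_mod_cast hb l) d
    have h6 : (4 * σ : ℤ) ≤ 2 ^ K := by exact_mod_cast hK
    exact h6.trans h5
  -- 4 |a(i')| ≥ 3 term' ≥ 12 σ term ; 4 * 2σ |a(i)| ≤ 10 σ term
  have hσ0 : (0 : ℤ) ≤ σ := by positivity
  rcases Nat.eq_zero_or_pos σ with h0 | h0
  · subst h0
    simp only [Nat.cast_zero, mul_zero, zero_mul]
    by_contra hcon
    push Not at hcon
    have : |asum b s h (i + d)| = 0 := le_antisymm hcon (abs_nonneg _)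
    rw [this] at h2
    linarith
  · have hσ1 : (1 : ℤ) ≤ σ := by exact_mod_cast h0
    have h7 : 2 * (σ : ℤ) * (4 * |asum b s h i|) ≤ 2 * σ * (5 * term b s h l i) :=
      mul_le_mul_of_nonneg_left h1 (by positivity)
    have h8 : 0 < (σ : ℤ) * term b s h l i := by positivity
    nlinarith

lemma reg_ne_zero (i : ℕ) (hi : Reg b s h i) : asum b s h i ≠ 0 := by
  obtain ⟨l, hl0, hl⟩ := hi
  have h1 := (asum_bounds b s h l i hl).1
  intro h0
  rw [h0, abs_zero] at h1
  linarith

/-- two terms are comparable for few indices only -/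
lemma comparable (B : ℕ) (hb : ∀ l, 2 ≤ b l) (hbB : ∀ l, b l ≤ B) (l l' : Fin m)
    (hll : b l ≠ b l') (i d : ℕ) (h1 : term b s h l' i ≤ term b s h l i)
    (h2 : term b s h l i < 4 * (m : ℤ) * term b s h l' i)
    (h3 : term b s h l' (i + d) ≤ term b s h l (i + d))
    (h4 : term b s h l (i + d) < 4 * (m : ℤ) * term b s h l' (i + d)) : d < 4 * m * B := by
  have hm : (1 : ℤ) ≤ m := by exact_mod_cast l.pos
  have key : ∀ x y c : ℕ, 1 ≤ y → y < x → x ≤ B → (x : ℤ) ^ d < c * (y : ℤ) ^ d → d < c * B := by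
    intro x y c hy hyx hxB hlt
    by_contra hcon
    push Not at hcon
    have h5 : (y : ℝ) ^ d * c ≤ (x : ℝ) ^ d := by
      have hy0 : (0 : ℝ) < y := by exact_mod_cast hy
      have h6 : (1 : ℝ) + d * (1 / y) ≤ (1 + 1 / (y : ℝ)) ^ d :=
        one_add_mul_le_pow (by have : (0 : ℝ) < 1 / y := by positivity
                               linarith) d
      have h7 : (c : ℝ) ≤ 1 + d * (1 / y) := by
        have h8 : (c : ℝ) * y ≤ d := by
          have : c * y ≤ d := (Nat.mul_le_mul_left c (by omega)).trans hcon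
          exact_mod_cast this
        have h9 : (c : ℝ) ≤ d * (1 / y) := by
          rw [mul_one_div, le_div_iff₀ hy0]
          exact h8
        linarith
      have h8 : (1 + 1 / (y : ℝ)) * y ≤ x := by
        have : (y : ℝ) + 1 ≤ x := by exact_mod_cast hyx
        have e1 : (1 + 1 / (y : ℝ)) * y = y + 1 := by field_simp
        linarith
      calc (y : ℝ) ^ d * c ≤ (y : ℝ) ^ d * (1 + 1 / (y : ℝ)) ^ d := by
            gcongr
            exact h7.trans h6
        _ = ((1 + 1 / (y : ℝ)) * y) ^ d := by rw [← mul_pow, mul_comm]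
        _ ≤ (x : ℝ) ^ d := by gcongr
    have h6 : (x : ℝ) ^ d < c * (y : ℝ) ^ d := by exact_mod_cast hlt
    linarith
  rw [term_add, term_add] at h3 h4
  have hy0 : 0 < term b s h l' i := by
    by_contra hcon
    have : term b s h l' i = 0 := le_antisymm (not_lt.1 hcon) (term_nonneg b s h l' i)
    rw [this] at h1 h2
    linarith
  have hx0 : 0 < term b s h l i := lt_of_lt_of_le hy0 h1
  rcases lt_or_gt_of_ne hll with hlt | hgt
  · -- b l < b l'
    have h5 : (b l' : ℤ) ^ d < ((4 * m : ℕ) : ℤ) * (b l : ℤ) ^ d := by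
      push_cast
      by_contra hcon
      push Not at hcon
      have h6 : (4 * (m : ℤ) * (b l : ℤ) ^ d) * term b s h l' i ≤ term b s h l' i * (b l' : ℤ) ^ d := by
        rw [mul_comm (term b s h l' i)]
        exact mul_le_mul_of_nonneg_right hcon hy0.le
      have hbl : (0 : ℤ) < (b l : ℤ) ^ d := by
        have := hb l
        positivity
      have h7 : term b s h l i * (b l : ℤ) ^ d < 4 * (m : ℤ) * term b s h l' i * (b l : ℤ) ^ d :=
        mul_lt_mul_of_pos_right h2 hbl
      nlinarith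
    exact key (b l') (b l) (4 * m) (by have := hb l; omega) hlt (hbB l') h5
  · have h5 : (b l : ℤ) ^ d < ((4 * m : ℕ) : ℤ) * (b l' : ℤ) ^ d := by
      push_cast
      by_contra hcon
      push Not at hcon
      have h6 : (4 * (m : ℤ) * (b l' : ℤ) ^ d) * term b s h l i ≤ term b s h l i * (b l : ℤ) ^ d := by
        rw [mul_comm (term b s h l i)]
        exact mul_le_mul_of_nonneg_right hcon hx0.le
      have hbl : (0 : ℤ) < (b l' : ℤ) ^ d := by
        have := hb l'
        positivity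
      have h7 : 4 * (m : ℤ) * (term b s h l' i * (b l' : ℤ) ^ d) ≤
          4 * (m : ℤ) * (term b s h l i * (b l' : ℤ) ^ d) := by
        gcongr
      nlinarith
    exact key (b l) (b l') (4 * m) (by have := hb l'; omega) hgt (hbB l) h5

end

end Pool.Agent.J6H30.PV
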