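import Pool.Agent.J6H30.PV.Slice

/-!
# Exponential sums with rough coefficients and general polynomial phases
-/

set_option autoImplicit false

namespace Pool.Agent.J6H30.PV

open Finset Filter Topology Polynomial
open Pool.Agent.H469R2.NK (e norm_e e_add e_zero conj_e)

section
variable {r n : ℕ} {T : Finset (Fin r)} (σ : Fin n ≃ T)

/-- on a slice -/
theorem rough_slice (D : ℕ) (hD : 1 ≤ D) (hn : 1 ≤ n) (F g : MvPolynomial (Fin r) ℝ)
    (hF : F.IsHomogeneous D) (hg : g.totalDegree < D) (R : MvPolynomial (Fin r) ℤ) (Q : ℕ)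
    (hQ : 1 ≤ Q) (v : Fin r → ℤ) (K : ℕ) (hK : 1 ≤ K) (ρ L y : ℝ) (hL : 0 < L) (hy : 0 ≤ y)
    (hweyl : ∀ P : ℝ[X], P.natDegree ≤ D →
      P.coeff D = (Q : ℝ) ^ D * MvPolynomial.eval (fun i => (v i : ℝ)) (full T F) →
      ‖∑ t ∈ range K, e (P.eval (t : ℝ))‖ ≤ ρ * K)
    (hyy : ρ + 2 * ((∑ i, |((Q : ℝ) * v i)|) * K / L) ≤ y ^ (2 ^ n))
    (κ : Fin r → ℤ) (J : Fin n → ℤ) (M : Fin n → ℕ) (hM : ∀ i, L ≤ M i)
    (u : Fin n → (Fin n → ℤ) → ℂ) (hu : ∀ i a, ‖u i a‖ ≤ 1)
    (hind : ∀ i a z, u i (Function.update a i z) = u i a) :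
    ‖∑ k ∈ box J M, (∏ i, u i k) * e (MvPolynomial.eval (fun i => ((ext σ κ k i : ℤ) : ℝ)) F +
        MvPolynomial.eval (fun i => ((ext σ κ k i : ℤ) : ℝ)) g +
          (MvPolynomial.eval (ext σ κ k) R : ℤ) / Q)‖ ≤ (∏ i, (M i : ℝ)) * y := by
  obtain ⟨n, rfl⟩ : ∃ n', n = n' + 1 := ⟨n - 1, by omega⟩
  have hvext : MvPolynomial.eval (fun i => (v i : ℝ)) (full T F) =
      MvPolynomial.eval (ext σ (fun _ => (0 : ℝ)) (fun i => (v (σ i) : ℝ))) (full T F) := by
    rw [full_eval, full_eval]
    refine sum_congr rfl fun m hm => ?_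
    congr 1
    refine prod_congr rfl fun i _ => ?_
    by_cases hi : i ∈ T
    · have := ext_of_mem σ (fun _ => (0 : ℝ)) (fun i => (v (σ i) : ℝ)) (σ.symm ⟨i, hi⟩)
      simp only [Equiv.apply_symm_apply] at this
      rw [this]
    · have : m i = 0 := by
        by_contra h3
        rw [← (mem_filter.1 hm).2] at hi
        exact hi (Finsupp.mem_support_iff.2 h3)
      rw [this, pow_zero, pow_zero]
  set x : ℝ := MvPolynomial.eval (fun i => (v i : ℝ)) (full T F) with hx
  set w : Fin (n + 1) → ℤ := fun i => Q * v (σ i) with hw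
  set W : ℝ := ∑ i, |((Q : ℝ) * v i)| with hW
  have hQR : (0 : ℝ) < Q := by exact_mod_cast hQ
  have hKR : (0 : ℝ) < K := by exact_mod_cast hK
  have hwW : ∑ i, |(w i : ℝ)| ≤ W := by
    rw [hW]
    have e1 : ∑ i, |(w i : ℝ)| = ∑ i ∈ T, |((Q : ℝ) * v i)| := by
      rw [← sum_coe_sort T (fun i => |((Q : ℝ) * v i)|),
        ← σ.sum_comp (fun i : T => |((Q : ℝ) * v i)|)]
      refine sum_congr rfl fun i _ => ?_
      rw [hw]
      push_cast
      rfl
    rw [e1]
    exact sum_le_sum_of_subset_of_nonneg (subset_univ _) fun _ _ _ => abs_nonneg _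
  set f : (Fin (n + 1) → ℤ) → ℝ := fun k => MvPolynomial.eval (fun i => ((ext σ κ k i : ℤ) : ℝ)) F +
    MvPolynomial.eval (fun i => ((ext σ κ k i : ℤ) : ℝ)) g +
      (MvPolynomial.eval (ext σ κ k) R : ℤ) / Q with hf
  set V : ℝ := ∏ i, (M i : ℝ) with hV
  have hV0 : 0 ≤ V := prod_nonneg fun _ _ => Nat.cast_nonneg _
  set S : ℂ := ∑ k ∈ box J M, (∏ i, u i k) * e (f k) with hS
  -- the box norm
  have hbox := box_norm n (fun i => Ico (J i) (J i + M i)) f u hu hind
  have hcard : ∏ i, (((Ico (J i) (J i + (M i : ℤ))).card : ℕ) : ℝ) = V := by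
    rw [hV]
    refine prod_congr rfl fun i _ => ?_
    rw [Int.card_Ico]
    congr 1
    omega
  rw [hcard] at hbox
  have hBN : ‖BN (n + 1) (fun i => Ico (J i) (J i + M i)) f‖ ≤
      V * (V * (ρ + 2 * (W * K / L))) := by
    rw [BN_eq, sum_comm]
    refine (norm_sum_le _ _).trans ?_
    have hone : ∀ a' ∈ Fintype.piFinset (fun i => Ico (J i) (J i + (M i : ℤ))),
        ‖∑ a ∈ Fintype.piFinset (fun i => Ico (J i) (J i + (M i : ℤ))), e (cub f a a')‖ ≤
        V * (ρ + 2 * (W * K / L)) := by
      intro a' _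
      have hla := line_average J M w K hK L ρ hL hM (fun a => e (cub f a a'))
        (fun a => (norm_e _).le)
      refine (hla ?_).trans ?_
      · intro a
        -- the polynomial on the line
        set P : ℝ[X] := ∑ ω : Fin (n + 1) → Bool, Polynomial.C (sgnB ω : ℝ) *
          (line (fun i => ((ext σ κ (mixB ω a a') i : ℤ) : ℝ))
              (ext σ (fun _ => 0) (mixB ω (fun i => (w i : ℝ)) (fun _ => 0))) F +
            line (fun i => ((ext σ κ (mixB ω a a') i : ℤ) : ℝ))
              (ext σ (fun _ => 0) (mixB ω (fun i => (w i : ℝ)) (fun _ => 0))) g +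
            Polynomial.C (((MvPolynomial.eval (ext σ κ (mixB ω a a')) R : ℤ) : ℝ) / Q)) with hP
        have hPd : P.natDegree ≤ D := by
          rw [hP]
          refine Polynomial.natDegree_sum_le_of_forall_le _ _ fun ω _ => ?_
          refine (Polynomial.natDegree_C_mul_le _ _).trans ?_
          refine (Polynomial.natDegree_add_le _ _).trans (max_le
            ((Polynomial.natDegree_add_le _ _).trans (max_le ?_ ?_)) ?_)
          · exact line_natDegree _ _ _ _ hF.totalDegree_le
          · exact line_natDegree _ _ _ _ hg.le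
          · rw [Polynomial.natDegree_C]
            omega
        have hPc : P.coeff D = (Q : ℝ) ^ D * x := by
          rw [hP, Polynomial.finsetSum_coeff]
          have h1 : ∀ ω : Fin (n + 1) → Bool, (Polynomial.C (sgnB ω : ℝ) *
              (line (fun i => ((ext σ κ (mixB ω a a') i : ℤ) : ℝ))
                (ext σ (fun _ => 0) (mixB ω (fun i => (w i : ℝ)) (fun _ => 0))) F +
              line (fun i => ((ext σ κ (mixB ω a a') i : ℤ) : ℝ))
                (ext σ (fun _ => 0) (mixB ω (fun i => (w i : ℝ)) (fun _ => 0))) g +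
              Polynomial.C (((MvPolynomial.eval (ext σ κ (mixB ω a a')) R : ℤ) : ℝ) / Q))).coeff D =
              (sgnB ω : ℝ) * MvPolynomial.eval
                (ext σ (fun _ => 0) (mixB ω (fun i => (w i : ℝ)) (fun _ => 0))) F := by
            intro ω
            rw [Polynomial.coeff_C_mul, Polynomial.coeff_add, Polynomial.coeff_add,
              line_coeff_of_homogeneous _ _ _ _ hF, line_coeff_of_lt _ _ _ _ hg,
              Polynomial.coeff_C_of_ne_zero (by omega), add_zero, add_zero]
          rw [sum_congr rfl fun ω _ => h1 ω, cube_full σ F, hvext, full_eval, full_eval, mul_sum]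
          refine sum_congr rfl fun m hm => ?_
          have hm' := mem_filter.1 hm
          have h1 : ∑ i, m i = D := by
            have h2 := hF (MvPolynomial.mem_support_iff.1 hm'.1)
            rw [← h2]
            have h3 : (Finsupp.weight (1 : Fin r → ℕ)) m = m.degree := by
              rw [Finsupp.degree_eq_weight_one]
              rfl
            rw [h3]
            exact (degree_eq_sum m).symm
          have h4 : ∏ i, ext σ (fun _ => (0 : ℝ)) (fun i => (w i : ℝ)) i ^ m i =
              (Q : ℝ) ^ D * ∏ i, ext σ (fun _ => (0 : ℝ)) (fun i => (v (σ i) : ℝ)) i ^ m i := by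
            have h5 : ∀ i, ext σ (fun _ => (0 : ℝ)) (fun i => (w i : ℝ)) i =
                Q * ext σ (fun _ => (0 : ℝ)) (fun i => (v (σ i) : ℝ)) i := by
              intro i
              unfold ext
              split_ifs
              · rw [hw]
                push_cast
                rfl
              · rw [mul_zero]
            simp_rw [h5, mul_pow]
            rw [prod_mul_distrib, prod_pow_eq_pow_sum, h1]
          rw [h4]
          ring
        have h0 := hweyl P hPd hPc
        refine le_trans (le_of_eq ?_) h0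
        congr 1
        refine sum_congr rfl fun t _ => ?_
        -- the values of the phase
        have hval : ∃ z : ℤ, cub f (fun i => a i + w i * (t : ℤ)) a' = P.eval (t : ℝ) + z := by
          choose cω hcω using fun ω : Fin (n + 1) → Bool => eval_congr_mod R Q (ext σ κ (mixB ω a a'))
            (fun i => ext σ (fun _ => (0 : ℤ)) (mixB ω w (fun _ => 0)) i * (t : ℤ)) (fun i => by
              unfold ext mixB
              split_ifs
              · simp
              · rw [hw]
                simp only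
                rw [mul_assoc]
                exact dvd_mul_right _ _
              · simp)
          refine ⟨∑ ω, sgnB ω * cω ω, ?_⟩
          rw [hP, Polynomial.eval_finsetSum]
          push_cast
          rw [← sum_add_distrib]
          unfold cub
          refine sum_congr rfl fun ω _ => ?_
          have h1 : ext σ κ (mixB ω (fun i => a i + w i * (t : ℤ)) a') =
              fun i => ext σ κ (mixB ω a a') i +
                ext σ (fun _ => (0 : ℤ)) (mixB ω w (fun _ => 0)) i * (t : ℤ) := by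
            funext i
            unfold ext mixB
            split_ifs <;> simp
          have h2 : (MvPolynomial.eval (fun i => ext σ κ (mixB ω a a') i +
              ext σ (fun _ => (0 : ℤ)) (mixB ω w (fun _ => 0)) i * (t : ℤ)) R : ℤ) =
              MvPolynomial.eval (ext σ κ (mixB ω a a')) R + Q * cω ω := by
            have := hcω ω
            linarith
          have h3 : ((MvPolynomial.eval (ext σ κ (mixB ω a a')) R + Q * cω ω : ℤ) : ℝ) / Q =
              ((MvPolynomial.eval (ext σ κ (mixB ω a a')) R : ℤ) : ℝ) / Q + cω ω := by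
            push_cast
            field_simp
          have h4 : (fun i => (((ext σ κ (mixB ω a a') i +
              ext σ (fun _ => (0 : ℤ)) (mixB ω w (fun _ => 0)) i * (t : ℤ) : ℤ)) : ℝ)) =
              fun i => ((ext σ κ (mixB ω a a') i : ℤ) : ℝ) +
                ext σ (fun _ => (0 : ℝ)) (mixB ω (fun i => (w i : ℝ)) (fun _ => 0)) i * (t : ℝ) := by
            funext i
            unfold ext mixB
            split_ifs <;> simp
          rw [hf]
          simp only
          rw [h1]
          simp only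
          rw [h2, h3, h4, Polynomial.eval_mul, Polynomial.eval_add, Polynomial.eval_add,
            Polynomial.eval_C, Polynomial.eval_C, line_eval, line_eval]
          ring
        obtain ⟨z, hz⟩ := hval
        rw [hz, e_add_int]
      · apply mul_le_mul_of_nonneg_left _ hV0
        gcongr
    refine (sum_le_sum hone).trans (le_of_eq ?_)
    rw [sum_const, nsmul_eq_mul, Fintype.card_piFinset]
    push_cast
    rw [hcard]
  have hp2 : 2 ≤ 2 ^ (n + 1) := by
    have := Nat.pow_le_pow_right (n := 2) (by norm_num) (show 1 ≤ n + 1 by omega)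
    simpa using this
  have hfin : ‖S‖ ^ (2 ^ (n + 1)) ≤ (V * y) ^ (2 ^ (n + 1)) := by
    rw [mul_pow]
    calc ‖S‖ ^ (2 ^ (n + 1)) ≤ V ^ (2 ^ (n + 1) - 2) * _ := hbox
      _ ≤ V ^ (2 ^ (n + 1) - 2) * (V * (V * (ρ + 2 * (W * K / L)))) := by gcongr
      _ ≤ V ^ (2 ^ (n + 1) - 2) * (V * (V * y ^ (2 ^ (n + 1)))) := by gcongr
      _ = V ^ (2 ^ (n + 1)) * y ^ (2 ^ (n + 1)) := by
        have : V ^ (2 ^ (n + 1)) = V ^ (2 ^ (n + 1) - 2) * V ^ 2 := by
          rw [← pow_add]
          congr 1
          omega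
        rw [this]
        ring
  exact le_of_pow_le_pow_left₀ (by positivity) (by positivity) hfin

end

/-- **Exponential sums with rough coefficients.** -/
theorem rough_abs {r : ℕ} (T : Finset (Fin r)) (hT : T.Nonempty) (D : ℕ) (hD : 1 ≤ D)
    (F g : MvPolynomial (Fin r) ℝ)
    (hF : F.IsHomogeneous D) (hg : g.totalDegree < D) (R : MvPolynomial (Fin r) ℤ) (Q : ℕ)
    (hQ : 1 ≤ Q) (v : Fin r → ℤ) (K : ℕ) (hK : 1 ≤ K) (ρ L y : ℝ) (hL : 0 < L) (hy : 0 ≤ y)
    (hweyl : ∀ P : ℝ[X], P.natDegree ≤ D →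
      P.coeff D = (Q : ℝ) ^ D * MvPolynomial.eval (fun i => (v i : ℝ)) (full T F) →
      ‖∑ t ∈ range K, e (P.eval (t : ℝ))‖ ≤ ρ * K)
    (hyy : ρ + 2 * ((∑ i, |((Q : ℝ) * v i)|) * K / L) ≤ y ^ (2 ^ T.card))
    (J : Fin r → ℤ) (M : Fin r → ℕ) (hM : ∀ i ∈ T, L ≤ M i)
    (u : Fin r → (Fin r → ℤ) → ℂ) (hu : ∀ i a, ‖u i a‖ ≤ 1)
    (hind : ∀ i ∈ T, ∀ a z, u i (Function.update a i z) = u i a) :
    ‖∑ k ∈ box J M, (∏ i ∈ T, u i k) * e (MvPolynomial.eval (fun i => (k i : ℝ)) F +
        MvPolynomial.eval (fun i => (k i : ℝ)) g + (MvPolynomial.eval k R : ℤ) / Q)‖ ≤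
      (∏ i, (M i : ℝ)) * y := by
  classical
  set n : ℕ := T.card with hn
  have hn1 : 1 ≤ n := card_pos.2 hT
  set σ : Fin n ≃ T := T.equivFin.symm with hσ
  set G : (Fin r → ℤ) → ℂ := fun k => (∏ i ∈ T, u i k) *
    e (MvPolynomial.eval (fun i => (k i : ℝ)) F +
        MvPolynomial.eval (fun i => (k i : ℝ)) g + (MvPolynomial.eval k R : ℤ) / Q) with hG
  have hVT : ((box (res σ J) (res σ M)).card : ℝ) = ∏ i, ((res σ M i : ℕ) : ℝ) := by
    rw [card_box]
    push_cast
    rfl
  have hVTpos : 0 < ((box (res σ J) (res σ M)).card : ℝ) := by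
    rw [hVT]
    refine prod_pos fun i _ => ?_
    exact lt_of_lt_of_le hL (hM (σ i) (σ i).2)
  have h1 := slice_sum σ J M G
  have h2 : ∀ k : Fin r → ℤ, ‖∑ a ∈ box (res σ J) (res σ M), G (ext σ k a)‖ ≤
      ((box (res σ J) (res σ M)).card : ℝ) * y := by
    intro k
    have h3 := rough_slice σ D hD hn1 F g hF hg R Q hQ v K hK ρ L y hL hy hweyl hyy k (res σ J)
      (res σ M) (fun i => hM (σ i) (σ i).2)
      (fun i a => u (σ i) (ext σ k a)) (fun i a => hu _ _) (fun i a z => by
        rw [ext_update]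
        exact hind (σ i) (σ i).2 _ _)
    rw [hVT]
    refine le_trans (le_of_eq ?_) h3
    congr 1
    refine sum_congr rfl fun a _ => ?_
    rw [hG]
    simp only
    congr 1
    rw [← prod_attach]
    exact (σ.prod_comp (fun i : T => u (i : Fin r) (ext σ k a))).symm
  have h3 : ((box (res σ J) (res σ M)).card : ℝ) * ‖∑ k ∈ box J M, G k‖ ≤
      ((box (res σ J) (res σ M)).card : ℝ) * ((∏ i, (M i : ℝ)) * y) := by
    have e1 : ((box (res σ J) (res σ M)).card : ℝ) * ‖∑ k ∈ box J M, G k‖ =
        ‖((box (res σ J) (res σ M)).card : ℂ) * ∑ k ∈ box J M, G k‖ := by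
      rw [norm_mul]
      simp
    rw [e1, ← h1]
    refine (norm_sum_le _ _).trans ((sum_le_sum fun k _ => h2 k).trans (le_of_eq ?_))
    rw [sum_const, nsmul_eq_mul, card_box]
    push_cast
    ring
  exact le_of_mul_le_mul_left h3 hVTpos

end Pool.Agent.J6H30.PV
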