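import Pool.Agent.J6H30.PV.Cyl

/-!
# Exponential sums over cylinder intersections, with some variables as parameters
-/

set_option autoImplicit false

namespace Pool.Agent.J6H30.PV

open Finset Filter Topology Polynomial
open Pool.Agent.H469R2.NK (e norm_e e_add e_zero conj_e)
open Pool.Agent.R485.Mult (sg abs_sg)

section
variable {r n : ℕ} {T : Finset (Fin r)} (σ : Fin n ≃ T)

/-- the point with the coordinates `a` in the directions of `T` and the coordinates of `κ` elsewhere -/
def ext {X : Type*} (κ : Fin r → X) (a : Fin n → X) : Fin r → X :=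
  fun j => if h : j ∈ T then a (σ.symm ⟨j, h⟩) else κ j

lemma ext_of_mem {X : Type*} (κ : Fin r → X) (a : Fin n → X) (i : Fin n) :
    ext σ κ a (σ i) = a i := by
  unfold ext
  rw [dif_pos (σ i).2]
  simp

lemma ext_of_not_mem {X : Type*} (κ : Fin r → X) (a : Fin n → X) (j : Fin r) (h : j ∉ T) :
    ext σ κ a j = κ j := by
  unfold ext
  rw [dif_neg h]

/-- the restriction to the directions of `T` -/
def res {X : Type*} (k : Fin r → X) : Fin n → X := fun i => k (σ i)

lemma ext_res {X : Type*} (k : Fin r → X) : ext σ k (res σ k) = k := by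
  funext j
  by_cases h : j ∈ T
  · have := ext_of_mem σ k (res σ k) (σ.symm ⟨j, h⟩)
    simpa [res] using this
  · exact ext_of_not_mem σ _ _ j h

lemma res_ext {X : Type*} (κ : Fin r → X) (a : Fin n → X) : res σ (ext σ κ a) = a := by
  funext i
  unfold res
  exact ext_of_mem σ κ a i

lemma ext_ext {X : Type*} (κ : Fin r → X) (a c : Fin n → X) : ext σ (ext σ κ a) c = ext σ κ c := by
  funext j
  by_cases h : j ∈ T
  · unfold ext
    rw [dif_pos h, dif_pos h]
  · rw [ext_of_not_mem σ _ _ j h, ext_of_not_mem σ _ _ j h, ext_of_not_mem σ _ _ j h]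

lemma ext_update {X : Type*} (κ : Fin r → X) (a : Fin n → X) (i : Fin n) (z : X) :
    ext σ κ (Function.update a i z) = Function.update (ext σ κ a) (σ i) z := by
  funext j
  by_cases h : j ∈ T
  · by_cases hj : j = σ i
    · subst hj
      rw [Function.update_self, ext_of_mem, Function.update_self]
    · rw [Function.update_of_ne hj]
      unfold ext
      rw [dif_pos h, dif_pos h, Function.update_of_ne]
      intro h2
      apply hj
      rw [← h2]
      simp
  · have hj : j ≠ σ i := by
      rintro rfl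
      exact h (σ i).2
    rw [Function.update_of_ne hj, ext_of_not_mem σ _ _ j h, ext_of_not_mem σ _ _ j h]

/-- summation over slices -/
lemma slice_sum (J : Fin r → ℤ) (M : Fin r → ℕ) (G : (Fin r → ℤ) → ℂ) :
    ∑ k ∈ box J M, ∑ a ∈ box (res σ J) (res σ M), G (ext σ k a) =
      ((box (res σ J) (res σ M)).card : ℂ) * ∑ k ∈ box J M, G k := by
  have h1 : ((box (res σ J) (res σ M)).card : ℂ) * ∑ k ∈ box J M, G k =
      ∑ k ∈ box J M, ∑ a ∈ box (res σ J) (res σ M), G k := by
    rw [mul_sum]
    refine sum_congr rfl fun k _ => ?_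
    rw [sum_const, nsmul_eq_mul]
  rw [h1, ← sum_product', ← sum_product']
  have hmem : ∀ k a, k ∈ box J M → a ∈ box (res σ J) (res σ M) →
      ext σ k a ∈ box J M ∧ res σ k ∈ box (res σ J) (res σ M) := by
    intro k a hk ha
    unfold box at hk ha ⊢
    rw [Fintype.mem_piFinset] at hk ha
    rw [Fintype.mem_piFinset, Fintype.mem_piFinset]
    refine ⟨fun j => ?_, fun i => hk (σ i)⟩
    by_cases h : j ∈ T
    · have h2 := ha (σ.symm ⟨j, h⟩)
      have h3 := ext_of_mem σ k a (σ.symm ⟨j, h⟩)
      simp only [Equiv.apply_symm_apply] at h3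
      rw [h3]
      simpa [res] using h2
    · rw [ext_of_not_mem σ _ _ j h]
      exact hk j
  refine sum_nbij' (fun q => (ext σ q.1 q.2, res σ q.1)) (fun q => (ext σ q.1 q.2, res σ q.1))
    ?_ ?_ ?_ ?_ ?_
  · rintro ⟨k, a⟩ hq
    rw [mem_product] at hq ⊢
    exact hmem k a hq.1 hq.2
  · rintro ⟨k, a⟩ hq
    rw [mem_product] at hq ⊢
    exact hmem k a hq.1 hq.2
  · rintro ⟨k, a⟩ _
    simp only
    rw [ext_ext, ext_res, res_ext]
  · rintro ⟨k, a⟩ _
    simp only
    rw [ext_ext, ext_res, res_ext]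
  · rintro ⟨k, a⟩ _
    rfl

/-- the part of a polynomial consisting of the monomials with support `T` -/
noncomputable def full (T : Finset (Fin r)) (F : MvPolynomial (Fin r) ℝ) : MvPolynomial (Fin r) ℝ :=
  ∑ m ∈ F.support.filter (fun m => m.support = T), MvPolynomial.monomial m (F.coeff m)

lemma full_coeff (T : Finset (Fin r)) (F : MvPolynomial (Fin r) ℝ) (m : Fin r →₀ ℕ) :
    (full T F).coeff m = if m.support = T then F.coeff m else 0 := by
  classical
  unfold full
  rw [MvPolynomial.coeff_sum]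
  simp only [MvPolynomial.coeff_monomial]
  rw [sum_ite_eq']
  by_cases h : m.support = T
  · rw [if_pos h]
    by_cases h2 : m ∈ F.support
    · rw [if_pos (mem_filter.2 ⟨h2, h⟩)]
    · rw [if_neg (fun h3 => h2 (mem_filter.1 h3).1), MvPolynomial.notMem_support_iff.1 h2]
  · rw [if_neg h, if_neg]
    intro h3
    exact h (mem_filter.1 h3).2

lemma full_eval (T : Finset (Fin r)) (F : MvPolynomial (Fin r) ℝ) (x : Fin r → ℝ) :
    MvPolynomial.eval x (full T F) = ∑ m ∈ F.support.filter (fun m => m.support = T),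
      F.coeff m * ∏ i, x i ^ m i := by
  unfold full
  rw [map_sum]
  refine sum_congr rfl fun m _ => ?_
  rw [MvPolynomial.eval_monomial, Finsupp.prod_fintype _ _ (fun i => pow_zero _)]

/-- the alternating sum over the vertices of a cube picks out the monomials with support `T` -/
lemma cube_full (F : MvPolynomial (Fin r) ℝ) (w : Fin n → ℝ) :
    ∑ ω : Fin n → Bool, (sgnB ω : ℝ) *
      MvPolynomial.eval (ext σ (fun _ => 0) (mixB ω w (fun _ => 0))) F =
      MvPolynomial.eval (ext σ (fun _ => 0) w) (full T F) := by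
  classical
  rw [full_eval]
  simp_rw [MvPolynomial.eval_eq', mul_sum]
  rw [sum_comm, sum_filter]
  refine sum_congr rfl fun m _ => ?_
  have hprod : ∀ y : Fin n → ℝ, ∏ i, ext σ (fun _ => (0 : ℝ)) y i ^ m i =
      (if m.support ⊆ T then 1 else 0) * ∏ j, y j ^ m (σ j) := by
    intro y
    have e1 : ∏ i ∈ T, ext σ (fun _ => (0 : ℝ)) y i ^ m i = ∏ j, y j ^ m (σ j) := by
      rw [← prod_attach]
      have e2 : ∏ j, y j ^ m (σ j) = ∏ i : T, y (σ.symm i) ^ m i := by
        rw [← σ.prod_comp]
        refine prod_congr rfl fun j _ => ?_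
        simp
      rw [e2]
      refine prod_congr rfl fun i _ => ?_
      have := ext_of_mem σ (fun _ => (0 : ℝ)) y (σ.symm i)
      simp only [Equiv.apply_symm_apply] at this
      rw [this]
    rw [← prod_mul_prod_compl T, e1, mul_comm]
    congr 1
    split_ifs with h
    · apply prod_eq_one
      intro i hi
      have : m i = 0 := by
        by_contra h2
        exact (mem_compl.1 hi) (h (Finsupp.mem_support_iff.2 h2))
      rw [this, pow_zero]
    · rw [not_subset] at h
      obtain ⟨i, hi1, hi2⟩ := h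
      apply prod_eq_zero (mem_compl.2 hi2)
      rw [ext_of_not_mem σ _ _ i hi2, zero_pow (Finsupp.mem_support_iff.1 hi1)]
  have hcube : ∑ ω : Fin n → Bool, (sgnB ω : ℝ) * ∏ j, mixB ω w (fun _ => 0) j ^ m (σ j) =
      ∏ j, (w j ^ m (σ j) - 0 ^ m (σ j)) := by
    have e1 : ∀ j : Fin n, w j ^ m (σ j) - 0 ^ m (σ j) = ∑ c : Bool, (if c then (-1 : ℝ) else 1) *
        (if c then (0 : ℝ) else w j) ^ m (σ j) := by
      intro j
      rw [Fintype.sum_bool]
      simp
      ring
    rw [prod_congr rfl fun j _ => e1 j, prod_univ_sum, Fintype.piFinset_univ]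
    refine sum_congr rfl fun ω _ => ?_
    rw [prod_mul_distrib]
    congr 1
    unfold sgnB
    push_cast
    refine prod_congr rfl fun j _ => ?_
    split_ifs <;> simp
  have h1 : ∑ ω : Fin n → Bool, (sgnB ω : ℝ) *
      (F.coeff m * ∏ i, ext σ (fun _ => (0 : ℝ)) (mixB ω w (fun _ => 0)) i ^ m i) =
      F.coeff m * ((if m.support ⊆ T then 1 else 0) * ∏ j, (w j ^ m (σ j) - 0 ^ m (σ j))) := by
    rw [← hcube, mul_sum, mul_sum]
    refine sum_congr rfl fun ω _ => ?_
    rw [hprod]
    ring
  rw [h1, hprod]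
  by_cases h : m.support ⊆ T
  · rw [if_pos h, one_mul]
    by_cases h2 : m.support = T
    · rw [if_pos h2, one_mul]
      congr 1
      refine prod_congr rfl fun j _ => ?_
      have : m (σ j) ≠ 0 := by
        rw [← Finsupp.mem_support_iff, h2]
        exact (σ j).2
      rw [zero_pow this, sub_zero]
    · rw [if_neg h2]
      obtain ⟨i, hi1, hi2⟩ : ∃ i ∈ T, i ∉ m.support := by
        by_contra hcon
        push Not at hcon
        exact h2 (Subset.antisymm h hcon)
      have hi3 : m i = 0 := by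
        by_contra h3
        exact hi2 (Finsupp.mem_support_iff.2 h3)
      rw [prod_eq_zero (mem_univ (σ.symm ⟨i, hi1⟩)), mul_zero]
      simp [hi3]
  · rw [if_neg h, zero_mul, mul_zero, if_neg]
    rintro rfl
    exact h (Subset.refl _)

/-- **Exponential sums with rough coefficients, on a slice.** -/
theorem slice_cyl (D : ℕ) (hD : 1 ≤ D) (hn : 1 ≤ n) (F : MvPolynomial (Fin r) ℝ)
    (hF : F.IsHomogeneous D) (halg : ∀ m, m.support = T → IsAlgebraic ℚ (F.coeff m))
    (hirr : ∃ m, m.support = T ∧ Irrational (F.coeff m)) (Q : ℕ) (hQ : 1 ≤ Q)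
    (B s : ℕ) (ε : ℝ) (hε : 0 < ε) :
    ∃ c : ℝ, 0 < c ∧ ∃ N₀ : ℕ, ∀ N : ℕ, N₀ ≤ N → ∀ g : MvPolynomial (Fin r) ℝ,
      g.totalDegree < D →
      ∀ R : MvPolynomial (Fin r) ℤ, ∀ κ : Fin r → ℤ, ∀ (J : Fin n → ℤ) (M : Fin n → ℕ),
      (∀ i, Real.exp (ε * N) ≤ M i) →
      ∀ b : ℕ, 2 ≤ b → b ≤ B → ∀ h : ℕ, 1 ≤ h → h ≤ N → ∀ p : Fin (2 * s) → ℕ, (∀ j, p j ≤ N) →
      ∑ j : Fin (2 * s), sg j * (b : ℤ) ^ (p j) ≠ 0 →
      ∀ u : Fin n → (Fin n → ℤ) → ℂ, (∀ i a, ‖u i a‖ ≤ 1) →
      (∀ i a z, u i (Function.update a i z) = u i a) →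
      ‖∑ k ∈ box J M, (∏ i, u i k) * e (h * (MvPolynomial.eval (fun i => ((ext σ κ k i : ℤ) : ℝ)) F +
        MvPolynomial.eval (fun i => ((ext σ κ k i : ℤ) : ℝ)) g +
          (MvPolynomial.eval (ext σ κ k) R : ℤ) / Q) *
          ((∑ j : Fin (2 * s), sg j * (b : ℤ) ^ (p j) : ℤ) : ℝ))‖ ≤
        (∏ i, (M i : ℝ)) * Real.exp (-(c * N)) := by
  obtain ⟨n, rfl⟩ : ∃ n', n = n' + 1 := ⟨n - 1, by omega⟩
  obtain ⟨m₀, hm₀T, hm₀⟩ := hirr
  obtain ⟨v, hv⟩ := exists_irrational_value (full T F) m₀ (by
    rw [full_coeff, if_pos hm₀T]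
    exact hm₀)
  have hvext : MvPolynomial.eval (fun i => (v i : ℝ)) (full T F) =
      MvPolynomial.eval (ext σ (fun _ => (0 : ℝ)) (fun i => (v (σ i) : ℝ))) (full T F) := by
    rw [full_eval, full_eval]
    refine sum_congr rfl fun m hm => ?_
    congr 1
    refine prod_congr rfl fun i _ => ?_
    by_cases hi : i ∈ T
    · have := ext_of_mem σ (fun _ => (0 : ℝ)) (fun i => (v (σ i) : ℝ)) (σ.symm ⟨i, hi⟩)
      simp only [Equiv.apply_symm_apply] at this
      rw [this]
    · have : m i = 0 := by
        by_contra h3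
        rw [← (mem_filter.1 hm).2] at hi
        exact hi (Finsupp.mem_support_iff.2 h3)
      rw [this, pow_zero, pow_zero]
  set x : ℝ := MvPolynomial.eval (fun i => (v i : ℝ)) (full T F) with hx
  have hxalg : IsAlgebraic ℚ x := by
    apply isAlgebraic_eval
    intro m
    rw [full_coeff]
    split_ifs with h
    · exact halg m h
    · exact isAlgebraic_zero
  obtain ⟨c, κ', hc, hκ', N1, hweyl⟩ := weyl_exp x hxalg hv D hD s B (ε / 2) (by positivity)
  set w : Fin (n + 1) → ℤ := fun i => Q * v (σ i) with hw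
  set W : ℝ := ∑ i, |(w i : ℝ)| with hW
  have hW0 : 0 ≤ W := sum_nonneg fun _ _ => abs_nonneg _
  set c2 : ℝ := min c (ε / 2) / 2 with hc2
  have hc2p : 0 < c2 := by
    have : 0 < min c (ε / 2) := lt_min hc (by positivity)
    positivity
  have hc2a : 2 * c2 ≤ c := by
    have : min c (ε / 2) ≤ c := min_le_left _ _
    rw [hc2]
    linarith
  have hc2b : 2 * c2 ≤ ε / 2 := by
    have : min c (ε / 2) ≤ ε / 2 := min_le_right _ _
    rw [hc2]
    linarith
  obtain ⟨N2, hN2⟩ := eventually_atTop.1 (((pow_le_exp ((Q : ℝ) ^ D) 0 κ' hκ').and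
    (pow_le_exp (1 + 4 * W) 0 c2 hc2p)).and (eventually_ge_atTop 2))
  have hm0 : (0 : ℝ) < 2 ^ (n + 1) := by positivity
  refine ⟨c2 / 2 ^ (n + 1), by positivity, max N1 N2, fun N hN g hg R κ J M hM b hb hbB h hh1 hh p hp
    hne u hu hind => ?_⟩
  have hNa : N1 ≤ N := (le_max_left _ _).trans hN
  obtain ⟨⟨hNb, hNc⟩, hNd⟩ := hN2 N ((le_max_right _ _).trans hN)
  rw [pow_zero, mul_one] at hNb hNc
  have hNR : (2 : ℝ) ≤ N := by exact_mod_cast hNd
  have hN0 : (0 : ℝ) < N := by linarith
  set Tt : ℕ := ⌈Real.exp (ε / 2 * N)⌉₊ with hT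
  have hT1 : Real.exp (ε / 2 * N) ≤ Tt := Nat.le_ceil _
  have hexp1 : (1 : ℝ) ≤ Real.exp (ε / 2 * N) := Real.one_le_exp (by positivity)
  have hT2 : (Tt : ℝ) ≤ 2 * Real.exp (ε / 2 * N) := by
    have := (Nat.ceil_lt_add_one (Real.exp_pos (ε / 2 * N)).le).le
    rw [← hT] at this
    linarith
  have hTpos : 1 ≤ Tt := by
    have : (1 : ℝ) ≤ Tt := hexp1.trans hT1
    exact_mod_cast this
  have hQR : (0 : ℝ) < Q := by exact_mod_cast hQ
  set Λ : ℤ := ∑ j : Fin (2 * s), sg j * (b : ℤ) ^ (p j) with hΛ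
  set f : (Fin (n + 1) → ℤ) → ℝ := fun k => MvPolynomial.eval (fun i => ((ext σ κ k i : ℤ) : ℝ)) F +
    MvPolynomial.eval (fun i => ((ext σ κ k i : ℤ) : ℝ)) g +
      (MvPolynomial.eval (ext σ κ k) R : ℤ) / Q with hf
  set V : ℝ := ∏ i, (M i : ℝ) with hV
  have hV0 : 0 ≤ V := prod_nonneg fun _ _ => Nat.cast_nonneg _
  set S : ℂ := ∑ k ∈ box J M, (∏ i, u i k) * e (h * f k * Λ) with hS
  -- the box norm
  have hbox := box_norm n (fun i => Ico (J i) (J i + M i)) (fun k => h * f k * Λ) u hu hind
  have hcard : ∏ i, (((Ico (J i) (J i + (M i : ℤ))).card : ℕ) : ℝ) = V := by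
    rw [hV]
    refine prod_congr rfl fun i _ => ?_
    rw [Int.card_Ico]
    congr 1
    omega
  rw [hcard] at hbox
  have hBN : ‖BN (n + 1) (fun i => Ico (J i) (J i + M i)) (fun k => h * f k * Λ)‖ ≤
      V * (V * (Real.exp (-(c * N)) + 2 * (W * Tt / Real.exp (ε * N)))) := by
    rw [BN_eq, sum_comm]
    refine (norm_sum_le _ _).trans ?_
    have hone : ∀ a' ∈ Fintype.piFinset (fun i => Ico (J i) (J i + (M i : ℤ))),
        ‖∑ a ∈ Fintype.piFinset (fun i => Ico (J i) (J i + (M i : ℤ))),
          e (cub (fun k => h * f k * Λ) a a')‖ ≤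
        V * (Real.exp (-(c * N)) + 2 * (W * Tt / Real.exp (ε * N))) := by
      intro a' _
      apply line_average J M w Tt hTpos (Real.exp (ε * N)) (Real.exp (-(c * N)))
        (Real.exp_pos _) hM (fun a => e (cub (fun k => h * f k * Λ) a a'))
        (fun a => (norm_e _).le)
      intro a
      -- the polynomial on the line
      set P : ℝ[X] := ∑ ω : Fin (n + 1) → Bool, Polynomial.C (sgnB ω : ℝ) *
        (line (fun i => ((ext σ κ (mixB ω a a') i : ℤ) : ℝ))
            (ext σ (fun _ => 0) (mixB ω (fun i => (w i : ℝ)) (fun _ => 0))) F +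
          line (fun i => ((ext σ κ (mixB ω a a') i : ℤ) : ℝ))
            (ext σ (fun _ => 0) (mixB ω (fun i => (w i : ℝ)) (fun _ => 0))) g +
          Polynomial.C (((MvPolynomial.eval (ext σ κ (mixB ω a a')) R : ℤ) : ℝ) / Q)) with hP
      have hPd : P.natDegree ≤ D := by
        rw [hP]
        refine Polynomial.natDegree_sum_le_of_forall_le _ _ fun ω _ => ?_
        refine (Polynomial.natDegree_C_mul_le _ _).trans ?_
        refine (Polynomial.natDegree_add_le _ _).trans (max_le
          ((Polynomial.natDegree_add_le _ _).trans (max_le ?_ ?_)) ?_)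
        · exact line_natDegree _ _ _ _ hF.totalDegree_le
        · exact line_natDegree _ _ _ _ hg.le
        · rw [Polynomial.natDegree_C]
          omega
      have hPc : P.coeff D = (((Q : ℤ) ^ D : ℤ) : ℝ) * x := by
        rw [hP, Polynomial.finsetSum_coeff]
        have h1 : ∀ ω : Fin (n + 1) → Bool, (Polynomial.C (sgnB ω : ℝ) *
            (line (fun i => ((ext σ κ (mixB ω a a') i : ℤ) : ℝ))
              (ext σ (fun _ => 0) (mixB ω (fun i => (w i : ℝ)) (fun _ => 0))) F +
            line (fun i => ((ext σ κ (mixB ω a a') i : ℤ) : ℝ))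
              (ext σ (fun _ => 0) (mixB ω (fun i => (w i : ℝ)) (fun _ => 0))) g +
            Polynomial.C (((MvPolynomial.eval (ext σ κ (mixB ω a a')) R : ℤ) : ℝ) / Q))).coeff D =
            (sgnB ω : ℝ) * MvPolynomial.eval
              (ext σ (fun _ => 0) (mixB ω (fun i => (w i : ℝ)) (fun _ => 0))) F := by
          intro ω
          rw [Polynomial.coeff_C_mul, Polynomial.coeff_add, Polynomial.coeff_add,
            line_coeff_of_homogeneous _ _ _ _ hF, line_coeff_of_lt _ _ _ _ hg,
            Polynomial.coeff_C_of_ne_zero (by omega), add_zero, add_zero]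
        rw [sum_congr rfl fun ω _ => h1 ω, cube_full σ F, hvext, full_eval, full_eval, mul_sum]
        refine sum_congr rfl fun m hm => ?_
        have hm' := mem_filter.1 hm
        have h1 : ∑ i, m i = D := by
          have h2 := hF (MvPolynomial.mem_support_iff.1 hm'.1)
          rw [← h2]
          have h3 : (Finsupp.weight (1 : Fin r → ℕ)) m = m.degree := by
            rw [Finsupp.degree_eq_weight_one]
            rfl
          rw [h3]
          exact (degree_eq_sum m).symm
        have h4 : ∏ i, ext σ (fun _ => (0 : ℝ)) (fun i => (w i : ℝ)) i ^ m i =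
            (Q : ℝ) ^ D * ∏ i, ext σ (fun _ => (0 : ℝ)) (fun i => (v (σ i) : ℝ)) i ^ m i := by
          have h5 : ∀ i, ext σ (fun _ => (0 : ℝ)) (fun i => (w i : ℝ)) i =
              Q * ext σ (fun _ => (0 : ℝ)) (fun i => (v (σ i) : ℝ)) i := by
            intro i
            unfold ext
            split_ifs
            · rw [hw]
              push_cast
              rfl
            · rw [mul_zero]
          simp_rw [h5, mul_pow]
          rw [prod_mul_distrib, prod_pow_eq_pow_sum, h1]
        rw [h4]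
        push_cast
        ring
      have h0 := hweyl N hNa ((Q : ℤ) ^ D) (by positivity) (by
        push_cast
        rw [abs_of_nonneg (by positivity)]
        exact hNb) P hPd hPc Tt hT1 b hb hbB h hh1 hh p hp hne
      rw [mul_comm (Real.exp (-(c * N))) (Tt : ℝ)]
      refine le_trans (le_of_eq ?_) h0
      congr 1
      refine sum_congr rfl fun t _ => ?_
      -- the values of the phase
      have hval : ∃ z : ℤ, cub f (fun i => a i + w i * (t : ℤ)) a' = P.eval (t : ℝ) + z := by
        choose cω hcω using fun ω : Fin (n + 1) → Bool => eval_congr_mod R Q (ext σ κ (mixB ω a a'))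
          (fun i => ext σ (fun _ => (0 : ℤ)) (mixB ω w (fun _ => 0)) i * (t : ℤ)) (fun i => by
            unfold ext mixB
            split_ifs
            · simp
            · rw [hw]
              simp only
              rw [mul_assoc]
              exact dvd_mul_right _ _
            · simp)
        refine ⟨∑ ω, sgnB ω * cω ω, ?_⟩
        rw [hP, Polynomial.eval_finsetSum]
        push_cast
        rw [← sum_add_distrib]
        unfold cub
        refine sum_congr rfl fun ω _ => ?_
        have h1 : ext σ κ (mixB ω (fun i => a i + w i * (t : ℤ)) a') =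
            fun i => ext σ κ (mixB ω a a') i +
              ext σ (fun _ => (0 : ℤ)) (mixB ω w (fun _ => 0)) i * (t : ℤ) := by
          funext i
          unfold ext mixB
          split_ifs <;> simp
        have h2 : (MvPolynomial.eval (fun i => ext σ κ (mixB ω a a') i +
            ext σ (fun _ => (0 : ℤ)) (mixB ω w (fun _ => 0)) i * (t : ℤ)) R : ℤ) =
            MvPolynomial.eval (ext σ κ (mixB ω a a')) R + Q * cω ω := by
          have := hcω ω
          linarith
        have h3 : ((MvPolynomial.eval (ext σ κ (mixB ω a a')) R + Q * cω ω : ℤ) : ℝ) / Q =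
            ((MvPolynomial.eval (ext σ κ (mixB ω a a')) R : ℤ) : ℝ) / Q + cω ω := by
          push_cast
          field_simp
        have h4 : (fun i => (((ext σ κ (mixB ω a a') i +
            ext σ (fun _ => (0 : ℤ)) (mixB ω w (fun _ => 0)) i * (t : ℤ) : ℤ)) : ℝ)) =
            fun i => ((ext σ κ (mixB ω a a') i : ℤ) : ℝ) +
              ext σ (fun _ => (0 : ℝ)) (mixB ω (fun i => (w i : ℝ)) (fun _ => 0)) i * (t : ℝ) := by
          funext i
          unfold ext mixB
          split_ifs <;> simp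
        rw [hf]
        simp only
        rw [h1]
        simp only
        rw [h2, h3, h4, Polynomial.eval_mul, Polynomial.eval_add, Polynomial.eval_add,
          Polynomial.eval_C, Polynomial.eval_C, line_eval, line_eval]
        ring
      obtain ⟨z, hz⟩ := hval
      have h1 : cub (fun k => h * f k * Λ) (fun i => a i + w i * (t : ℤ)) a' =
          h * P.eval (t : ℝ) * Λ + ((h * z * Λ : ℤ) : ℝ) := by
        have h2 : cub (fun k => h * f k * Λ) (fun i => a i + w i * (t : ℤ)) a' =
            h * cub f (fun i => a i + w i * (t : ℤ)) a' * Λ := by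
          unfold cub
          rw [mul_sum, sum_mul]
          exact sum_congr rfl fun ω _ => by ring
        rw [h2, hz]
        push_cast
        ring
      rw [h1, e_add_int]
    refine (sum_le_sum hone).trans (le_of_eq ?_)
    rw [sum_const, nsmul_eq_mul, Fintype.card_piFinset]
    push_cast
    rw [hcard]
  -- the bound for the average
  have hρ : Real.exp (-(c * N)) + 2 * (W * Tt / Real.exp (ε * N)) ≤ Real.exp (-(c2 * N)) := by
    have f1 : Real.exp (-(c * N)) ≤ Real.exp (-(2 * c2 * N)) := by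
      apply Real.exp_le_exp.2
      have := mul_le_mul_of_nonneg_right hc2a hN0.le
      linarith
    have f2 : W * Tt / Real.exp (ε * N) ≤ 2 * W * Real.exp (-(2 * c2 * N)) := by
      rw [div_le_iff₀ (Real.exp_pos _)]
      have f3 : Real.exp (ε / 2 * N) ≤ Real.exp (-(2 * c2 * N)) * Real.exp (ε * N) := by
        rw [← Real.exp_add]
        apply Real.exp_le_exp.2
        have := mul_le_mul_of_nonneg_right hc2b hN0.le
        linarith
      calc W * Tt ≤ W * (2 * Real.exp (ε / 2 * N)) := by gcongr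
        _ ≤ W * (2 * (Real.exp (-(2 * c2 * N)) * Real.exp (ε * N))) := by gcongr
        _ = _ := by ring
    calc Real.exp (-(c * N)) + 2 * (W * Tt / Real.exp (ε * N)) ≤
        (1 + 4 * W) * Real.exp (-(2 * c2 * N)) := by linarith
      _ ≤ Real.exp (c2 * N) * Real.exp (-(2 * c2 * N)) :=
          mul_le_mul_of_nonneg_right hNc (Real.exp_pos _).le
      _ = Real.exp (-(c2 * N)) := by
        rw [← Real.exp_add]
        congr 1
        ring
  have hp2 : 2 ≤ 2 ^ (n + 1) := by
    have := Nat.pow_le_pow_right (n := 2) (by norm_num) (show 1 ≤ n + 1 by omega)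
    simpa using this
  have hfin : ‖S‖ ^ (2 ^ (n + 1)) ≤ (V * Real.exp (-(c2 / 2 ^ (n + 1) * N))) ^ (2 ^ (n + 1)) := by
    have f1 : Real.exp (-(c2 / 2 ^ (n + 1) * N)) ^ (2 ^ (n + 1)) = Real.exp (-(c2 * N)) := by
      rw [← Real.exp_nat_mul]
      congr 1
      push_cast
      field_simp
    rw [mul_pow, f1]
    calc ‖S‖ ^ (2 ^ (n + 1)) ≤ V ^ (2 ^ (n + 1) - 2) * _ := hbox
      _ ≤ V ^ (2 ^ (n + 1) - 2) * (V * (V * (Real.exp (-(c * N)) +
          2 * (W * Tt / Real.exp (ε * N))))) := by gcongr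
      _ ≤ V ^ (2 ^ (n + 1) - 2) * (V * (V * Real.exp (-(c2 * N)))) := by gcongr
      _ = V ^ (2 ^ (n + 1)) * Real.exp (-(c2 * N)) := by
        have : V ^ (2 ^ (n + 1)) = V ^ (2 ^ (n + 1) - 2) * V ^ 2 := by
          rw [← pow_add]
          congr 1
          omega
        rw [this]
        ring
  exact le_of_pow_le_pow_left₀ (by positivity) (by positivity) hfin

end

end Pool.Agent.J6H30.PV
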