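import Pool.Agent.J6H30.PV.TupleMain

/-!
# Joint discrepancy for tuples of polynomials
-/

set_option autoImplicit false

namespace Pool.Agent.J6H30.PV

open Finset Filter Topology
open Pool.Agent.H469R2.NK (e norm_e e_add e_zero conj_e)
open Pool.Agent.R485.Mult (sg abs_sg e_sum)

theorem tuple_main (m r D0 : ℕ) (hD0 : 1 ≤ D0) (Ts : Finset (Fin r))
    (f : Fin m → MvPolynomial (Fin r) ℝ)
    (halg : ∀ j μ, D0 ≤ μ.degree → IsAlgebraic ℚ ((f j).coeff μ))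
    (hcond : ∀ c : Fin m → ℤ, c ≠ 0 → ∃ μ : Fin r →₀ ℕ, D0 ≤ μ.degree ∧ Ts ⊆ μ.support ∧
      Irrational (∑ j, (c j : ℝ) * (f j).coeff μ) ∧
      ∀ ν : Fin r →₀ ℕ, μ.degree < ν.degree → ¬ Irrational (∑ j, (c j : ℝ) * (f j).coeff ν))
    (B : ℕ) (ε δ : ℝ) (hε : 0 < ε) (hδ : 0 < δ) (A : ℕ) :
    ∃ κ : ℝ, 0 < κ ∧ ∃ N₀ : ℕ, ∀ N : ℕ, N₀ ≤ N → ∀ g : Fin m → MvPolynomial (Fin r) ℝ,
      (∀ j, (g j).totalDegree < D0) → ∀ (J : Fin r → ℤ) (M : Fin r → ℕ),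
      (∀ i, Real.exp (ε * N) ≤ M i) →
      ∀ Z : Fin r → Set (Fin r → ℤ), (∀ i ∈ Ts, ∀ a z, Function.update a i z ∈ Z i ↔ a ∈ Z i) →
      ∀ γ : Fin m → Fin r → (Fin r → ℤ) → ℝ,
        (∀ j, ∀ i ∈ Ts, ∀ a z, γ j i (Function.update a i z) = γ j i a) →
      ∀ Ω : Finset (Fin r → ℤ), (∀ a, a ∈ Ω ↔ a ∈ box J M ∧ ∀ i ∈ Ts, a ∈ Z i) →
      Real.exp (-(κ * N)) * ∏ i, (M i : ℝ) ≤ Ω.card →
      ({k | k ∈ Ω ∧ ¬ GoodM B N ((N : ℝ) ^ δ) (fun j =>
        MvPolynomial.eval (fun i => (k i : ℝ)) (f j) + MvPolynomial.eval (fun i => (k i : ℝ)) (g j) +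
          ∑ i ∈ Ts, γ j i k)}.ncard : ℝ) * (N : ℝ) ^ A ≤ Ω.card := by
  classical
  obtain ⟨σ, N1, hσ1, hcrit⟩ := criterionM m B δ hδ A
  obtain ⟨c, hc, N2, hsum⟩ := tuple_sum m r D0 hD0 Ts f halg hcond B σ ε hε
  obtain ⟨N3, hN3⟩ := eventually_atTop.1 ((pow_le_exp 1 (2 * σ) (c / 2) (by positivity)).and
    (eventually_ge_atTop 1))
  refine ⟨c / 2, by positivity, max N1 (max N2 N3), fun N hN g hg J M hM Z hZ γ hγ Ω hΩ hdens => ?_⟩
  have hNa : N1 ≤ N := (le_max_left _ _).trans hN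
  have hNb : N2 ≤ N := ((le_max_left _ _).trans (le_max_right _ _)).trans hN
  obtain ⟨hNc, hNd⟩ := hN3 N (((le_max_right _ _).trans (le_max_right _ _)).trans hN)
  rw [one_mul] at hNc
  refine hcrit N hNa (Fin r → ℤ) Ω (fun k j =>
    MvPolynomial.eval (fun i => (k i : ℝ)) (f j) + MvPolynomial.eval (fun i => (k i : ℝ)) (g j) +
      ∑ i ∈ Ts, γ j i k) ?_
  intro b s hb hbB hs h hh p hp hne
  set C : Fin m → ℤ := fun j => h j * (b j : ℤ) ^ (s j) * wt σ (b j) p with hC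
  set u : Fin r → (Fin r → ℤ) → ℂ := fun i a =>
    if a ∈ Z i then e (∑ j, (C j : ℝ) * γ j i a) else 0 with hu
  have h1 := hsum N hNb g hg J M hM b s hb hbB hs h hh p hp hne u (by
    intro i a
    rw [hu]
    simp only
    split_ifs
    · exact (norm_e _).le
    · simp) (by
    intro i hi a z
    rw [hu]
    simp only
    have e1 : ∀ j, γ j i (Function.update a i z) = γ j i a := fun j => hγ j i hi a z
    simp only [e1, hZ i hi])
  have h2 : ∑ ω ∈ Ω, e (∑ j, (C j : ℝ) *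
      (MvPolynomial.eval (fun i => (ω i : ℝ)) (f j) + MvPolynomial.eval (fun i => (ω i : ℝ)) (g j) +
        ∑ i ∈ Ts, γ j i ω)) =
      ∑ k ∈ box J M, (∏ i ∈ Ts, u i k) * e (∑ j, (C j : ℝ) *
        (MvPolynomial.eval (fun i => (k i : ℝ)) (f j) +
          MvPolynomial.eval (fun i => (k i : ℝ)) (g j))) := by
    have e1 : Ω = (box J M).filter (fun a => ∀ i ∈ Ts, a ∈ Z i) := by
      ext a
      rw [hΩ, mem_filter]
    rw [e1, sum_filter]
    refine sum_congr rfl fun k _ => ?_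
    split_ifs with hk
    · have e2 : ∏ i ∈ Ts, u i k = e (∑ j, (C j : ℝ) * ∑ i ∈ Ts, γ j i k) := by
        have e3 : ∑ j, (C j : ℝ) * ∑ i ∈ Ts, γ j i k = ∑ i ∈ Ts, ∑ j, (C j : ℝ) * γ j i k := by
          rw [sum_comm]
          exact sum_congr rfl fun j _ => mul_sum _ _ _
        rw [e3, e_sum]
        refine prod_congr rfl fun i hi => ?_
        rw [hu]
        simp only
        rw [if_pos (hk i hi)]
      rw [e2, ← e_add, ← sum_add_distrib]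
      congr 1
      exact sum_congr rfl fun j _ => by ring
    · push Not at hk
      obtain ⟨i, hiT, hi⟩ := hk
      rw [prod_eq_zero hiT, zero_mul]
      rw [hu]
      simp only
      rw [if_neg hi]
  rw [h2]
  set V : ℝ := ∏ i, (M i : ℝ) with hV
  have hV0 : 0 ≤ V := prod_nonneg fun _ _ => Nat.cast_nonneg _
  calc ‖∑ k ∈ box J M, (∏ i ∈ Ts, u i k) * e (∑ j, (C j : ℝ) *
        (MvPolynomial.eval (fun i => (k i : ℝ)) (f j) +
          MvPolynomial.eval (fun i => (k i : ℝ)) (g j)))‖ * (N : ℝ) ^ (2 * σ) ≤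
      (V * Real.exp (-(c * N))) * Real.exp (c / 2 * N) := by gcongr
    _ = Real.exp (-(c / 2 * N)) * V := by
      rw [mul_assoc, ← Real.exp_add, mul_comm]
      congr 2
      ring
    _ ≤ Ω.card := hdens

end Pool.Agent.J6H30.PV
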