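import Pool.Agent.J6H30.PV.TupleSum

/-!
# Tuples of polynomials
-/

set_option autoImplicit false

namespace Pool.Agent.J6H30.PV

open Finset Filter Topology
open Pool.Agent.H469R2.NK (e norm_e e_add e_zero conj_e)
open Pool.Agent.R485.Mult (sg abs_sg e_sum)

/-- the values at the points of the grid -/
noncomputable def gridA {m r d : ℕ} (D0 : ℕ) (f : Fin m → MvPolynomial (Fin r) ℝ)
    (x : (Fin r → Fin (d + 1)) × Finset (Fin r) × Fin (d + 1)) (j : Fin m) : ℝ :=
  if D0 ≤ (x.2.2 : ℕ) then MvPolynomial.eval (fun i => (((x.1 i : ℕ) : ℤ) : ℝ))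
    (full x.2.1 (part (fun μ => μ.degree = x.2.2) (f j))) else 0

lemma gridA_alg {m r d : ℕ} (D0 : ℕ) (f : Fin m → MvPolynomial (Fin r) ℝ)
    (halg : ∀ j μ, D0 ≤ μ.degree → IsAlgebraic ℚ ((f j).coeff μ))
    (x : (Fin r → Fin (d + 1)) × Finset (Fin r) × Fin (d + 1)) (j : Fin m) :
    IsAlgebraic ℚ (gridA D0 f x j) := by
  classical
  unfold gridA
  split_ifs with h
  · apply isAlgebraic_eval
    intro μ
    rw [full_coeff, part_coeff]
    split_ifs with h1 h2
    · exact halg j μ (by omega)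
    · exact isAlgebraic_zero
    · exact isAlgebraic_zero
  · exact isAlgebraic_zero

theorem tuple_sum (m r D0 : ℕ) (hD0 : 1 ≤ D0) (Ts : Finset (Fin r))
    (f : Fin m → MvPolynomial (Fin r) ℝ)
    (halg : ∀ j μ, D0 ≤ μ.degree → IsAlgebraic ℚ ((f j).coeff μ))
    (hcond : ∀ c : Fin m → ℤ, c ≠ 0 → ∃ μ : Fin r →₀ ℕ, D0 ≤ μ.degree ∧ Ts ⊆ μ.support ∧
      Irrational (∑ j, (c j : ℝ) * (f j).coeff μ) ∧
      ∀ ν : Fin r →₀ ℕ, μ.degree < ν.degree → ¬ Irrational (∑ j, (c j : ℝ) * (f j).coeff ν))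
    (B σ : ℕ) (ε : ℝ) (hε : 0 < ε) :
    ∃ c : ℝ, 0 < c ∧ ∃ N₀ : ℕ, ∀ N : ℕ, N₀ ≤ N → ∀ g : Fin m → MvPolynomial (Fin r) ℝ,
      (∀ j, (g j).totalDegree < D0) → ∀ (J : Fin r → ℤ) (M : Fin r → ℕ),
      (∀ i, Real.exp (ε * N) ≤ M i) →
      ∀ b s : Fin m → ℕ, (∀ j, 2 ≤ b j) → (∀ j, b j ≤ B) → (∀ j, s j ≤ N) →
      ∀ h : Fin m → ℤ, (∀ j, |h j| ≤ N) → ∀ p : Fin (2 * σ) → ℕ, (∀ t, p t ≤ N) →
      (∃ j, h j * wt σ (b j) p ≠ 0) →
      ∀ u : Fin r → (Fin r → ℤ) → ℂ, (∀ i a, ‖u i a‖ ≤ 1) →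
      (∀ i ∈ Ts, ∀ a z, u i (Function.update a i z) = u i a) →
      ‖∑ k ∈ box J M, (∏ i ∈ Ts, u i k) *
        e (∑ j, ((h j * (b j : ℤ) ^ (s j) * wt σ (b j) p : ℤ) : ℝ) *
          (MvPolynomial.eval (fun i => (k i : ℝ)) (f j) +
            MvPolynomial.eval (fun i => (k i : ℝ)) (g j)))‖ ≤
        (∏ i, (M i : ℝ)) * Real.exp (-(c * N)) := by
  classical
  obtain ⟨φ, hφ⟩ := exists_proj
  obtain ⟨Q, hQ, hQz⟩ := common_den φ f
  have hQR : (1 : ℝ) ≤ Q := by exact_mod_cast hQ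
  set d : ℕ := univ.sup (fun j => (f j).totalDegree) with hd
  have hfd : ∀ j, (f j).totalDegree ≤ d := fun j =>
    le_sup (f := fun j => (f j).totalDegree) (mem_univ j)
  -- the Diophantine input
  obtain ⟨κ, hκ, N1, hdio⟩ := unif (X := (Fin r → Fin (d + 1)) × Finset (Fin r) × Fin (d + 1))
    (fun x κ N₀ => DioP B (2 * σ) (ε / 4) (gridA D0 f x) κ N₀) (by
      intro x c c' N N' hc' hcc hNN h n hn b hb hbB p hp lam hlam hirr P
      refine h n (hNN.trans hn) b hb hbB p hp lam (fun j t => (hlam j t).trans ?_) hirr P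
      apply Real.exp_le_exp.2
      exact mul_le_mul_of_nonneg_right hcc (Nat.cast_nonneg _)) (by
      intro x
      exact diophM (gridA D0 f x) (gridA_alg D0 f halg x) B (2 * σ) (ε / 4) (by positivity))
  set W : ℝ := r * (Q * d) with hW
  have hW0 : 0 ≤ W := by positivity
  obtain ⟨c, hc, N2, hrough⟩ := unif (X := Fin (d + 1))
    (fun D c N₀ => 1 ≤ (D : ℕ) → RoughP r D ε (κ / 2) W c N₀) (by
      intro x c c' N N' hc' hcc hNN h hx n hn T hT F g hF hg R Q hQ v hv hq J M hM u hu hind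
      refine (h hx n (hNN.trans hn) T hT F g hF hg R Q hQ v hv hq J M hM u hu hind).trans ?_
      apply mul_le_mul_of_nonneg_left _ (prod_nonneg fun _ _ => Nat.cast_nonneg _)
      apply Real.exp_le_exp.2
      have := mul_le_mul_of_nonneg_right hcc (Nat.cast_nonneg n : (0 : ℝ) ≤ n)
      linarith) (by
      intro D
      by_cases hD : 1 ≤ (D : ℕ)
      · obtain ⟨c, hc, N₀, h⟩ := rough_num r D hD ε (κ / 2) W hε (by positivity) hW0
        exact ⟨c, hc, N₀, fun _ => h⟩
      · exact ⟨1, one_pos, 0, fun h => absurd h hD⟩)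
  obtain ⟨N3, hN3⟩ := eventually_atTop.1 ((pow_le_exp ((Q : ℝ) ^ d) 1 (κ / 2) (by positivity)).and
    (eventually_ge_atTop 1))
  refine ⟨c, hc, max N1 (max N2 N3), fun N hN g hg J M hM b s hb hbB hs h hh p hp hne u hu hind => ?_⟩
  have hNa : N1 ≤ N := (le_max_left _ _).trans hN
  have hNb : N2 ≤ N := ((le_max_left _ _).trans (le_max_right _ _)).trans hN
  obtain ⟨hNc, hNd⟩ := hN3 N (((le_max_right _ _).trans (le_max_right _ _)).trans hN)
  rw [pow_one] at hNc
  have hNR : (1 : ℝ) ≤ N := by exact_mod_cast hNd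
  -- the combination
  set C : Fin m → ℤ := fun j => h j * (b j : ℤ) ^ (s j) * wt σ (b j) p with hC
  have hC0 : C ≠ 0 := by
    obtain ⟨j, hj⟩ := hne
    intro h0
    have h1 := congrFun h0 j
    rw [hC] at h1
    simp only [Pi.zero_apply] at h1
    have hbj : (b j : ℤ) ^ (s j) ≠ 0 := by
      have := hb j
      positivity
    apply hj
    rcases mul_eq_zero.1 h1 with h2 | h2
    · rcases mul_eq_zero.1 h2 with h3 | h3
      · rw [h3, zero_mul]
      · exact absurd h3 hbj
    · rw [h2, mul_zero]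
  obtain ⟨μ, hμ0, hμT, hμirr, hμrat⟩ := hcond C hC0
  set P : MvPolynomial (Fin r) ℝ := ∑ j, MvPolynomial.C (C j : ℝ) * f j with hP
  set D : ℕ := μ.degree with hD
  set T : Finset (Fin r) := μ.support with hT
  have hD1 : 1 ≤ D := hD0.trans hμ0
  have hDd : D ≤ d := by
    by_contra hcon
    push Not at hcon
    apply hμirr
    refine ⟨0, ?_⟩
    rw [Rat.cast_zero]
    symm
    refine sum_eq_zero fun j _ => ?_
    have : (f j).coeff μ = 0 := by
      by_contra h1
      have h2 := MvPolynomial.le_totalDegree (MvPolynomial.mem_support_iff.2 h1)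
      rw [Finsupp.sum_fintype _ _ (fun _ => rfl)] at h2
      have h3 := hfd j
      rw [hD, degree_eq_sum] at hcon
      omega
    rw [this, mul_zero]
  have hTne : T.Nonempty := by
    rw [nonempty_iff_ne_empty]
    intro h0
    have h1 : μ = 0 := Finsupp.support_eq_empty.1 h0
    rw [hD, h1, map_zero] at hD1
    omega
  set F : MvPolynomial (Fin r) ℝ := part (fun μ => μ.degree = D) P with hF
  have hFhom : F.IsHomogeneous D := part_homogeneous D P
  obtain ⟨R, hR⟩ := exists_R φ hφ f Q hQ hQz C D hμrat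
  set G : MvPolynomial (Fin r) ℝ := part (fun μ => μ.degree < D) P +
    ∑ j, MvPolynomial.C (C j : ℝ) * g j with hG
  have hGD : G.totalDegree < D := by
    have h1 : (∑ j, MvPolynomial.C (C j : ℝ) * g j).totalDegree ≤ D - 1 := by
      refine MvPolynomial.totalDegree_finsetSum_le fun j _ => ?_
      refine (MvPolynomial.totalDegree_mul _ _).trans ?_
      rw [MvPolynomial.totalDegree_C, zero_add]
      have := hg j
      omega
    have h2 := part_lt D hD1 P
    have h3 := MvPolynomial.totalDegree_add (part (fun μ => μ.degree < D) P)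
      (∑ j, MvPolynomial.C (C j : ℝ) * g j)
    rw [← hG] at h3
    omega
  -- the point of the grid
  have hfull : (full T F).totalDegree ≤ d :=
    (full_totalDegree T F).trans ((part_totalDegree _ D P (fun μ hμ => hμ.le)).trans hDd)
  have hcoef : (full T F).coeff μ = ∑ j, (C j : ℝ) * (f j).coeff μ := by
    rw [full_coeff, if_pos rfl, hF, part_coeff, if_pos rfl, hP, comb_coeff]
  obtain ⟨v, hvd, hv⟩ := exists_irrational_value_grid (full T F) μ (by rw [hcoef]; exact hμirr) d hfull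
  set x : (Fin r → Fin (d + 1)) × Finset (Fin r) × Fin (d + 1) :=
    (fun i => ⟨v i, Nat.lt_succ_of_le (hvd i)⟩, T, ⟨D, Nat.lt_succ_of_le hDd⟩) with hx
  have hval : MvPolynomial.eval (fun i => (((v i : ℕ) : ℤ) : ℝ)) (full T F) =
      ∑ j, (C j : ℝ) * gridA D0 f x j := by
    rw [hF, hP, full_part_comb, eval_comb]
    refine sum_congr rfl fun j _ => ?_
    congr 1
    unfold gridA
    rw [hx]
    simp only
    rw [if_pos hμ0]
  have hvirr : Irrational (∑ j, (C j : ℝ) * gridA D0 f x j) := by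
    rw [← hval]
    simpa using hv
  -- the bound
  set u' : Fin r → (Fin r → ℤ) → ℂ := fun i a => if i ∈ Ts then u i a else 1 with hu'
  have hW' : ∑ i, |((Q : ℝ) * ((v i : ℕ) : ℤ))| ≤ W := by
    have h1 : ∀ i ∈ (univ : Finset (Fin r)), |((Q : ℝ) * (((v i : ℕ) : ℤ) : ℝ))| ≤ Q * d := by
      intro i _
      have h2 : ((v i : ℕ) : ℝ) ≤ d := by exact_mod_cast hvd i
      rw [abs_of_nonneg (by push_cast; positivity)]
      push_cast
      gcongr
    refine (sum_le_sum h1).trans (le_of_eq ?_)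
    rw [sum_const, card_univ, Fintype.card_fin, nsmul_eq_mul, hW]
  have hkey : ∀ q : ℤ, q ≠ 0 → |(q : ℝ)| ≤ Real.exp (κ / 2 * N) → ∀ z : ℤ,
      Real.exp (-(ε / 4 * N)) < |q * ((Q : ℝ) ^ D *
        MvPolynomial.eval (fun i => (((v i : ℕ) : ℤ) : ℝ)) (full T F)) - z| := by
    intro q hq0 hq z
    have e1 : ∀ j, ∑ t : Fin (2 * σ), (q * (Q : ℤ) ^ D * h j * sg t) * (b j : ℤ) ^ (s j + p t) =
        q * (Q : ℤ) ^ D * C j := by
      intro j
      rw [hC]
      simp only [wt]
      rw [mul_sum, mul_sum]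
      refine sum_congr rfl fun t _ => ?_
      rw [pow_add]
      ring
    have e2 : ∑ j, ((∑ t : Fin (2 * σ), (q * (Q : ℤ) ^ D * h j * sg t) * (b j : ℤ) ^ (s j + p t) : ℤ) : ℝ) *
        gridA D0 f x j = q * (Q : ℝ) ^ D * ∑ j, (C j : ℝ) * gridA D0 f x j := by
      rw [mul_sum]
      refine sum_congr rfl fun j _ => ?_
      rw [e1]
      push_cast
      ring
    have h1 := hdio x N hNa b hb hbB (fun j t => s j + p t) (fun j t => by
      have := hs j
      have := hp t
      omega) (fun j t => q * (Q : ℤ) ^ D * h j * sg t) (fun j t => by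
      push_cast
      rw [abs_mul, abs_mul, abs_mul]
      have h2 : |((sg t : ℤ) : ℝ)| = 1 := by
        rw [← Int.cast_abs, abs_sg]
        simp
      have h3 : |((h j : ℤ) : ℝ)| ≤ N := by
        rw [← Int.cast_abs]
        exact_mod_cast hh j
      have h4 : |(Q : ℝ) ^ D| ≤ (Q : ℝ) ^ d := by
        rw [abs_of_nonneg (by positivity)]
        exact pow_le_pow_right₀ hQR hDd
      rw [h2, mul_one]
      calc |(q : ℝ)| * |(Q : ℝ) ^ D| * |((h j : ℤ) : ℝ)| ≤
          Real.exp (κ / 2 * N) * (Q : ℝ) ^ d * N := by gcongr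
        _ = Real.exp (κ / 2 * N) * ((Q : ℝ) ^ d * N) := by ring
        _ ≤ Real.exp (κ / 2 * N) * Real.exp (κ / 2 * N) := by gcongr
        _ = Real.exp (κ * N) := by
          rw [← Real.exp_add]
          congr 1
          ring) (by
      rw [e2]
      have hne' : (q * (Q : ℤ) ^ D : ℤ) ≠ 0 := mul_ne_zero hq0 (by positivity)
      have := hvirr.intCast_mul hne'
      push_cast at this
      exact this) z
    rw [e2] at h1
    rw [hval]
    refine lt_of_lt_of_eq h1 ?_
    congr 1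
    ring
  have h1 := hrough ⟨D, Nat.lt_succ_of_le hDd⟩ hD1 N hNb T hTne F G hFhom hGD R Q hQ
    (fun i => ((v i : ℕ) : ℤ)) hW' hkey J M (fun i _ => hM i) u' (by
      intro i a
      rw [hu']
      simp only
      split_ifs
      · exact hu i a
      · simp) (by
      intro i _ a z
      rw [hu']
      simp only
      split_ifs with hi
      · exact hind i hi a z
      · rfl)
  refine le_trans (le_of_eq ?_) h1
  congr 1
  refine sum_congr rfl fun k _ => ?_
  have e3 : ∏ i ∈ T, u' i k = ∏ i ∈ Ts, u i k := by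
    rw [hu']
    simp only
    rw [prod_ite, prod_const_one, mul_one]
    refine prod_congr ?_ fun i _ => rfl
    ext i
    rw [mem_filter]
    exact ⟨fun h => h.2, fun h => ⟨hμT h, h⟩⟩
  rw [e3]
  congr 2
  have e4 : ∑ j, ((h j * (b j : ℤ) ^ (s j) * wt σ (b j) p : ℤ) : ℝ) *
      (MvPolynomial.eval (fun i => (k i : ℝ)) (f j) + MvPolynomial.eval (fun i => (k i : ℝ)) (g j)) =
      MvPolynomial.eval (fun i => (k i : ℝ)) P +
        MvPolynomial.eval (fun i => (k i : ℝ)) (∑ j, MvPolynomial.C (C j : ℝ) * g j) := by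
    rw [hP, eval_comb, eval_comb, ← sum_add_distrib]
    exact sum_congr rfl fun j _ => by rw [mul_add]
  rw [e4]
  have e5 := congrArg (MvPolynomial.eval (fun i => (k i : ℝ))) (part_split D P)
  rw [map_add, map_add, hR k] at e5
  rw [e5, hG, map_add, ← hF]
  ring

end Pool.Agent.J6H30.PV
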