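import Pool.Agent.J6H30.PV.TupleDioph

/-!
# Exponential sums for tuples of polynomials
-/

set_option autoImplicit false

namespace Pool.Agent.J6H30.PV

open Finset Filter Topology
open Pool.Agent.H469R2.NK (e norm_e e_add e_zero conj_e)
open Pool.Agent.R485.Mult (sg abs_sg)

section part
variable {r : ℕ}

open Classical in
/-- the part of a polynomial with the given exponents -/
noncomputable def part (p : (Fin r →₀ ℕ) → Prop) (F : MvPolynomial (Fin r) ℝ) :
    MvPolynomial (Fin r) ℝ :=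
  ∑ μ ∈ F.support.filter p, MvPolynomial.monomial μ (F.coeff μ)

open Classical in
lemma part_coeff (p : (Fin r →₀ ℕ) → Prop) (F : MvPolynomial (Fin r) ℝ) (μ : Fin r →₀ ℕ) :
    (part p F).coeff μ = if p μ then F.coeff μ else 0 := by
  unfold part
  rw [MvPolynomial.coeff_sum]
  simp only [MvPolynomial.coeff_monomial]
  rw [sum_ite_eq']
  by_cases h : p μ
  · rw [if_pos h]
    split_ifs with h2
    · rfl
    · rw [mem_filter, not_and_or] at h2
      rcases h2 with h2 | h2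
      · exact (MvPolynomial.notMem_support_iff.1 h2).symm
      · exact absurd h h2
  · rw [if_neg h, if_neg (fun h2 => h (mem_filter.1 h2).2)]

lemma weight_one_eq (μ : Fin r →₀ ℕ) : (Finsupp.weight (1 : Fin r → ℕ)) μ = μ.degree := by
  rw [Finsupp.degree_eq_weight_one]
  rfl

lemma part_homogeneous (D : ℕ) (F : MvPolynomial (Fin r) ℝ) :
    (part (fun μ => μ.degree = D) F).IsHomogeneous D := by
  classical
  intro μ hμ
  rw [part_coeff] at hμ
  rw [weight_one_eq]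
  by_contra h
  rw [if_neg h] at hμ
  exact hμ rfl

lemma part_totalDegree (p : (Fin r →₀ ℕ) → Prop) (D : ℕ) (F : MvPolynomial (Fin r) ℝ)
    (hp : ∀ μ, p μ → μ.degree ≤ D) : (part p F).totalDegree ≤ D := by
  classical
  unfold part
  refine MvPolynomial.totalDegree_finsetSum_le fun μ hμ => ?_
  refine (MvPolynomial.totalDegree_monomial_le _ _).trans ?_
  have h1 := hp μ (mem_filter.1 hμ).2
  rw [degree_eq_sum] at h1
  rw [Finsupp.sum_fintype _ _ (fun _ => rfl)]
  exact h1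

lemma part_lt (D : ℕ) (hD : 1 ≤ D) (F : MvPolynomial (Fin r) ℝ) :
    (part (fun μ => μ.degree < D) F).totalDegree < D := by
  have := part_totalDegree (fun μ => μ.degree < D) (D - 1) F (fun μ hμ => by omega)
  omega

lemma part_split (D : ℕ) (F : MvPolynomial (Fin r) ℝ) :
    F = part (fun μ => μ.degree = D) F + part (fun μ => μ.degree < D) F +
      part (fun μ => D < μ.degree) F := by
  classical
  ext μ
  rw [MvPolynomial.coeff_add, MvPolynomial.coeff_add, part_coeff, part_coeff, part_coeff]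
  rcases lt_trichotomy μ.degree D with h | h | h
  · rw [if_neg (by omega), if_pos h, if_neg (by omega)]
    ring
  · rw [if_pos h, if_neg (by omega), if_neg (by omega)]
    ring
  · rw [if_neg (by omega), if_neg (by omega), if_pos h]
    ring

lemma comb_coeff {m : ℕ} (c : Fin m → ℝ) (f : Fin m → MvPolynomial (Fin r) ℝ) (μ : Fin r →₀ ℕ) :
    (∑ j, MvPolynomial.C (c j) * f j).coeff μ = ∑ j, c j * (f j).coeff μ := by
  rw [MvPolynomial.coeff_sum]
  exact sum_congr rfl fun j _ => MvPolynomial.coeff_C_mul _ _ _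

lemma full_part_comb {m : ℕ} (T : Finset (Fin r)) (p : (Fin r →₀ ℕ) → Prop) (c : Fin m → ℝ)
    (f : Fin m → MvPolynomial (Fin r) ℝ) :
    full T (part p (∑ j, MvPolynomial.C (c j) * f j)) =
      ∑ j, MvPolynomial.C (c j) * full T (part p (f j)) := by
  classical
  ext μ
  rw [full_coeff, part_coeff, comb_coeff, comb_coeff]
  simp only [full_coeff, part_coeff]
  split_ifs <;> simp

lemma eval_comb {m : ℕ} (c : Fin m → ℝ) (f : Fin m → MvPolynomial (Fin r) ℝ) (x : Fin r → ℝ) :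
    MvPolynomial.eval x (∑ j, MvPolynomial.C (c j) * f j) = ∑ j, c j * MvPolynomial.eval x (f j) := by
  rw [map_sum]
  exact sum_congr rfl fun j _ => by rw [map_mul, MvPolynomial.eval_C]

lemma full_totalDegree (T : Finset (Fin r)) (F : MvPolynomial (Fin r) ℝ) :
    (full T F).totalDegree ≤ F.totalDegree := by
  unfold full
  refine MvPolynomial.totalDegree_finsetSum_le fun μ hμ => ?_
  refine (MvPolynomial.totalDegree_monomial_le _ _).trans ?_
  exact MvPolynomial.le_totalDegree (mem_filter.1 hμ).1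

end part

/-- the Diophantine property -/
def DioP {m : ℕ} (B k : ℕ) (ε : ℝ) (α : Fin m → ℝ) (κ : ℝ) (N₀ : ℕ) : Prop :=
  ∀ N : ℕ, N₀ ≤ N → ∀ b : Fin m → ℕ, (∀ j, 2 ≤ b j) → (∀ j, b j ≤ B) →
      ∀ p : Fin m → Fin k → ℕ, (∀ j t, p j t ≤ 2 * N) → ∀ lam : Fin m → Fin k → ℤ,
      (∀ j t, |(lam j t : ℝ)| ≤ Real.exp (κ * N)) →
      Irrational (∑ j, ((∑ t, lam j t * (b j : ℤ) ^ (p j t) : ℤ) : ℝ) * α j) → ∀ P : ℤ,
      Real.exp (-(ε * N)) <
        |∑ j, ((∑ t, lam j t * (b j : ℤ) ^ (p j t) : ℤ) : ℝ) * α j - P|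

/-- the bound for the sums -/
def RoughP (r D : ℕ) (ε κ0 W c : ℝ) (N₀ : ℕ) : Prop :=
  ∀ N : ℕ, N₀ ≤ N → ∀ T : Finset (Fin r), T.Nonempty →
      ∀ F g : MvPolynomial (Fin r) ℝ, F.IsHomogeneous D → g.totalDegree < D →
      ∀ (R : MvPolynomial (Fin r) ℤ) (Q : ℕ), 1 ≤ Q → ∀ v : Fin r → ℤ,
      ∑ i, |((Q : ℝ) * v i)| ≤ W →
      (∀ q : ℤ, q ≠ 0 → |(q : ℝ)| ≤ Real.exp (κ0 * N) → ∀ m : ℤ, Real.exp (-(ε / 4 * N)) <
        |q * ((Q : ℝ) ^ D * MvPolynomial.eval (fun i => (v i : ℝ)) (full T F)) - m|) →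
      ∀ (J : Fin r → ℤ) (M : Fin r → ℕ), (∀ i ∈ T, Real.exp (ε * N) ≤ M i) →
      ∀ u : Fin r → (Fin r → ℤ) → ℂ, (∀ i a, ‖u i a‖ ≤ 1) →
      (∀ i ∈ T, ∀ a z, u i (Function.update a i z) = u i a) →
      ‖∑ k ∈ box J M, (∏ i ∈ T, u i k) * e (MvPolynomial.eval (fun i => (k i : ℝ)) F +
        MvPolynomial.eval (fun i => (k i : ℝ)) g + (MvPolynomial.eval k R : ℤ) / Q)‖ ≤
      (∏ i, (M i : ℝ)) * Real.exp (-(c * N))

/-- common denominators -/
lemma common_den {m r : ℕ} (φ : ℝ →ₗ[ℚ] ℚ) (f : Fin m → MvPolynomial (Fin r) ℝ) :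
    ∃ Q : ℕ, 1 ≤ Q ∧ ∀ j μ, ∃ z : ℤ, (Q : ℚ) * φ ((f j).coeff μ) = z := by
  classical
  refine ⟨∏ j, ∏ μ ∈ (f j).support, (φ ((f j).coeff μ)).den, ?_, fun j μ => ?_⟩
  · exact Nat.one_le_iff_ne_zero.2 (prod_ne_zero_iff.2 fun j _ => prod_ne_zero_iff.2 fun μ _ =>
      (φ ((f j).coeff μ)).den_nz)
  · by_cases hμ : μ ∈ (f j).support
    · have h1 : (φ ((f j).coeff μ)).den ∣ ∏ j, ∏ μ ∈ (f j).support, (φ ((f j).coeff μ)).den :=
        (dvd_prod_of_mem (fun μ => (φ ((f j).coeff μ)).den) hμ).trans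
          (dvd_prod_of_mem (fun j => ∏ μ ∈ (f j).support, (φ ((f j).coeff μ)).den) (mem_univ j))
      obtain ⟨w, hw⟩ := h1
      refine ⟨w * (φ ((f j).coeff μ)).num, ?_⟩
      rw [hw]
      push_cast
      have h2 := Rat.mul_den_eq_num (φ ((f j).coeff μ))
      rw [← h2]
      ring
    · refine ⟨0, ?_⟩
      rw [MvPolynomial.notMem_support_iff.1 hμ, map_zero, mul_zero, Int.cast_zero]

/-- the part of higher degree -/
lemma exists_R {m r : ℕ} (φ : ℝ →ₗ[ℚ] ℚ) (hφ : ∀ q : ℚ, φ (q : ℝ) = q)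
    (f : Fin m → MvPolynomial (Fin r) ℝ) (Q : ℕ) (hQ : 1 ≤ Q)
    (hQz : ∀ j μ, ∃ z : ℤ, (Q : ℚ) * φ ((f j).coeff μ) = z) (c : Fin m → ℤ) (D : ℕ)
    (hrat : ∀ ν : Fin r →₀ ℕ, D < ν.degree → ¬ Irrational (∑ j, (c j : ℝ) * (f j).coeff ν)) :
    ∃ R : MvPolynomial (Fin r) ℤ, ∀ k : Fin r → ℤ,
      MvPolynomial.eval (fun i => (k i : ℝ))
        (part (fun μ => D < μ.degree) (∑ j, MvPolynomial.C (c j : ℝ) * f j)) =
      (MvPolynomial.eval k R : ℤ) / Q := by
  classical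
  set P := ∑ j, MvPolynomial.C (c j : ℝ) * f j with hP
  have hQ0 : (Q : ℝ) ≠ 0 := by
    have : Q ≠ 0 := by omega
    exact_mod_cast this
  have h1 : ∀ ν : Fin r →₀ ℕ, ∃ z : ℤ, D < ν.degree → (Q : ℝ) * P.coeff ν = z := by
    intro ν
    by_cases hν : D < ν.degree
    · have h2 := hrat ν hν
      unfold Irrational at h2
      push Not at h2
      obtain ⟨q, hq⟩ := h2
      choose z hz using hQz
      refine ⟨∑ j, c j * z j ν, fun _ => ?_⟩
      have h3 : (q : ℚ) = ∑ j, (c j : ℚ) * φ ((f j).coeff ν) := by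
        have h4 := hφ q
        rw [hq, map_sum] at h4
        rw [← h4]
        refine sum_congr rfl fun j _ => ?_
        have h5 : (c j : ℝ) * (f j).coeff ν = (c j : ℚ) • (f j).coeff ν := by
          rw [Rat.smul_def]
          push_cast
          rfl
        rw [h5, map_smul, smul_eq_mul]
      have h6 : (Q : ℚ) * q = ((∑ j, c j * z j ν : ℤ) : ℚ) := by
        rw [h3, mul_sum]
        push_cast
        refine sum_congr rfl fun j _ => ?_
        rw [← hz]
        ring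
      rw [hP, comb_coeff, ← hq]
      exact_mod_cast h6
    · exact ⟨0, fun h => absurd h hν⟩
  choose z hz using h1
  refine ⟨∑ ν ∈ P.support.filter (fun ν => D < ν.degree), MvPolynomial.monomial ν (z ν), fun k => ?_⟩
  unfold part
  rw [map_sum, map_sum, eq_div_iff hQ0, sum_mul]
  push_cast
  refine sum_congr (by ext ν; simp only [mem_filter]) fun ν hν => ?_
  rw [MvPolynomial.eval_monomial, MvPolynomial.eval_monomial,
    Finsupp.prod_fintype _ _ (fun i => pow_zero _), Finsupp.prod_fintype _ _ (fun i => pow_zero _)]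
  push_cast
  rw [← hz ν (mem_filter.1 hν).2]
  ring

end Pool.Agent.J6H30.PV
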