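import Pool.Agent.R485.Mult.Dioph

/-!
# Weyl sums of polynomials whose leading coefficient has no small multiple near to an integer
-/

set_option autoImplicit false

namespace Pool.Agent.J6H30.PV

open Finset Polynomial
open Pool.Agent.H469R2.NK (e norm_e e_add e_zero conj_e)

/-- shifting the interval of summation -/
lemma shift_bound (F : ℕ → ℂ) (hF : ∀ n, ‖F n‖ ≤ 1) (K h : ℕ) :
    ‖∑ k ∈ range K, F k - ∑ k ∈ range K, F (k + h)‖ ≤ 2 * h := by
  have h1 := Finset.sum_range_add F K h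
  have h2 := Finset.sum_range_add F h K
  rw [add_comm h K] at h2
  have h3 : ∑ k ∈ range K, F (k + h) = ∑ k ∈ range K, F (h + k) :=
    sum_congr rfl fun k _ => by rw [add_comm]
  have h4 : ∑ k ∈ range K, F k - ∑ k ∈ range K, F (k + h) =
      ∑ k ∈ range h, F k - ∑ k ∈ range h, F (K + k) := by
    rw [h3]
    linear_combination h2 - h1
  rw [h4]
  refine (norm_sub_le _ _).trans ?_
  have h5 : ∀ G : ℕ → ℂ, (∀ n, ‖G n‖ ≤ 1) → ‖∑ k ∈ range h, G k‖ ≤ h := by
    intro G hG
    refine (norm_sum_le _ _).trans ((sum_le_sum fun k _ => hG k).trans ?_)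
    simp
  have h6 := h5 F hF
  have h7 := h5 (fun k => F (K + k)) (fun k => hF _)
  linarith

/-- the inequality of van der Corput -/
lemma vdc (F : ℕ → ℂ) (hF : ∀ n, ‖F n‖ ≤ 1) (K H : ℕ) (hH : 1 ≤ H) (ρ : ℝ) (hρ : 0 ≤ ρ)
    (h : ∀ a < H, ∀ b < H, a ≠ b →
      ‖∑ k ∈ range K, F (k + a) * (starRingEnd ℂ) (F (k + b))‖ ≤ K * ρ) :
    ‖∑ k ∈ range K, F k‖ ≤ K * Real.sqrt (1 / H + ρ) + 2 * H := by
  have hH0 : (0 : ℝ) < H := by exact_mod_cast hH
  have hK0 : (0 : ℝ) ≤ K := Nat.cast_nonneg _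
  -- step 1
  have h1 : (H : ℝ) * ‖∑ k ∈ range K, F k‖ ≤
      ‖∑ k ∈ range K, ∑ a ∈ range H, F (k + a)‖ + H * (2 * H) := by
    have e1 : (H : ℂ) * ∑ k ∈ range K, F k = ∑ k ∈ range K, ∑ a ∈ range H, F (k + a) +
        ∑ a ∈ range H, (∑ k ∈ range K, F k - ∑ k ∈ range K, F (k + a)) := by
      rw [sum_sub_distrib, sum_const, card_range, nsmul_eq_mul, sum_comm]
      ring
    have e2 : (H : ℝ) * ‖∑ k ∈ range K, F k‖ = ‖(H : ℂ) * ∑ k ∈ range K, F k‖ := by
      rw [norm_mul]
      simp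
    rw [e2, e1]
    refine (norm_add_le _ _).trans (add_le_add_right ?_ _)
    refine (norm_sum_le _ _).trans ?_
    have e3 : ∀ a ∈ range H, ‖∑ k ∈ range K, F k - ∑ k ∈ range K, F (k + a)‖ ≤ 2 * H := by
      intro a ha
      refine (shift_bound F hF K a).trans ?_
      have : (a : ℝ) ≤ H := by exact_mod_cast (mem_range.1 ha).le
      linarith
    refine (sum_le_sum e3).trans ?_
    rw [sum_const, card_range, nsmul_eq_mul]
  -- step 2
  have h2 : ‖∑ k ∈ range K, ∑ a ∈ range H, F (k + a)‖ ^ 2 ≤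
      K * ∑ k ∈ range K, ‖∑ a ∈ range H, F (k + a)‖ ^ 2 := by
    have e1 : ‖∑ k ∈ range K, ∑ a ∈ range H, F (k + a)‖ ^ 2 ≤
        (∑ k ∈ range K, ‖∑ a ∈ range H, F (k + a)‖) ^ 2 :=
      pow_le_pow_left₀ (norm_nonneg _) (norm_sum_le _ _) 2
    refine e1.trans ?_
    have := sq_sum_le_card_mul_sum_sq (s := range K) (f := fun k => ‖∑ a ∈ range H, F (k + a)‖)
    rwa [card_range] at this
  -- step 3
  have h3 : ∑ k ∈ range K, ‖∑ a ∈ range H, F (k + a)‖ ^ 2 ≤ H * K + (H : ℝ) ^ 2 * (K * ρ) := by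
    have e1 : ((∑ k ∈ range K, ‖∑ a ∈ range H, F (k + a)‖ ^ 2 : ℝ) : ℂ) =
        ∑ a ∈ range H, ∑ b ∈ range H, ∑ k ∈ range K, F (k + a) * (starRingEnd ℂ) (F (k + b)) := by
      rw [Complex.ofReal_sum]
      have : ∀ k ∈ range K, (((‖∑ a ∈ range H, F (k + a)‖ ^ 2 : ℝ)) : ℂ) =
          ∑ a ∈ range H, ∑ b ∈ range H, F (k + a) * (starRingEnd ℂ) (F (k + b)) := by
        intro k _
        rw [← Complex.normSq_eq_norm_sq, ← Complex.mul_conj, map_sum, sum_mul_sum]
      rw [sum_congr rfl this, sum_comm]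
      refine sum_congr rfl fun a _ => ?_
      rw [sum_comm]
    have e2 : ∑ k ∈ range K, ‖∑ a ∈ range H, F (k + a)‖ ^ 2 =
        ‖∑ a ∈ range H, ∑ b ∈ range H, ∑ k ∈ range K, F (k + a) * (starRingEnd ℂ) (F (k + b))‖ := by
      rw [← e1, Complex.norm_real, Real.norm_eq_abs, abs_of_nonneg]
      exact sum_nonneg fun k _ => by positivity
    rw [e2]
    have e3 : ∀ a ∈ range H, ∀ b ∈ range H,
        ‖∑ k ∈ range K, F (k + a) * (starRingEnd ℂ) (F (k + b))‖ ≤
          (if a = b then (K : ℝ) else 0) + K * ρ := by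
      intro a ha b hb
      rw [mem_range] at ha hb
      split_ifs with hab
      · refine (norm_sum_le _ _).trans ?_
        have : ∀ k ∈ range K, ‖F (k + a) * (starRingEnd ℂ) (F (k + b))‖ ≤ 1 := by
          intro k _
          rw [norm_mul, RCLike.norm_conj]
          exact mul_le_one₀ (hF _) (norm_nonneg _) (hF _)
        refine (sum_le_sum this).trans ?_
        rw [sum_const, card_range, nsmul_eq_mul, mul_one]
        have : 0 ≤ (K : ℝ) * ρ := by positivity
        linarith
      · rw [zero_add]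
        exact h a ha b hb hab
    have e4 : ∀ a ∈ range H, ‖∑ b ∈ range H, ∑ k ∈ range K, F (k + a) *
        (starRingEnd ℂ) (F (k + b))‖ ≤ K + H * (K * ρ) := by
      intro a ha
      refine (norm_sum_le _ _).trans ((sum_le_sum (e3 a ha)).trans ?_)
      rw [sum_add_distrib, sum_ite_eq, if_pos ha, sum_const, card_range, nsmul_eq_mul]
    refine (norm_sum_le _ _).trans ((sum_le_sum e4).trans ?_)
    rw [sum_const, card_range, nsmul_eq_mul]
    apply le_of_eq
    ring
  -- conclusion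
  have h4 : ‖∑ k ∈ range K, ∑ a ∈ range H, F (k + a)‖ ≤ H * (K * Real.sqrt (1 / H + ρ)) := by
    apply le_of_sq_le_sq _ (by positivity)
    refine h2.trans ((mul_le_mul_of_nonneg_left h3 hK0).trans (le_of_eq ?_))
    rw [mul_pow, mul_pow, Real.sq_sqrt (by positivity)]
    field_simp
  have h5 : (H : ℝ) * ‖∑ k ∈ range K, F k‖ ≤ H * (K * Real.sqrt (1 / H + ρ) + 2 * H) := by
    calc (H : ℝ) * ‖∑ k ∈ range K, F k‖ ≤ _ := h1
      _ ≤ H * (K * Real.sqrt (1 / H + ρ)) + H * (2 * H) := by linarith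
      _ = _ := by ring
  exact le_of_mul_le_mul_left h5 hH0

/-- the difference of two translates of a polynomial -/
lemma diff_poly (d : ℕ) (P : ℝ[X]) (hP : P.natDegree ≤ d + 1) (a b : ℝ) :
    (taylor a P - taylor b P).natDegree ≤ d ∧
      (taylor a P - taylor b P).coeff d = (d + 1) * (a - b) * P.coeff (d + 1) := by
  have hc : ∀ r : ℝ, (taylor r P).coeff d = P.coeff d + (d + 1) * r * P.coeff (d + 1) := by
    intro r
    rw [taylor_coeff]
    have h1 : (hasseDeriv d P).natDegree ≤ 1 := by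
      refine (natDegree_hasseDeriv_le P d).trans ?_
      omega
    rw [eval_eq_sum_range' (n := 2) (by omega)]
    rw [sum_range_succ, sum_range_one, hasseDeriv_coeff, hasseDeriv_coeff]
    simp only [zero_add, pow_zero, mul_one, pow_one]
    rw [Nat.choose_self, add_comm 1 d, Nat.choose_succ_self_right]
    push_cast
    ring
  constructor
  · rw [natDegree_le_iff_coeff_eq_zero]
    intro m hm
    rw [coeff_sub]
    rcases (Nat.lt_or_ge (d + 1) m) with h | h
    · rw [coeff_eq_zero_of_natDegree_lt, coeff_eq_zero_of_natDegree_lt, sub_zero]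
      · rw [natDegree_taylor]; omega
      · rw [natDegree_taylor]; omega
    · have hm' : m = d + 1 := by omega
      subst hm'
      have h2 : ∀ r : ℝ, (taylor r P).coeff (d + 1) = P.coeff (d + 1) := by
        intro r
        rw [taylor_coeff]
        have h1 : (hasseDeriv (d + 1) P).natDegree ≤ 0 := by
          refine (natDegree_hasseDeriv_le P (d + 1)).trans ?_
          omega
        rw [eval_eq_sum_range' (n := 1) (by omega)]
        rw [sum_range_one, hasseDeriv_coeff]
        simp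
      rw [h2, h2, sub_self]
  · rw [coeff_sub, hc, hc]
    ring

/-- **Weyl's inequality**, for a leading coefficient whose small multiples are not near to integers -/
lemma weyl (d : ℕ) : ∀ (P : ℝ[X]), P.natDegree ≤ d + 1 → ∀ (H K : ℕ), 1 ≤ H → 1 ≤ K →
    ∀ (η τ : ℝ), 0 < η → 2 / (η * K) ≤ τ → 2 / (H : ℝ) ≤ τ → 2 * (H : ℝ) / K ≤ τ → τ ≤ 1 →
    (∀ q : ℤ, q ≠ 0 → |q| ≤ (d + 1).factorial * (H : ℤ) ^ d → ∀ m : ℤ,
      η < |q * P.coeff (d + 1) - m|) →
    ‖∑ k ∈ range K, e (P.eval (k : ℝ))‖ ≤ K * (4 * τ ^ ((1 / 2 : ℝ) ^ d)) := by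
  induction d with
  | zero =>
    intro P hP H K hH hK η τ hη h1 h2 h3 hτ h
    have hK0 : (0 : ℝ) < K := by exact_mod_cast hK
    have hτ0 : 0 < τ := lt_of_lt_of_le (by positivity) h1
    have h4 : ∀ k : ℕ, P.eval (k : ℝ) = P.coeff 0 + (((0 : ℤ) : ℝ) + k) * P.coeff 1 := by
      intro k
      rw [eval_eq_sum_range' (n := 2) (by omega)]
      rw [sum_range_succ, sum_range_one]
      push_cast
      ring
    simp_rw [h4]
    have h5 := Pool.Agent.R485.Mult.geom (P.coeff 1) η hη (fun m => by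
      have := h 1 (by norm_num) (by norm_num) m
      simpa using this) (P.coeff 0) 0 K
    refine h5.trans ?_
    rw [pow_zero, Real.rpow_one]
    have h6 : 2 / η = K * (2 / (η * K)) := by field_simp
    rw [h6]
    apply mul_le_mul_of_nonneg_left _ hK0.le
    linarith
  | succ d ih =>
    intro P hP H K hH hK η τ hη h1 h2 h3 hτ h
    have hK0 : (0 : ℝ) < K := by exact_mod_cast hK
    have hH0 : (0 : ℝ) < H := by exact_mod_cast hH
    have hτ0 : 0 < τ := lt_of_lt_of_le (by positivity) h1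
    have hv := vdc (fun k => e (P.eval (k : ℝ))) (fun k => (norm_e _).le) K H hH
      (4 * τ ^ ((1 / 2 : ℝ) ^ d)) (by positivity) (by
        intro a ha b hb hab
        obtain ⟨hd1, hd2⟩ := diff_poly (d + 1) P hP a b
        have e1 : ∀ k : ℕ, e (P.eval (((k + a : ℕ) : ℝ))) *
            (starRingEnd ℂ) (e (P.eval (((k + b : ℕ) : ℝ)))) =
            e ((taylor (a : ℝ) P - taylor (b : ℝ) P).eval (k : ℝ)) := by
          intro k
          rw [conj_e, ← e_add, eval_sub, taylor_eval, taylor_eval]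
          push_cast
          congr 1
        simp only [e1]
        apply ih _ hd1 H K hH hK η τ hη h1 h2 h3 hτ
        intro q hq0 hq m
        rw [hd2]
        have hab' : ((a : ℤ) - b) ≠ 0 := by omega
        have h5 := h (q * ((d + 2 : ℕ) : ℤ) * ((a : ℤ) - b)) (by
          refine mul_ne_zero (mul_ne_zero hq0 ?_) hab'
          push_cast
          positivity) (by
          rw [abs_mul, abs_mul]
          have e2 : |((d + 2 : ℕ) : ℤ)| = ((d + 2 : ℕ) : ℤ) := abs_of_nonneg (by positivity)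
          have e3 : |(a : ℤ) - b| ≤ H := by
            rw [abs_le]
            constructor <;> omega
          rw [e2]
          have e4 : (((d + 1 + 1).factorial : ℕ) : ℤ) = ((d + 2 : ℕ) : ℤ) * ((d + 1).factorial : ℕ) := by
            rw [Nat.factorial_succ (d + 1)]
            push_cast
            ring
          rw [e4]
          calc |q| * ((d + 2 : ℕ) : ℤ) * |(a : ℤ) - b| ≤
              (((d + 1).factorial : ℕ) * (H : ℤ) ^ d) * ((d + 2 : ℕ) : ℤ) * H := by
                gcongr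
            _ = _ := by ring) m
        refine lt_of_lt_of_eq h5 ?_
        push_cast
        congr 1
        ring)
    refine hv.trans ?_
    -- the numerical inequality
    set c : ℝ := (1 / 2 : ℝ) ^ d with hc
    have hc0 : 0 < c := by positivity
    have hc1 : c ≤ 1 := pow_le_one₀ (by norm_num) (by norm_num)
    have hcc : (1 / 2 : ℝ) ^ (d + 1) = c * (1 / 2) := by rw [hc, pow_succ]
    rw [hcc]
    set u : ℝ := τ ^ (c * (1 / 2)) with hu
    have hu0 : 0 < u := Real.rpow_pos_of_pos hτ0 _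
    have huu : u ^ 2 = τ ^ c := by
      rw [hu, ← Real.rpow_natCast, ← Real.rpow_mul hτ0.le]
      congr 1
      push_cast
      ring
    have hτc : τ ≤ τ ^ c := by
      nth_rw 1 [← Real.rpow_one τ]
      exact Real.rpow_le_rpow_of_exponent_ge hτ0 hτ hc1
    have hτu : τ ≤ u := by
      nth_rw 1 [← Real.rpow_one τ]
      exact Real.rpow_le_rpow_of_exponent_ge hτ0 hτ (by linarith)
    have hs1 : Real.sqrt (1 / H + 4 * τ ^ c) ≤ 3 * u := by
      rw [Real.sqrt_le_left (by positivity), mul_pow, huu]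
      have : 1 / (H : ℝ) ≤ τ := by
        have h6 : 2 / (H : ℝ) = 2 * (1 / H) := by ring
        have h7 : 0 < 1 / (H : ℝ) := by positivity
        linarith
      linarith
    have hs2 : 2 * (H : ℝ) ≤ K * u := by
      rw [div_le_iff₀ hK0] at h3
      calc 2 * (H : ℝ) ≤ τ * K := h3
        _ ≤ u * K := mul_le_mul_of_nonneg_right hτu hK0.le
        _ = K * u := mul_comm _ _
    have hs3 := mul_le_mul_of_nonneg_left hs1 hK0.le
    linarith

end Pool.Agent.J6H30.PV
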